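import Pool.Agent.UPre.Targets

/-! Dynamics of `x^d + c` over the rationals. -/

namespace Pool.Agent.UPre

open Function

/-- the map `y ↦ y^d + c` -/
abbrev F (d : ℕ) (c : ℚ) : ℚ → ℚ := fun y : ℚ => y ^ d + c

/-- rational preperiodic points -/
def Pre (d : ℕ) (c x : ℚ) : Prop := ∃ k, (F d c)^[k] x ∈ periodicPts (F d c)

lemma per_step {α : Type*} {f : α → α} {x : α} (h : x ∈ periodicPts f) : f x ∈ periodicPts f := by
  obtain ⟨n, hn, hx⟩ := mem_periodicPts.1 h
  exact mk_mem_periodicPts hn hx.apply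

lemma pre_of_per {d : ℕ} {c x : ℚ} (h : x ∈ periodicPts (F d c)) : Pre d c x := ⟨0, h⟩

lemma pre_step {d : ℕ} {c x : ℚ} (h : Pre d c x) : Pre d c (F d c x) := by
  obtain ⟨k, hk⟩ := h
  refine ⟨k, ?_⟩
  rw [← iterate_succ_apply, iterate_succ_apply']
  exact per_step hk

lemma per_inj {α : Type*} {f : α → α} {x y : α} (hx : x ∈ periodicPts f) (hy : y ∈ periodicPts f)
    (h : f x = f y) : x = y := by
  obtain ⟨m, hm, hx⟩ := mem_periodicPts.1 hx
  obtain ⟨n, hn, hy⟩ := mem_periodicPts.1 hy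
  exact hx.eq_of_apply_eq hy hm hn h

lemma per_surj {α : Type*} {f : α → α} {x : α} (hx : x ∈ periodicPts f) :
    ∃ w ∈ periodicPts f, f w = x := by
  obtain ⟨m, hm, hx⟩ := mem_periodicPts.1 hx
  refine ⟨f^[m - 1] x, ?_, ?_⟩
  · refine mk_mem_periodicPts hm ?_
    exact hx.apply_iterate (m - 1)
  · rw [← iterate_succ_apply' f (m - 1) x]
    have : (m - 1).succ = m := by omega
    rw [this]; exact hx

lemma pow_eq_pm {d : ℕ} (hd : Even d) (hd0 : d ≠ 0) {x w : ℚ} (h : w ^ d = x ^ d) :
    x = w ∨ x = -w := by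
  have h1 : |w| ^ d = |x| ^ d := by rw [hd.pow_abs, hd.pow_abs]; exact h
  have h2 : |w| = |x| := (pow_left_inj₀ (abs_nonneg _) (abs_nonneg _) hd0).1 h1
  rcases abs_eq_abs.1 h2.symm with h | h
  · exact Or.inl h
  · exact Or.inr h

section
variable {d : ℕ} {c : ℚ} (hDEN : T_DEN) (hd : 2 ≤ d)
include hDEN hd

lemma den_eq {x y : ℚ} (hx : Pre d c x) (hy : Pre d c y) : x.den = y.den := by
  have h1 := hDEN d hd c x hx
  have h2 := hDEN d hd c y hy
  rw [h1] at h2
  exact Nat.pow_left_injective (by omega) h2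

lemma rel {x : ℚ} (hx : Pre d c x) :
    x.num ^ d + c.num = (x.den : ℤ) ^ (d - 1) * (F d c x).num := by
  have h1 := hDEN d hd c x hx
  have h2 : (F d c x).den = x.den := den_eq hDEN hd (pre_step hx) hx
  have hD : (x.den : ℚ) ≠ 0 := by exact_mod_cast x.den_ne_zero
  have e1 : x = x.num / x.den := (Rat.num_div_den x).symm
  have e2 : c = c.num / (x.den : ℚ) ^ d := by
    have := (Rat.num_div_den c).symm
    rw [h1] at this
    push_cast at this
    exact this
  have e3 : F d c x = (F d c x).num / x.den := by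
    have := (Rat.num_div_den (F d c x)).symm
    rw [h2] at this
    exact this
  have e4 : F d c x = x ^ d + c := rfl
  have e5 : ((F d c x).num : ℚ) / x.den = ((x.num : ℚ) / x.den) ^ d + c.num / (x.den : ℚ) ^ d := by
    rw [← e3, ← e1, ← e2]
  have e6 : (x.num : ℚ) ^ d + c.num = (x.den : ℚ) ^ (d - 1) * (F d c x).num := by
    rw [div_pow, ← add_div, div_eq_div_iff hD (pow_ne_zero _ hD)] at e5
    have h3 : (x.den : ℚ) ^ d = (x.den : ℚ) ^ (d - 1) * x.den := by
      rw [← pow_succ]; congr 1; omega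
    rw [h3] at e5
    have := mul_right_cancel₀ hD (show ((x.num : ℚ) ^ d + c.num) * x.den
      = ((x.den : ℚ) ^ (d - 1) * (F d c x).num) * x.den by rw [← e5]; ring)
    exact this
  exact_mod_cast e6

lemma rel_sub {x y : ℚ} (hx : Pre d c x) (hy : Pre d c y) :
    x.num ^ d - y.num ^ d = (x.den : ℤ) ^ (d - 1) * ((F d c x).num - (F d c y).num) := by
  have h1 := rel hDEN hd hx
  have h2 := rel hDEN hd hy
  rw [den_eq hDEN hd hy hx] at h2
  linear_combination h1 - h2

lemma num_ne {x y : ℚ} (hx : Pre d c x) (hy : Pre d c y) (h : x ≠ y) : x.num - y.num ≠ 0 := by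
  intro h0
  apply h
  exact Rat.ext (by linarith) (den_eq hDEN hd hx hy)

end

lemma cop {x : ℚ} : IsCoprime x.num (x.den : ℤ) := by
  rw [Int.isCoprime_iff_gcd_eq_one]
  have := x.reduced
  simpa [Int.gcd, Nat.Coprime] using this

lemma not_dvd_num {x : ℚ} {p : ℕ} (hp : p.Prime) (h : p ∣ x.den) : ¬ (p : ℤ) ∣ x.num := by
  intro h1
  have h2 : (p : ℤ) ∣ (x.den : ℤ) := by exact_mod_cast h
  have h3 : IsUnit (p : ℤ) := (cop (x := x)).isUnit_of_dvd' h1 h2
  rw [Int.isUnit_iff] at h3
  have := hp.two_le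
  omega

lemma four_dvd_factor {d : ℕ} (h4 : 4 ∣ d) (u v : ℤ) :
    (u - v) * ((u + v) * (u ^ 2 + v ^ 2)) ∣ u ^ d - v ^ d := by
  obtain ⟨e, rfl⟩ := h4
  have : (u - v) * ((u + v) * (u ^ 2 + v ^ 2)) = u ^ 4 - v ^ 4 := by ring
  rw [this, pow_mul, pow_mul]
  exact sub_dvd_pow_sub_pow _ _ _

section
variable {d : ℕ} {c : ℚ} (hDEN : T_DEN) (hG : Good d)

lemma Good.two_le {d : ℕ} (hG : Good d) : 2 ≤ d := by
  obtain ⟨⟨e, he⟩, h3, -⟩ := hG
  omega

lemma Good.even {d : ℕ} (hG : Good d) : Even d := by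
  obtain ⟨⟨e, he⟩, h3, -⟩ := hG
  exact ⟨2 * e, by omega⟩

lemma Good.three_dvd {d : ℕ} (hG : Good d) : 3 ∣ d - 1 := by
  obtain ⟨⟨e, he⟩, h3, -⟩ := hG
  omega

include hDEN hG

/-- good primes: the valuation of the difference is constant along the orbit of a periodic pair -/
lemma good_val {x y : ℚ} (hx : x ∈ periodicPts (F d c)) (hy : y ∈ periodicPts (F d c)) (hxy : x ≠ y)
    {p : ℕ} (hp : p.Prime) (hpD : ¬ p ∣ x.den) :
    padicValInt p (x.num - y.num) = padicValInt p ((F d c x).num - (F d c y).num) := by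
  have hd := hG.two_le
  have := Fact.mk hp
  set f := F d c with hf
  have hxk : ∀ k, f^[k] x ∈ periodicPts f := by
    intro k
    induction k with
    | zero => exact hx
    | succ k ih => rw [iterate_succ_apply']; exact per_step ih
  have hyk : ∀ k, f^[k] y ∈ periodicPts f := by
    intro k
    induction k with
    | zero => exact hy
    | succ k ih => rw [iterate_succ_apply']; exact per_step ih
  have hne : ∀ k, f^[k] x ≠ f^[k] y := by
    intro k
    induction k with
    | zero => exact hxy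
    | succ k ih =>
      rw [iterate_succ_apply', iterate_succ_apply']
      intro h
      exact ih (per_inj (hxk k) (hyk k) h)
  have hmono : ∀ k, padicValInt p ((f^[k] x).num - (f^[k] y).num)
      ≤ padicValInt p ((f^[k + 1] x).num - (f^[k + 1] y).num) := by
    intro k
    have hPx : Pre d c (f^[k] x) := pre_of_per (hxk k)
    have hPy : Pre d c (f^[k] y) := pre_of_per (hyk k)
    have h1 := rel_sub hDEN hd hPx hPy
    have hden : (f^[k] x).den = x.den := den_eq hDEN hd hPx (pre_of_per hx)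
    have h0 : (f^[k] x).num - (f^[k] y).num ≠ 0 := num_ne hDEN hd hPx hPy (hne k)
    have h0' : (f^[k+1] x).num - (f^[k+1] y).num ≠ 0 :=
      num_ne hDEN hd (pre_of_per (hxk _)) (pre_of_per (hyk _)) (hne _)
    rw [iterate_succ_apply', iterate_succ_apply'] at h0' ⊢
    have h2 : ((p : ℤ)) ^ padicValInt p ((f^[k] x).num - (f^[k] y).num)
        ∣ (f (f^[k] x)).num - (f (f^[k] y)).num := by
      have h3 : ((p : ℤ)) ^ padicValInt p ((f^[k] x).num - (f^[k] y).num) ∣
          ((f^[k] x).den : ℤ) ^ (d - 1) * ((f (f^[k] x)).num - (f (f^[k] y)).num) := by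
        rw [← h1]
        exact (padicValInt_dvd _).trans (sub_dvd_pow_sub_pow _ _ _)
      refine IsCoprime.dvd_of_dvd_mul_left ?_ h3
      rw [hden]
      apply IsCoprime.pow
      rw [Int.isCoprime_iff_gcd_eq_one, Int.gcd_natCast_natCast]
      exact (Nat.Prime.coprime_iff_not_dvd hp).2 hpD
    rcases (padicValInt_dvd_iff _ _).1 h2 with h | h
    · exact absurd h h0'
    · exact h
  obtain ⟨m, hm, hxm⟩ := mem_periodicPts.1 hx
  obtain ⟨n, hn, hyn⟩ := mem_periodicPts.1 hy
  have hM : 0 < m * n := Nat.mul_pos hm hn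
  have hxM : f^[m * n] x = x := hxm.mul_const n
  have hyM : f^[m * n] y = y := hyn.const_mul m
  have hmono' : Monotone (fun k => padicValInt p ((f^[k] x).num - (f^[k] y).num)) :=
    monotone_nat_of_le_succ hmono
  have h1 := hmono 0
  have h2 := hmono' (show 1 ≤ m * n from hM)
  simp only [hxM, hyM] at h2
  simp only [zero_add, iterate_one, iterate_zero, id_eq] at h1 h2
  exact le_antisymm h1 h2

lemma good_not_dvd {x y : ℚ} (hx : x ∈ periodicPts (F d c)) (hy : y ∈ periodicPts (F d c))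
    (hxy : x ≠ y) {p : ℕ} (hp : p.Prime) (hpD : ¬ p ∣ x.den) :
    ¬ (p : ℤ) ∣ (x.num + y.num) * (x.num ^ 2 + y.num ^ 2) := by
  have hd := hG.two_le
  have := Fact.mk hp
  intro hdvd
  have hPx : Pre d c x := pre_of_per hx
  have hPy : Pre d c y := pre_of_per hy
  have h1 := rel_sub hDEN hd hPx hPy
  have hfne : F d c x ≠ F d c y := fun h => hxy (per_inj hx hy h)
  have h0 : x.num - y.num ≠ 0 := num_ne hDEN hd hPx hPy hxy
  have h0' : (F d c x).num - (F d c y).num ≠ 0 := num_ne hDEN hd (pre_step hPx) (pre_step hPy) hfne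
  have hval := good_val hDEN hG hx hy hxy hp hpD
  have h2 : ((p : ℤ)) ^ (padicValInt p (x.num - y.num) + 1) ∣
      (x.den : ℤ) ^ (d - 1) * ((F d c x).num - (F d c y).num) := by
    rw [← h1, pow_succ]
    exact (mul_dvd_mul (padicValInt_dvd _) hdvd).trans (four_dvd_factor hG.1 _ _)
  have h3 : ((p : ℤ)) ^ (padicValInt p (x.num - y.num) + 1) ∣
      ((F d c x).num - (F d c y).num) := by
    refine IsCoprime.dvd_of_dvd_mul_left ?_ h2
    apply IsCoprime.pow
    rw [Int.isCoprime_iff_gcd_eq_one, Int.gcd_natCast_natCast]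
    exact (Nat.Prime.coprime_iff_not_dvd hp).2 hpD
  rcases (padicValInt_dvd_iff _ _).1 h3 with h | h
  · exact h0' h
  · omega

lemma bad_val (hLTE : T_LTE) {p : ℕ} (hp : p.Prime) (hp2 : p ≠ 2) :
    ∀ (N : ℕ) (x y : ℚ), x ∈ periodicPts (F d c) → y ∈ periodicPts (F d c) → x ≠ y → p ∣ x.den →
      padicValInt p (x.num - y.num) = N → 3 ∣ N := by
  have hd := hG.two_le
  have := Fact.mk hp
  intro N
  induction N using Nat.strong_induction_on with
  | _ N ih =>
    intro x y hx hy hxy hpD hN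
    by_cases hdv : (p : ℤ) ∣ x.num - y.num
    · have hPx : Pre d c x := pre_of_per hx
      have hPy : Pre d c y := pre_of_per hy
      have h1 := rel_sub hDEN hd hPx hPy
      have hfne : F d c x ≠ F d c y := fun h => hxy (per_inj hx hy h)
      have h0' : (F d c x).num - (F d c y).num ≠ 0 :=
        num_ne hDEN hd (pre_step hPx) (pre_step hPy) hfne
      have hD0 : (x.den : ℤ) ^ (d - 1) ≠ 0 := pow_ne_zero _ (by exact_mod_cast x.den_ne_zero)
      have hne : x.num ^ d - y.num ^ d ≠ 0 := by rw [h1]; exact mul_ne_zero hD0 h0'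
      have h2 := (hLTE d hG.even (by omega) p hp hp2 x.num y.num (not_dvd_num hp hpD) hne).1 hdv
      have h3 : padicValInt p (x.num ^ d - y.num ^ d) = (d - 1) * padicValNat p x.den
          + padicValInt p ((F d c x).num - (F d c y).num) := by
        rw [h1, padicValInt.mul hD0 h0']
        congr 1
        have : ((x.den : ℤ) ^ (d - 1)) = ((x.den ^ (d - 1) : ℕ) : ℤ) := by push_cast; rfl
        rw [this, padicValInt.of_nat, padicValNat.pow]
      have hvD : 1 ≤ padicValNat p x.den := one_le_padicValNat_of_dvd x.den_ne_zero hpD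
      have hvd : padicValNat p d < d - 1 := by
        by_contra hcon
        push Not at hcon
        have h5 : p ^ (d - 1) ∣ d := (pow_dvd_pow p hcon).trans pow_padicValNat_dvd
        have h6 := Nat.le_of_dvd (by omega) h5
        have h7 : 3 ≤ p := by
          have := hp.two_le
          omega
        have h8 : 3 ^ (d - 1) ≤ p ^ (d - 1) := Nat.pow_le_pow_left h7 _
        have h9 : d < 3 ^ (d - 1) := by
          obtain ⟨⟨e, he⟩, hh, -⟩ := hG
          have h10 : ∀ m : ℕ, m + 4 < 3 ^ (m + 3) := by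
            intro m
            induction m with
            | zero => norm_num
            | succ m ih => rw [pow_succ]; omega
          have := h10 (d - 4)
          have e1 : d - 4 + 4 = d := by omega
          have e2 : d - 4 + 3 = d - 1 := by omega
          rw [e1, e2] at this
          exact this
        omega
      have h4 : (d - 1) * 1 ≤ (d - 1) * padicValNat p x.den := Nat.mul_le_mul_left _ hvD
      have hlt : padicValInt p ((F d c x).num - (F d c y).num) < N := by omega
      have hden : (F d c x).den = x.den := den_eq hDEN hd (pre_step hPx) hPx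
      have h5 := ih _ hlt (F d c x) (F d c y) (per_step hx) (per_step hy) hfne (by rw [hden]; exact hpD) rfl
      have h6 : 3 ∣ (d - 1) * padicValNat p x.den := Dvd.dvd.mul_right hG.three_dvd _
      have h7 := hG.2.2 p hp hp2
      omega
    · rw [padicValInt.eq_zero_of_not_dvd hdv] at hN
      subst hN
      exact dvd_zero 3

/-- the exponent of an odd bad prime in the difference of `d`-th powers -/
lemma bad_val_pow (hLTE : T_LTE) {p : ℕ} (hp : p.Prime) (hp2 : p ≠ 2) {x y : ℚ}
    (hx : x ∈ periodicPts (F d c)) (hy : y ∈ periodicPts (F d c)) (hxy : x ≠ y) (hpD : p ∣ x.den) :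
    3 ∣ padicValInt p (x.num ^ d - y.num ^ d) := by
  have hd := hG.two_le
  have := Fact.mk hp
  have hPx : Pre d c x := pre_of_per hx
  have hPy : Pre d c y := pre_of_per hy
  have h1 := rel_sub hDEN hd hPx hPy
  have hfne : F d c x ≠ F d c y := fun h => hxy (per_inj hx hy h)
  have h0' : (F d c x).num - (F d c y).num ≠ 0 :=
    num_ne hDEN hd (pre_step hPx) (pre_step hPy) hfne
  have hD0 : (x.den : ℤ) ^ (d - 1) ≠ 0 := pow_ne_zero _ (by exact_mod_cast x.den_ne_zero)
  have h3 : padicValInt p (x.num ^ d - y.num ^ d) = (d - 1) * padicValNat p x.den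
      + padicValInt p ((F d c x).num - (F d c y).num) := by
    rw [h1, padicValInt.mul hD0 h0']
    congr 1
    have : ((x.den : ℤ) ^ (d - 1)) = ((x.den ^ (d - 1) : ℕ) : ℤ) := by push_cast; rfl
    rw [this, padicValInt.of_nat, padicValNat.pow]
  have hden : (F d c x).den = x.den := den_eq hDEN hd (pre_step hPx) hPx
  have h5 := bad_val hDEN hG hLTE hp hp2 _ (F d c x) (F d c y) (per_step hx) (per_step hy) hfne
    (by rw [hden]; exact hpD) rfl
  have h6 : 3 ∣ (d - 1) * padicValNat p x.den := Dvd.dvd.mul_right hG.three_dvd _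
  rw [h3]
  exact dvd_add h6 h5

/-- sums of distinct periodic points: all odd primes have exponent a multiple of 3 -/
lemma sum_val (hLTE : T_LTE) {p : ℕ} (hp : p.Prime) (hp2 : p ≠ 2) {x y : ℚ}
    (hx : x ∈ periodicPts (F d c)) (hy : y ∈ periodicPts (F d c)) (hxy : x ≠ y) :
    3 ∣ padicValInt p (x.num + y.num) := by
  have hd := hG.two_le
  have := Fact.mk hp
  by_cases hdv : (p : ℤ) ∣ x.num + y.num
  · have hpD : p ∣ x.den := by
      by_contra h
      exact good_not_dvd hDEN hG hx hy hxy hp h (Dvd.dvd.mul_right hdv _)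
    have hPx : Pre d c x := pre_of_per hx
    have hPy : Pre d c y := pre_of_per hy
    have h1 := rel_sub hDEN hd hPx hPy
    have hfne : F d c x ≠ F d c y := fun h => hxy (per_inj hx hy h)
    have h0' : (F d c x).num - (F d c y).num ≠ 0 :=
      num_ne hDEN hd (pre_step hPx) (pre_step hPy) hfne
    have hD0 : (x.den : ℤ) ^ (d - 1) ≠ 0 := pow_ne_zero _ (by exact_mod_cast x.den_ne_zero)
    have hne : x.num ^ d - y.num ^ d ≠ 0 := by rw [h1]; exact mul_ne_zero hD0 h0'
    have h2 := (hLTE d hG.even (by omega) p hp hp2 x.num y.num (not_dvd_num hp hpD) hne).2 hdv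
    have h3 := bad_val_pow hDEN hG hLTE hp hp2 hx hy hxy hpD
    have h7 := hG.2.2 p hp hp2
    omega
  · rw [padicValInt.eq_zero_of_not_dvd hdv]
    exact dvd_zero 3

lemma coprime_nums {x y : ℚ} (hx : x ∈ periodicPts (F d c)) (hy : y ∈ periodicPts (F d c))
    (hxy : x ≠ y) : IsCoprime x.num y.num := by
  apply isCoprime_of_prime_dvd
  · rintro ⟨h1, h2⟩
    apply hxy
    exact Rat.ext (by rw [h1, h2]) (den_eq hDEN hG.two_le (pre_of_per hx) (pre_of_per hy))
  · intro q hq h1 h2
    have hqn : q.natAbs.Prime := Int.prime_iff_natAbs_prime.1 hq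
    have h1' : (q.natAbs : ℤ) ∣ x.num := (Int.natAbs_dvd.2 h1)
    have h2' : (q.natAbs : ℤ) ∣ y.num := (Int.natAbs_dvd.2 h2)
    have hpD : ¬ q.natAbs ∣ x.den := fun h => not_dvd_num hqn h h1'
    exact good_not_dvd hDEN hG hx hy hxy hqn hpD (Dvd.dvd.mul_right (dvd_add h1' h2') _)

lemma no_close (hLTE : T_LTE) (hPAIR : T_PAIR) {x y : ℚ} (hx : x ∈ periodicPts (F d c))
    (hy : y ∈ periodicPts (F d c)) (hxy : x ≠ y) (ho : Odd x.num) (ho' : Odd y.num)
    (h4 : (4 : ℤ) ∣ x.num - y.num) : False := by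
  have hd := hG.two_le
  refine hPAIR d hG x.num y.num ho ho' (coprime_nums hDEN hG hx hy hxy) h4 ?_ ?_
  · have := num_ne hDEN hd (pre_of_per hx) (pre_of_per hy) hxy
    intro h; apply this; rw [h]; ring
  · intro p hp hp2 hdv
    have hpD : p ∣ x.den := by
      by_contra h
      exact good_not_dvd hDEN hG hx hy hxy hp h hdv
    exact bad_val_pow hDEN hG hLTE hp hp2 hx hy hxy hpD

lemma odd_sum {x y : ℚ} (hx : x ∈ periodicPts (F d c)) (hy : y ∈ periodicPts (F d c))
    (hxy : x ≠ y) (h2 : ¬ 2 ∣ x.den) : Odd (x.num + y.num) := by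
  rw [← Int.not_even_iff_odd, even_iff_two_dvd]
  intro h
  exact good_not_dvd hDEN hG hx hy hxy Nat.prime_two h2 (Dvd.dvd.mul_right (by exact_mod_cast h) _)

lemma odd_num {x : ℚ} (h2 : 2 ∣ x.den) : Odd x.num := by
  rw [← Int.not_even_iff_odd, even_iff_two_dvd]
  intro h
  exact not_dvd_num Nat.prime_two h2 (by exact_mod_cast h)

lemma no_three (hLTE : T_LTE) (hPAIR : T_PAIR) {x y z : ℚ} (hx : x ∈ periodicPts (F d c))
    (hy : y ∈ periodicPts (F d c)) (hz : z ∈ periodicPts (F d c)) (hxy : x ≠ y) (hxz : x ≠ z)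
    (hyz : y ≠ z) : False := by
  have hd := hG.two_le
  have e1 : x.den = y.den := den_eq hDEN hd (pre_of_per hx) (pre_of_per hy)
  have e2 : x.den = z.den := den_eq hDEN hd (pre_of_per hx) (pre_of_per hz)
  by_cases h2 : 2 ∣ x.den
  · have o1 : Odd x.num := odd_num hDEN hG h2
    have o2 : Odd y.num := odd_num hDEN hG (by rw [← e1]; exact h2)
    have o3 : Odd z.num := odd_num hDEN hG (by rw [← e2]; exact h2)
    have hcase : (4 : ℤ) ∣ x.num - y.num ∨ (4 : ℤ) ∣ x.num - z.num ∨ (4 : ℤ) ∣ y.num - z.num := by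
      obtain ⟨a, ha⟩ := o1
      obtain ⟨b, hb⟩ := o2
      obtain ⟨e, he⟩ := o3
      omega
    rcases hcase with h | h | h
    · exact no_close hDEN hG hLTE hPAIR hx hy hxy o1 o2 h
    · exact no_close hDEN hG hLTE hPAIR hx hz hxz o1 o3 h
    · exact no_close hDEN hG hLTE hPAIR hy hz hyz o2 o3 h
  · have s1 := odd_sum hDEN hG hx hy hxy h2
    have s2 := odd_sum hDEN hG hx hz hxz h2
    have s3 := odd_sum hDEN hG hy hz hyz (by rw [← e1]; exact h2)
    obtain ⟨a, ha⟩ := s1
    obtain ⟨b, hb⟩ := s2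
    obtain ⟨e, he⟩ := s3
    omega

end

end Pool.Agent.UPre
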