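import Pool.Agent.UPre.Targets3
import Pool.Agent.UPre.Dyn

/-! Periodic pairs at primes not dividing `a d`. -/

namespace Pool.Agent.UPre

open Function

namespace PairV

lemma preG_of {a : ℚ} {d : ℕ} {c x : ℚ} (h : x ∈ periodicPts (G a d c)) : PreG a d c x := ⟨0, h⟩

lemma phiQ_mul (d : ℕ) (x y : ℚ) : PhiQ d x y * (x - y) = x ^ d - y ^ d := by
  unfold PhiQ
  exact (Commute.all x y).geom_sum₂_mul d

lemma pn_pow {p : ℕ} [Fact p.Prime] (x : ℚ) (m : ℕ) : padicNorm p (x ^ m) = padicNorm p x ^ m :=
  IsAbsoluteValue.abv_pow (padicNorm p) x m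

lemma norm_pow_sub {p : ℕ} [Fact p.Prime] {x y : ℚ} (hx : x ≠ 0)
    (hxy : padicNorm p y = padicNorm p x)
    (h : padicNorm p (x - y) < padicNorm p x) (m : ℕ) :
    padicNorm p (y ^ m - x ^ m) < padicNorm p x ^ m := by
  have hpos : 0 < padicNorm p x := lt_of_le_of_ne (padicNorm.nonneg _) (padicNorm.nonzero hx).symm
  induction m with
  | zero => simp
  | succ m ih =>
    have e : y ^ (m + 1) - x ^ (m + 1) = y * (y ^ m - x ^ m) + (-(x - y)) * x ^ m := by ring
    rw [e]
    refine lt_of_le_of_lt padicNorm.nonarchimedean (max_lt ?_ ?_)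
    · rw [padicNorm.mul, hxy, pow_succ, mul_comm]
      exact mul_lt_mul_of_pos_right ih hpos
    · rw [padicNorm.mul, padicNorm.neg, pn_pow, pow_succ, mul_comm]
      exact mul_lt_mul_of_pos_left h (pow_pos hpos _)

lemma norm_phi {p d : ℕ} [hp : Fact p.Prime] (hd : 2 ≤ d) (hpd : ¬ p ∣ d) {x y : ℚ} (hx : x ≠ 0)
    (hxy : padicNorm p y = padicNorm p x)
    (h : padicNorm p (x - y) < padicNorm p x) :
    padicNorm p (PhiQ d x y) = padicNorm p x ^ (d - 1) := by
  have hpos : 0 < padicNorm p x := lt_of_le_of_ne (padicNorm.nonneg _) (padicNorm.nonzero hx).symm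
  have hdn : padicNorm p (d : ℚ) = 1 := padicNorm.nat_eq_one_iff d |>.2 hpd
  have e : PhiQ d x y = (d : ℚ) * x ^ (d - 1) +
      ∑ i ∈ Finset.range d, x ^ i * (y ^ (d - 1 - i) - x ^ (d - 1 - i)) := by
    unfold PhiQ
    have : (d : ℚ) * x ^ (d - 1) = ∑ i ∈ Finset.range d, x ^ i * x ^ (d - 1 - i) := by
      rw [Finset.sum_congr rfl (g := fun _ => x ^ (d - 1))]
      · simp
      · intro i hi
        rw [Finset.mem_range] at hi
        rw [← pow_add]; congr 1; omega
    rw [this, ← Finset.sum_add_distrib]
    refine Finset.sum_congr rfl fun i _ => by ring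
  have h2 : padicNorm p (∑ i ∈ Finset.range d, x ^ i * (y ^ (d - 1 - i) - x ^ (d - 1 - i)))
      < padicNorm p x ^ (d - 1) := by
    refine padicNorm.sum_lt (Finset.nonempty_range_iff.2 (by omega)) fun i hi => ?_
    rw [Finset.mem_range] at hi
    rw [padicNorm.mul, pn_pow]
    have h3 := norm_pow_sub hx hxy h (d - 1 - i)
    have h4 : padicNorm p x ^ (d - 1) = padicNorm p x ^ i * padicNorm p x ^ (d - 1 - i) := by
      rw [← pow_add]; congr 1; omega
    rw [h4]
    exact mul_lt_mul_of_pos_left h3 (pow_pos hpos _)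
  have h5 : padicNorm p ((d : ℚ) * x ^ (d - 1)) = padicNorm p x ^ (d - 1) := by
    rw [padicNorm.mul, hdn, one_mul, pn_pow]
  rw [e, padicNorm.add_eq_max_of_ne (by rw [h5]; exact (ne_of_lt h2).symm), h5]
  exact max_eq_left h2.le

lemma norm_lt_iff {p : ℕ} [hp : Fact p.Prime] {x y : ℚ} (hx : x ≠ 0) (hy : y ≠ 0) :
    padicNorm p x < padicNorm p y ↔ padicValRat p y < padicValRat p x := by
  rw [padicNorm.eq_zpow_of_nonzero hx, padicNorm.eq_zpow_of_nonzero hy,
    zpow_lt_zpow_iff_right₀ (by exact_mod_cast hp.out.one_lt)]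
  omega

lemma norm_eq_iff {p : ℕ} [hp : Fact p.Prime] {x y : ℚ} (hx : x ≠ 0) (hy : y ≠ 0) :
    padicNorm p x = padicNorm p y ↔ padicValRat p x = padicValRat p y := by
  have h1 := norm_lt_iff (p := p) hx hy
  have h2 := norm_lt_iff (p := p) hy hx
  constructor
  · intro h
    rw [h] at h1 h2
    have := mt h1.2 (lt_irrefl _)
    have := mt h2.2 (lt_irrefl _)
    omega
  · intro h
    rw [h] at h1 h2
    have a1 := mt h1.1 (lt_irrefl _)
    have a2 := mt h2.1 (lt_irrefl _)
    exact le_antisymm (not_lt.1 a2) (not_lt.1 a1)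

lemma val_pow {p : ℕ} [hp : Fact p.Prime] {x : ℚ} (hx : x ≠ 0) (n : ℕ) :
    padicValRat p (x ^ n) = (n : ℤ) * padicValRat p x := padicValRat.pow x

end PairV

open PairV

theorem p_P_PAIRV : U_NORM → U_BADV → U_GOODEQ → P_PAIRV := by
  intro hN hB hG p hp d hd hpd a c x y ha hva hx hy hxy
  haveI := Fact.mk hp
  have hna : padicNorm p a = 1 := by rw [padicNorm.eq_zpow_of_nonzero ha, hva]; simp
  have hstep : ∀ x y : ℚ, G a d c x - G a d c y = a * (PhiQ d x y * (x - y)) := by
    intro x y; rw [phiQ_mul]; simp only [G]; ring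
  have hphi : ∀ x y : ℚ, x ∈ periodicPts (G a d c) → y ∈ periodicPts (G a d c) → x ≠ y →
      PhiQ d x y ≠ 0 := by
    intro x y hx hy hxy h
    apply hxy
    apply per_inj hx hy
    have := hstep x y
    rw [h] at this
    linarith [this]
  have hval : ∀ x y : ℚ, x ∈ periodicPts (G a d c) → y ∈ periodicPts (G a d c) → x ≠ y →
      padicValRat p (G a d c x - G a d c y) = padicValRat p (PhiQ d x y) + padicValRat p (x - y) := by
    intro x y hx hy hxy
    rw [hstep, padicValRat.mul ha (mul_ne_zero (hphi x y hx hy hxy) (sub_ne_zero.2 hxy)),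
      padicValRat.mul (hphi x y hx hy hxy) (sub_ne_zero.2 hxy), hva, zero_add]
  by_cases hgood : GoodP p a d c
  · have h1 := hG p hp d hd a c x y ha hgood hx hy
    have hne : G a d c x - G a d c y ≠ 0 := sub_ne_zero.2 fun h => hxy (per_inj hx hy h)
    rw [norm_eq_iff hne (sub_ne_zero.2 hxy), hval x y hx hy hxy] at h1
    have : padicValRat p (PhiQ d x y) = 0 := by linarith
    rw [this]; exact dvd_zero _
  · have hneg : ∀ x : ℚ, x ∈ periodicPts (G a d c) → x ≠ 0 ∧ padicValRat p x < 0 := by
      intro x hx
      obtain ⟨-, h2, h3⟩ := (hN p hp d hd a c x ha (preG_of hx)).2 hgood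
      refine ⟨h3, ?_⟩
      rw [hna, one_mul, ← pn_pow] at h2
      have h4 : padicNorm p (1 : ℚ) < padicNorm p (x ^ (d - 1)) := by rw [padicNorm.one]; exact h2
      rw [norm_lt_iff one_ne_zero (pow_ne_zero _ h3), val_pow h3, padicValRat.one] at h4
      by_contra h5
      push Not at h5
      have : 0 ≤ ((d - 1 : ℕ) : ℤ) * padicValRat p x := mul_nonneg (by positivity) h5
      omega
    have key : ∀ N : ℕ, ∀ x y : ℚ, x ∈ periodicPts (G a d c) → y ∈ periodicPts (G a d c) → x ≠ y →
        padicValRat p (x - y) - padicValRat p x ≤ N →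
        ((d - 1 : ℕ) : ℤ) ∣ padicValRat p (x - y) - padicValRat p x := by
      intro N
      induction N with
      | zero =>
        intro x y hx hy hxy hle
        have hv := hB p hp d hd a c x y ha (preG_of hx) (preG_of hy) hgood
        have hge : padicValRat p x ≤ padicValRat p (x - y) := by
          by_contra hlt
          push Not at hlt
          rw [← norm_lt_iff (hneg x hx).1 (sub_ne_zero.2 hxy)] at hlt
          have h1 : padicNorm p y = padicNorm p x := (norm_eq_iff (hneg y hy).1 (hneg x hx).1).2 hv.symm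
          have h2 := padicNorm.sub (p := p) (q := x) (r := y)
          rw [h1, max_self] at h2
          exact absurd h2 (not_le.2 hlt)
        have : padicValRat p (x - y) - padicValRat p x = 0 := by
          push_cast at hle
          omega
        rw [this]; exact dvd_zero _
      | succ N ih =>
        intro x y hx hy hxy hle
        have hv := hB p hp d hd a c x y ha (preG_of hx) (preG_of hy) hgood
        have h1 : padicNorm p y = padicNorm p x := (norm_eq_iff (hneg y hy).1 (hneg x hx).1).2 hv.symm
        have hge : padicValRat p x ≤ padicValRat p (x - y) := by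
          by_contra hlt
          push Not at hlt
          rw [← norm_lt_iff (hneg x hx).1 (sub_ne_zero.2 hxy)] at hlt
          have h2 := padicNorm.sub (p := p) (q := x) (r := y)
          rw [h1, max_self] at h2
          exact absurd h2 (not_le.2 hlt)
        rcases hge.eq_or_lt with heq | hlt
        · rw [← heq, sub_self]; exact dvd_zero _
        · have h2 : padicNorm p (PhiQ d x y) = padicNorm p x ^ (d - 1) :=
            norm_phi hd hpd (hneg x hx).1 h1 ((norm_lt_iff (sub_ne_zero.2 hxy) (hneg x hx).1).2 hlt)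
          rw [← pn_pow, norm_eq_iff (hphi x y hx hy hxy) (pow_ne_zero _ (hneg x hx).1),
            val_pow (hneg x hx).1] at h2
          have h3 := hval x y hx hy hxy
          have h4 := hB p hp d hd a c x (G a d c x) ha (preG_of hx) (preG_of (per_step hx)) hgood
          have h5 := (hneg x hx).2
          have h6 : ((d - 1 : ℕ) : ℤ) * padicValRat p x ≤ -1 := by
            have : (1 : ℤ) ≤ ((d - 1 : ℕ) : ℤ) := by
              have : 1 ≤ d - 1 := by omega
              exact_mod_cast this
            nlinarith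
          have h7 := ih (G a d c x) (G a d c y) (per_step hx) (per_step hy)
            (fun h => hxy (per_inj hx hy h)) (by
              rw [h3, h2, ← h4]
              push_cast at hle
              linarith)
          rw [h3, h2, ← h4] at h7
          have h8 : padicValRat p (x - y) - padicValRat p x =
              (((d - 1 : ℕ) : ℤ) * padicValRat p x + padicValRat p (x - y) - padicValRat p x)
              - ((d - 1 : ℕ) : ℤ) * padicValRat p x := by ring
          rw [h8]
          exact dvd_sub h7 (dvd_mul_right _ _)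
    have key' : ∀ x y : ℚ, x ∈ periodicPts (G a d c) → y ∈ periodicPts (G a d c) → x ≠ y →
        ((d - 1 : ℕ) : ℤ) ∣ padicValRat p (x - y) - padicValRat p x := by
      intro x y hx hy hxy
      exact key (padicValRat p (x - y) - padicValRat p x).toNat x y hx hy hxy (Int.self_le_toNat _)
    have e0 := key' x y hx hy hxy
    have e1 := key' (G a d c x) (G a d c y) (per_step hx) (per_step hy)
      (fun h => hxy (per_inj hx hy h))
    have h3 := hval x y hx hy hxy
    have h4 := hB p hp d hd a c x (G a d c x) ha (preG_of hx) (preG_of (per_step hx)) hgood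
    have h8 : padicValRat p (PhiQ d x y) =
        (padicValRat p (G a d c x - G a d c y) - padicValRat p (G a d c x)) -
        (padicValRat p (x - y) - padicValRat p x) := by
      rw [h3, ← h4]; ring
    rw [h8]
    exact dvd_sub e1 e0

end Pool.Agent.UPre
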