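import Pool.Agent.UPre.Targets2
import Pool.Agent.UPre.PAIRV

/-! Periodic pairs at bad primes. -/

namespace Pool.Agent.UPre

open Function

namespace Bad

lemma iter_per {α : Type*} {f : α → α} {x : α} (h : x ∈ periodicPts f) (k : ℕ) :
    f^[k] x ∈ periodicPts f := by
  induction k with
  | zero => exact h
  | succ k ih => rw [iterate_succ_apply']; exact per_step ih

lemma iter_ne {α : Type*} {f : α → α} {x y : α} (hx : x ∈ periodicPts f) (hy : y ∈ periodicPts f)
    (h : x ≠ y) (k : ℕ) : f^[k] x ≠ f^[k] y := by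
  induction k with
  | zero => exact h
  | succ k ih =>
    rw [iterate_succ_apply', iterate_succ_apply']
    exact fun h => ih (per_inj (iter_per hx k) (iter_per hy k) h)

lemma common {α : Type*} {f : α → α} {x y : α} (hx : x ∈ periodicPts f) (hy : y ∈ periodicPts f) :
    ∃ M : ℕ, 0 < M ∧ f^[M] x = x ∧ f^[M] y = y := by
  obtain ⟨m, hm, hx⟩ := mem_periodicPts.1 hx
  obtain ⟨n, hn, hy⟩ := mem_periodicPts.1 hy
  exact ⟨m * n, Nat.mul_pos hm hn, hx.mul_const n, hy.const_mul m⟩

/-- valuations at a bad prime -/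
lemma val_le {p : ℕ} [hp : Fact p.Prime] {x y : ℚ} (hx : x ≠ 0) (hy : y ≠ 0) (hxy : x ≠ y)
    (h : padicValRat p x = padicValRat p y) : padicValRat p x ≤ padicValRat p (x - y) := by
  by_contra hlt
  push Not at hlt
  rw [← PairV.norm_lt_iff hx (sub_ne_zero.2 hxy)] at hlt
  have h1 : padicNorm p y = padicNorm p x := (PairV.norm_eq_iff hy hx).2 h.symm
  have h2 := padicNorm.sub (p := p) (q := x) (r := y)
  rw [h1, max_self] at h2
  exact absurd h2 (not_le.2 hlt)

lemma val_G {p : ℕ} [hp : Fact p.Prime] {a c x y : ℚ} {d : ℕ} (ha : a ≠ 0)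
    (h : G a d c x ≠ G a d c y) :
    x ^ d ≠ y ^ d ∧ padicValRat p (G a d c x - G a d c y) =
      padicValRat p a + padicValRat p (x ^ d - y ^ d) := by
  have h1 : x ^ d ≠ y ^ d := fun h1 => h (by simp [G, h1])
  refine ⟨h1, ?_⟩
  have h2 : G a d c x - G a d c y = a * (x ^ d - y ^ d) := by simp only [G]; ring
  rw [h2, padicValRat.mul ha (sub_ne_zero.2 h1)]

end Bad

open Bad

theorem p_U_BAD : U_NORM → U_BADV → U_LTEQ → U_BAD := by
  intro hN hB hL p hp hp2 q d hd hev hq a c x y ha hbad hqa hx hy hxy hv0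
  haveI := Fact.mk hp
  obtain ⟨M, hM, hMx, hMy⟩ := common hx hy
  have hd0 : (d : ℚ) ≠ 0 := by
    have : d ≠ 0 := by omega
    exact_mod_cast this
  rw [padicValRat.mul ha hd0, padicValRat.of_nat] at hqa
  have hne0 : ∀ x : ℚ, x ∈ periodicPts (G a d c) → x ≠ 0 := fun x hx =>
    ((hN p hp d hd a c x ha (PairV.preG_of hx)).2 hbad).2.2
  have hsame : ∀ y : ℚ, y ∈ periodicPts (G a d c) → padicValRat p y = padicValRat p x := fun y hy =>
    hB p hp d hd a c y x ha (PairV.preG_of hy) (PairV.preG_of hx) hbad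
  have hqn : (q : ℤ) ∣ ((d : ℤ) - 1) * padicValRat p x := by
    refine Dvd.dvd.mul_right ?_ _
    have : (q : ℤ) ∣ ((d - 1 : ℕ) : ℤ) := by exact_mod_cast hq
    rwa [Nat.cast_sub (by omega), Nat.cast_one] at this
  have main : ∀ j : ℕ, j ≤ M →
      (q : ℤ) ∣ padicValRat p ((G a d c)^[M - j] x - (G a d c)^[M - j] y) - padicValRat p x := by
    intro j
    induction j with
    | zero =>
      intro _
      rw [Nat.sub_zero, hMx, hMy, hv0, sub_self]
      exact dvd_zero _
    | succ j ih =>
      intro hj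
      have h1 := ih (by omega)
      have hk : M - j = (M - (j + 1)) + 1 := by omega
      rw [hk, iterate_succ_apply', iterate_succ_apply'] at h1
      set u := (G a d c)^[M - (j + 1)] x with hu
      set w := (G a d c)^[M - (j + 1)] y with hw
      have hup : u ∈ periodicPts (G a d c) := iter_per hx _
      have hwp : w ∈ periodicPts (G a d c) := iter_per hy _
      have huw : u ≠ w := iter_ne hx hy hxy _
      have hGne : G a d c u ≠ G a d c w := fun h => huw (per_inj hup hwp h)
      have hvu := hsame u hup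
      have hvw := hsame w hwp
      have hge := val_le (hne0 u hup) (hne0 w hwp) huw (hvu.trans hvw.symm)
      obtain ⟨hdne, hG⟩ := val_G (p := p) ha hGne
      rcases hge.eq_or_lt with heq | hlt
      · rw [← heq, hvu, sub_self]; exact dvd_zero _
      · have h2 := (hL d hev (by omega) p hp hp2 u w (hne0 u hup) (hne0 w hwp)
          (hvu.trans hvw.symm) hdne).1 hlt
        rw [hG, h2, hvu] at h1
        have h3 : padicValRat p (u - w) - padicValRat p x =
            (padicValRat p a + (((d : ℤ) - 1) * padicValRat p x + padicValRat p (u - w) +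
              (padicValNat p d : ℤ)) - padicValRat p x) -
            (padicValRat p a + (padicValNat p d : ℤ)) - ((d : ℤ) - 1) * padicValRat p x := by ring
        rw [h3]
        exact dvd_sub (dvd_sub h1 hqa) hqn
  have h4 := main (M - 1) (by omega)
  have h5 : M - (M - 1) = 1 := by omega
  rw [h5] at h4
  exact h4

end Pool.Agent.UPre
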