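import Pool.Agent.UPre.Targets2

/-! UPre: C5 -/

namespace Pool.Agent.UPre

namespace C5_

lemma fourth {m n l : ℤ} (hm : 0 < m) (hc : IsCoprime m n) (h : m * n = l ^ 4) :
    ∃ p : ℤ, m = p ^ 4 := by
  obtain ⟨d, hd⟩ := exists_associated_pow_of_mul_eq_pow' hc h
  rcases Int.associated_iff.1 hd with h1 | h1
  · exact ⟨d, h1.symm⟩
  · exfalso
    have : 0 ≤ d ^ 4 := by positivity
    omega

lemma split {m n l : ℤ} (hm : 0 < m) (hn : 0 < n) (hc : IsCoprime m n) (h5 : ¬ (5 : ℤ) ∣ m)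
    (h : m * n = 125 * l ^ 4) : ∃ p q : ℤ, m = p ^ 4 ∧ n = 125 * q ^ 4 ∧ (p * q) ^ 4 = l ^ 4 := by
  have h5p : Prime (5 : ℤ) := by norm_num
  have hc5 : IsCoprime (5 : ℤ) m := (Prime.coprime_iff_not_dvd h5p).2 h5
  have hc125 : IsCoprime (125 : ℤ) m := by
    have := hc5.pow_left (m := 3)
    norm_num at this
    exact this
  have hd : (125 : ℤ) ∣ n := hc125.dvd_of_dvd_mul_left ⟨l ^ 4, h⟩
  obtain ⟨n', rfl⟩ := hd
  have h1 : m * n' = l ^ 4 := by
    have : 125 * (m * n') = 125 * l ^ 4 := by rw [← h]; ring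
    exact mul_left_cancel₀ (by norm_num) this
  have hn' : 0 < n' := by omega
  have hc' : IsCoprime m n' := hc.of_mul_right_right
  obtain ⟨p, hp⟩ := fourth hm hc' h1
  obtain ⟨q, hq⟩ := fourth hn' hc'.symm (by rw [mul_comm]; exact h1)
  refine ⟨p, q, hp, by rw [hq], ?_⟩
  rw [mul_pow, ← hp, ← hq, h1]

lemma fin (h1 : V_E5) {Y l m n : ℤ} (hm : 0 < m) (hn : 0 < n) (hc : IsCoprime m n)
    (h5 : ¬ (5 : ℤ) ∣ m) (h : m * n = 125 * l ^ 4)
    (hs : m + n = Y ^ 2 + 10 * Y * l + 50 * l ^ 2) : False := by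
  obtain ⟨p, q, hp, hq, hpq⟩ := split hm hn hc h5 h
  have h2 : (p * q) ^ 2 = l ^ 2 := by
    have h3 : ((p * q) ^ 2) ^ 2 = (l ^ 2) ^ 2 := by rw [← pow_mul, ← pow_mul]; exact hpq
    exact (pow_left_inj₀ (by positivity) (by positivity) (by norm_num)).1 h3
  have hcop : IsCoprime p q := by
    rw [hp, hq] at hc
    have h3 := hc.of_mul_right_right
    exact (IsCoprime.pow_iff (by norm_num) (by norm_num)).1 h3
  have h5p : ¬ (5 : ℤ) ∣ p := fun h6 => h5 (by rw [hp]; exact dvd_pow h6 (by norm_num))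
  have hq0 := h1 p q (Y + 5 * l) hcop h5p (by
    have h6 : (Y + 5 * l) ^ 2 = (m + n) - 25 * l ^ 2 := by rw [hs]; ring
    rw [h6, hp, hq, ← h2]
    ring)
  rw [hq, hq0] at hn
  norm_num at hn

end C5_

open C5_ in
theorem p_V_C5 : V_E5 → V_C5 := by
  intro h1 Y k b hcop hY hk hb
  obtain ⟨l, rfl⟩ := hk
  by_contra hk0
  have hl : l ≠ 0 := by
    rintro rfl
    exact hk0 rfl
  obtain ⟨U, hU⟩ : ∃ U, U = Y ^ 2 + 10 * Y * l + 50 * l ^ 2 := ⟨_, rfl⟩
  have hb2 : b ^ 2 = U ^ 2 - 500 * l ^ 4 := by rw [hb, hU]; ring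
  have hUodd : Odd U := by
    rw [hU, show Y ^ 2 + 10 * Y * l + 50 * l ^ 2 = Y ^ 2 + 2 * (5 * Y * l + 25 * l ^ 2) by ring]
    exact (hY.pow).add_even (even_two_mul _)
  have hbodd : Odd b := by
    have h2 : Odd (b ^ 2) := by
      rw [hb2, show U ^ 2 - 500 * l ^ 4 = U ^ 2 - 2 * (250 * l ^ 4) by ring]
      exact (hUodd.pow).sub_even (even_two_mul _)
    exact (Int.odd_pow' (by norm_num)).1 h2
  obtain ⟨m, hm⟩ : ∃ m, U - b = 2 * m := by
    obtain ⟨x, hx⟩ := hUodd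
    obtain ⟨y, hy⟩ := hbodd
    exact ⟨x - y, by rw [hx, hy]; ring⟩
  obtain ⟨n, hn⟩ : ∃ n, n = U - m := ⟨_, rfl⟩
  have hs : m + n = U := by rw [hn]; ring
  have hmn : m * n = 125 * l ^ 4 := by
    have hbb : b = U - 2 * m := by linarith
    rw [hbb] at hb2
    rw [hn]
    linarith [hb2, show (U - 2 * m) ^ 2 = U ^ 2 - 4 * (m * (U - m)) by ring]
  have hl4 : 0 < l ^ 4 := by positivity
  have hUpos : 0 < U := by
    rw [hU, show Y ^ 2 + 10 * Y * l + 50 * l ^ 2 = (Y + 5 * l) ^ 2 + 25 * l ^ 2 by ring]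
    have : 0 < l ^ 2 := by positivity
    nlinarith [sq_nonneg (Y + 5 * l)]
  have hm0 : 0 < m := by
    by_contra h
    push Not at h
    have hn0 : 0 < n := by linarith
    nlinarith
  have hn0 : 0 < n := by
    by_contra h
    push Not at h
    nlinarith
  have hUY : ∀ z : ℤ, Prime z → z ∣ U → (z ∣ 5 ∨ z ∣ l) → False := by
    intro z hz hzU hzl
    have h5k : z ∣ 5 * (l + l) := by
      rcases hzl with h | h
      · exact Dvd.dvd.mul_right h _
      · exact Dvd.dvd.mul_left (dvd_add h h) _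
    have hY2 : z ∣ Y ^ 2 := by
      have h3 : Y ^ 2 = U - 5 * (l + l) * (Y + 5 * l) := by rw [hU]; ring
      rw [h3]
      exact dvd_sub hzU (Dvd.dvd.mul_right h5k _)
    exact hz.not_isUnit (hcop.isUnit_of_dvd' (hz.dvd_of_dvd_pow hY2) h5k)
  have hcmn : IsCoprime m n := by
    refine isCoprime_of_prime_dvd (fun h => by omega) (fun z hz hzm hzn => ?_)
    refine hUY z hz (by rw [← hs]; exact dvd_add hzm hzn) ?_
    have h4 : z ∣ 125 * l ^ 4 := by rw [← hmn]; exact Dvd.dvd.mul_right hzm _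
    rcases hz.dvd_or_dvd h4 with h | h
    · left
      have h5 : (125 : ℤ) = 5 ^ 3 := by norm_num
      rw [h5] at h
      exact hz.dvd_of_dvd_pow h
    · right
      exact hz.dvd_of_dvd_pow h
  by_cases h5 : (5 : ℤ) ∣ m
  · have h5n : ¬ (5 : ℤ) ∣ n := by
      intro h6
      have h5p : Prime (5 : ℤ) := by norm_num
      exact h5p.not_isUnit (hcmn.isUnit_of_dvd' h5 h6)
    exact fin h1 (Y := Y) hn0 hm0 hcmn.symm h5n (by rw [mul_comm]; exact hmn)
      (by rw [add_comm, hs, hU])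
  · exact fin h1 (Y := Y) hm0 hn0 hcmn h5 hmn (by rw [hs, hU])

end Pool.Agent.UPre
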