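import Pool.Agent.UPre.Targets2

/-!
# The equation `W² = p⁴ - 25 p² q² + 125 q⁴`
-/

namespace Pool.Agent.UPre

namespace E5_

theorem nsplit' {a b x : ℕ} (hab : a.Coprime b) (h : a * b = 125 * x ^ 4)
    (h5 : 5 ∣ b) : ∃ r s : ℕ, r.Coprime s ∧ r * s = x ∧ a = r ^ 4 ∧ b = 125 * s ^ 4 := by
  have h5a : Nat.Coprime 5 a := Nat.Coprime.coprime_dvd_left h5 hab.symm
  have h125 : Nat.Coprime 125 a := by
    rw [show 125 = 5 ^ 3 by norm_num]
    exact h5a.pow_left 3
  have hb : 125 ∣ b := h125.dvd_of_dvd_mul_left (Dvd.intro _ h.symm)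
  obtain ⟨b', rfl⟩ := hb
  have h1 : a * b' = x ^ 4 := by
    apply Nat.eq_of_mul_eq_mul_left (show 0 < 125 by norm_num)
    rw [← h]
    ring
  have hab' : a.Coprime b' := hab.coprime_mul_left_right
  obtain ⟨r, hr⟩ := exists_eq_pow_of_mul_eq_pow (Nat.isUnit_iff.2 hab') h1
  obtain ⟨s, hs⟩ := exists_eq_pow_of_mul_eq_pow (Nat.isUnit_iff.2 hab'.symm)
    (by rw [mul_comm]; exact h1)
  refine ⟨r, s, ?_, ?_, hr, by rw [hs]⟩
  · rw [hr, hs] at hab'
    exact (Nat.coprime_pow_left_iff (by norm_num) _ _).1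
      ((Nat.coprime_pow_right_iff (by norm_num) _ _).1 hab')
  · rw [hr, hs, ← mul_pow] at h1
    exact Nat.pow_left_injective (n := 4) (by norm_num) h1

theorem nsplit {a b x : ℕ} (hab : a.Coprime b) (h : a * b = 125 * x ^ 4) :
    ∃ r s : ℕ, r.Coprime s ∧ r * s = x ∧
      ((a = r ^ 4 ∧ b = 125 * s ^ 4) ∨ (a = 125 * s ^ 4 ∧ b = r ^ 4)) := by
  have h5 : 5 ∣ a * b := by
    rw [h]
    exact Dvd.dvd.mul_right (by norm_num) _
  rcases (Nat.Prime.dvd_mul (by norm_num)).1 h5 with h5 | h5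
  · obtain ⟨r, s, h1, h2, h3, h4⟩ := nsplit' hab.symm (by rw [mul_comm]; exact h) h5
    exact ⟨r, s, h1, h2, Or.inr ⟨h4, h3⟩⟩
  · obtain ⟨r, s, h1, h2, h3, h4⟩ := nsplit' hab h h5
    exact ⟨r, s, h1, h2, Or.inl ⟨h3, h4⟩⟩

theorem split {a b x : ℤ} (hab : IsCoprime a b) (hx : x ≠ 0) (h : a * b = 125 * x ^ 4) :
    ∃ ε r s : ℤ, (ε = 1 ∨ ε = -1) ∧ IsCoprime r s ∧ (r * s) ^ 2 = x ^ 2 ∧
      ((a = ε * r ^ 4 ∧ b = ε * (125 * s ^ 4)) ∨ (a = ε * (125 * s ^ 4) ∧ b = ε * r ^ 4)) := by
  have hn : a.natAbs * b.natAbs = 125 * x.natAbs ^ 4 := by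
    rw [← Int.natAbs_mul, h, Int.natAbs_mul, Int.natAbs_pow]
    rfl
  obtain ⟨r, s, h1, h2, h3⟩ := nsplit (Int.isCoprime_iff_gcd_eq_one.1 hab) hn
  have hpos : 0 < a * b := by
    rw [h]
    positivity
  have hcop : IsCoprime (r : ℤ) (s : ℤ) := Nat.isCoprime_iff_coprime.2 h1
  have hsq : ((r : ℤ) * s) ^ 2 = x ^ 2 := by
    rw [← Int.natCast_mul, h2, Int.natCast_natAbs, sq_abs]
  rcases mul_pos_iff.1 hpos with ⟨ha, hb⟩ | ⟨ha, hb⟩
  · refine ⟨1, r, s, Or.inl rfl, hcop, hsq, ?_⟩
    have ea : (a.natAbs : ℤ) = a := Int.natAbs_of_nonneg ha.le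
    have eb : (b.natAbs : ℤ) = b := Int.natAbs_of_nonneg hb.le
    rcases h3 with ⟨h3, h4⟩ | ⟨h3, h4⟩
    · left
      rw [← ea, ← eb, h3, h4]
      push_cast
      constructor <;> ring
    · right
      rw [← ea, ← eb, h3, h4]
      push_cast
      constructor <;> ring
  · refine ⟨-1, r, s, Or.inr rfl, hcop, hsq, ?_⟩
    have ea : a = -(a.natAbs : ℤ) := by
      rw [Int.natCast_natAbs, abs_of_neg ha]
      ring
    have eb : b = -(b.natAbs : ℤ) := by
      rw [Int.natCast_natAbs, abs_of_neg hb]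
      ring
    rcases h3 with ⟨h3, h4⟩ | ⟨h3, h4⟩
    · left
      rw [ea, eb, h3, h4]
      push_cast
      constructor <;> ring
    · right
      rw [ea, eb, h3, h4]
      push_cast
      constructor <;> ring

/-- The sum of the factors. -/
theorem split_sum {a b x : ℤ} (hab : IsCoprime a b) (hx : x ≠ 0) (h : a * b = 125 * x ^ 4) :
    ∃ ε r s : ℤ, (ε = 1 ∨ ε = -1) ∧ IsCoprime r s ∧ (r * s) ^ 2 = x ^ 2 ∧
      a + b = ε * (r ^ 4 + 125 * s ^ 4) ∧ (Odd a → Odd b → Odd r ∧ Odd s) := by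
  obtain ⟨ε, r, s, hε, h1, h2, h3⟩ := split hab hx h
  refine ⟨ε, r, s, hε, h1, h2, ?_, ?_⟩
  · rcases h3 with ⟨h3, h4⟩ | ⟨h3, h4⟩ <;> rw [h3, h4] <;> ring
  · intro ha hb
    have key : ∀ y z : ℤ, y * z = 125 * (r * s) ^ 4 → Odd y → Odd z → Odd r ∧ Odd s := by
      intro y z hyz hy hz
      have h5 : Odd (125 * (r * s) ^ 4) := by
        rw [← hyz]
        exact hy.mul hz
      rw [Int.odd_mul] at h5
      have h6 : Odd (r * s) := by
        by_contra h7
        rw [Int.not_odd_iff_even] at h7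
        have h8 : Even ((r * s) ^ 4) := h7.pow_of_ne_zero (by norm_num)
        exact (Int.not_odd_iff_even.2 h8) h5.2
      exact Int.odd_mul.1 h6
    refine key a b ?_ ha hb
    rw [h]
    have : x ^ 4 = (x ^ 2) ^ 2 := by ring
    rw [this, ← h2]
    ring

theorem cop {A B : ℤ} (h : ∀ l : ℕ, l.Prime → (l : ℤ) ∣ A → (l : ℤ) ∣ B → False) :
    IsCoprime A B := by
  rw [Int.isCoprime_iff_gcd_eq_one]
  by_contra hne
  obtain ⟨q, hq, hqd⟩ := Nat.exists_prime_and_dvd hne
  have hqd' : (q : ℤ) ∣ ((A.gcd B : ℕ) : ℤ) := Int.natCast_dvd_natCast.2 hqd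
  exact h q hq (hqd'.trans (Int.gcd_dvd_left _ _)) (hqd'.trans (Int.gcd_dvd_right _ _))

theorem l125 {l : ℕ} (hl : l.Prime) {x : ℤ} (h : (l : ℤ) ∣ 125 * x ^ 4) :
    (l : ℤ) = 5 ∨ (l : ℤ) ∣ x := by
  have hl' : Prime (l : ℤ) := Nat.prime_iff_prime_int.1 hl
  rcases hl'.dvd_or_dvd h with h | h
  · left
    have h2 : (l : ℤ) ∣ 5 ^ 3 := by norm_num; exact h
    have h3 : (l : ℤ) ∣ 5 := hl'.dvd_of_dvd_pow h2
    have h4 : l ∣ 5 := by exact_mod_cast h3
    have h5 := (Nat.prime_dvd_prime_iff_eq hl (by norm_num)).1 h4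
    rw [h5]
    rfl
  · exact Or.inr (hl'.dvd_of_dvd_pow h)

theorem ne_two {l : ℕ} (hl : l.Prime) {A : ℤ} (hA : Odd A) (h : (l : ℤ) ∣ A) {y : ℤ}
    (hy : (l : ℤ) ∣ 2 * y) : (l : ℤ) ∣ y := by
  have hl' : Prime (l : ℤ) := Nat.prime_iff_prime_int.1 hl
  rcases hl'.dvd_or_dvd hy with h2 | h2
  · exfalso
    have h4 : l ∣ 2 := by exact_mod_cast h2
    have h5 := (Nat.prime_dvd_prime_iff_eq hl (by norm_num)).1 h4
    rw [h5] at h
    rw [← Int.not_even_iff_odd] at hA
    exact hA ((even_iff_two_dvd).2 (by exact_mod_cast h))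
  · exact h2

theorem m16 : ∀ k j : ZMod 16, 50 * ((2 * k + 1) ^ 2 * (2 * j + 1) ^ 2) -
    ((2 * k + 1) ^ 4 + 125 * (2 * j + 1) ^ 4) ≠ 0 := by decide

theorem m8 : ∀ w k j : ZMod 8, w ^ 2 ≠ (2 * k + 1) ^ 4 -
    25 * (2 * k + 1) ^ 2 * (2 * j + 1) ^ 2 + 125 * (2 * j + 1) ^ 4 := by decide

theorem m4 : ∀ k r s : ZMod 4, (2 * k + 1) ^ 2 ≠ 50 * (r ^ 2 * s ^ 2) -
    (r ^ 4 + 125 * s ^ 4) := by decide

/-- Both `p` and `q` odd is impossible. -/
theorem odd_odd {p q W : ℤ} (hp : Odd p) (hq : Odd q)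
    (h : W ^ 2 = p ^ 4 - 25 * p ^ 2 * q ^ 2 + 125 * q ^ 4) : False := by
  obtain ⟨k, rfl⟩ := hp
  obtain ⟨j, rfl⟩ := hq
  have h2 := congrArg (Int.cast : ℤ → ZMod 8) h
  push_cast at h2
  exact m8 _ _ _ h2

theorem q_odd {p q W : ℤ} (hc : IsCoprime p q) (h5 : ¬ (5 : ℤ) ∣ p) (hq : Odd q)
    (h : W ^ 2 = p ^ 4 - 25 * p ^ 2 * q ^ 2 + 125 * q ^ 4) : False := by
  rcases Int.even_or_odd p with hp | hp
  swap
  · exact odd_odd hp hq h
  obtain ⟨e, he⟩ := hp
  have hpe : p = 2 * e := by rw [he]; ring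
  have hq0 : q ≠ 0 := by
    rintro rfl
    simp at hq
  set C : ℤ := 8 * e ^ 2 - 25 * q ^ 2 with hC
  have hAB : (C - 2 * W) * (C + 2 * W) = 125 * q ^ 4 := by
    have : (C - 2 * W) * (C + 2 * W) = C ^ 2 - 4 * W ^ 2 := by ring
    rw [this, h, hpe, hC]
    ring
  have hCodd : Odd C := by
    rw [hC]
    refine Even.sub_odd ⟨4 * e ^ 2, by ring⟩ ?_
    exact Odd.mul (by decide) hq.pow
  have hAodd : Odd (C - 2 * W) := hCodd.sub_even (even_two_mul W)
  have hBodd : Odd (C + 2 * W) := hCodd.add_even (even_two_mul W)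
  have hcopAB : IsCoprime (C - 2 * W) (C + 2 * W) := by
    refine cop fun l hl h1 h2 => ?_
    have hl' : Prime (l : ℤ) := Nat.prime_iff_prime_int.1 hl
    have h3 : (l : ℤ) ∣ C := by
      refine ne_two hl hAodd h1 ?_
      have := dvd_add h1 h2
      rwa [show C - 2 * W + (C + 2 * W) = 2 * C by ring] at this
    have h4 : (l : ℤ) ∣ 125 * q ^ 4 := by
      rw [← hAB]
      exact h1.mul_right _
    have he2 : (l : ℤ) ∣ q ^ 2 ∨ (l : ℤ) = 5 → (l : ℤ) ∣ e := by
      intro h6
      have h7 : (l : ℤ) ∣ 25 * q ^ 2 := by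
        rcases h6 with h6 | h6
        · exact h6.mul_left _
        · rw [h6]
          exact ⟨5 * q ^ 2, by ring⟩
      have h8 : (l : ℤ) ∣ 2 * (2 * (2 * e ^ 2)) := by
        have := dvd_add h3 h7
        rwa [hC, show 8 * e ^ 2 - 25 * q ^ 2 + 25 * q ^ 2 = 2 * (2 * (2 * e ^ 2)) by ring] at this
      exact hl'.dvd_of_dvd_pow (ne_two hl hAodd h1 (ne_two hl hAodd h1 (ne_two hl hAodd h1 h8)))
    rcases l125 hl h4 with h5' | h5'
    · apply h5
      rw [← h5', hpe]
      exact (he2 (Or.inr h5')).mul_left _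
    · have h6 := he2 (Or.inl (dvd_pow h5' (by norm_num)))
      have h7 : (l : ℤ) ∣ p := by
        rw [hpe]
        exact h6.mul_left _
      exact hl'.not_isUnit (hc.isUnit_of_dvd' h7 h5')
  obtain ⟨ε, r, s, hε, hrs, hrsq, hsum, hodd⟩ := split_sum hcopAB hq0 hAB
  obtain ⟨hr, hs⟩ := hodd hAodd hBodd
  have h16 : 16 * e ^ 2 = 50 * (r ^ 2 * s ^ 2) + ε * (r ^ 4 + 125 * s ^ 4) := by
    rw [← hsum, hC]
    linear_combination (-50) * hrsq
  rcases hε with rfl | rfl
  · -- sign plus
    obtain ⟨k, hk⟩ := hr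
    obtain ⟨j, hj⟩ := hs
    -- r² + 25 s² = 2 m with m odd
    set m : ℤ := 2 * (k ^ 2 + k) + 50 * (j ^ 2 + j) + 13 with hm
    have h2m : r ^ 2 + 25 * s ^ 2 = 2 * m := by
      rw [hm, hk, hj]
      ring
    have hmodd : Odd m := ⟨k ^ 2 + k + 25 * (j ^ 2 + j) + 6, by rw [hm]; ring⟩
    have hprod : (m - 2 * e) * (m + 2 * e) = 125 * s ^ 4 := by
      have h6 : 4 * ((m - 2 * e) * (m + 2 * e)) = 4 * (125 * s ^ 4) := by
        have h7 : 4 * ((m - 2 * e) * (m + 2 * e)) = (2 * m) ^ 2 - 16 * e ^ 2 := by ring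
        rw [h7, ← h2m, h16]
        ring
      linarith
    have hs0 : s ≠ 0 := by
      rw [hj]
      omega
    have hA' : Odd (m - 2 * e) := hmodd.sub_even (even_two_mul e)
    have hB' : Odd (m + 2 * e) := hmodd.add_even (even_two_mul e)
    have hcop2 : IsCoprime (m - 2 * e) (m + 2 * e) := by
      refine cop fun l hl h1 h2 => ?_
      have hl' : Prime (l : ℤ) := Nat.prime_iff_prime_int.1 hl
      have h3 : (l : ℤ) ∣ m := by
        refine ne_two hl hA' h1 ?_
        have := dvd_add h1 h2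
        rwa [show m - 2 * e + (m + 2 * e) = 2 * m by ring] at this
      have h3' : (l : ℤ) ∣ e := by
        have := dvd_sub h2 h1
        rw [show m + 2 * e - (m - 2 * e) = 2 * (2 * e) by ring] at this
        exact ne_two hl hA' h1 (ne_two hl hA' h1 this)
      have h4 : (l : ℤ) ∣ 125 * s ^ 4 := by
        rw [← hprod]
        exact h1.mul_right _
      rcases l125 hl h4 with h5' | h5'
      · apply h5
        rw [← h5', hpe]
        exact h3'.mul_left _
      · have h6 : (l : ℤ) ∣ r ^ 2 := by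
          have h7 : r ^ 2 = 2 * m - 25 * s ^ 2 := by linarith
          rw [h7]
          exact dvd_sub (h3.mul_left _) ((dvd_pow h5' (by norm_num)).mul_left _)
        exact hl'.not_isUnit (hrs.isUnit_of_dvd' (hl'.dvd_of_dvd_pow h6) h5')
    obtain ⟨ε', g, h', hε', hgh, hghs, hsum', hodd'⟩ := split_sum hcop2 hs0 hprod
    obtain ⟨hg, hh⟩ := hodd' hA' hB'
    have hsum2 : 2 * m = ε' * (g ^ 4 + 125 * h' ^ 4) := by
      rw [← hsum']
      ring
    rcases hε' with rfl | rfl
    · refine odd_odd (W := r) hg hh ?_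
      linear_combination h2m + hsum2 + 25 * hghs
    · exfalso
      have h8 : 0 ≤ g ^ 4 + 125 * h' ^ 4 := by positivity
      have h9 : 0 < r ^ 2 + 25 * s ^ 2 := by positivity
      linarith
  · -- sign minus
    obtain ⟨k, rfl⟩ := hr
    obtain ⟨j, rfl⟩ := hs
    have h2 := congrArg (Int.cast : ℤ → ZMod 16) h16
    push_cast at h2
    have h3 : (16 : ZMod 16) = 0 := by decide
    rw [h3, zero_mul] at h2
    refine m16 k j ?_
    linear_combination -h2

end E5_

open E5_ in
theorem p_V_E5 : V_E5 := by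
  have main : ∀ n : ℕ, ∀ p q W : ℤ, q.natAbs = n → IsCoprime p q → ¬ (5 : ℤ) ∣ p →
      W ^ 2 = p ^ 4 - 25 * p ^ 2 * q ^ 2 + 125 * q ^ 4 → q = 0 := by
    intro n
    induction n using Nat.strong_induction_on with
    | _ n ih =>
      intro p q W hn hc h5 h
      by_contra hq0
      rcases Int.even_or_odd q with hq | hq
      swap
      · exact q_odd hc h5 hq h
      obtain ⟨Q, hQ⟩ := hq
      have hqQ : q = 2 * Q := by rw [hQ]; ring
      have hQ0 : Q ≠ 0 := by
        rintro rfl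
        exact hq0 (by rw [hqQ]; ring)
      have hp : Odd p := by
        rw [← Int.not_even_iff_odd]
        intro hp
        have h2 : (2 : ℤ) ∣ p := even_iff_two_dvd.1 hp
        have h3 : (2 : ℤ) ∣ q := ⟨Q, hqQ⟩
        exact Int.prime_two.not_isUnit (hc.isUnit_of_dvd' h2 h3)
      set C : ℤ := p ^ 2 - 50 * Q ^ 2 with hC
      have hCodd : Odd C := by
        rw [hC]
        exact hp.pow.sub_even ⟨25 * Q ^ 2, by ring⟩
      have hCW : (C - W) * (C + W) = 500 * Q ^ 4 := by
        have : (C - W) * (C + W) = C ^ 2 - W ^ 2 := by ring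
        rw [this, h, hqQ, hC]
        ring
      have hWodd : Odd W := by
        rw [← Int.not_even_iff_odd]
        intro hW
        have h1 : Odd (C - W) := hCodd.sub_even hW
        have h2 : Odd (C + W) := hCodd.add_even hW
        have h3 := h1.mul h2
        rw [hCW, ← Int.not_even_iff_odd] at h3
        exact h3 ⟨250 * Q ^ 4, by ring⟩
      obtain ⟨A, hA⟩ := hCodd.sub_odd hWodd
      obtain ⟨B, hB⟩ := hCodd.add_odd hWodd
      have hsumC : A + B = C := by linarith
      have hdif : B - A = W := by linarith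
      have hAB : A * B = 125 * Q ^ 4 := by
        rw [hA, hB] at hCW
        linarith
      have hcopAB : IsCoprime A B := by
        refine cop fun l hl h1 h2 => ?_
        have hl' : Prime (l : ℤ) := Nat.prime_iff_prime_int.1 hl
        have h3 : (l : ℤ) ∣ C := by
          rw [← hsumC]
          exact dvd_add h1 h2
        have h4 : (l : ℤ) ∣ 125 * Q ^ 4 := by
          rw [← hAB]
          exact h1.mul_right _
        have hp2 : p ^ 2 = C + 50 * Q ^ 2 := by rw [hC]; ring
        rcases l125 hl h4 with h5' | h5'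
        · apply h5
          rw [← h5']
          apply hl'.dvd_of_dvd_pow (n := 2)
          rw [hp2]
          refine dvd_add h3 ?_
          rw [h5']
          exact ⟨10 * Q ^ 2, by ring⟩
        · have h6 : (l : ℤ) ∣ p := by
            apply hl'.dvd_of_dvd_pow (n := 2)
            rw [hp2]
            exact dvd_add h3 ((dvd_pow h5' (by norm_num)).mul_left _)
          have h7 : (l : ℤ) ∣ q := by
            rw [hqQ]
            exact h5'.mul_left _
          exact hl'.not_isUnit (hc.isUnit_of_dvd' h6 h7)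
      obtain ⟨ε, r, s, hε, hrs, hrsq, hsum, -⟩ := split_sum hcopAB hQ0 hAB
      have hpp : p ^ 2 = 50 * (r ^ 2 * s ^ 2) + ε * (r ^ 4 + 125 * s ^ 4) := by
        rw [← hsum, hsumC, hC]
        linear_combination (-50) * hrsq
      rcases hε with rfl | rfl
      · -- sign plus
        set M : ℤ := r ^ 2 + 25 * s ^ 2 with hM
        have hMp : (M - p) * (M + p) = 500 * s ^ 4 := by
          have : (M - p) * (M + p) = M ^ 2 - p ^ 2 := by ring
          rw [this, hpp, hM]
          ring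
        have hModd : Odd M := by
          rw [← Int.not_even_iff_odd]
          intro hW
          have h1 : Odd (M - p) := hW.sub_odd hp
          have h2 : Odd (M + p) := hW.add_odd hp
          have h3 := h1.mul h2
          rw [hMp, ← Int.not_even_iff_odd] at h3
          exact h3 ⟨250 * s ^ 4, by ring⟩
        obtain ⟨A', hA'⟩ := hModd.sub_odd hp
        obtain ⟨B', hB'⟩ := hModd.add_odd hp
        have hsumM : A' + B' = M := by linarith
        have hAB' : A' * B' = 125 * s ^ 4 := by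
          rw [hA', hB'] at hMp
          linarith
        have hs0 : s ≠ 0 := by
          rintro rfl
          have : Q ^ 2 = 0 := by rw [← hrsq]; ring
          exact hQ0 (pow_eq_zero_iff (by norm_num) |>.1 this)
        have hr0 : r ≠ 0 := by
          rintro rfl
          have : Q ^ 2 = 0 := by rw [← hrsq]; ring
          exact hQ0 (pow_eq_zero_iff (by norm_num) |>.1 this)
        have h5r : ¬ (5 : ℤ) ∣ r := by
          intro h6
          apply h5
          have h7 : Prime (5 : ℤ) := by norm_num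
          apply h7.dvd_of_dvd_pow (n := 2)
          rw [hpp, one_mul]
          refine dvd_add ⟨10 * (r ^ 2 * s ^ 2), by ring⟩ (dvd_add (dvd_pow h6 (by norm_num))
            ⟨25 * s ^ 4, by ring⟩)
        have hcop2 : IsCoprime A' B' := by
          refine cop fun l hl h1 h2 => ?_
          have hl' : Prime (l : ℤ) := Nat.prime_iff_prime_int.1 hl
          have h3 : (l : ℤ) ∣ M := by
            rw [← hsumM]
            exact dvd_add h1 h2
          have h4 : (l : ℤ) ∣ 125 * s ^ 4 := by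
            rw [← hAB']
            exact h1.mul_right _
          have hr2 : r ^ 2 = M - 25 * s ^ 2 := by rw [hM]; ring
          rcases l125 hl h4 with h5' | h5'
          · apply h5r
            rw [← h5']
            apply hl'.dvd_of_dvd_pow (n := 2)
            rw [hr2]
            refine dvd_sub h3 ?_
            rw [h5']
            exact ⟨5 * s ^ 2, by ring⟩
          · have h6 : (l : ℤ) ∣ r := by
              apply hl'.dvd_of_dvd_pow (n := 2)
              rw [hr2]
              exact dvd_sub h3 ((dvd_pow h5' (by norm_num)).mul_left _)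
            exact hl'.not_isUnit (hrs.isUnit_of_dvd' h6 h5')
        obtain ⟨ε', g, h', hε', hgh, hghs, hsum', -⟩ := split_sum hcop2 hs0 hAB'
        have hsum2 : M = ε' * (g ^ 4 + 125 * h' ^ 4) := by
          rw [← hsum', hsumM]
        rcases hε' with rfl | rfl
        swap
        · exfalso
          have h8 : 0 ≤ g ^ 4 + 125 * h' ^ 4 := by positivity
          have h9 : 0 < M := by positivity
          linarith
        have hr2 : r ^ 2 = g ^ 4 - 25 * g ^ 2 * h' ^ 2 + 125 * h' ^ 4 := by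
          linear_combination hsum2 + 25 * hghs
        have h5g : ¬ (5 : ℤ) ∣ g := by
          intro h6
          apply h5r
          have h7 : Prime (5 : ℤ) := by norm_num
          apply h7.dvd_of_dvd_pow (n := 2)
          rw [hr2]
          refine dvd_add (dvd_sub (dvd_pow h6 (by norm_num)) ⟨5 * g ^ 2 * h' ^ 2, by ring⟩)
            ⟨25 * h' ^ 4, by ring⟩
        have hh0 : h' ≠ 0 := by
          rintro rfl
          have : s ^ 2 = 0 := by rw [← hghs]; ring
          exact hs0 (pow_eq_zero_iff (by norm_num) |>.1 this)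
        have hg0 : g ≠ 0 := by
          rintro rfl
          have : s ^ 2 = 0 := by rw [← hghs]; ring
          exact hs0 (pow_eq_zero_iff (by norm_num) |>.1 this)
        have hlt : h'.natAbs < n := by
          have e1 : (g * h').natAbs = s.natAbs := Int.natAbs_eq_iff_sq_eq.2 hghs
          have e2 : (r * s).natAbs = Q.natAbs := Int.natAbs_eq_iff_sq_eq.2 hrsq
          rw [Int.natAbs_mul] at e1 e2
          have e3 : n = 2 * Q.natAbs := by
            rw [← hn, hqQ, Int.natAbs_mul]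
            rfl
          have g1 : 1 ≤ g.natAbs := Int.natAbs_pos.2 hg0
          have g2 : 1 ≤ r.natAbs := Int.natAbs_pos.2 hr0
          have g3 : 1 ≤ h'.natAbs := Int.natAbs_pos.2 hh0
          have g4 : h'.natAbs ≤ s.natAbs := by
            rw [← e1]
            exact Nat.le_mul_of_pos_left _ g1
          have g5 : s.natAbs ≤ Q.natAbs := by
            rw [← e2]
            exact Nat.le_mul_of_pos_left _ g2
          omega
        exact hh0 (ih _ hlt g h' r rfl hgh h5g hr2)
      · -- sign minus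
        obtain ⟨k, rfl⟩ := hp
        have h2 := congrArg (Int.cast : ℤ → ZMod 4) hpp
        push_cast at h2
        refine m4 k r s ?_
        linear_combination h2
  intro p q W hc h5 h
  exact main _ p q W rfl hc h5 h

end Pool.Agent.UPre
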