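import Pool.Agent.UPre.Targets2

/-! # UPRE2-E7: the curve `T² = M³ + 98 M² N² + 2401 M N⁴ + 16807 N⁶` -/

set_option autoImplicit false

namespace Pool.Agent.UPre

namespace E7_

private lemma dec1 : ∀ m t : ZMod 8, t ^ 2 = m ^ 3 + 98 * m ^ 2 + 2401 * m + 16807 → m = 2 := by
  decide

private lemma dec2 : ∀ p q r : ZMod 4, 2 = p ^ 2 + 2 * q * r - r ^ 2 →
    1 = 2 * p * q + 4 * q * r - r ^ 2 → 3 = q ^ 2 + 2 * p * r - 2 * q * r + 3 * r ^ 2 → False := by
  decide

private lemma dec3 : ∀ p q r : ZMod 4, 2 = q ^ 2 + 2 * p * r - 2 * q * r + 3 * r ^ 2 →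
    1 = (p ^ 2 + 2 * q * r - r ^ 2) + 2 * (q ^ 2 + 2 * p * r - 2 * q * r + 3 * r ^ 2) →
    3 = (2 * p * q + 4 * q * r - r ^ 2) - (q ^ 2 + 2 * p * r - 2 * q * r + 3 * r ^ 2) →
    False := by
  decide

private lemma dec4 : ∀ m p q r : ZMod 4, (m = 1 ∨ m = 3) →
    m = q ^ 2 + 2 * p * r - 2 * q * r + 3 * r ^ 2 →
    0 = (p ^ 2 + 2 * q * r - r ^ 2) + 2 * (q ^ 2 + 2 * p * r - 2 * q * r + 3 * r ^ 2) →
    0 = (2 * p * q + 4 * q * r - r ^ 2) - (q ^ 2 + 2 * p * r - 2 * q * r + 3 * r ^ 2) →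
    False := by
  decide

private lemma sq8 : ∀ n : ZMod 8, (2 * n + 1) ^ 2 = 1 := by decide

private lemma odd4 : ∀ n : ZMod 4, 2 * n + 1 = 1 ∨ 2 * n + 1 = 3 := by decide

private lemma ev4 : ∀ n : ZMod 4, (2 * n) ^ 2 = 0 := by decide

/-- odd `N` is impossible -/
private lemma step1 (hA : V_E7A) (M N T : ℤ) (hc : IsCoprime M N) (hN : Odd N)
    (h : T ^ 2 = M ^ 3 + 98 * M ^ 2 * N ^ 2 + 2401 * M * N ^ 4 + 16807 * N ^ 6) : False := by
  have hN0 : N ≠ 0 := by
    rintro rfl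
    exact absurd hN (by decide)
  obtain ⟨n, hn⟩ := hN
  have hn8 : ((N : ℤ) : ZMod 8) ^ 2 = 1 := by
    rw [hn]
    push_cast
    exact sq8 _
  have hM : ((M : ℤ) : ZMod 8) = 2 := by
    apply dec1 _ ((T : ℤ) : ZMod 8)
    have h2 := congrArg (Int.cast : ℤ → ZMod 8) h
    push_cast at h2
    have e4 : ((N : ℤ) : ZMod 8) ^ 4 = 1 := by
      rw [show 4 = 2 * 2 from rfl, pow_mul, hn8, one_pow]
    have e6 : ((N : ℤ) : ZMod 8) ^ 6 = 1 := by
      rw [show 6 = 2 * 3 from rfl, pow_mul, hn8, one_pow]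
    rw [h2, hn8, e4, e6]
    ring
  have hd : ((8 : ℕ) : ℤ) ∣ M - 2 := by
    rw [← ZMod.intCast_zmod_eq_zero_iff_dvd] 
    push_cast
    rw [hM]
    decide
  obtain ⟨k, hk⟩ := hd
  have hM4 : ((M : ℤ) : ZMod 4) = 2 := by
    have : M = 2 + 4 * (2 * k) := by push_cast at hk; linarith
    rw [this]
    push_cast
    have h4 : (4 : ZMod 4) = 0 := by decide
    rw [h4]
    ring
  have hn4 : ((N : ℤ) : ZMod 4) ^ 2 = 1 := by
    rw [hn]
    push_cast
    have : ∀ n : ZMod 4, (2 * n + 1) ^ 2 = 1 := by decide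
    exact this _
  obtain ⟨p, q, r, ⟨h1, h2, h3⟩ | ⟨h1, h2, h3⟩⟩ := hA M N T hc hN0 h
  · have g1 := congrArg (Int.cast : ℤ → ZMod 4) h1
    have g2 := congrArg (Int.cast : ℤ → ZMod 4) h2
    have g3 := congrArg (Int.cast : ℤ → ZMod 4) h3
    push_cast at g1 g2 g3
    rw [hM4, hn4] at g1
    rw [hn4] at g2 g3
    refine dec2 _ _ _ (Eq.trans ?_ g1) (Eq.trans ?_ g2) (Eq.trans ?_ g3) <;> decide
  · have g1 := congrArg (Int.cast : ℤ → ZMod 4) h1
    have g2 := congrArg (Int.cast : ℤ → ZMod 4) h2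
    have g3 := congrArg (Int.cast : ℤ → ZMod 4) h3
    push_cast at g1 g2 g3
    rw [hM4, hn4] at g1
    rw [hn4] at g2 g3
    refine dec3 _ _ _ (Eq.trans ?_ g1) (Eq.trans ?_ g2) (Eq.trans ?_ g3) <;> decide

private lemma two_adic (n : ℤ) (hn : n ≠ 0) : ∃ (k : ℕ) (m : ℤ), Odd m ∧ n = 2 ^ k * m := by
  obtain ⟨k, m, hm, h⟩ := Nat.exists_eq_two_pow_mul_odd (Int.natAbs_ne_zero.2 hn)
  rcases Int.natAbs_eq n with h1 | h1
  · refine ⟨k, m, by exact_mod_cast hm, ?_⟩
    rw [h1, h]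
    push_cast
    ring
  · refine ⟨k, -(m : ℤ), by simpa using hm, ?_⟩
    rw [h1, h]
    push_cast
    ring

private lemma odd_not_even (a : ℤ) (h : Odd a) (k : ℕ) (hk : 0 < k) (b : ℤ) :
    a ≠ 2 ^ k * b := by
  intro hab
  rw [← Int.not_even_iff_odd] at h
  apply h
  rw [hab]
  obtain ⟨j, rfl⟩ : ∃ j, k = j + 1 := ⟨k - 1, by omega⟩
  exact ⟨2 ^ j * b, by ring⟩

private lemma pow_le (a b : ℕ) (x y : ℤ) (hy : Odd y) (h : 2 ^ a * x = 2 ^ b * y) : a ≤ b := by
  by_contra hlt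
  push Not at hlt
  obtain ⟨c, rfl⟩ := Nat.exists_eq_add_of_lt hlt
  have h2 : (2 : ℤ) ^ b ≠ 0 := by positivity
  have h3 : y = 2 ^ (c + 1) * x := by
    apply mul_left_cancel₀ h2
    rw [← h]
    ring
  exact odd_not_even y hy (c + 1) (by omega) x h3

private lemma pow_eq (a b : ℕ) (x y : ℤ) (hx : Odd x) (hy : Odd y) (h : 2 ^ a * x = 2 ^ b * y) :
    a = b :=
  le_antisymm (pow_le a b x y hy h) (pow_le b a y x hx h.symm)

private lemma main (hA : V_E7A) (hR : V_RP) : ∀ (e : ℕ) (M N T n : ℤ), IsCoprime M N →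
    T ^ 2 = M ^ 3 + 98 * M ^ 2 * N ^ 2 + 2401 * M * N ^ 4 + 16807 * N ^ 6 →
    Odd n → N = 2 ^ e * n → False := by
  intro e
  induction e using Nat.strong_induction_on with
  | _ e ih =>
    intro M N T n hc h hn hNe
    rcases Nat.eq_zero_or_pos e with he | he
    · subst he
      rw [pow_zero, one_mul] at hNe
      subst hNe
      exact step1 hA M N T hc hn h
    have hN0 : N ≠ 0 := by
      rw [hNe]
      have : n ≠ 0 := by
        rintro rfl
        exact absurd hn (by decide)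
      positivity
    obtain ⟨e', rfl⟩ : ∃ e', e = e' + 1 := ⟨e - 1, by omega⟩
    have hNev : N = 2 * (2 ^ e' * n) := by rw [hNe]; ring
    have hMo : Odd M := by
      rw [← Int.not_even_iff_odd]
      rintro ⟨k, hk⟩
      obtain ⟨a, b, hab⟩ := hc
      rw [hNev, hk] at hab
      have h22 : (2 : ℤ) * (a * k + b * (2 ^ e' * n)) = 1 := by linear_combination hab
      omega
    obtain ⟨p, q, r, ⟨-, h2, h3⟩ | ⟨h1, h2, h3⟩⟩ := hA M N T hc hN0 h
    swap
    · obtain ⟨m, hm⟩ := hMo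
      have g1 := congrArg (Int.cast : ℤ → ZMod 4) h1
      have g2 := congrArg (Int.cast : ℤ → ZMod 4) h2
      have g3 := congrArg (Int.cast : ℤ → ZMod 4) h3
      rw [hNev, hm] at g1
      rw [hNev] at g2 g3
      push_cast at g1 g2 g3
      rw [ev4] at g1 g2 g3
      refine dec4 (2 * (m : ZMod 4) + 1) _ _ _ (odd4 _) (Eq.trans ?_ g1) (Eq.trans ?_ g2)
        (Eq.trans ?_ g3)
      · have h4 : (2401 : ZMod 4) = 1 := by decide
        rw [h4]
        ring
      · ring
      · ring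
    · -- first alternative
      have key : 2 * p * (q - 3 * r) = 3 * (q - 3 * r) ^ 2 + 8 * (q - 3 * r) * r + 7 * r ^ 2 := by
        linear_combination 3 * h3 - h2
      set t := q - 3 * r with ht
      have hq : q = t + 3 * r := by rw [ht]; ring
      have key2 : t ^ 3 + 7 * t ^ 2 * r + 14 * t * r ^ 2 + 7 * r ^ 3 = 16807 * N ^ 2 * t := by
        rw [hq] at h3
        linear_combination (-t) * h3 - r * key
      have hr0 : r = 0 → False := by
        intro hr
        rw [hr] at key2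
        have h4 : t * (t ^ 2 - 16807 * N ^ 2) = 0 := by linear_combination key2
        rcases mul_eq_zero.1 h4 with h5 | h5
        · rw [hr] at h3
          rw [h5, hr] at hq
          rw [hq] at h3
          have : N ^ 2 = 0 := by linarith
          exact hN0 (pow_eq_zero_iff (two_ne_zero) |>.1 this)
        · have hN2 : 0 < N ^ 2 := by positivity
          have h6 : (7 : ℤ) ∣ t := by
            have : (7 : ℤ) ∣ t ^ 2 := ⟨2401 * N ^ 2, by linarith⟩
            exact (Int.prime_iff_natAbs_prime.2 (by norm_num)).dvd_of_dvd_pow this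
          -- `16807 = 7 ^ 5`, so `7 * (49 N)^2 = t^2` is impossible
          have h7 : t ^ 2 = 7 * (49 * N) ^ 2 := by linarith
          have h8 : Irrational (Real.sqrt 7) := by
            have : Nat.Prime 7 := by norm_num
            exact_mod_cast this.irrational_sqrt
          apply h8
          refine ⟨|(t : ℚ) / (49 * N)|, ?_⟩
          rw [eq_comm, Real.sqrt_eq_iff_mul_self_eq (by norm_num) (by positivity)]
          have hNq : (N : ℝ) ≠ 0 := by exact_mod_cast hN0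
          have h7r : (t : ℝ) ^ 2 = 7 * (49 * N) ^ 2 := by exact_mod_cast h7
          push_cast
          rw [abs_mul_abs_self]
          field_simp
          linarith
      have ht0 : t ≠ 0 := by
        intro h4
        rw [h4] at key
        have : r ^ 2 = 0 := by linarith
        exact hr0 (pow_eq_zero_iff (two_ne_zero) |>.1 this)
      have hr : r ≠ 0 := fun hr => hr0 hr
      -- the new point
      have htq : (t : ℚ) ≠ 0 := by exact_mod_cast ht0
      have hpt : ((49 * 343 * N : ℚ) / t) ^ 2 = ((49 * r : ℚ) / t) ^ 3 +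
          98 * ((49 * r : ℚ) / t) ^ 2 + 2401 * ((49 * r : ℚ) / t) + 16807 := by
        have key2q : (t : ℚ) ^ 3 + 7 * t ^ 2 * r + 14 * t * r ^ 2 + 7 * r ^ 3 =
            16807 * N ^ 2 * t := by exact_mod_cast key2
        field_simp
        linear_combination (-16807 : ℚ) * key2q
      obtain ⟨M1, N1, T1, hN1, hc1, hx, hT1⟩ := hR _ _ hpt
      obtain ⟨e1, n1, hn1, hN1e⟩ := two_adic N1 hN1
      rcases Nat.eq_zero_or_pos e1 with he1 | he1
      · exact ih 0 (by omega) M1 N1 T1 n1 hc1 hT1 hn1 (by rw [hN1e, he1])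
      · have hM1 : Odd M1 := by
          rw [← Int.not_even_iff_odd]
          rintro ⟨k, hk⟩
          obtain ⟨a, b, hab⟩ := hc1
          obtain ⟨j, rfl⟩ : ∃ j, e1 = j + 1 := ⟨e1 - 1, by omega⟩
          have : N1 = 2 * (2 ^ j * n1) := by rw [hN1e]; ring
          rw [this, hk] at hab
          have h22 : (2 : ℤ) * (a * k + b * (2 ^ j * n1)) = 1 := by linear_combination hab
          omega
        have hxi : 49 * r * N1 ^ 2 = M1 * t := by
          have hN1q : (N1 : ℚ) ≠ 0 := by exact_mod_cast hN1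
          have h5 : (49 * r : ℚ) * N1 ^ 2 = M1 * t := by
            rw [div_eq_div_iff htq (pow_ne_zero 2 hN1q)] at hx
            exact hx
          exact_mod_cast h5
        obtain ⟨a, r', hr', hra⟩ := two_adic r hr
        obtain ⟨b, t', ht', htb⟩ := two_adic t ht0
        have hb : b = a + 2 * e1 := by
          apply pow_eq b (a + 2 * e1) (M1 * t') (49 * r' * n1 ^ 2) (hM1.mul ht')
            (((by decide : Odd (49 : ℤ)).mul hr').mul hn1.pow)
          rw [hra, hN1e, htb] at hxi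
          linear_combination -hxi
        subst hb
        -- `2 p t = 2^(2a) odd`
        have hodd1 : Odd (3 * 2 ^ (4 * e1) * t' ^ 2 + 8 * 2 ^ (2 * e1) * t' * r' + 7 * r' ^ 2) := by
          obtain ⟨j, rfl⟩ : ∃ j, e1 = j + 1 := ⟨e1 - 1, by omega⟩
          have h7 : Odd (7 * r' ^ 2) := (by decide : Odd (7 : ℤ)).mul hr'.pow
          have hev : Even (3 * 2 ^ (4 * (j + 1)) * t' ^ 2 + 8 * 2 ^ (2 * (j + 1)) * t' * r') :=
            ⟨3 * 2 ^ (4 * j + 3) * t' ^ 2 + 4 * 2 ^ (2 * (j + 1)) * t' * r', by ring⟩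
          exact hev.add_odd h7
        have hle : 1 + a + 2 * e1 ≤ 2 * a := by
          apply pow_le (1 + a + 2 * e1) (2 * a) (p * t') _ hodd1
          rw [htb, hra] at key
          linear_combination key
        have hodd2 : Odd (2 ^ (6 * e1) * t' ^ 3 + 7 * 2 ^ (4 * e1) * t' ^ 2 * r' +
            14 * 2 ^ (2 * e1) * t' * r' ^ 2 + 7 * r' ^ 3) := by
          obtain ⟨j, rfl⟩ : ∃ j, e1 = j + 1 := ⟨e1 - 1, by omega⟩
          have h7 : Odd (7 * r' ^ 3) := (by decide : Odd (7 : ℤ)).mul hr'.pow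
          have hev : Even (2 ^ (6 * (j + 1)) * t' ^ 3 + 7 * 2 ^ (4 * (j + 1)) * t' ^ 2 * r' +
              14 * 2 ^ (2 * (j + 1)) * t' * r' ^ 2) :=
            ⟨2 ^ (6 * j + 5) * t' ^ 3 + 7 * 2 ^ (4 * j + 3) * t' ^ 2 * r' +
              7 * 2 ^ (2 * (j + 1)) * t' * r' ^ 2, by ring⟩
          exact hev.add_odd h7
        have hfe : 2 * (e' + 1) + (a + 2 * e1) = 3 * a := by
          apply pow_eq _ _ (16807 * n ^ 2 * t') _
            (((by decide : Odd (16807 : ℤ)).mul hn.pow).mul ht') hodd2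
          rw [htb, hra, hNe] at key2
          linear_combination -key2
        exact ih e1 (by omega) M1 N1 T1 n1 hc1 hT1 hn1 hN1e

end E7_

open E7_ in
theorem p_V_E7 : V_E7A → V_RP → V_E7 := by
  intro hA hR M N T hc h
  by_contra hN
  obtain ⟨e, n, hn, hNe⟩ := two_adic N hN
  exact main hA hR e M N T n hc h hn hNe

end Pool.Agent.UPre
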