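import Pool.Agent.UPre.Targets7

/-! 2-descent over the cubic field: the outcome (job UPRE2-E7A). -/

namespace Pool.Agent.UPre

open NumberField

namespace E7A_

/-- symmetric functions of the three real roots -/
theorem roots {a b c : ℝ} (ha : a ^ 3 + a ^ 2 - 2 * a - 1 = 0) (hb : b ^ 3 + b ^ 2 - 2 * b - 1 = 0)
    (hc : c ^ 3 + c ^ 2 - 2 * c - 1 = 0) (hab : a ≠ b) (hac : a ≠ c) (hbc : b ≠ c) :
    a + b + c = -1 ∧ a * b + a * c + b * c = -2 ∧ a * b * c = 1 := by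
  have h1 : a ^ 2 + a * b + b ^ 2 + a + b - 2 = 0 := by
    have : (a - b) * (a ^ 2 + a * b + b ^ 2 + a + b - 2) = 0 := by linear_combination ha - hb
    exact (mul_eq_zero.mp this).resolve_left (sub_ne_zero.mpr hab)
  have h2 : a ^ 2 + a * c + c ^ 2 + a + c - 2 = 0 := by
    have : (a - c) * (a ^ 2 + a * c + c ^ 2 + a + c - 2) = 0 := by linear_combination ha - hc
    exact (mul_eq_zero.mp this).resolve_left (sub_ne_zero.mpr hac)
  have h3 : a + b + c + 1 = 0 := by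
    have : (b - c) * (a + b + c + 1) = 0 := by linear_combination h1 - h2
    exact (mul_eq_zero.mp this).resolve_left (sub_ne_zero.mpr hbc)
  have h4 : c = -1 - a - b := by linear_combination h3
  refine ⟨by linear_combination h3, ?_, ?_⟩
  · rw [h4]; linear_combination - h1
  · rw [h4]; linear_combination ha - a * h1

/-- the three roots of a quadratic -/
theorem quad {a b c x y z : ℝ} (hab : a ≠ b) (hac : a ≠ c) (hbc : b ≠ c)
    (h1 : x + y * a + z * a ^ 2 = 0) (h2 : x + y * b + z * b ^ 2 = 0)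
    (h3 : x + y * c + z * c ^ 2 = 0) : x = 0 ∧ y = 0 ∧ z = 0 := by
  have h4 : y + z * (a + b) = 0 := by
    have : (a - b) * (y + z * (a + b)) = 0 := by linear_combination h1 - h2
    exact (mul_eq_zero.mp this).resolve_left (sub_ne_zero.mpr hab)
  have h5 : y + z * (a + c) = 0 := by
    have : (a - c) * (y + z * (a + c)) = 0 := by linear_combination h1 - h3
    exact (mul_eq_zero.mp this).resolve_left (sub_ne_zero.mpr hac)
  have h6 : z = 0 := by
    have : (b - c) * z = 0 := by linear_combination h4 - h5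
    exact (mul_eq_zero.mp this).resolve_left (sub_ne_zero.mpr hbc)
  subst h6
  have h7 : y = 0 := by linear_combination h4
  subst h7
  exact ⟨by linear_combination h1, rfl, rfl⟩

/-- order and signs of the three values -/
theorem signs {a b c M N T : ℝ} (ha : a ^ 3 + a ^ 2 - 2 * a - 1 = 0)
    (hb : b ^ 3 + b ^ 2 - 2 * b - 1 = 0) (hc : c ^ 3 + c ^ 2 - 2 * c - 1 = 0) (h0 : 0 < a)
    (h1 : b < 0) (h2 : c < b) (hN : N ≠ 0)
    (hT : T ^ 2 = M ^ 3 + 98 * M ^ 2 * N ^ 2 + 2401 * M * N ^ 4 + 16807 * N ^ 6)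
    (hA : M + 7 * (a ^ 2 + 3 * a + 4) * N ^ 2 ≠ 0) (hB : M + 7 * (b ^ 2 + 3 * b + 4) * N ^ 2 ≠ 0)
    (hC : M + 7 * (c ^ 2 + 3 * c + 4) * N ^ 2 ≠ 0) :
    0 < M + 7 * (a ^ 2 + 3 * a + 4) * N ^ 2 ∧
    ((0 < M + 7 * (b ^ 2 + 3 * b + 4) * N ^ 2 ∧ 0 < M + 7 * (c ^ 2 + 3 * c + 4) * N ^ 2) ∨
     (M + 7 * (b ^ 2 + 3 * b + 4) * N ^ 2 < 0 ∧ M + 7 * (c ^ 2 + 3 * c + 4) * N ^ 2 < 0)) := by
  obtain ⟨e1, e2, e3⟩ := roots ha hb hc (by linarith : b < a).ne' (by linarith : c < a).ne' h2.ne'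
  have ha2 : a < 2 := by
    by_contra h
    push Not at h
    nlinarith [mul_nonneg h0.le (sub_nonneg.mpr h), mul_nonneg (mul_nonneg h0.le h0.le)
      (sub_nonneg.mpr h)]
  have hN2 : 0 < N ^ 2 := by positivity
  set A := M + 7 * (a ^ 2 + 3 * a + 4) * N ^ 2 with hAd
  set B := M + 7 * (b ^ 2 + 3 * b + 4) * N ^ 2 with hBd
  set C := M + 7 * (c ^ 2 + 3 * c + 4) * N ^ 2 with hCd
  have hAB : B < A := by
    have : A - B = 7 * N ^ 2 * ((a - b) * (2 - c)) := by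
      rw [hAd, hBd]; linear_combination (7 * N ^ 2 * (a - b)) * e1
    have h3 : 0 < 7 * N ^ 2 * ((a - b) * (2 - c)) := by
      have : 0 < a - b := by linarith
      have : 0 < 2 - c := by linarith
      positivity
    linarith
  have hBC : C < B := by
    have : B - C = 7 * N ^ 2 * ((b - c) * (2 - a)) := by
      rw [hBd, hCd]; linear_combination (7 * N ^ 2 * (b - c)) * e1
    have h3 : 0 < 7 * N ^ 2 * ((b - c) * (2 - a)) := by
      have : 0 < b - c := by linarith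
      have : 0 < 2 - a := by linarith
      positivity
    linarith
  have hA2 : (2 - a) * A = M * (2 - a) + 49 * N ^ 2 := by
    rw [hAd]; linear_combination (-7 * N ^ 2) * ha
  have hB2 : (2 - b) * B = M * (2 - b) + 49 * N ^ 2 := by
    rw [hBd]; linear_combination (-7 * N ^ 2) * hb
  have hC2 : (2 - c) * C = M * (2 - c) + 49 * N ^ 2 := by
    rw [hCd]; linear_combination (-7 * N ^ 2) * hc
  have h7 : (2 - a) * (2 - b) * (2 - c) = 7 := by
    linear_combination -4 * e1 + 2 * e2 - e3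
  have hprod : A * B * C = T ^ 2 := by
    have h8 : 7 * (A * B * C) = 7 * T ^ 2 := by
      calc 7 * (A * B * C) = ((2 - a) * A) * ((2 - b) * B) * ((2 - c) * C) := by
            rw [← h7]; ring
        _ = (2 * M + 49 * N ^ 2 - M * a) * (2 * M + 49 * N ^ 2 - M * b) *
            (2 * M + 49 * N ^ 2 - M * c) := by rw [hA2, hB2, hC2]; ring
        _ = 7 * T ^ 2 := by
            rw [hT]
            linear_combination (-(2 * M + 49 * N ^ 2) ^ 2 * M) * e1 +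
              ((2 * M + 49 * N ^ 2) * M ^ 2) * e2 - M ^ 3 * e3
    linarith
  have hpos : 0 < A * B * C := by
    have h9 : A * B * C ≠ 0 := mul_ne_zero (mul_ne_zero hA hB) hC
    rw [hprod] at h9 ⊢
    exact lt_of_le_of_ne (sq_nonneg T) (Ne.symm h9)
  have hA0 : 0 < A := by
    by_contra h
    push Not at h
    have h10 : B < 0 := by linarith
    have h11 : C < 0 := by linarith
    have h12 : 0 < B * C := mul_pos_of_neg_of_neg h10 h11
    have h13 : A * (B * C) ≤ 0 := mul_nonpos_of_nonpos_of_nonneg h h12.le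
    nlinarith
  refine ⟨hA0, ?_⟩
  have hBCpos : 0 < B * C := by
    have h14 : 0 < A * (B * C) := by linarith [mul_assoc A B C]
    exact (pos_iff_pos_of_mul_pos h14).mp hA0
  exact pos_and_pos_or_neg_and_neg_of_mul_pos hBCpos

end E7A_

open E7A_ in
theorem p_V_E7A : V7_FIELD → V7_INT → V7_PID → V7_UNIT → V7_ASSOC → V_E7A := by
  intro hF hI hP hU hS M N T hMN hN hT
  obtain ⟨K, _, _, u, f0, f1, f2, hu, hdim, h0, h1, h2⟩ := hF
  have hpid := hP K u hu hdim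
  obtain ⟨η, γ, hα⟩ := hS K u hu hdim hpid M N T hMN hN hT
  have hroot : ∀ f : K →+* ℝ, f u ^ 3 + f u ^ 2 - 2 * f u - 1 = 0 := by
    intro f
    have := congrArg f hu
    have h2' := map_ofNat f 2
    simpa [h2'] using this
  have h01 : f0 u ≠ f1 u := by
    intro h; rw [h] at h0; linarith
  have h02 : f0 u ≠ f2 u := by
    intro h; rw [h] at h0; linarith
  have h12 : f1 u ≠ f2 u := h2.ne'
  have hind : ∀ x y z : ℤ, (x : K) + y * u + z * u ^ 2 = 0 → x = 0 ∧ y = 0 ∧ z = 0 := by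
    intro x y z h
    have hf : ∀ f : K →+* ℝ, (x : ℝ) + y * f u + z * f u ^ 2 = 0 := by
      intro f
      have := congrArg f h
      simpa using this
    obtain ⟨hx, hy, hz⟩ := quad h01 h02 h12 (hf f0) (hf f1) (hf f2)
    exact ⟨by exact_mod_cast hx, by exact_mod_cast hy, by exact_mod_cast hz⟩
  set α : K := (M : K) + 7 * (u ^ 2 + 3 * u + 4) * (N : K) ^ 2 with hαd
  have hα0 : α ≠ 0 := by
    intro h
    have h3 : ((M + 28 * N ^ 2 : ℤ) : K) + ((21 * N ^ 2 : ℤ) : K) * u +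
        ((7 * N ^ 2 : ℤ) : K) * u ^ 2 = 0 := by
      push_cast
      linear_combination h
    obtain ⟨-, -, h4⟩ := hind _ _ _ h3
    apply hN
    have : N ^ 2 = 0 := by linarith
    exact pow_eq_zero_iff (two_ne_zero) |>.mp this
  have hfα : ∀ f : K →+* ℝ, f α = (M : ℝ) + 7 * (f u ^ 2 + 3 * f u + 4) * (N : ℝ) ^ 2 := by
    intro f
    have h3' := map_ofNat f 3
    have h4' := map_ofNat f 4
    have h7' := map_ofNat f 7
    rw [hαd]
    simp [h3', h4', h7']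
  have hfα0 : ∀ f : K →+* ℝ, f α ≠ 0 := fun f => (map_ne_zero f).mpr hα0
  have hfηγ : ∀ f : K →+* ℝ, f α = f ((η : 𝓞 K) : K) * f (γ : K) ^ 2 := by
    intro f
    rw [hα, map_mul, map_pow]
  have hγ0 : ∀ f : K →+* ℝ, 0 < f (γ : K) ^ 2 := by
    intro f
    have h3 := hfα0 f
    rw [hfηγ f] at h3
    have h4 := right_ne_zero_of_mul h3
    exact lt_of_le_of_ne (sq_nonneg _) (Ne.symm h4)
  have hTr : (T : ℝ) ^ 2 = (M : ℝ) ^ 3 + 98 * (M : ℝ) ^ 2 * (N : ℝ) ^ 2 +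
      2401 * (M : ℝ) * (N : ℝ) ^ 4 + 16807 * (N : ℝ) ^ 6 := by exact_mod_cast hT
  have hsig := signs (hroot f0) (hroot f1) (hroot f2) h0 h1 h2 (by exact_mod_cast hN) hTr
    (by rw [← hfα]; exact hfα0 f0) (by rw [← hfα]; exact hfα0 f1) (by rw [← hfα]; exact hfα0 f2)
  rw [← hfα, ← hfα, ← hfα] at hsig
  obtain ⟨hu1, hu2⟩ := hU K u f0 f1 f2 hu hdim h0 h1 h2 η
  have hpos : ∀ f : K →+* ℝ, 0 < f α → 0 < f ((η : 𝓞 K) : K) := by
    intro f hf
    rw [hfηγ f] at hf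
    exact (pos_iff_pos_of_mul_pos hf).mpr (hγ0 f)
  have hneg : ∀ f : K →+* ℝ, f α < 0 → f ((η : 𝓞 K) : K) < 0 := by
    intro f hf
    rw [hfηγ f] at hf
    by_contra h
    push Not at h
    have := mul_nonneg h (hγ0 f).le
    linarith
  rcases hsig with ⟨hs0, ⟨hs1, hs2⟩ | ⟨hs1, hs2⟩⟩
  · obtain ⟨ε, hε⟩ := hu1 (hpos _ hs0) (hpos _ hs1) (hpos _ hs2)
    set δ : 𝓞 K := (ε : 𝓞 K) * γ with hδ
    have hαδ : α = (δ : K) ^ 2 := by
      rw [hα, hε, hδ]
      push_cast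
      ring
    obtain ⟨p, q, r, h49⟩ := hI K u hu hdim (δ : K) (RingOfIntegers.isIntegral_coe δ)
    have hkey : ((2401 * (M + 28 * N ^ 2) - (p ^ 2 + 2 * q * r - r ^ 2) : ℤ) : K) +
        ((2401 * (21 * N ^ 2) - (2 * p * q + 4 * q * r - r ^ 2) : ℤ) : K) * u +
        ((2401 * (7 * N ^ 2) - (q ^ 2 + 2 * p * r - 2 * q * r + 3 * r ^ 2) : ℤ) : K) * u ^ 2 =
        0 := by
      push_cast
      linear_combination 2401 * hαδ + (49 * (δ : K) + (p + q * u + r * u ^ 2)) * h49 +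
        (2 * q * r + r ^ 2 * (u - 1)) * hu
    obtain ⟨k1, k2, k3⟩ := hind _ _ _ hkey
    refine ⟨p, q, r, Or.inl ⟨?_, ?_, ?_⟩⟩ <;> linarith
  · obtain ⟨ε, hε⟩ := hu2 (hpos _ hs0) (hneg _ hs1) (hneg _ hs2)
    set δ : 𝓞 K := (ε : 𝓞 K) * γ with hδ
    have hαδ : α = u * (δ : K) ^ 2 := by
      rw [hα, hε, hδ]
      push_cast
      ring
    obtain ⟨p, q, r, h49⟩ := hI K u hu hdim (δ : K) (RingOfIntegers.isIntegral_coe δ)
    have hkey : ((2401 * (M + 28 * N ^ 2) - (q ^ 2 + 2 * p * r - 2 * q * r + 3 * r ^ 2) : ℤ) : K) +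
        ((2401 * (21 * N ^ 2) - ((p ^ 2 + 2 * q * r - r ^ 2) +
          2 * (q ^ 2 + 2 * p * r - 2 * q * r + 3 * r ^ 2)) : ℤ) : K) * u +
        ((2401 * (7 * N ^ 2) - ((2 * p * q + 4 * q * r - r ^ 2) -
          (q ^ 2 + 2 * p * r - 2 * q * r + 3 * r ^ 2)) : ℤ) : K) * u ^ 2 = 0 := by
      push_cast
      linear_combination 2401 * hαδ + u * (49 * (δ : K) + (p + q * u + r * u ^ 2)) * h49 +
        (u * (2 * q * r + r ^ 2 * (u - 1)) + (q ^ 2 + 2 * p * r - 2 * q * r + 3 * r ^ 2)) * hu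
    obtain ⟨k1, k2, k3⟩ := hind _ _ _ hkey
    refine ⟨p, q, r, Or.inr ⟨?_, ?_, ?_⟩⟩ <;> linarith

end Pool.Agent.UPre
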