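import Pool.Agent.UPre.Targets2

/-! The exceptional map (U_EXC). -/

namespace Pool.Agent.UPre

namespace EXC_

lemma half_not_pow {d : ℕ} (hd : 4 ≤ d) (r : ℚ) : 2 * r ^ d ≠ 1 := by
  intro h
  have hr : r ≠ 0 := by
    rintro rfl
    rw [zero_pow (by omega)] at h
    norm_num at h
  have : Fact (Nat.Prime 2) := ⟨Nat.prime_two⟩
  have h1 : padicValRat 2 (2 * r ^ d) = 0 := by rw [h]; simp
  rw [padicValRat.mul (by norm_num) (pow_ne_zero _ hr), padicValRat.pow] at h1
  have h2 : padicValRat 2 (2 : ℚ) = 1 := by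
    have := padicValRat.self (p := 2) (by norm_num)
    exact_mod_cast this
  rw [h2] at h1
  have h3 : (d : ℤ) ∣ 1 := ⟨-padicValRat 2 r, by linarith⟩
  have h4 : (d : ℤ) ≤ 1 := Int.le_of_dvd one_pos h3
  omega

lemma root_one {e : ℕ} (he : 3 ≤ e) (r : ℚ) (h : 2 * r ^ (e + 1) = r + 1) : r = 1 := by
  have hden : (r.den : ℚ) ≠ 0 := by exact_mod_cast r.den_nz
  have hr : r = r.num / r.den := (Rat.num_div_den r).symm
  have h1 : 2 * (r.num : ℚ) ^ (e + 1) = (r.den : ℚ) ^ e * (r.num + r.den) := by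
    rw [hr, div_pow] at h
    field_simp at h
    rw [← Rat.num_div_den r] at h ⊢
    simp only [Rat.num_div_den] at h ⊢
    apply mul_right_cancel₀ hden
    linear_combination h
  have h2 : 2 * r.num ^ (e + 1) = (r.den : ℤ) ^ e * (r.num + r.den) := by exact_mod_cast h1
  have hc : IsCoprime r.num (r.den : ℤ) := by
    rw [Int.isCoprime_iff_nat_coprime]
    simpa using r.reduced
  have h3 : r.num ∣ (r.den : ℤ) ^ (e + 1) := by
    have : (r.den : ℤ) ^ (e + 1) = r.num * (2 * r.num ^ e - (r.den : ℤ) ^ e) := by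
      ring_nf at h2 ⊢
      linarith
    exact ⟨_, this⟩
  have h4 : IsUnit r.num := (hc.pow_right (n := e + 1)).isUnit_of_dvd' dvd_rfl h3
  have hdpos : 0 < (r.den : ℤ) := by exact_mod_cast r.den_pos
  have h5 : (r.den : ℤ) ^ e ∣ 2 := by
    rcases Int.isUnit_iff.mp h4 with h | h
    · rw [h] at h2; exact ⟨1 + r.den, by rw [← h2]; simp⟩
    · rw [h] at h2
      have h6 : (r.den : ℤ) ^ e ∣ 2 * (-1 : ℤ) ^ (e + 1) := ⟨_, h2⟩
      rcases neg_one_pow_eq_or ℤ (e + 1) with h7 | h7
      · rw [h7] at h6; simpa using h6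
      · rw [h7] at h6; simpa using h6
  have h6 : (r.den : ℤ) = 1 := by
    by_contra hne
    have h7 : (2 : ℤ) ≤ r.den := by omega
    have h8 : (2 : ℤ) ^ 3 ≤ (r.den : ℤ) ^ e :=
      (pow_le_pow_left₀ (by norm_num) h7 3).trans (pow_le_pow_right₀ (by omega) he)
    have h9 := Int.le_of_dvd (by norm_num) h5
    norm_num at h8
    omega
  have hd1 : r.den = 1 := by exact_mod_cast h6
  rw [h6] at h2
  rcases Int.isUnit_iff.mp h4 with h | h
  · rw [hr, h, hd1]; norm_num
  · rw [h] at h2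
    simp at h2

end EXC_

open EXC_ in
theorem p_U_EXC : U_EXC := by
  intro d hd _ a w hw ha
  obtain ⟨e, rfl⟩ : ∃ e, d = e + 1 := ⟨d - 1, by omega⟩
  simp only [Nat.add_sub_cancel] at ha
  have key : ∀ y : ℚ, a * y ^ (e + 1) = 2 * (y / w) ^ (e + 1) * w := by
    intro y
    rw [div_pow, ← ha]
    field_simp
    ring
  refine ⟨fun y hy => ?_, fun y hy => ?_⟩
  · rw [key] at hy
    apply half_not_pow hd (y / w)
    have : (2 * (y / w) ^ (e + 1) - 1) * w = 0 := by linarith
    rcases mul_eq_zero.mp this with h | h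
    · linarith
    · exact absurd h hw
  · rw [key] at hy
    have h1 : 2 * (y / w) ^ (e + 1) = y / w + 1 := by
      have h2 : (2 * (y / w) ^ (e + 1)) * w = (y / w + 1) * w := by
        rw [add_mul, div_mul_cancel₀ _ hw]
        linarith
      exact mul_right_cancel₀ hw h2
    have h3 := root_one (by omega) _ h1
    rwa [div_eq_one_iff_eq hw] at h3

end Pool.Agent.UPre
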