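import Pool.Agent.UPre.Targets2

set_option autoImplicit false

/-! Divisibility at the good primes, project UPre, second round. -/

namespace Pool.Agent.UPre

namespace GDIV_

theorem norm_int_eq_one {p : ℕ} [Fact p.Prime] {t : ℤ} (h : ¬ (p : ℤ) ∣ t) :
    padicNorm p (t : ℚ) = 1 := by
  by_contra hne
  have h1 : padicNorm p (t : ℚ) < 1 := lt_of_le_of_ne (padicNorm.of_int t) hne
  exact h ((padicNorm.int_lt_one_iff t).1 h1)

end GDIV_

open GDIV_ in
theorem p_U_GDIV : U_NORM → U_GOODEQ → U_GDIV := by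
  intro hN hG p hp d hd a c x y ha hgood hx hy hxy lam t w hxt hyw hpt hpw hdvd
  have : Fact p.Prime := ⟨hp⟩
  have hlam : lam ≠ 0 := by
    rintro rfl
    apply hxy
    rw [hxt, hyw, zero_mul, zero_mul]
  have htw : (t : ℚ) - w ≠ 0 := by
    intro h
    apply hxy
    rw [hxt, hyw, sub_eq_zero.1 h]
  have h1 := hG p hp d hd a c x y ha hgood hx hy
  have h2 := ((hN p hp d hd a c x ha ⟨0, hx⟩).1) hgood
  rw [hxt, padicNorm.mul, norm_int_eq_one hpt, mul_one] at h2
  have h3 : G a d c x - G a d c y = a * lam ^ (d - 1) * (Phi d t w : ℤ) * (x - y) := by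
    have e1 : ((Phi d t w : ℤ) : ℚ) * ((t : ℚ) - w) = (t : ℚ) ^ d - (w : ℚ) ^ d := by
      have := geom_sum₂_mul t w d
      have h4 : ((Phi d t w * (t - w) : ℤ) : ℚ) = ((t ^ d - w ^ d : ℤ) : ℚ) := by
        exact_mod_cast this
      push_cast at h4
      exact h4
    have e2 : lam ^ d = lam ^ (d - 1) * lam := by
      rw [← pow_succ]
      congr 1
      omega
    rw [hxt, hyw]
    change a * (lam * (t : ℚ)) ^ d + c - (a * (lam * (w : ℚ)) ^ d + c) = _
    rw [mul_pow, mul_pow, e2]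
    linear_combination (-(a * lam ^ (d - 1) * lam)) * e1
  have hxy' : padicNorm p (x - y) ≠ 0 := by
    intro h
    exact hxy (sub_eq_zero.1 (padicNorm.zero_of_padicNorm_eq_zero h))
  rw [h3, padicNorm.mul, padicNorm.mul, padicNorm.mul] at h1
  have h4 : padicNorm p a * padicNorm p (lam ^ (d - 1)) * padicNorm p ((Phi d t w : ℤ) : ℚ) = 1 :=
    mul_right_cancel₀ hxy' (by rw [h1, one_mul])
  have h5 : padicNorm p (lam ^ (d - 1)) = padicNorm p lam ^ (d - 1) := by
    induction (d - 1) with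
    | zero => simp
    | succ n ih => rw [pow_succ, padicNorm.mul, ih, pow_succ]
  rw [h5] at h4
  have h6 : padicNorm p ((Phi d t w : ℤ) : ℚ) < 1 := (padicNorm.int_lt_one_iff _).2 hdvd
  have h7 : 0 ≤ padicNorm p ((Phi d t w : ℤ) : ℚ) := padicNorm.nonneg _
  have h8 : padicNorm p a * padicNorm p lam ^ (d - 1) * padicNorm p ((Phi d t w : ℤ) : ℚ) ≤
      1 * padicNorm p ((Phi d t w : ℤ) : ℚ) := mul_le_mul_of_nonneg_right h2 h7
  rw [h4, one_mul] at h8
  exact absurd h6 (not_lt.2 h8)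

end Pool.Agent.UPre
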