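import Pool.Agent.UPre.Targets2

/-! `U_GOODEQ`: the map is an isometry on the periodic points at good primes. -/

namespace Pool.Agent.UPre

open Function

namespace GOODEQ_

theorem step {p : ℕ} [Fact p.Prime] {d : ℕ} (hd : 2 ≤ d) {a c x y : ℚ}
    (hx : padicNorm p a * padicNorm p x ^ (d - 1) ≤ 1)
    (hy : padicNorm p a * padicNorm p y ^ (d - 1) ≤ 1) :
    padicNorm p (G a d c x - G a d c y) ≤ padicNorm p (x - y) := by
  have h1 : G a d c x - G a d c y =
      a * (∑ i ∈ Finset.range d, x ^ i * y ^ (d - 1 - i)) * (x - y) := by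
    have h2 := (Commute.all x y).geom_sum₂_mul d
    show a * x ^ d + c - (a * y ^ d + c) = _
    rw [mul_assoc, h2]
    ring
  rw [h1, padicNorm.mul, padicNorm.mul]
  have h3 : padicNorm p a * padicNorm p (∑ i ∈ Finset.range d, x ^ i * y ^ (d - 1 - i)) ≤ 1 := by
    set m := max (padicNorm p x) (padicNorm p y) with hm
    have hm0 : 0 ≤ m := (padicNorm.nonneg x).trans (le_max_left _ _)
    have h4 : padicNorm p (∑ i ∈ Finset.range d, x ^ i * y ^ (d - 1 - i)) ≤ m ^ (d - 1) := by
      apply padicNorm.sum_le'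
      · intro i hi
        rw [Finset.mem_range] at hi
        rw [padicNorm.mul]
        have e1 : padicNorm p (x ^ i) ≤ m ^ i := by
          have : padicNorm p (x ^ i) = padicNorm p x ^ i := IsAbsoluteValue.abv_pow (padicNorm p) x i
          rw [this]
          exact pow_le_pow_left₀ (padicNorm.nonneg x) (le_max_left _ _) i
        have e2 : padicNorm p (y ^ (d - 1 - i)) ≤ m ^ (d - 1 - i) := by
          have : padicNorm p (y ^ (d - 1 - i)) = padicNorm p y ^ (d - 1 - i) :=
            IsAbsoluteValue.abv_pow (padicNorm p) y (d - 1 - i)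
          rw [this]
          exact pow_le_pow_left₀ (padicNorm.nonneg y) (le_max_right _ _) _
        calc padicNorm p (x ^ i) * padicNorm p (y ^ (d - 1 - i)) ≤ m ^ i * m ^ (d - 1 - i) :=
              mul_le_mul e1 e2 (padicNorm.nonneg _) (pow_nonneg hm0 _)
          _ = m ^ (d - 1) := by rw [← pow_add]; congr 1; omega
      · positivity
    have h5 : padicNorm p a * m ^ (d - 1) ≤ 1 := by
      rcases max_choice (padicNorm p x) (padicNorm p y) with h | h
      · rw [hm, h]; exact hx
      · rw [hm, h]; exact hy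
    exact (mul_le_mul_of_nonneg_left h4 (padicNorm.nonneg _)).trans h5
  calc _ ≤ 1 * padicNorm p (x - y) := mul_le_mul_of_nonneg_right h3 (padicNorm.nonneg _)
    _ = padicNorm p (x - y) := one_mul _

theorem per_iter {f : ℚ → ℚ} {x : ℚ} (h : x ∈ periodicPts f) (k : ℕ) :
    f^[k] x ∈ periodicPts f := by
  obtain ⟨n, hn, hx⟩ := h
  refine ⟨n, hn, ?_⟩
  show f^[n] (f^[k] x) = f^[k] x
  rw [← iterate_add_apply, add_comm, iterate_add_apply]
  congr 1

end GOODEQ_

open GOODEQ_ in
theorem p_U_GOODEQ : U_NORM → U_GOODEQ := by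
  intro hN p hp d hd a c x y ha hgood hx hy
  haveI : Fact p.Prime := ⟨hp⟩
  have key : ∀ z ∈ periodicPts (G a d c), padicNorm p a * padicNorm p z ^ (d - 1) ≤ 1 :=
    fun z hz => (hN p hp d hd a c z ha ⟨0, hz⟩).1 hgood
  have hstep : ∀ k, padicNorm p ((G a d c)^[k + 1] x - (G a d c)^[k + 1] y) ≤
      padicNorm p ((G a d c)^[k] x - (G a d c)^[k] y) := by
    intro k
    rw [iterate_succ_apply', iterate_succ_apply']
    exact step hd (key _ (per_iter hx k)) (key _ (per_iter hy k))
  have hanti : Antitone fun k => padicNorm p ((G a d c)^[k] x - (G a d c)^[k] y) :=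
    antitone_nat_of_succ_le hstep
  have hx' := hx
  have hy' := hy
  obtain ⟨m, hm, hmx⟩ := hx'
  obtain ⟨n, hn, hny⟩ := hy'
  have e1 : (G a d c)^[m * n] x = x := hmx.mul_const n
  have e2 : (G a d c)^[m * n] y = y := hny.const_mul m
  apply le_antisymm
  · exact step hd (key x hx) (key y hy)
  · have h1 := hanti (show 1 ≤ m * n from Nat.mul_pos hm hn)
    simp only [e1, e2, iterate_one] at h1
    exact h1

end Pool.Agent.UPre
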