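import Pool.Agent.UPre.Targets2

/-! UPre: HYP -/

namespace Pool.Agent.UPre

open Function

theorem p_U_HYP : U_GDIV → U_RAT → U_HYP := by
  intro h1 h2 q d hd hde hqd a ha S hS c x y hx hy hxy lam t w hxt hyw hc hbad p hp hp2 hpt hpd
  have hpp : Prime (p : ℤ) := Nat.prime_iff_prime_int.1 hp
  have hPhi : (p : ℤ) ∣ Phi d t w := by
    have h3 : Phi d t w * (t - w) = t ^ d - w ^ d := by
      unfold Phi
      exact geom_sum₂_mul t w d
    rw [← h3] at hpd
    rcases hpp.dvd_or_dvd hpd with h | h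
    · exact h
    · exact absurd h hpt
  have hd0 : d ≠ 0 := by omega
  have hnu : ¬ IsUnit (p : ℤ) := hpp.not_isUnit
  have ht : ¬ (p : ℤ) ∣ t := by
    intro h
    have h3 : (p : ℤ) ∣ w ^ d := by
      have h4 : w ^ d = t ^ d - (t ^ d - w ^ d) := by ring
      rw [h4]
      exact dvd_sub (dvd_pow h hd0) hpd
    exact hnu (hc.isUnit_of_dvd' h (hpp.dvd_of_dvd_pow h3))
  have hw : ¬ (p : ℤ) ∣ w := by
    intro h
    have h3 : (p : ℤ) ∣ t ^ d := by
      have h4 : t ^ d = w ^ d + (t ^ d - w ^ d) := by ring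
      rw [h4]
      exact dvd_add (dvd_pow h hd0) hpd
    exact hnu (hc.isUnit_of_dvd' (hpp.dvd_of_dvd_pow h3) h)
  by_cases hg : GoodP p a d c
  · exact absurd hPhi (h1 p hp d hd a c x y ha hg hx hy hxy lam t w hxt hyw ht hw)
  · by_cases hpS : p ∈ S
    · exact absurd (hbad p hpS hp hp2 hg) hpt
    · exact h2 p hp hp2 q d hd hde hqd a c x y ha hg (hS p hp hp2 hpS) hx hy hxy lam t w hxt hyw hc
        hpt

end Pool.Agent.UPre
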