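import Pool.Agent.UPre.Targets

namespace Pool.Agent.UPre

namespace L0_

/-- A nonnegative integer which is a factor of a fourth power, coprime factors. -/
lemma fourth {x y z : ℤ} (hx : 0 ≤ x) (h : IsCoprime x y) (he : x * y = z ^ 4) :
    ∃ r : ℤ, x = r ^ 4 := by
  obtain ⟨d, hd⟩ := exists_associated_pow_of_mul_eq_pow' h he
  rcases Int.associated_iff.mp hd with h1 | h1
  · exact ⟨d, h1.symm⟩
  · refine ⟨0, ?_⟩
    have h2 : 0 ≤ d ^ 4 := by positivity
    have h3 : x = 0 := by omega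
    rw [h3]; norm_num

lemma sq_of_fourth {x y : ℤ} (hx : 0 ≤ x) (hy : 0 ≤ y) (h : x ^ 2 = y ^ 2) : x = y := by
  exact (pow_left_inj₀ hx hy (by norm_num)).mp h

/-- Coprime positive factors of `3 m^4`. -/
lemma split {X W m : ℤ} (hX : 0 < X) (hW : 0 < W) (h : IsCoprime X W) (he : X * W = 3 * m ^ 4) :
    ∃ p q : ℤ, IsCoprime p q ∧ m ^ 2 = p ^ 2 * q ^ 2 ∧
      ((X = 3 * p ^ 4 ∧ W = q ^ 4) ∨ (X = q ^ 4 ∧ W = 3 * p ^ 4)) := by
  have h3 : Prime (3 : ℤ) := Int.prime_three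
  have key : ∀ {X W : ℤ}, 0 < X → 0 < W → IsCoprime X W → X * W = 3 * m ^ 4 → (3 : ℤ) ∣ X →
      ∃ p q : ℤ, IsCoprime p q ∧ m ^ 2 = p ^ 2 * q ^ 2 ∧ X = 3 * p ^ 4 ∧ W = q ^ 4 := by
    intro X W hX hW h he hd
    obtain ⟨Y, rfl⟩ := hd
    have hY : 0 < Y := by omega
    have hc : IsCoprime Y W := h.of_mul_left_right
    have he' : Y * W = m ^ 4 := by
      have : (3 : ℤ) * (Y * W) = 3 * m ^ 4 := by linarith
      linarith
    obtain ⟨p, hp⟩ := fourth hY.le hc he'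
    obtain ⟨q, hq⟩ := fourth hW.le hc.symm (by rw [mul_comm]; exact he')
    refine ⟨p, q, ?_, ?_, by rw [hp], hq⟩
    · rw [hp, hq] at hc
      exact (IsCoprime.pow_iff (by norm_num) (by norm_num)).mp hc
    · apply sq_of_fourth (by positivity) (by positivity)
      rw [hp, hq] at he'
      linarith [he']
  have hd : (3 : ℤ) ∣ X * W := ⟨m ^ 4, he⟩
  rcases h3.dvd_or_dvd hd with hd | hd
  · obtain ⟨p, q, h1, h2, h4, h5⟩ := key hX hW h he hd
    exact ⟨p, q, h1, h2, Or.inl ⟨h4, h5⟩⟩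
  · obtain ⟨p, q, h1, h2, h4, h5⟩ := key hW hX h.symm (by rw [mul_comm]; exact he) hd
    exact ⟨p, q, h1, h2, Or.inr ⟨h5, h4⟩⟩

/-- A prime whose square divides `3 m^4` divides `m`. -/
lemma prime_dvd {l X W m : ℤ} (hl : Prime l) (hX : l ∣ X) (hW : l ∣ W) (he : X * W = 3 * m ^ 4) :
    l ∣ m := by
  obtain ⟨x, rfl⟩ := hX
  obtain ⟨w, rfl⟩ := hW
  have h1 : l ∣ 3 * m ^ 4 := ⟨x * (l * w), by rw [← he]; ring⟩
  rcases hl.dvd_or_dvd h1 with h2 | h2
  · obtain ⟨k, hk⟩ := h2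
    have h3 : l * (k * m ^ 4) = l * (l * (x * w)) := by
      calc l * (k * m ^ 4) = (l * k) * m ^ 4 := by ring
        _ = 3 * m ^ 4 := by rw [← hk]
        _ = l * (l * (x * w)) := by rw [← he]; ring
    have h4 : k * m ^ 4 = l * (x * w) := mul_left_cancel₀ hl.ne_zero h3
    rcases hl.dvd_or_dvd (⟨x * w, h4⟩ : l ∣ k * m ^ 4) with h5 | h5
    · exfalso
      obtain ⟨j, rfl⟩ := h5
      have h6 : l ^ 2 ∣ 3 := ⟨j, by rw [hk]; ring⟩
      have h7 := Int.le_of_dvd (by norm_num) h6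
      have h8 : ¬ IsUnit l := hl.not_isUnit
      rw [Int.isUnit_iff] at h8
      push Not at h8
      have h9 : l ≠ 0 := hl.ne_zero
      have h10 : l ≤ -2 ∨ 2 ≤ l := by omega
      rcases h10 with h | h <;> nlinarith
    · exact hl.dvd_of_dvd_pow h5
  · exact hl.dvd_of_dvd_pow h2

lemma mod4 (a S b : ℤ) (ha : Odd a) : b ^ 2 ≠ S ^ 4 + 3 * S ^ 2 * a ^ 2 + 3 * a ^ 4 := by
  intro h
  obtain ⟨k, rfl⟩ := ha
  have h1 : ((b : ZMod 4)) ^ 2 = (S : ZMod 4) ^ 4 + 3 * (S : ZMod 4) ^ 2 * (2 * (k : ZMod 4) + 1) ^ 2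
      + 3 * (2 * (k : ZMod 4) + 1) ^ 4 := by
    exact_mod_cast congrArg (Int.cast : ℤ → ZMod 4) h
  generalize (b : ZMod 4) = b' at h1
  generalize (S : ZMod 4) = S' at h1
  generalize (k : ZMod 4) = k' at h1
  revert b' S' k'
  decide

lemma main : ∀ (n : ℕ) (a S b : ℤ), a.natAbs = n → IsCoprime a S →
    b ^ 2 = S ^ 4 + 3 * S ^ 2 * a ^ 2 + 3 * a ^ 4 → a = 0 := by
  intro n
  induction n using Nat.strong_induction_on with
  | _ n ih =>
  intro a S b hn hc hb
  by_contra ha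
  -- `a` is even
  rcases Int.even_or_odd a with hev | hodd
  swap
  · exact mod4 a S b hodd hb
  obtain ⟨m, hm⟩ := hev
  have ham : a = 2 * m := by omega
  subst ham
  have hm0 : m ≠ 0 := by
    rintro rfl
    exact ha (by norm_num)
  have hcm : IsCoprime m S := hc.of_mul_left_right
  have hSodd : Odd S := by
    rw [← Int.not_even_iff_odd]
    intro hS
    have h2 : IsCoprime (2 : ℤ) S := hc.of_mul_left_left
    rw [Int.isCoprime_iff_gcd_eq_one] at h2
    obtain ⟨k, hk⟩ := even_iff_two_dvd.mp hS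
    rw [hk, Int.gcd_mul_right_right] at h2
    norm_num at h2
  set U : ℤ := S ^ 2 + 6 * m ^ 2 with hU
  have hm2 : 0 < m ^ 2 := by positivity
  have hUpos : 0 < U := by positivity
  set B : ℤ := |b| with hB
  have hB2 : B ^ 2 = U ^ 2 + 12 * m ^ 4 := by
    rw [hB, sq_abs, hb, hU]; ring
  have hBnn : 0 ≤ B := abs_nonneg b
  have hm4 : 0 < m ^ 4 := by positivity
  have hBU : U < B := by
    nlinarith
  have hUodd : Odd U := by
    rw [hU]
    exact (hSodd.pow).add_even ⟨3 * m ^ 2, by ring⟩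
  have hBodd : Odd B := by
    have h1 : Odd (B ^ 2) := by
      rw [hB2]
      exact (hUodd.pow).add_even ⟨6 * m ^ 4, by ring⟩
    exact (Int.odd_pow.mp h1).resolve_right (by norm_num)
  obtain ⟨X, hX⟩ : ∃ X, B - U = 2 * X := by
    obtain ⟨X, hX⟩ := hBodd.sub_odd hUodd
    exact ⟨X, by omega⟩
  have hBe : B = U + 2 * X := by omega
  have hXpos : 0 < X := by omega
  have hWpos : 0 < X + U := by omega
  have hXW : X * (X + U) = 3 * m ^ 4 := by
    rw [hBe] at hB2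
    nlinarith
  have hcXW : IsCoprime X (X + U) := by
    refine isCoprime_of_prime_dvd (fun h => hXpos.ne' h.1) ?_
    intro l hl hlX hlW
    have h1 : l ∣ m := prime_dvd hl hlX hlW hXW
    have h2 : l ∣ U := (dvd_add_right hlX).mp hlW
    have h3 : l ∣ S ^ 2 := by
      have h4 : l ∣ 6 * m ^ 2 := (Dvd.dvd.pow h1 (by norm_num)).mul_left 6
      exact (dvd_add_left h4).mp (hU ▸ h2)
    exact hl.not_isUnit (hcm.isUnit_of_dvd' h1 (hl.dvd_of_dvd_pow h3))
  obtain ⟨r, s, hrs, hmrs, hcase⟩ := split hXpos hWpos hcXW hXW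
  rcases hcase with ⟨hX3, hW3⟩ | ⟨hX3, hW3⟩
  swap
  · -- `3 ∣ W` is impossible
    have h1 : S ^ 2 + (s ^ 2) ^ 2 = 3 * (r ^ 4 - 2 * m ^ 2) := by
      have : X + U = 3 * r ^ 4 := hW3
      rw [hX3, hU] at this
      linarith
    have h2 : (3 : ℤ) ∣ S ∧ (3 : ℤ) ∣ s ^ 2 := by
      have h3 : (S : ZMod 3) ^ 2 + ((s ^ 2 : ℤ) : ZMod 3) ^ 2 = 0 := by
        have h4 := congrArg (Int.cast : ℤ → ZMod 3) h1
        push_cast at h4 ⊢
        rw [h4]
        have h5 : (3 : ZMod 3) = 0 := by decide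
        rw [h5, zero_mul]
      have h6 : ∀ x y : ZMod 3, x ^ 2 + y ^ 2 = 0 → x = 0 ∧ y = 0 := by decide
      obtain ⟨h7, h8⟩ := h6 _ _ h3
      exact ⟨(ZMod.intCast_zmod_eq_zero_iff_dvd S 3).mp h7,
        (ZMod.intCast_zmod_eq_zero_iff_dvd (s ^ 2) 3).mp h8⟩
    have h3 : (3 : ℤ) ∣ m := by
      have h4 : (3 : ℤ) ∣ m ^ 2 := by
        rw [hmrs]
        exact h2.2.mul_left _
      exact Int.prime_three.dvd_of_dvd_pow h4
    exact Int.prime_three.not_isUnit (hcm.isUnit_of_dvd' h3 h2.1)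
  · -- `3 ∣ X`
    have hr0 : r ≠ 0 := by
      rintro rfl
      rw [hX3] at hXpos
      norm_num at hXpos
    have hS2 : S ^ 2 = s ^ 4 - 3 * r ^ 4 - 6 * (r ^ 2 * s ^ 2) := by
      have : X + U = s ^ 4 := hW3
      rw [hX3, hU, hmrs] at this
      linarith
    set G : ℤ := s ^ 2 - 3 * r ^ 2 with hG
    have hGS : G ^ 2 = S ^ 2 + 12 * r ^ 4 := by
      rw [hS2, hG]; ring
    have hGodd : Odd G := by
      have h1 : Odd (G ^ 2) := by
        rw [hGS]
        exact (hSodd.pow).add_even ⟨6 * r ^ 4, by ring⟩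
      exact (Int.odd_pow.mp h1).resolve_right (by norm_num)
    obtain ⟨X2, hX2⟩ : ∃ X2, G - S = 2 * X2 := by
      obtain ⟨X2, hX2⟩ := hGodd.sub_odd hSodd
      exact ⟨X2, by omega⟩
    have hGe : G = S + 2 * X2 := by omega
    have hprod : X2 * (X2 + S) = 3 * r ^ 4 := by
      rw [hGe] at hGS
      nlinarith
    have hr4 : 0 < r ^ 4 := by positivity
    have hcop : IsCoprime X2 (X2 + S) := by
      refine isCoprime_of_prime_dvd (fun h => ?_) ?_
      · rw [h.1] at hprod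
        simp at hprod
        exact hr0 hprod
      · intro l hl hlX hlW
        have h1 : l ∣ r := prime_dvd hl hlX hlW hprod
        have h2 : l ∣ G := by
          have h3 : G = X2 + (X2 + S) := by omega
          rw [h3]
          exact dvd_add hlX hlW
        have h3 : l ∣ s ^ 2 := by
          have h4 : l ∣ 3 * r ^ 2 := (Dvd.dvd.pow h1 (by norm_num)).mul_left 3
          have h5 : s ^ 2 = G + 3 * r ^ 2 := by rw [hG]; ring
          rw [h5]
          exact dvd_add h2 h4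
        exact hl.not_isUnit (hrs.isUnit_of_dvd' h1 (hl.dvd_of_dvd_pow h3))
    have hposprod : 0 < X2 * (X2 + S) := by rw [hprod]; positivity
    rcases (mul_pos_iff.mp hposprod) with ⟨hp1, hp2⟩ | ⟨hp1, hp2⟩
    · obtain ⟨p, q, hpq, hrpq, hcase⟩ := split hp1 hp2 hcop hprod
      have hsum : G = 3 * p ^ 4 + q ^ 4 := by
        rcases hcase with ⟨h1, h2⟩ | ⟨h1, h2⟩
        · omega
        · omega
      have hs : s ^ 2 = q ^ 4 + 3 * q ^ 2 * p ^ 2 + 3 * p ^ 4 := by
        have h5 : s ^ 2 = G + 3 * r ^ 2 := by rw [hG]; ring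
        rw [h5, hsum, hrpq]; ring
      have hp0 : p ≠ 0 := by
        rintro rfl
        apply hr0
        have : r ^ 2 = 0 := by rw [hrpq]; ring
        exact pow_eq_zero_iff (by norm_num) |>.mp this
      have hq0 : q ≠ 0 := by
        rintro rfl
        apply hr0
        have : r ^ 2 = 0 := by rw [hrpq]; ring
        exact pow_eq_zero_iff (by norm_num) |>.mp this
      have hs0 : s ≠ 0 := by
        rintro rfl
        apply hm0
        have : m ^ 2 = 0 := by rw [hmrs]; ring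
        exact pow_eq_zero_iff (by norm_num) |>.mp this
      have hlt : p.natAbs < n := by
        rw [← hn]
        apply Int.natAbs_lt_iff_sq_lt.mpr
        have h1 : 0 < q ^ 2 := by positivity
        have h2 : 0 < s ^ 2 := by positivity
        have h3 : 0 < p ^ 2 := by positivity
        have h4 : p ^ 2 ≤ r ^ 2 := by rw [hrpq]; nlinarith
        have h5 : r ^ 2 ≤ m ^ 2 := by rw [hmrs]; nlinarith
        nlinarith
      exact hp0 (ih _ hlt p q s rfl hpq hs)
    · have hcop' : IsCoprime (-X2) (-(X2 + S)) := hcop.neg_neg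
      obtain ⟨p, q, hpq, hrpq, hcase⟩ := split (by omega) (by omega) hcop' (by rw [← hprod]; ring)
      have hsum : -G = 3 * p ^ 4 + q ^ 4 := by
        rcases hcase with ⟨h1, h2⟩ | ⟨h1, h2⟩
        · omega
        · omega
      have hs : s ^ 2 = 3 * (p ^ 2 * q ^ 2) - 3 * p ^ 4 - q ^ 4 := by
        have h5 : s ^ 2 = G + 3 * r ^ 2 := by rw [hG]; ring
        rw [h5, hrpq]; linarith
      have hp0 : p ≠ 0 := by
        rintro rfl
        apply hr0
        have : r ^ 2 = 0 := by rw [hrpq]; ring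
        exact pow_eq_zero_iff (by norm_num) |>.mp this
      have hp4 : 0 < p ^ 4 := by positivity
      have h6 : 4 * s ^ 2 = - (2 * q ^ 2 - 3 * p ^ 2) ^ 2 - 3 * p ^ 4 := by rw [hs]; ring
      have h7 : 0 ≤ (2 * q ^ 2 - 3 * p ^ 2) ^ 2 := sq_nonneg _
      have h8 : 0 ≤ s ^ 2 := sq_nonneg s
      linarith

end L0_

theorem p_L0 : T_L0 := fun a S b hc hb => L0_.main _ a S b rfl hc hb

end Pool.Agent.UPre
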