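import Pool.Agent.UPre.Targets

set_option autoImplicit false

namespace Pool.Agent.UPre

namespace L1_

/-- a positive factor of a square, coprime to the cofactor, is a square -/
lemma sq_of_pos {a b c : ℤ} (h : IsCoprime a b) (heq : a * b = c ^ 2) (ha : 0 < a) :
    ∃ x, a = x ^ 2 := by
  obtain ⟨x, hx | hx⟩ := Int.sq_of_isCoprime h heq
  · exact ⟨x, hx⟩
  · exfalso
    nlinarith [sq_nonneg x]

end L1_

open L1_ in
theorem p_L1 (hL0 : T_L0) : T_L1 := by
  intro S T Y hS hT hST hY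
  by_contra hY0
  obtain ⟨A, hA⟩ : ∃ A : ℤ, T = A + S ^ 2 := ⟨T - S ^ 2, by ring⟩
  subst hA
  have hS0 : S ≠ 0 := by rintro rfl; simp at hS
  have hSA : IsCoprime S A := by
    have : IsCoprime S (A + S * S) := by rwa [← pow_two]
    exact IsCoprime.of_add_mul_left_right this
  have hfac : A * (A ^ 2 + 3 * A * S ^ 2 + 3 * S ^ 4) = Y ^ 2 := by rw [hY]; ring
  have hS4 : 0 < S ^ 4 := by positivity
  have hB : 0 < A ^ 2 + 3 * A * S ^ 2 + 3 * S ^ 4 := by
    nlinarith [sq_nonneg (2 * A + 3 * S ^ 2)]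
  have hY2 : 0 < Y ^ 2 := by positivity
  have hApos : 0 < A := by
    by_contra h
    rw [not_lt] at h
    nlinarith
  have hAeven : Even A := by
    have h1 : Even (A + S ^ 2 - S ^ 2) := by
      exact Odd.sub_odd hT (hS.pow)
    simpa using h1
  by_cases h3 : (3 : ℤ) ∣ A
  · obtain ⟨A1, rfl⟩ := h3
    have h3Y : (3 : ℤ) ∣ Y := by
      have : (3 : ℤ) ∣ Y ^ 2 := by
        rw [← hfac, mul_assoc]
        exact Dvd.intro _ rfl
      exact Int.prime_three.dvd_of_dvd_pow this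
    obtain ⟨Y1, rfl⟩ := h3Y
    have hfac1 : A1 * (3 * A1 ^ 2 + 3 * A1 * S ^ 2 + S ^ 4) = Y1 ^ 2 := by
      nlinarith
    have hA1 : 0 < A1 := by linarith
    have hSA1 : IsCoprime A1 S := (IsCoprime.of_mul_right_right hSA).symm
    have hC : IsCoprime A1 (3 * A1 ^ 2 + 3 * A1 * S ^ 2 + S ^ 4) := by
      have : 3 * A1 ^ 2 + 3 * A1 * S ^ 2 + S ^ 4 = S ^ 4 + A1 * (3 * A1 + 3 * S ^ 2) := by ring
      rw [this]
      exact (hSA1.pow_right).add_mul_left_right _
    have hCpos : 0 < 3 * A1 ^ 2 + 3 * A1 * S ^ 2 + S ^ 4 := by positivity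
    obtain ⟨a, ha⟩ := sq_of_pos hC hfac1 hA1
    obtain ⟨b, hb⟩ := sq_of_pos hC.symm (by rw [mul_comm]; exact hfac1) hCpos
    have haS : IsCoprime a S := by
      rw [ha] at hSA1
      exact hSA1.of_isCoprime_of_dvd_left (Dvd.intro a (by ring))
    have := hL0 a S b haS (by rw [← hb, ha]; ring)
    rw [this] at ha
    simp at ha
    omega
  · have h3A : IsCoprime A 3 := by
      rw [isCoprime_comm]
      exact (Int.prime_three.coprime_iff_not_dvd).mpr h3
    have hAB : IsCoprime A (A ^ 2 + 3 * A * S ^ 2 + 3 * S ^ 4) := by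
      have : A ^ 2 + 3 * A * S ^ 2 + 3 * S ^ 4 = 3 * S ^ 4 + A * (A + 3 * S ^ 2) := by ring
      rw [this]
      exact (IsCoprime.mul_right h3A hSA.symm.pow_right).add_mul_left_right _
    obtain ⟨a, ha⟩ := sq_of_pos hAB hfac hApos
    obtain ⟨b, hb⟩ := sq_of_pos hAB.symm (by rw [mul_comm]; exact hfac) hB
    have hae : Even a := by
      rw [ha] at hAeven
      exact (Int.even_pow' two_ne_zero).mp hAeven
    obtain ⟨k, hk⟩ := hae
    obtain ⟨s, hs⟩ := hS
    have h4 : (4 : ℤ) ∣ b ^ 2 - 3 := by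
      rw [← hb, ha, hk, hs]
      refine ⟨4 * k ^ 4 + 3 * k ^ 2 * (2 * s + 1) ^ 2 + 3 * (4 * s ^ 4 + 8 * s ^ 3 + 6 * s ^ 2 +
        2 * s), by ring⟩
    rcases Int.even_or_odd b with ⟨c, hc⟩ | ⟨c, hc⟩
    · rw [hc] at h4
      obtain ⟨q, hq⟩ := h4
      ring_nf at hq
      omega
    · rw [hc] at h4
      obtain ⟨q, hq⟩ := h4
      ring_nf at hq
      omega

end Pool.Agent.UPre
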