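import Pool.Agent.UPre.Targets

namespace Pool.Agent.UPre

/-- Lifting the exponent for integers, odd prime, in `padicValInt` form. -/
theorem lte_minus_int (d p : ℕ) (hd : d ≠ 0) (hp : p.Prime) (hp2 : p ≠ 2) (u v : ℤ)
    (hu : ¬ (p : ℤ) ∣ u) (hne : u ^ d - v ^ d ≠ 0) (h : (p : ℤ) ∣ u - v) :
    padicValInt p (u ^ d - v ^ d) = padicValInt p (u - v) + padicValNat p d := by
  have hodd : Odd p := hp.odd_of_ne_two hp2
  have huv : u - v ≠ 0 := by
    intro h0
    have : u = v := by linarith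
    exact hne (by rw [this]; ring)
  have key := Int.emultiplicity_pow_sub_pow hp hodd h hu d
  haveI : Fact p.Prime := ⟨hp⟩
  have hp1 : p ≠ 1 := hp.ne_one
  have f1 : FiniteMultiplicity (p : ℤ) (u ^ d - v ^ d) :=
    Int.finiteMultiplicity_iff.2 ⟨by simpa using hp1, hne⟩
  have f2 : FiniteMultiplicity (p : ℤ) (u - v) :=
    Int.finiteMultiplicity_iff.2 ⟨by simpa using hp1, huv⟩
  have f3 : FiniteMultiplicity p d := Nat.finiteMultiplicity_iff.2 ⟨hp1, Nat.pos_of_ne_zero hd⟩
  rw [f1.emultiplicity_eq_multiplicity, f2.emultiplicity_eq_multiplicity,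
    f3.emultiplicity_eq_multiplicity] at key
  rw [padicValInt.of_ne_one_ne_zero hp1 hne, padicValInt.of_ne_one_ne_zero hp1 huv,
    padicValNat_def' hp1 hd]
  exact_mod_cast key

theorem p_LTE : T_LTE := by
  intro d hd hd0 p hp hp2 u v hu hne
  refine ⟨fun h => lte_minus_int d p hd0 hp hp2 u v hu hne h, fun h => ?_⟩
  have h1 : u ^ d - (-v) ^ d = u ^ d - v ^ d := by rw [hd.neg_pow]
  have h2 : u - (-v) = u + v := by ring
  have := lte_minus_int d p hd0 hp hp2 u (-v) hu (by rw [h1]; exact hne) (by rw [h2]; exact h)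
  rwa [h1, h2] at this

end Pool.Agent.UPre
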