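import Pool.Agent.UPre.Targets2

set_option autoImplicit false

/-! Lifting the exponent for rationals, project UPre, second round. -/

namespace Pool.Agent.UPre

namespace LTEQ_

/-- two rationals with the same valuation have integral representatives prime to `p` -/
theorem repr {p : ℕ} [Fact p.Prime] {x y : ℚ} (hx : x ≠ 0) (hy : y ≠ 0)
    (h : padicValRat p x = padicValRat p y) :
    ∃ (lam : ℚ) (t w : ℤ), lam ≠ 0 ∧ x = lam * t ∧ y = lam * w ∧ ¬ (p : ℤ) ∣ t ∧ ¬ (p : ℤ) ∣ w ∧
      padicValRat p lam = padicValRat p x := by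
  have hp : p.Prime := Fact.out
  set r : ℚ := x / y with hr
  have hr0 : r ≠ 0 := div_ne_zero hx hy
  have hv : padicValRat p r = 0 := by
    rw [hr, padicValRat.div hx hy, h, sub_self]
  have hden : (r.den : ℚ) ≠ 0 := by exact_mod_cast r.den_ne_zero
  have hrd : r * r.den = r.num := Rat.mul_den_eq_num r
  have hxr : x = r * y := by rw [hr]; field_simp
  rw [padicValRat_def] at hv
  have hboth : ¬ ((p : ℤ) ∣ r.num ∧ p ∣ r.den) := by
    rintro ⟨h1, h2⟩
    have h3 : p ∣ Nat.gcd r.num.natAbs r.den := Nat.dvd_gcd (Int.natCast_dvd.1 h1) h2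
    rw [r.reduced] at h3
    exact hp.one_lt.ne' (Nat.dvd_one.1 h3)
  have hnum : ¬ (p : ℤ) ∣ r.num := by
    intro h1
    have h2 : padicValNat p r.den = 0 :=
      padicValNat.eq_zero_of_not_dvd (fun h3 => hboth ⟨h1, h3⟩)
    have h3 : padicValInt p r.num = 0 := by omega
    rcases padicValInt.eq_zero_iff.1 h3 with h4 | h4 | h4
    · exact hp.one_lt.ne' h4
    · exact hr0 (Rat.num_eq_zero.1 h4)
    · exact h4 h1
  have hdn : ¬ (p : ℤ) ∣ (r.den : ℤ) := by
    intro h1
    have h1' : p ∣ r.den := by exact_mod_cast h1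
    have h2 : padicValInt p r.num = 0 := padicValInt.eq_zero_of_not_dvd hnum
    have h3 : padicValNat p r.den = 0 := by omega
    exact (dvd_iff_padicValNat_ne_zero r.den_ne_zero).1 h1' h3
  refine ⟨y / r.den, r.num, (r.den : ℤ), div_ne_zero hy hden, ?_, ?_, hnum, hdn, ?_⟩
  · rw [← hrd, hxr]; field_simp
  · rw [Int.cast_natCast]; field_simp
  · rw [padicValRat.div hy hden, ← h, padicValRat.of_nat]
    have h3 : padicValNat p r.den = 0 :=
      padicValNat.eq_zero_of_not_dvd (fun h4 => hdn (by exact_mod_cast h4))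
    rw [h3]; simp

end LTEQ_

open LTEQ_ in
theorem p_U_LTEQ : T_LTE → U_LTEQ := by
  intro hL d hd hd0 p hp hp2 x y hx hy hv hne
  have : Fact p.Prime := ⟨hp⟩
  obtain ⟨lam, t, w, hlam, hxt, hyw, hpt, hpw, hvl⟩ := repr hx hy hv
  have hpow : x ^ d - y ^ d = lam ^ d * ((t ^ d - w ^ d : ℤ) : ℚ) := by
    rw [hxt, hyw]; push_cast; ring
  have htw : t ^ d - w ^ d ≠ 0 := by
    intro h0
    apply hne
    rw [h0, Int.cast_zero, mul_zero] at hpow
    exact sub_eq_zero.1 hpow
  have hval : padicValRat p (x ^ d - y ^ d) =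
      (d : ℤ) * padicValRat p x + (padicValInt p (t ^ d - w ^ d) : ℤ) := by
    rw [hpow, padicValRat.mul (pow_ne_zero _ hlam) (by exact_mod_cast htw), padicValRat.pow,
      padicValRat.of_int, hvl]
  obtain ⟨hL1, hL2⟩ := hL d hd hd0 p hp hp2 t w hpt htw
  constructor
  · intro hlt
    have h1 : t - w ≠ 0 := by
      intro h0
      apply htw
      rw [sub_eq_zero.1 h0, sub_self]
    have h2 : padicValRat p (x - y) = padicValRat p x + (padicValInt p (t - w) : ℤ) := by
      have : x - y = lam * ((t - w : ℤ) : ℚ) := by rw [hxt, hyw]; push_cast; ring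
      rw [this, padicValRat.mul hlam (by exact_mod_cast h1), padicValRat.of_int, hvl]
    have h3 : (p : ℤ) ∣ t - w := by
      by_contra h4
      rw [h2, padicValInt.eq_zero_of_not_dvd h4] at hlt
      simp at hlt
    rw [hval, hL1 h3, h2]
    push_cast
    ring
  · intro hlt
    have h1 : t + w ≠ 0 := by
      intro h0
      apply htw
      have h5 : t = -w := by linarith
      rw [h5, hd.neg_pow, sub_self]
    have h2 : padicValRat p (x + y) = padicValRat p x + (padicValInt p (t + w) : ℤ) := by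
      have : x + y = lam * ((t + w : ℤ) : ℚ) := by rw [hxt, hyw]; push_cast; ring
      rw [this, padicValRat.mul hlam (by exact_mod_cast h1), padicValRat.of_int, hvl]
    have h3 : (p : ℤ) ∣ t + w := by
      by_contra h4
      rw [h2, padicValInt.eq_zero_of_not_dvd h4] at hlt
      simp at hlt
    rw [hval, hL2 h3, h2]
    push_cast
    ring

end Pool.Agent.UPre
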