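import Pool.Agent.UPre.Targets2

/-! Local dynamics: norms of preperiodic points (U_NORM, U_BADV). -/

namespace Pool.Agent.UPre

open Function

namespace NORM_

variable {p : ℕ} [Fact p.Prime]

lemma npow (x : ℚ) (n : ℕ) : padicNorm p (x ^ n) = padicNorm p x ^ n :=
  IsAbsoluteValue.abv_pow (padicNorm p) x n

/-- escape condition -/
def Esc (p : ℕ) (a : ℚ) (d : ℕ) (c x : ℚ) : Prop :=
  1 < padicNorm p a * padicNorm p x ^ (d - 1) ∧ padicNorm p c < padicNorm p a * padicNorm p x ^ d

lemma pow_split {d : ℕ} (hd : 2 ≤ d) (r : ℚ) : r ^ d = r ^ (d - 1) * r := by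
  obtain ⟨e, rfl⟩ : ∃ e, d = e + 1 := ⟨d - 1, by omega⟩
  simp [pow_succ]

lemma esc_step {d : ℕ} (hd : 2 ≤ d) {a c x : ℚ} (h : Esc p a d c x) :
    Esc p a d c (G a d c x) ∧ padicNorm p x < padicNorm p (G a d c x) := by
  obtain ⟨h1, h2⟩ := h
  have hA : 0 ≤ padicNorm p a := padicNorm.nonneg a
  have hr0 : 0 ≤ padicNorm p x := padicNorm.nonneg x
  have hd1 : d - 1 ≠ 0 := by omega
  have hr : 0 < padicNorm p x := by
    rcases hr0.lt_or_eq with h | h
    · exact h
    · rw [← h, zero_pow hd1, mul_zero] at h1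
      linarith
  have hG : padicNorm p (G a d c x) = padicNorm p a * padicNorm p x ^ d := by
    show padicNorm p (a * x ^ d + c) = _
    have e1 : padicNorm p (a * x ^ d) = padicNorm p a * padicNorm p x ^ d := by
      rw [padicNorm.mul, npow]
    rw [padicNorm.add_eq_max_of_ne, e1, max_eq_left h2.le]
    rw [e1]; exact h2.ne'
  have hlt : padicNorm p x < padicNorm p (G a d c x) := by
    rw [hG, pow_split hd, ← mul_assoc]
    nlinarith
  have h1' : 1 < padicNorm p a * padicNorm p (G a d c x) ^ (d - 1) :=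
    lt_of_lt_of_le h1 (mul_le_mul_of_nonneg_left (pow_le_pow_left₀ hr0 hlt.le _) hA)
  refine ⟨⟨h1', ?_⟩, hlt⟩
  have hpos : 0 < padicNorm p (G a d c x) := hr.trans hlt
  calc padicNorm p c < padicNorm p a * padicNorm p x ^ d := h2
    _ = padicNorm p (G a d c x) := hG.symm
    _ = 1 * padicNorm p (G a d c x) := (one_mul _).symm
    _ ≤ (padicNorm p a * padicNorm p (G a d c x) ^ (d - 1)) * padicNorm p (G a d c x) :=
        mul_le_mul_of_nonneg_right h1'.le hpos.le
    _ = padicNorm p a * padicNorm p (G a d c x) ^ d := by rw [pow_split hd, mul_assoc]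

lemma esc_iter {d : ℕ} (hd : 2 ≤ d) {a c x : ℚ} (h : Esc p a d c x) (k : ℕ) :
    Esc p a d c ((G a d c)^[k] x) := by
  induction k with
  | zero => simpa using h
  | succ k ih => rw [iterate_succ_apply']; exact (esc_step hd ih).1

lemma esc_lt {d : ℕ} (hd : 2 ≤ d) {a c x : ℚ} (h : Esc p a d c x) (k : ℕ) :
    padicNorm p x < padicNorm p ((G a d c)^[k + 1] x) := by
  induction k with
  | zero => simpa using (esc_step hd h).2
  | succ k ih =>
    rw [iterate_succ_apply']
    exact ih.trans (esc_step hd (esc_iter hd h (k + 1))).2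

lemma esc_not {d : ℕ} (hd : 2 ≤ d) {a c x : ℚ} (h : Esc p a d c x) : ¬ PreG a d c x := by
  rintro ⟨k, hk⟩
  have h2 := esc_iter hd h k
  obtain ⟨m, hm, hp⟩ := hk
  obtain ⟨j, rfl⟩ : ∃ j, m = j + 1 := ⟨m - 1, by omega⟩
  have := esc_lt hd h2 j
  rw [hp.eq] at this
  exact lt_irrefl _ this

lemma pre_step {d : ℕ} {a c x : ℚ} (h : PreG a d c x) : PreG a d c (G a d c x) := by
  obtain ⟨k, hk⟩ := h
  refine ⟨k, ?_⟩
  rw [← iterate_succ_apply, iterate_succ_apply']
  obtain ⟨m, hm, hp⟩ := hk
  exact ⟨m, hm, hp.apply⟩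

end NORM_

open NORM_ in
theorem p_U_NORM : U_NORM := by
  intro p hp d hd a c x ha hx
  have : Fact p.Prime := ⟨hp⟩
  set A := padicNorm p a with hAdef
  set C := padicNorm p c with hCdef
  have hA : 0 < A := lt_of_le_of_ne (padicNorm.nonneg a) (Ne.symm (padicNorm.nonzero ha))
  have hC : 0 ≤ C := padicNorm.nonneg c
  have hd1 : d - 1 ≠ 0 := by omega
  have hd0 : d ≠ 0 := by omega
  constructor
  · intro hg
    have hg' : A * C ^ (d - 1) ≤ 1 := hg
    by_contra hcon
    push Not at hcon
    have hr0 : 0 ≤ padicNorm p x := padicNorm.nonneg x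
    have hr : 0 < padicNorm p x := by
      rcases hr0.lt_or_eq with h | h
      · exact h
      · rw [← h, zero_pow hd1, mul_zero] at hcon
        linarith
    have hcx : C < padicNorm p x := by
      by_contra h
      push Not at h
      have := mul_le_mul_of_nonneg_left (pow_le_pow_left₀ hr0 h (d - 1)) hA.le
      linarith
    have h2 : C < A * padicNorm p x ^ d := by
      rw [pow_split hd, ← mul_assoc]
      nlinarith
    exact esc_not hd ⟨hcon, h2⟩ hx
  · intro hb
    have hb' : 1 < A * C ^ (d - 1) := not_le.mp hb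
    have hC0 : 0 < C := by
      rcases hC.lt_or_eq with h | h
      · exact h
      · rw [← h, zero_pow hd1, mul_zero] at hb'
        linarith
    have key : ∀ y : ℚ, PreG a d c y → ¬ C < A * padicNorm p y ^ d := by
      intro y hy h
      have hy0 : 0 ≤ padicNorm p y := padicNorm.nonneg y
      have h1 : 1 < A * padicNorm p y ^ (d - 1) := by
        by_contra h1
        push Not at h1
        have h3 : A * padicNorm p y ^ d ≤ padicNorm p y := by
          rw [pow_split hd, ← mul_assoc]
          nlinarith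
        have h4 : C ≤ padicNorm p y := (h.trans_le h3).le
        have := mul_le_mul_of_nonneg_left (pow_le_pow_left₀ hC h4 (d - 1)) hA.le
        linarith
      exact esc_not hd ⟨h1, h⟩ hy
    have h1 : ¬ C < A * padicNorm p x ^ d := key x hx
    have h2 : ¬ A * padicNorm p x ^ d < C := by
      intro h
      have hG : padicNorm p (G a d c x) = C := by
        show padicNorm p (a * x ^ d + c) = _
        have e1 : padicNorm p (a * x ^ d) = A * padicNorm p x ^ d := by
          rw [padicNorm.mul, npow]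
        rw [padicNorm.add_eq_max_of_ne, e1, max_eq_right h.le]
        rw [e1]; exact h.ne
      apply key _ (pre_step hx)
      rw [hG, pow_split hd, ← mul_assoc]
      nlinarith
    have heq : A * padicNorm p x ^ d = C := le_antisymm (not_lt.mp h1) (not_lt.mp h2)
    have hx0 : x ≠ 0 := by
      rintro rfl
      rw [padicNorm.zero, zero_pow hd0, mul_zero] at heq
      exact hC0.ne heq
    refine ⟨heq, ?_, hx0⟩
    have hr : 0 < padicNorm p x :=
      lt_of_le_of_ne (padicNorm.nonneg x) (Ne.symm (padicNorm.nonzero hx0))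
    have hpow : (A * padicNorm p x ^ (d - 1)) ^ d = A * C ^ (d - 1) := by
      obtain ⟨e, rfl⟩ : ∃ e, d = e + 1 := ⟨d - 1, by omega⟩
      rw [← heq]
      simp only [Nat.add_sub_cancel]
      ring
    by_contra hcon
    push Not at hcon
    have : (A * padicNorm p x ^ (d - 1)) ^ d ≤ 1 := pow_le_one₀ (by positivity) hcon
    linarith

theorem p_U_BADV : U_BADV := by
  intro p hp d hd a c x y ha hx hy hb
  have : Fact p.Prime := ⟨hp⟩
  obtain ⟨h1, -, hx0⟩ := (p_U_NORM p hp d hd a c x ha hx).2 hb
  obtain ⟨h2, -, hy0⟩ := (p_U_NORM p hp d hd a c y ha hy).2 hb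
  have hA : 0 < padicNorm p a := lt_of_le_of_ne (padicNorm.nonneg a) (Ne.symm (padicNorm.nonzero ha))
  have h3 : padicNorm p x ^ d = padicNorm p y ^ d := by
    have := h1.trans h2.symm
    exact mul_left_cancel₀ hA.ne' this
  have h4 : padicNorm p x = padicNorm p y :=
    (pow_left_inj₀ (padicNorm.nonneg x) (padicNorm.nonneg y) (by omega)).mp h3
  rw [padicNorm.eq_zpow_of_nonzero hx0, padicNorm.eq_zpow_of_nonzero hy0] at h4
  have hp1 : (1 : ℚ) < p := by exact_mod_cast hp.one_lt
  have := zpow_right_injective₀ (by linarith : (0 : ℚ) < p) hp1.ne' h4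
  linarith

end Pool.Agent.UPre
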