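import Pool.Agent.UPre.Targets

/-! Pair lemma, project UPre. -/

namespace Pool.Agent.UPre

namespace PAIR_

theorem val_eq_zero {p : ℕ} {z : ℤ} (h : ¬ (p : ℤ) ∣ z) : padicValInt p z = 0 := by
  unfold padicValInt
  exact padicValNat.eq_zero_of_not_dvd (fun h' => h (Int.natCast_dvd.2 h'))

theorem val_two_mul {p : ℕ} (hp : p.Prime) (h2 : p ≠ 2) {z : ℤ} (hz : z ≠ 0) :
    padicValInt p (2 * z) = padicValInt p z := by
  have : Fact p.Prime := ⟨hp⟩
  rw [padicValInt.mul two_ne_zero hz]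
  have : padicValInt p 2 = 0 := by
    apply val_eq_zero
    intro h
    have h' : p ∣ 2 := by exact_mod_cast h
    exact h2 ((Nat.prime_dvd_prime_iff_eq hp Nat.prime_two).1 h')
  omega

theorem val_half {p : ℕ} (hp : p.Prime) (h2 : p ≠ 2) {d : ℕ} (hd : 4 ∣ d) (hd0 : d ≠ 0) :
    padicValNat p d = padicValNat p (d / 2) := by
  have : Fact p.Prime := ⟨hp⟩
  obtain ⟨e, rfl⟩ := hd
  have he : e ≠ 0 := by rintro rfl; simp at hd0
  have h1 : 4 * e / 2 = 2 * e := by omega
  have h3 : 4 * e = 2 * (2 * e) := by ring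
  rw [h1, h3, padicValNat.mul two_ne_zero (by omega)]
  have : padicValNat p 2 = 0 := by
    apply padicValNat.eq_zero_of_not_dvd
    intro h
    exact h2 ((Nat.prime_dvd_prime_iff_eq hp Nat.prime_two).1 h)
  omega

end PAIR_

open PAIR_ in
theorem p_PAIR : T_L1 → T_CUBE → T_LTE → T_PAIR := by
  intro hL1 hC hL d hd t w ht hw hco h4 hne hval
  obtain ⟨hd4, hd3, hdp⟩ := hd
  have hd0 : d ≠ 0 := by rintro rfl; simp at hd3
  obtain ⟨k, hk⟩ := h4
  have htk : t = w + 4 * k := by linarith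
  have hk0 : k ≠ 0 := by
    rintro rfl
    exact hne (by linarith)
  -- A and B
  have hA : Odd (w + 2 * k) := hw.add_even (even_two_mul k)
  have hB : Odd (w ^ 2 + 4 * k * w + 8 * k ^ 2) := by
    have e1 : w ^ 2 + 4 * k * w + 8 * k ^ 2 = w ^ 2 + 2 * (2 * k * w + 4 * k ^ 2) := by ring
    rw [e1]
    exact (hw.pow).add_even (even_two_mul _)
  have hA0 : w + 2 * k ≠ 0 := by
    intro h; rw [h] at hA; exact (by decide : ¬ Odd (0 : ℤ)) hA
  have hB0 : w ^ 2 + 4 * k * w + 8 * k ^ 2 ≠ 0 := by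
    intro h; rw [h] at hB; exact (by decide : ¬ Odd (0 : ℤ)) hB
  have hsum : t + w = 2 * (w + 2 * k) := by rw [htk]; ring
  have hsq : t ^ 2 + w ^ 2 = 2 * (w ^ 2 + 4 * k * w + 8 * k ^ 2) := by rw [htk]; ring
  have hpow : t ^ d - w ^ d ≠ 0 := by
    intro h
    have h1 : t ^ d = w ^ d := by linarith
    have h2 : t.natAbs ^ d = w.natAbs ^ d := by
      rw [← Int.natAbs_pow, ← Int.natAbs_pow, h1]
    have h3 := Nat.pow_left_injective hd0 h2
    rcases Int.natAbs_eq_natAbs_iff.1 h3 with h4 | h4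
    · exact hne h4
    · apply hA0
      have : t + w = 0 := by linarith
      linarith
  have hdeven : Even d := by
    obtain ⟨e, rfl⟩ := hd4
    exact ⟨2 * e, by ring⟩
  have hd2even : Even (d / 2) := by
    obtain ⟨e, rfl⟩ := hd4
    exact ⟨e, by omega⟩
  have hd20 : d / 2 ≠ 0 := by
    obtain ⟨e, rfl⟩ := hd4
    omega
  -- primes
  have hnt : ∀ p : ℕ, p.Prime → (p : ℤ) ∣ t → (p : ℤ) ∣ w → False := by
    intro p hp h1 h2
    have h3 := hco.isUnit_of_dvd' h1 h2
    exact (Nat.prime_iff_prime_int.1 hp).not_isUnit h3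
  have hcubeA : ∀ p : ℕ, p.Prime → 3 ∣ padicValInt p (w + 2 * k) := by
    intro p hp
    by_cases hdvd : (p : ℤ) ∣ w + 2 * k
    · have hp2 : p ≠ 2 := by
        rintro rfl
        exact (Int.not_even_iff_odd.2 hA) (even_iff_two_dvd.2 (by exact_mod_cast hdvd))
      have h1 : (p : ℤ) ∣ t + w := by rw [hsum]; exact hdvd.mul_left _
      have h2 := hval p hp hp2 (h1.mul_right _)
      have h3 := (hL d hdeven hd0 p hp hp2 t w
        (fun h => hnt p hp h ((dvd_add_right h).1 h1)) hpow).2 h1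
      rw [h3, hsum, val_two_mul hp hp2 hA0] at h2
      exact (Nat.dvd_add_left (hdp p hp hp2)).1 h2
    · rw [val_eq_zero hdvd]; exact dvd_zero _
  have hcubeB : ∀ p : ℕ, p.Prime → 3 ∣ padicValInt p (w ^ 2 + 4 * k * w + 8 * k ^ 2) := by
    intro p hp
    by_cases hdvd : (p : ℤ) ∣ w ^ 2 + 4 * k * w + 8 * k ^ 2
    · have hp2 : p ≠ 2 := by
        rintro rfl
        exact (Int.not_even_iff_odd.2 hB) (even_iff_two_dvd.2 (by exact_mod_cast hdvd))
      have h1 : (p : ℤ) ∣ t ^ 2 + w ^ 2 := by rw [hsq]; exact hdvd.mul_left _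
      have h2 := hval p hp hp2 (h1.mul_left _)
      have hpi := Nat.prime_iff_prime_int.1 hp
      have hpw : (t ^ 2) ^ (d / 2) - (w ^ 2) ^ (d / 2) = t ^ d - w ^ d := by
        rw [← pow_mul, ← pow_mul]
        have : 2 * (d / 2) = d := by
          obtain ⟨e, rfl⟩ := hd4
          omega
        rw [this]
      have h3 := (hL (d / 2) hd2even hd20 p hp hp2 (t ^ 2) (w ^ 2)
        (fun h => hnt p hp (hpi.dvd_of_dvd_pow h)
          (hpi.dvd_of_dvd_pow ((dvd_add_right h).1 h1))) (by rw [hpw]; exact hpow)).2 h1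
      rw [hpw] at h3
      rw [h3, hsq, val_two_mul hp hp2 hB0, ← val_half hp hp2 hd4 hd0] at h2
      exact (Nat.dvd_add_left (hdp p hp hp2)).1 h2
    · rw [val_eq_zero hdvd]; exact dvd_zero _
  obtain ⟨S, hS⟩ := hC _ hA0 hcubeA
  obtain ⟨T, hT⟩ := hC _ hB0 hcubeB
  have hSodd : Odd S := by
    rw [hS] at hA
    exact Int.odd_pow.1 hA |>.resolve_right (by norm_num)
  have hTodd : Odd T := by
    rw [hT] at hB
    exact Int.odd_pow.1 hB |>.resolve_right (by norm_num)
  have hcoAB : IsCoprime (w + 2 * k) (w ^ 2 + 4 * k * w + 8 * k ^ 2) := by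
    have h1 : IsCoprime w k := by
      rw [htk] at hco
      have h2 : IsCoprime (4 * k) w := by
        have h3 : IsCoprime (w * 1 + 4 * k) w := by simpa using hco
        exact (IsCoprime.mul_add_left_left_iff).1 h3
      exact (h2.of_mul_left_right).symm
    have h2 : IsCoprime (w + 2 * k) k := by
      have := IsCoprime.add_mul_left_left h1 2
      simpa [mul_comm] using this
    have h3 : IsCoprime (w + 2 * k) 2 := by
      exact (Int.isCoprime_iff_gcd_eq_one.2 (by
        have := Int.gcd_comm (w + 2 * k) 2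
        rw [this]
        exact Int.isCoprime_iff_gcd_eq_one.1 (Int.isCoprime_two_left.2 hA)))
    have h4 : IsCoprime (w + 2 * k) ((2 * k) ^ 2) := (h3.mul_right h2).pow_right
    have h5 := IsCoprime.add_mul_left_right h4 (w + 2 * k)
    have e1 : (2 * k) ^ 2 + (w + 2 * k) * (w + 2 * k) = w ^ 2 + 4 * k * w + 8 * k ^ 2 := by ring
    rwa [e1] at h5
  have hcoST : IsCoprime S T := by
    rw [hS, hT] at hcoAB
    exact (IsCoprime.pow_iff (by norm_num) (by norm_num)).1 hcoAB
  have hY : (2 * k) ^ 2 = T ^ 3 - S ^ 6 := by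
    have e1 : S ^ 6 = (S ^ 3) ^ 2 := by ring
    rw [e1, ← hS, ← hT]; ring
  have := hL1 S T (2 * k) hSodd hTodd hcoST hY
  exact hk0 (by linarith)

end Pool.Agent.UPre
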