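import Pool.Agent.UPre.Targets2
import Pool.Agent.UPre.PAIR

/-! Opposite parity lemma, project UPre, second round. -/

namespace Pool.Agent.UPre

theorem p_U_OPP : V_PWR → T_LTE → U_OPP := by
  intro hP hL q d hq hd0' hd4 hPOW t w hco hodd hS
  by_contra hcon
  push Not at hcon
  obtain ⟨ht0, hw0⟩ := hcon
  have hd0 : d ≠ 0 := by omega
  have hdeven : Even d := by
    obtain ⟨e, rfl⟩ := hd4
    exact ⟨2 * e, by ring⟩
  have hd2even : Even (d / 2) := by
    obtain ⟨e, rfl⟩ := hd4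
    exact ⟨e, by omega⟩
  have hd20 : d / 2 ≠ 0 := by
    obtain ⟨e, rfl⟩ := hd4
    omega
  have hne0 : ∀ z : ℤ, Odd z → z ≠ 0 := by
    intro z hz h
    rw [h] at hz
    exact (by decide : ¬ Odd (0 : ℤ)) hz
  have hA : Odd (t - w) := by
    have e1 : t - w = (t + w) + 2 * (-w) := by ring
    rw [e1]
    exact hodd.add_even (even_two_mul _)
  have hB : Odd (t ^ 2 + w ^ 2) := by
    have e1 : t ^ 2 + w ^ 2 = (t + w) ^ 2 + 2 * (-(t * w)) := by ring
    rw [e1]
    exact hodd.pow.add_even (even_two_mul _)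
  have hA0 := hne0 _ hA
  have hC0 := hne0 _ hodd
  have hB0 := hne0 _ hB
  have hpow : t ^ d - w ^ d ≠ 0 := by
    intro h
    have h1 : t ^ d = w ^ d := by linarith
    have h2 : t.natAbs ^ d = w.natAbs ^ d := by
      rw [← Int.natAbs_pow, ← Int.natAbs_pow, h1]
    have h3 := Nat.pow_left_injective hd0 h2
    rcases Int.natAbs_eq_natAbs_iff.1 h3 with h4 | h4
    · exact hA0 (by rw [h4]; ring)
    · exact hC0 (by rw [h4]; ring)
  have hnt : ∀ p : ℕ, p.Prime → (p : ℤ) ∣ t → (p : ℤ) ∣ w → False := by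
    intro p hp h1 h2
    have h3 := hco.isUnit_of_dvd' h1 h2
    exact (Nat.prime_iff_prime_int.1 hp).not_isUnit h3
  have hp2of : ∀ (p : ℕ) (z : ℤ), Odd z → (p : ℤ) ∣ z → p ≠ 2 := by
    intro p z hz hdvd h
    subst h
    exact (Int.not_even_iff_odd.2 hz) (even_iff_two_dvd.2 (by exact_mod_cast hdvd))
  have q1 : ∀ p : ℕ, p.Prime → q ∣ padicValInt p (t - w) := by
    intro p hp
    by_cases hdvd : (p : ℤ) ∣ t - w
    · have hp2 := hp2of p _ hA hdvd
      have h1 : (p : ℤ) ∣ t ^ d - w ^ d := hdvd.trans (sub_dvd_pow_sub_pow _ _ _)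
      have h2 := hS p hp hp2 h1
      have h3 := (hL d hdeven hd0 p hp hp2 t w
        (fun h => hnt p hp h ((dvd_sub_right h).1 hdvd)) hpow).1 hdvd
      rw [h3] at h2
      push_cast at h2
      rw [add_sub_cancel_right] at h2
      exact_mod_cast h2
    · rw [PAIR_.val_eq_zero hdvd]; exact dvd_zero _
  have q2 : ∀ p : ℕ, p.Prime → q ∣ padicValInt p (t + w) := by
    intro p hp
    by_cases hdvd : (p : ℤ) ∣ t + w
    · have hp2 := hp2of p _ hodd hdvd
      have h1 : (p : ℤ) ∣ t ^ d - w ^ d := by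
        have h5 : t + w ∣ t ^ d - w ^ d := by
          have := sub_dvd_pow_sub_pow t (-w) d
          rwa [hdeven.neg_pow, sub_neg_eq_add] at this
        exact hdvd.trans h5
      have h2 := hS p hp hp2 h1
      have h3 := (hL d hdeven hd0 p hp hp2 t w
        (fun h => hnt p hp h ((dvd_add_right h).1 hdvd)) hpow).2 hdvd
      rw [h3] at h2
      push_cast at h2
      rw [add_sub_cancel_right] at h2
      exact_mod_cast h2
    · rw [PAIR_.val_eq_zero hdvd]; exact dvd_zero _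
  have q3 : ∀ p : ℕ, p.Prime → q ∣ padicValInt p (t ^ 2 + w ^ 2) := by
    intro p hp
    by_cases hdvd : (p : ℤ) ∣ t ^ 2 + w ^ 2
    · have hp2 := hp2of p _ hB hdvd
      have hpi := Nat.prime_iff_prime_int.1 hp
      have hpw : (t ^ 2) ^ (d / 2) - (w ^ 2) ^ (d / 2) = t ^ d - w ^ d := by
        rw [← pow_mul, ← pow_mul]
        have : 2 * (d / 2) = d := by
          obtain ⟨e, rfl⟩ := hd4
          omega
        rw [this]
      have h1 : (p : ℤ) ∣ t ^ d - w ^ d := by
        have h5 : t ^ 2 + w ^ 2 ∣ t ^ d - w ^ d := by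
          have := sub_dvd_pow_sub_pow (t ^ 2) (-(w ^ 2)) (d / 2)
          rwa [hd2even.neg_pow, sub_neg_eq_add, hpw] at this
        exact hdvd.trans h5
      have h2 := hS p hp hp2 h1
      have h3 := (hL (d / 2) hd2even hd20 p hp hp2 (t ^ 2) (w ^ 2)
        (fun h => hnt p hp (hpi.dvd_of_dvd_pow h)
          (hpi.dvd_of_dvd_pow ((dvd_add_right h).1 hdvd))) (by rw [hpw]; exact hpow)).2 hdvd
      rw [hpw] at h3
      rw [h3, PAIR_.val_half hp hp2 hd4 hd0] at h2
      push_cast at h2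
      rw [add_sub_cancel_right] at h2
      exact_mod_cast h2
    · rw [PAIR_.val_eq_zero hdvd]; exact dvd_zero _
  obtain ⟨x, hx⟩ := hP q hq _ hA0 q1
  obtain ⟨y, hy⟩ := hP q hq _ hC0 q2
  obtain ⟨z, hz⟩ := hP q hq _ hB0 q3
  have hq0 : q ≠ 0 := by
    rintro rfl
    exact (by decide : ¬ Odd 0) hq
  have hodd_of : ∀ u v : ℤ, Odd u → u = v ^ q → Odd v := by
    intro u v hu huv
    rw [huv] at hu
    exact (Int.odd_pow.1 hu).resolve_right hq0
  have hxo := hodd_of _ _ hA hx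
  have hyo := hodd_of _ _ hodd hy
  have hzo := hodd_of _ _ hB hz
  have hcop : IsCoprime ((t - w) * (t + w)) (t ^ 2 + w ^ 2) := by
    have h1 : IsCoprime ((t - w) * (t + w)) 2 := by
      rw [Int.isCoprime_iff_gcd_eq_one, Int.gcd_comm, ← Int.isCoprime_iff_gcd_eq_one,
        Int.isCoprime_two_left]
      exact hA.mul hodd
    have h2 : IsCoprime ((t - w) * (t + w)) (w ^ 2) := by
      have h3 : IsCoprime (t ^ 2) (w ^ 2) := hco.pow
      have h4 := IsCoprime.add_mul_left_left h3 (-1)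
      have e1 : t ^ 2 + w ^ 2 * (-1) = (t - w) * (t + w) := by ring
      rwa [e1] at h4
    have h5 : IsCoprime ((t - w) * (t + w)) (2 * w ^ 2) := h1.mul_right h2
    have h6 := IsCoprime.add_mul_left_right h5 1
    have e2 : 2 * w ^ 2 + (t - w) * (t + w) * 1 = t ^ 2 + w ^ 2 := by ring
    rwa [e2] at h6
  have hcop2 : IsCoprime (x * y) (z ^ 2) := by
    rw [hx, hy, hz, ← mul_pow] at hcop
    exact ((IsCoprime.pow_iff (Nat.pos_of_ne_zero hq0) (Nat.pos_of_ne_zero hq0)).1 hcop).pow_right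
  have key : (z ^ 2) ^ q = (x * y) ^ (2 * q) + 1 * (2 * (t * w)) ^ 2 := by
    have e1 : (z ^ 2) ^ q = (z ^ q) ^ 2 := by rw [← pow_mul, ← pow_mul, mul_comm]
    have e2 : (x * y) ^ (2 * q) = (x ^ q * y ^ q) ^ 2 := by
      rw [← mul_pow, ← pow_mul, mul_comm q 2]
    rw [e1, e2, ← hx, ← hy, ← hz]
    ring
  have := hPOW (x * y) (z ^ 2) (2 * (t * w)) (hxo.mul hyo) hzo.pow (even_two_mul _) hcop2 key
  rcases mul_eq_zero.1 this with h | h
  · norm_num at h
  · rcases mul_eq_zero.1 h with h | h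
    · exact ht0 h
    · exact hw0 h

end Pool.Agent.UPre
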