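import Pool.Agent.UPre.Targets2
import Pool.Agent.UPre.PAIR

set_option autoImplicit false

/-! Pair lemma for `4 ∣ d`, project UPre, second round. -/

namespace Pool.Agent.UPre

namespace PAIR4_

open PAIR_

/-- an odd prime dividing `t + w` (with `t, w` coprime) does not divide `t - w` -/
theorem not_dvd_sub {p : ℕ} (hp : p.Prime) (hp2 : p ≠ 2) {t w : ℤ} (hco : IsCoprime t w)
    (h : (p : ℤ) ∣ t + w) : ¬ (p : ℤ) ∣ t - w := by
  intro h'
  have hpi := Nat.prime_iff_prime_int.1 hp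
  have hp2' : ¬ (p : ℤ) ∣ 2 := by
    intro h2
    have h2' : p ∣ 2 := by exact_mod_cast h2
    exact hp2 ((Nat.prime_dvd_prime_iff_eq hp Nat.prime_two).1 h2')
  have h1 : (p : ℤ) ∣ 2 * t := by
    have := dvd_add h h'
    have e : t + w + (t - w) = 2 * t := by ring
    rwa [e] at this
  have h2 : (p : ℤ) ∣ 2 * w := by
    have := dvd_sub h h'
    have e : t + w - (t - w) = 2 * w := by ring
    rwa [e] at this
  have h3 := hco.isUnit_of_dvd' ((hpi.dvd_or_dvd h1).resolve_left hp2')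
    ((hpi.dvd_or_dvd h2).resolve_left hp2')
  exact hpi.not_isUnit h3

/-- an odd prime dividing `t ^ 2 + w ^ 2` (with `t, w` coprime) does not divide `t - w` -/
theorem not_dvd_sub_sq {p : ℕ} (hp : p.Prime) (hp2 : p ≠ 2) {t w : ℤ} (hco : IsCoprime t w)
    (h : (p : ℤ) ∣ t ^ 2 + w ^ 2) : ¬ (p : ℤ) ∣ t - w := by
  intro h'
  refine not_dvd_sub hp hp2 (hco.pow (m := 2) (n := 2)) h ?_
  have e : t ^ 2 - w ^ 2 = (t - w) * (t + w) := by ring
  rw [e]
  exact h'.mul_right _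

end PAIR4_

open PAIR_ PAIR4_ in
theorem p_U_PAIR4 : V_PWR → T_LTE → U_PAIR4 := by
  intro hC hL q d hq hdpos hd4 hPOW t w ht hw hco h4 hne hval
  have hd0 : d ≠ 0 := hdpos.ne'
  have hq0 : q ≠ 0 := by rintro rfl; exact (by decide : ¬ Odd 0) hq
  obtain ⟨k, hk⟩ := h4
  have htk : t = w + 4 * k := by linarith
  have hk0 : k ≠ 0 := by
    rintro rfl
    exact hne (by linarith)
  have hA : Odd (w + 2 * k) := hw.add_even (even_two_mul k)
  have hB : Odd (w ^ 2 + 4 * k * w + 8 * k ^ 2) := by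
    have e1 : w ^ 2 + 4 * k * w + 8 * k ^ 2 = w ^ 2 + 2 * (2 * k * w + 4 * k ^ 2) := by ring
    rw [e1]
    exact (hw.pow).add_even (even_two_mul _)
  have hA0 : w + 2 * k ≠ 0 := by
    intro h; rw [h] at hA; exact (by decide : ¬ Odd (0 : ℤ)) hA
  have hB0 : w ^ 2 + 4 * k * w + 8 * k ^ 2 ≠ 0 := by
    intro h; rw [h] at hB; exact (by decide : ¬ Odd (0 : ℤ)) hB
  have hsum : t + w = 2 * (w + 2 * k) := by rw [htk]; ring
  have hsq : t ^ 2 + w ^ 2 = 2 * (w ^ 2 + 4 * k * w + 8 * k ^ 2) := by rw [htk]; ring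
  have hpow : t ^ d - w ^ d ≠ 0 := by
    intro h
    have h1 : t ^ d = w ^ d := by linarith
    have h2 : t.natAbs ^ d = w.natAbs ^ d := by
      rw [← Int.natAbs_pow, ← Int.natAbs_pow, h1]
    have h3 := Nat.pow_left_injective hd0 h2
    rcases Int.natAbs_eq_natAbs_iff.1 h3 with h4 | h4
    · exact hne h4
    · apply hA0
      have : t + w = 0 := by linarith
      linarith
  have hdeven : Even d := by
    obtain ⟨e, rfl⟩ := hd4
    exact ⟨2 * e, by ring⟩
  have hd2even : Even (d / 2) := by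
    obtain ⟨e, rfl⟩ := hd4
    exact ⟨e, by omega⟩
  have hd2eq : 2 * (d / 2) = d := by
    obtain ⟨e, rfl⟩ := hd4
    omega
  have hd20 : d / 2 ≠ 0 := by omega
  have hnt : ∀ p : ℕ, p.Prime → (p : ℤ) ∣ t → (p : ℤ) ∣ w → False := by
    intro p hp h1 h2
    have h3 := hco.isUnit_of_dvd' h1 h2
    exact (Nat.prime_iff_prime_int.1 hp).not_isUnit h3
  have hdvdpow : (t + w) ∣ t ^ d - w ^ d ∧ (t ^ 2 + w ^ 2) ∣ t ^ d - w ^ d := by
    have hpw : (t ^ 2) ^ (d / 2) - (w ^ 2) ^ (d / 2) = t ^ d - w ^ d := by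
      rw [← pow_mul, ← pow_mul, hd2eq]
    constructor
    · have h1 : t - (-w) ∣ t ^ d - (-w) ^ d := sub_dvd_pow_sub_pow t (-w) d
      rwa [hdeven.neg_pow, sub_neg_eq_add] at h1
    · have h1 : t ^ 2 - (-(w ^ 2)) ∣ (t ^ 2) ^ (d / 2) - (-(w ^ 2)) ^ (d / 2) :=
        sub_dvd_pow_sub_pow _ _ _
      rwa [hd2even.neg_pow, sub_neg_eq_add, hpw] at h1
  have hcubeA : ∀ p : ℕ, p.Prime → q ∣ padicValInt p (w + 2 * k) := by
    intro p hp
    by_cases hdvd : (p : ℤ) ∣ w + 2 * k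
    · have hp2 : p ≠ 2 := by
        rintro rfl
        exact (Int.not_even_iff_odd.2 hA) (even_iff_two_dvd.2 (by exact_mod_cast hdvd))
      have h1 : (p : ℤ) ∣ t + w := by rw [hsum]; exact hdvd.mul_left _
      have h2 := hval p hp hp2 (not_dvd_sub hp hp2 hco h1) (h1.trans hdvdpow.1)
      have h3 := (hL d hdeven hd0 p hp hp2 t w
        (fun h => hnt p hp h ((dvd_add_right h).1 h1)) hpow).2 h1
      rw [h3, hsum, val_two_mul hp hp2 hA0, Nat.cast_add, add_sub_cancel_right] at h2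
      exact_mod_cast h2
    · rw [val_eq_zero hdvd]; exact dvd_zero _
  have hcubeB : ∀ p : ℕ, p.Prime → q ∣ padicValInt p (w ^ 2 + 4 * k * w + 8 * k ^ 2) := by
    intro p hp
    by_cases hdvd : (p : ℤ) ∣ w ^ 2 + 4 * k * w + 8 * k ^ 2
    · have hp2 : p ≠ 2 := by
        rintro rfl
        exact (Int.not_even_iff_odd.2 hB) (even_iff_two_dvd.2 (by exact_mod_cast hdvd))
      have h1 : (p : ℤ) ∣ t ^ 2 + w ^ 2 := by rw [hsq]; exact hdvd.mul_left _
      have h2 := hval p hp hp2 (not_dvd_sub_sq hp hp2 hco h1) (h1.trans hdvdpow.2)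
      have hpi := Nat.prime_iff_prime_int.1 hp
      have hpw : (t ^ 2) ^ (d / 2) - (w ^ 2) ^ (d / 2) = t ^ d - w ^ d := by
        rw [← pow_mul, ← pow_mul, hd2eq]
      have h3 := (hL (d / 2) hd2even hd20 p hp hp2 (t ^ 2) (w ^ 2)
        (fun h => hnt p hp (hpi.dvd_of_dvd_pow h)
          (hpi.dvd_of_dvd_pow ((dvd_add_right h).1 h1))) (by rw [hpw]; exact hpow)).2 h1
      rw [hpw] at h3
      rw [h3, hsq, val_two_mul hp hp2 hB0, ← val_half hp hp2 hd4 hd0, Nat.cast_add,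
        add_sub_cancel_right] at h2
      exact_mod_cast h2
    · rw [val_eq_zero hdvd]; exact dvd_zero _
  obtain ⟨S, hS⟩ := hC q hq _ hA0 hcubeA
  obtain ⟨T, hT⟩ := hC q hq _ hB0 hcubeB
  have hSodd : Odd S := by
    rw [hS] at hA
    exact Int.odd_pow.1 hA |>.resolve_right hq0
  have hTodd : Odd T := by
    rw [hT] at hB
    exact Int.odd_pow.1 hB |>.resolve_right hq0
  have hcoAB : IsCoprime (w + 2 * k) (w ^ 2 + 4 * k * w + 8 * k ^ 2) := by
    have h1 : IsCoprime w k := by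
      rw [htk] at hco
      have h2 : IsCoprime (4 * k) w := by
        have h3 : IsCoprime (w * 1 + 4 * k) w := by simpa using hco
        exact (IsCoprime.mul_add_left_left_iff).1 h3
      exact (h2.of_mul_left_right).symm
    have h2 : IsCoprime (w + 2 * k) k := by
      have := IsCoprime.add_mul_left_left h1 2
      simpa [mul_comm] using this
    have h3 : IsCoprime (w + 2 * k) 2 := by
      exact (Int.isCoprime_iff_gcd_eq_one.2 (by
        have := Int.gcd_comm (w + 2 * k) 2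
        rw [this]
        exact Int.isCoprime_iff_gcd_eq_one.1 (Int.isCoprime_two_left.2 hA)))
    have h4 : IsCoprime (w + 2 * k) ((2 * k) ^ 2) := (h3.mul_right h2).pow_right
    have h5 := IsCoprime.add_mul_left_right h4 (w + 2 * k)
    have e1 : (2 * k) ^ 2 + (w + 2 * k) * (w + 2 * k) = w ^ 2 + 4 * k * w + 8 * k ^ 2 := by ring
    rwa [e1] at h5
  have hcoST : IsCoprime S T := by
    rw [hS, hT] at hcoAB
    exact (IsCoprime.pow_iff (Nat.pos_of_ne_zero hq0) (Nat.pos_of_ne_zero hq0)).1 hcoAB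
  have hY : T ^ q = S ^ (2 * q) + 1 * (2 * k) ^ 2 := by
    have e1 : S ^ (2 * q) = (S ^ q) ^ 2 := by rw [← pow_mul, mul_comm q 2]
    rw [e1, ← hS, ← hT]; ring
  have := hPOW S T (2 * k) hSodd hTodd (even_two_mul k) hcoST hY
  exact hk0 (by linarith)

end Pool.Agent.UPre
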