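import Pool.Agent.UPre.Targets2
import Pool.Agent.UPre.PAIR

/-! Pair lemma for `6 ∣ d`, project UPre. -/

namespace Pool.Agent.UPre

open PAIR_ in
theorem p_U_PAIR6 : V_PWR → T_LTE → U_PAIR6 := by
  intro hP hL q d hq hd hd6 hPOW t w ht hw hco h4 h3 hne hH
  have hd0 : d ≠ 0 := by omega
  have hq0 : q ≠ 0 := by rintro rfl; exact (by decide : ¬ Odd 0) hq
  obtain ⟨k, hk⟩ := h4
  have htk : t = w + 4 * k := by linarith
  have hk0 : k ≠ 0 := by
    rintro rfl
    exact hne (by linarith)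
  have hk3 : (3 : ℤ) ∣ k := by omega
  obtain ⟨e, he⟩ := hd6
  have hde : d = 3 * (2 * e) := by omega
  have he0 : 2 * e ≠ 0 := by omega
  have heven : Even (2 * e) := even_two_mul e
  have hdeven : Even d := by rw [hde]; exact heven.mul_left 3
  -- primes
  have hnt : ∀ p : ℕ, p.Prime → (p : ℤ) ∣ t → (p : ℤ) ∣ w → False := by
    intro p hp h1 h2
    have h3 := hco.isUnit_of_dvd' h1 h2
    exact (Nat.prime_iff_prime_int.1 hp).not_isUnit h3
  have hw3 : ¬ (3 : ℤ) ∣ w := by
    intro h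
    exact hnt 3 Nat.prime_three (by push_cast; omega) (by push_cast; exact h)
  -- A and C
  have hA : Odd (w + 2 * k) := hw.add_even (even_two_mul k)
  have hC : Odd (w ^ 2 + 4 * k * w + 16 * k ^ 2) := by
    have e1 : w ^ 2 + 4 * k * w + 16 * k ^ 2 = w ^ 2 + 2 * (2 * k * w + 8 * k ^ 2) := by ring
    rw [e1]
    exact (hw.pow).add_even (even_two_mul _)
  have hA0 : w + 2 * k ≠ 0 := by
    intro h; rw [h] at hA; exact (by decide : ¬ Odd (0 : ℤ)) hA
  have hC0 : w ^ 2 + 4 * k * w + 16 * k ^ 2 ≠ 0 := by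
    intro h; rw [h] at hC; exact (by decide : ¬ Odd (0 : ℤ)) hC
  have hsum : t + w = 2 * (w + 2 * k) := by rw [htk]; ring
  have hcu : t ^ 3 + w ^ 3 = (t + w) * (w ^ 2 + 4 * k * w + 16 * k ^ 2) := by rw [htk]; ring
  have htw0 : t + w ≠ 0 := by
    rw [hsum]; exact mul_ne_zero two_ne_zero hA0
  have hpow : t ^ d - w ^ d ≠ 0 := by
    intro h
    have h1 : t ^ d = w ^ d := by linarith
    have h2 : t.natAbs ^ d = w.natAbs ^ d := by
      rw [← Int.natAbs_pow, ← Int.natAbs_pow, h1]
    have h3 := Nat.pow_left_injective hd0 h2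
    rcases Int.natAbs_eq_natAbs_iff.1 h3 with h4 | h4
    · exact hne h4
    · apply htw0
      linarith
  have hvalA : ∀ p : ℕ, p.Prime → q ∣ padicValInt p (w + 2 * k) := by
    intro p hp
    have hpi := Nat.prime_iff_prime_int.1 hp
    by_cases hdvd : (p : ℤ) ∣ w + 2 * k
    · have hp2 : p ≠ 2 := by
        rintro rfl
        exact (Int.not_even_iff_odd.2 hA) (even_iff_two_dvd.2 (by exact_mod_cast hdvd))
      have h1 : (p : ℤ) ∣ t + w := by rw [hsum]; exact hdvd.mul_left _
      have hpt : ¬ (p : ℤ) ∣ t := fun h => hnt p hp h ((dvd_add_right h).1 h1)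
      have hpm : ¬ (p : ℤ) ∣ t - w := by
        intro h
        have h2 : (p : ℤ) ∣ 2 * t := by
          have := dvd_add h h1
          have e1 : t - w + (t + w) = 2 * t := by ring
          rwa [e1] at this
        rcases hpi.dvd_or_dvd h2 with h5 | h5
        · have h' : p ∣ 2 := by exact_mod_cast h5
          exact hp2 ((Nat.prime_dvd_prime_iff_eq hp Nat.prime_two).1 h')
        · exact hpt h5
      have hpd : (p : ℤ) ∣ t ^ d - w ^ d := by
        have h2 : t ^ 2 - w ^ 2 ∣ (t ^ 2) ^ (3 * e) - (w ^ 2) ^ (3 * e) :=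
          sub_dvd_pow_sub_pow _ _ _
        rw [← pow_mul, ← pow_mul] at h2
        have e1 : 2 * (3 * e) = d := by omega
        rw [e1] at h2
        refine dvd_trans ?_ h2
        have e2 : t ^ 2 - w ^ 2 = (t + w) * (t - w) := by ring
        rw [e2]
        exact h1.mul_right _
      have h2 := hH p hp hp2 hpm hpd
      have h3 := (hL d hdeven hd0 p hp hp2 t w hpt hpow).2 h1
      rw [h3, hsum, val_two_mul hp hp2 hA0] at h2
      have e3 : ((padicValInt p (w + 2 * k) + padicValNat p d : ℕ) : ℤ) - (padicValNat p d : ℤ)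
          = ((padicValInt p (w + 2 * k) : ℕ) : ℤ) := by push_cast; ring
      rw [e3] at h2
      exact_mod_cast h2
    · rw [val_eq_zero hdvd]; exact dvd_zero _
  have hvalC : ∀ p : ℕ, p.Prime → q ∣ padicValInt p (w ^ 2 + 4 * k * w + 16 * k ^ 2) := by
    intro p hp
    have hpi := Nat.prime_iff_prime_int.1 hp
    have : Fact p.Prime := ⟨hp⟩
    by_cases hdvd : (p : ℤ) ∣ w ^ 2 + 4 * k * w + 16 * k ^ 2
    · have hp2 : p ≠ 2 := by
        rintro rfl
        exact (Int.not_even_iff_odd.2 hC) (even_iff_two_dvd.2 (by exact_mod_cast hdvd))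
      have hp3 : p ≠ 3 := by
        rintro rfl
        obtain ⟨j, hj⟩ := hk3
        have h5 : (3 : ℤ) ∣ w ^ 2 := by
          have h6 : (3 : ℤ) ∣ w ^ 2 + 4 * k * w + 16 * k ^ 2 := by exact_mod_cast hdvd
          have e1 : w ^ 2 = (w ^ 2 + 4 * k * w + 16 * k ^ 2) - 3 * (4 * j * w + 16 * j * k) := by
            rw [hj]; ring
          rw [e1]
          exact dvd_sub h6 (dvd_mul_right _ _)
        exact hw3 (Int.prime_three.dvd_of_dvd_pow h5)
      have hCt : w ^ 2 + 4 * k * w + 16 * k ^ 2 = t ^ 2 - t * w + w ^ 2 := by rw [htk]; ring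
      have hdvd' : (p : ℤ) ∣ t ^ 2 - t * w + w ^ 2 := by rw [← hCt]; exact hdvd
      have hpt : ¬ (p : ℤ) ∣ t := by
        intro h
        have h5 : (p : ℤ) ∣ w ^ 2 := by
          have e1 : w ^ 2 = (t ^ 2 - t * w + w ^ 2) - t * (t - w) := by ring
          rw [e1]
          exact dvd_sub hdvd' (h.mul_right _)
        exact hnt p hp h (hpi.dvd_of_dvd_pow h5)
      have hpw : ¬ (p : ℤ) ∣ w := by
        intro h
        have h5 : (p : ℤ) ∣ t ^ 2 := by
          have e1 : t ^ 2 = (t ^ 2 - t * w + w ^ 2) - w * (w - t) := by ring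
          rw [e1]
          exact dvd_sub hdvd' (h.mul_right _)
        exact hnt p hp (hpi.dvd_of_dvd_pow h5) h
      have hpm : ¬ (p : ℤ) ∣ t - w := by
        intro h
        have h5 : (p : ℤ) ∣ t * w := by
          have e1 : t * w = (t ^ 2 - t * w + w ^ 2) - (t - w) * (t - w) := by ring
          rw [e1]
          exact dvd_sub hdvd' (h.mul_right _)
        rcases hpi.dvd_or_dvd h5 with h6 | h6
        · exact hpt h6
        · exact hpw h6
      have hpp : ¬ (p : ℤ) ∣ t + w := by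
        intro h
        have h5 : (p : ℤ) ∣ 3 * (t * w) := by
          have e1 : 3 * (t * w) = (t + w) * (t + w) - (t ^ 2 - t * w + w ^ 2) := by ring
          rw [e1]
          exact dvd_sub (h.mul_right _) hdvd'
        rcases hpi.dvd_or_dvd h5 with h6 | h6
        · have h' : p ∣ 3 := by exact_mod_cast h6
          exact hp3 ((Nat.prime_dvd_prime_iff_eq hp Nat.prime_three).1 h')
        · rcases hpi.dvd_or_dvd h6 with h7 | h7
          · exact hpt h7
          · exact hpw h7
      have h1 : (p : ℤ) ∣ t ^ 3 + w ^ 3 := by rw [hcu]; exact hdvd.mul_left _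
      have hpow' : (t ^ 3) ^ (2 * e) - (w ^ 3) ^ (2 * e) = t ^ d - w ^ d := by
        rw [← pow_mul, ← pow_mul, ← hde]
      have hpd : (p : ℤ) ∣ t ^ d - w ^ d := by
        have h2 : (t ^ 3) ^ 2 - (w ^ 3) ^ 2 ∣ ((t ^ 3) ^ 2) ^ e - ((w ^ 3) ^ 2) ^ e :=
          sub_dvd_pow_sub_pow _ _ _
        rw [← pow_mul (t ^ 3) 2 e, ← pow_mul (w ^ 3) 2 e] at h2
        rw [← hpow']
        refine dvd_trans ?_ h2
        have e2 : (t ^ 3) ^ 2 - (w ^ 3) ^ 2 = (t ^ 3 + w ^ 3) * (t ^ 3 - w ^ 3) := by ring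
        rw [e2]
        exact h1.mul_right _
      have h2 := hH p hp hp2 hpm hpd
      have h3 := (hL (2 * e) heven he0 p hp hp2 (t ^ 3) (w ^ 3)
        (fun h => hpt (hpi.dvd_of_dvd_pow h)) (by rw [hpow']; exact hpow)).2 h1
      have h5 : padicValInt p (t ^ 3 + w ^ 3) =
          padicValInt p (w ^ 2 + 4 * k * w + 16 * k ^ 2) := by
        rw [hcu, padicValInt.mul htw0 hC0, val_eq_zero hpp, zero_add]
      have h6 : padicValNat p d = padicValNat p (2 * e) := by
        rw [hde, padicValNat.mul (by norm_num) he0]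
        have : padicValNat p 3 = 0 := by
          apply padicValNat.eq_zero_of_not_dvd
          intro h
          exact hp3 ((Nat.prime_dvd_prime_iff_eq hp Nat.prime_three).1 h)
        omega
      rw [hpow', h5, ← h6] at h3
      rw [h3] at h2
      have e3 : ((padicValInt p (w ^ 2 + 4 * k * w + 16 * k ^ 2) + padicValNat p d : ℕ) : ℤ) -
          (padicValNat p d : ℤ)
          = ((padicValInt p (w ^ 2 + 4 * k * w + 16 * k ^ 2) : ℕ) : ℤ) := by push_cast; ring
      rw [e3] at h2
      exact_mod_cast h2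
    · rw [val_eq_zero hdvd]; exact dvd_zero _
  obtain ⟨S, hS⟩ := hP q hq _ hA0 hvalA
  obtain ⟨T, hT⟩ := hP q hq _ hC0 hvalC
  have hSodd : Odd S := by
    rw [hS] at hA
    exact Int.odd_pow.1 hA |>.resolve_right hq0
  have hTodd : Odd T := by
    rw [hT] at hC
    exact Int.odd_pow.1 hC |>.resolve_right hq0
  have hcoAC : IsCoprime (w + 2 * k) (w ^ 2 + 4 * k * w + 16 * k ^ 2) := by
    have h1 : IsCoprime w k := by
      rw [htk] at hco
      have h2 : IsCoprime (4 * k) w := by
        have h3 : IsCoprime (w * 1 + 4 * k) w := by simpa using hco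
        exact (IsCoprime.mul_add_left_left_iff).1 h3
      exact (h2.of_mul_left_right).symm
    have h2 : IsCoprime (w + 2 * k) k := by
      have := IsCoprime.add_mul_left_left h1 2
      simpa [mul_comm] using this
    have h3 : IsCoprime (w + 2 * k) 2 := (Int.isCoprime_two_left.2 hA).symm
    have h3' : IsCoprime (w + 2 * k) 3 := by
      refine (Int.prime_three.coprime_iff_not_dvd.2 ?_).symm
      omega
    have h4 : IsCoprime (w + 2 * k) (3 * (2 * k) ^ 2) := h3'.mul_right (h3.mul_right h2).pow_right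
    have h5 := IsCoprime.add_mul_left_right h4 (w + 2 * k)
    have e1 : 3 * (2 * k) ^ 2 + (w + 2 * k) * (w + 2 * k) = w ^ 2 + 4 * k * w + 16 * k ^ 2 := by
      ring
    rwa [e1] at h5
  have hcoST : IsCoprime S T := by
    rw [hS, hT] at hcoAC
    exact (IsCoprime.pow_iff (Nat.pos_of_ne_zero hq0) (Nat.pos_of_ne_zero hq0)).1 hcoAC
  have hY : T ^ q = S ^ (2 * q) + 3 * (2 * k) ^ 2 := by
    have e1 : S ^ (2 * q) = (S ^ q) ^ 2 := by rw [← pow_mul, mul_comm]
    rw [e1, ← hS, ← hT]; ring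
  have := hPOW S T (2 * k) hSodd hTodd (even_two_mul k) hcoST hY
  exact hk0 (by linarith)

end Pool.Agent.UPre
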