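import Pool.Agent.UPre.Targets2
import Pool.Agent.UPre.Dyn

/-! Pigeonhole over residue classes. -/

namespace Pool.Agent.UPre

open Function

namespace PIG_

lemma pn_pow (p : ℕ) [Fact p.Prime] (u : ℚ) (j : ℕ) :
    padicNorm p (u ^ j) = padicNorm p u ^ j := by
  induction j with
  | zero => simp
  | succ j ih => rw [pow_succ, pow_succ, padicNorm.mul, ih]

/-- numerator and denominator of a `p`-adic unit -/
lemma unit_num (p : ℕ) [hp : Fact p.Prime] {u : ℚ} (hu : padicNorm p u = 1) :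
    ¬ (p : ℤ) ∣ u.num ∧ ¬ (p : ℤ) ∣ (u.den : ℤ) := by
  have h3 : padicNorm p u * padicNorm p ((u.den : ℤ) : ℚ) = padicNorm p (u.num : ℚ) := by
    rw [← padicNorm.mul]
    congr 1
    exact_mod_cast Rat.mul_den_eq_num u
  rw [hu, one_mul] at h3
  have hnot : ¬ ((p : ℤ) ∣ u.num ∧ (p : ℤ) ∣ (u.den : ℤ)) := by
    rintro ⟨h1, h2⟩
    have h4 : p ∣ u.num.natAbs := Int.natCast_dvd.1 h1
    have h5 : p ∣ u.den := by exact_mod_cast h2
    have h6 := Nat.dvd_gcd h4 h5
    rw [u.reduced] at h6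
    exact hp.out.one_lt.ne' (Nat.dvd_one.1 h6)
  constructor
  · intro h1
    apply hnot
    refine ⟨h1, ?_⟩
    rw [← padicNorm.int_lt_one_iff, h3]
    exact (padicNorm.int_lt_one_iff _).2 h1
  · intro h1
    apply hnot
    refine ⟨?_, h1⟩
    rw [← padicNorm.int_lt_one_iff, ← h3]
    exact (padicNorm.int_lt_one_iff _).2 h1

/-- residue of a rational number modulo `p` -/
noncomputable def res (p : ℕ) (u : ℚ) : ZMod p := (u.num : ZMod p) * ((u.den : ℤ) : ZMod p)⁻¹

/-- ratio of two numbers with the same residue -/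
lemma same_res (p : ℕ) [hp : Fact p.Prime] {u v : ℚ} (hu : padicNorm p u = 1)
    (hv : padicNorm p v = 1) (h : res p u = res p v) {t w : ℤ} (htw : (t : ℚ) * v = w * u) :
    (p : ℤ) ∣ t - w := by
  obtain ⟨hun, hud⟩ := unit_num p hu
  obtain ⟨hvn, hvd⟩ := unit_num p hv
  have e1 : ((u.den : ℤ) : ZMod p) ≠ 0 := by
    rwa [Ne, ZMod.intCast_zmod_eq_zero_iff_dvd]
  have e2 : ((v.den : ℤ) : ZMod p) ≠ 0 := by
    rwa [Ne, ZMod.intCast_zmod_eq_zero_iff_dvd]
  have e3 : ((v.num : ℤ) : ZMod p) ≠ 0 := by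
    rwa [Ne, ZMod.intCast_zmod_eq_zero_iff_dvd]
  unfold res at h
  have h1 : (u.num : ZMod p) * ((v.den : ℤ) : ZMod p) = (v.num : ZMod p) * ((u.den : ℤ) : ZMod p) := by
    field_simp at h
    linear_combination h
  have h2 : t * (v.num * (u.den : ℤ)) = w * (u.num * (v.den : ℤ)) := by
    have hu' : u = u.num / (u.den : ℚ) := (Rat.num_div_den u).symm
    have hv' : v = v.num / (v.den : ℚ) := (Rat.num_div_den v).symm
    have f1 : (u.den : ℚ) ≠ 0 := by exact_mod_cast u.den_ne_zero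
    have f2 : (v.den : ℚ) ≠ 0 := by exact_mod_cast v.den_ne_zero
    have h3 : (t : ℚ) * (v.num * u.den) = w * (u.num * v.den) := by
      rw [hu', hv'] at htw
      field_simp at htw
      linarith
    exact_mod_cast h3
  have h3 : ((t * (v.num * (u.den : ℤ)) : ℤ) : ZMod p) = ((w * (u.num * (v.den : ℤ)) : ℤ) : ZMod p) := by
    rw [h2]
  push_cast at h3
  have h1' : (u.num : ZMod p) * (v.den : ZMod p) = (v.num : ZMod p) * (u.den : ZMod p) := by
    exact_mod_cast h1
  rw [h1'] at h3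
  have e4 : (v.num : ZMod p) * (u.den : ZMod p) ≠ 0 := by
    apply mul_ne_zero e3
    exact_mod_cast e1
  have h4 : (t : ZMod p) = (w : ZMod p) := mul_right_cancel₀ e4 h3
  rw [← ZMod.intCast_zmod_eq_zero_iff_dvd]
  push_cast
  rw [h4, sub_self]

lemma zmod4 : ∀ un ud vn vd : ZMod 4, (un = 1 ∨ un = 3) → (ud = 1 ∨ ud = 3) → (vn = 1 ∨ vn = 3) →
    (vd = 1 ∨ vd = 3) → un * ud = vn * vd → un * vd = vn * ud ∧ (vn * ud) * (vn * ud) = 1 := by
  decide

lemma odd4 {z : ℤ} (hz : ¬ ((2 : ℕ) : ℤ) ∣ z) : (z : ZMod 4) = 1 ∨ (z : ZMod 4) = 3 := by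
  have h : z % 4 = 1 ∨ z % 4 = 3 := by
    push_cast at hz
    omega
  rcases h with h | h
  · left
    have : ((z : ℤ) : ZMod 4) = ((1 : ℤ) : ZMod 4) := by
      rw [ZMod.intCast_eq_intCast_iff]
      exact h
    simpa using this
  · right
    have : ((z : ℤ) : ZMod 4) = ((3 : ℤ) : ZMod 4) := by
      rw [ZMod.intCast_eq_intCast_iff]
      exact h
    simpa using this

/-- class modulo four of a 2-adic unit -/
def cl4 (u : ℚ) : ZMod 4 := (u.num : ZMod 4) * ((u.den : ℤ) : ZMod 4)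

lemma cl4_mem {u : ℚ} (hu : padicNorm 2 u = 1) : cl4 u ∈ ({1, 3} : Finset (ZMod 4)) := by
  have : Fact (Nat.Prime 2) := ⟨Nat.prime_two⟩
  obtain ⟨h1, h2⟩ := unit_num 2 hu
  have key : ∀ x y : ZMod 4, (x = 1 ∨ x = 3) → (y = 1 ∨ y = 3) → x * y ∈ ({1, 3} : Finset (ZMod 4)) := by
    decide
  exact key _ _ (odd4 h1) (odd4 h2)

lemma same4 {u v : ℚ} (hu : padicNorm 2 u = 1) (hv : padicNorm 2 v = 1) (h : cl4 u = cl4 v)
    {t w : ℤ} (htw : (t : ℚ) * v = w * u) : (4 : ℤ) ∣ t - w := by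
  have : Fact (Nat.Prime 2) := ⟨Nat.prime_two⟩
  obtain ⟨hun, hud⟩ := unit_num 2 hu
  obtain ⟨hvn, hvd⟩ := unit_num 2 hv
  have h2 : t * (v.num * (u.den : ℤ)) = w * (u.num * (v.den : ℤ)) := by
    have hu' : u = u.num / (u.den : ℚ) := (Rat.num_div_den u).symm
    have hv' : v = v.num / (v.den : ℚ) := (Rat.num_div_den v).symm
    have f1 : (u.den : ℚ) ≠ 0 := by exact_mod_cast u.den_ne_zero
    have f2 : (v.den : ℚ) ≠ 0 := by exact_mod_cast v.den_ne_zero
    have h3 : (t : ℚ) * (v.num * u.den) = w * (u.num * v.den) := by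
      rw [hu', hv'] at htw
      field_simp at htw
      linarith
    exact_mod_cast h3
  have h3 : ((t * (v.num * (u.den : ℤ)) : ℤ) : ZMod 4) = ((w * (u.num * (v.den : ℤ)) : ℤ) : ZMod 4) := by
    rw [h2]
  rw [Int.cast_mul, Int.cast_mul, Int.cast_mul, Int.cast_mul] at h3
  obtain ⟨k1, k2⟩ := zmod4 _ _ _ _ (odd4 hun) (odd4 hud) (odd4 hvn) (odd4 hvd) h
  rw [k1] at h3
  have h4 : (t : ZMod 4) = (w : ZMod 4) := by
    calc (t : ZMod 4) = t * (((v.num : ZMod 4) * ((u.den : ℤ) : ZMod 4)) *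
          ((v.num : ZMod 4) * ((u.den : ℤ) : ZMod 4))) := by rw [k2, mul_one]
      _ = (t * ((v.num : ZMod 4) * ((u.den : ℤ) : ZMod 4))) *
          ((v.num : ZMod 4) * ((u.den : ℤ) : ZMod 4)) := by ring
      _ = (w * ((v.num : ZMod 4) * ((u.den : ℤ) : ZMod 4))) *
          ((v.num : ZMod 4) * ((u.den : ℤ) : ZMod 4)) := by rw [h3]
      _ = w * (((v.num : ZMod 4) * ((u.den : ℤ) : ZMod 4)) *
          ((v.num : ZMod 4) * ((u.den : ℤ) : ZMod 4))) := by ring
      _ = w := by rw [k2, mul_one]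
  have h5 : ((t - w : ℤ) : ZMod 4) = 0 := by
    push_cast
    rw [h4, sub_self]
  exact_mod_cast (ZMod.intCast_zmod_eq_zero_iff_dvd (t - w) 4).1 h5

section
variable {d : ℕ} (hN : U_NORM) (hB : U_BADV) (hd : 2 ≤ d) {a c : ℚ} (ha : a ≠ 0)
include hN hB hd ha

lemma ne_zero {p : ℕ} (hp : p.Prime) (hg : ¬ GoodP p a d c) {x : ℚ}
    (hx : x ∈ periodicPts (G a d c)) : x ≠ 0 :=
  ((hN p hp d hd a c x ha ⟨0, hx⟩).2 hg).2.2

lemma norm_eq {p : ℕ} (hp : p.Prime) (hg : ¬ GoodP p a d c) {x y : ℚ}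
    (hx : x ∈ periodicPts (G a d c)) (hy : y ∈ periodicPts (G a d c)) :
    padicNorm p x = padicNorm p y := by
  have h1 := hB p hp d hd a c x y ha ⟨0, hx⟩ ⟨0, hy⟩ hg
  rw [padicNorm.eq_zpow_of_nonzero (ne_zero hN hB hd ha hp hg hx),
    padicNorm.eq_zpow_of_nonzero (ne_zero hN hB hd ha hp hg hy), h1]

lemma unit {p : ℕ} (hp : p.Prime) (hg : ¬ GoodP p a d c) {x y : ℚ}
    (hx : x ∈ periodicPts (G a d c)) (hy : y ∈ periodicPts (G a d c)) :
    padicNorm p (x / y) = 1 := by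
  have : Fact p.Prime := ⟨hp⟩
  have hy0 := ne_zero hN hB hd ha hp hg hy
  rw [padicNorm.div, norm_eq hN hB hd ha hp hg hx hy, div_self (padicNorm.nonzero hy0)]

lemma root {p : ℕ} (hp : p.Prime) (hg : ¬ GoodP p a d c) {x y : ℚ}
    (hx : x ∈ periodicPts (G a d c)) (hy : y ∈ periodicPts (G a d c)) :
    res p (x / y) ^ d = 1 := by
  have : Fact p.Prime := ⟨hp⟩
  have hy0 := ne_zero hN hB hd ha hp hg hy
  have hu := unit hN hB hd ha hp hg hx hy
  set u : ℚ := x / y with hudef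
  obtain ⟨hun, hud⟩ := unit_num p hu
  have ha0 : 0 < padicNorm p a := lt_of_le_of_ne (padicNorm.nonneg a)
    (Ne.symm (padicNorm.nonzero ha))
  have hy1 : 0 < padicNorm p y := lt_of_le_of_ne (padicNorm.nonneg y)
    (Ne.symm (padicNorm.nonzero hy0))
  have h1 : 1 < padicNorm p a * padicNorm p y ^ (d - 1) :=
    ((hN p hp d hd a c y ha ⟨0, hy⟩).2 hg).2.1
  have h2 : padicNorm p (G a d c x - G a d c y) ≤ padicNorm p y := by
    refine (padicNorm.sub).trans ?_
    rw [norm_eq hN hB hd ha hp hg (per_step hx) hy, norm_eq hN hB hd ha hp hg (per_step hy) hy,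
      max_self]
  have h3 : G a d c x - G a d c y = a * y ^ d * (u ^ d - 1) := by
    show a * x ^ d + c - (a * y ^ d + c) = _
    have hxu : x = u * y := by
      rw [hudef]
      field_simp
    rw [hxu]
    ring
  rw [h3, padicNorm.mul, padicNorm.mul, pn_pow] at h2
  have h4 : padicNorm p (u ^ d - 1) < 1 := by
    by_contra hcon
    push Not at hcon
    have h5 : padicNorm p y ^ d = padicNorm p y ^ (d - 1) * padicNorm p y := by
      rw [← pow_succ]
      congr 1
      omega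
    have h6 : padicNorm p y < padicNorm p a * padicNorm p y ^ d := by
      rw [h5]
      nlinarith
    have h7 : padicNorm p a * padicNorm p y ^ d * 1 ≤
        padicNorm p a * padicNorm p y ^ d * padicNorm p (u ^ d - 1) :=
      mul_le_mul_of_nonneg_left hcon (by positivity)
    linarith
  have h5 : u ^ d - 1 = ((u.num ^ d - (u.den : ℤ) ^ d : ℤ) : ℚ) / (((u.den : ℤ) : ℚ) ^ d) := by
    have f1 : (u.den : ℚ) ≠ 0 := by exact_mod_cast u.den_ne_zero
    have hu' : u = u.num / (u.den : ℚ) := (Rat.num_div_den u).symm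
    push_cast
    conv_lhs => rw [hu']
    rw [div_pow]
    field_simp
  rw [h5, padicNorm.div, pn_pow, (padicNorm.int_eq_one_iff _).2 hud, one_pow, div_one,
    padicNorm.int_lt_one_iff] at h4
  have h6 : ((u.num ^ d - (u.den : ℤ) ^ d : ℤ) : ZMod p) = 0 := by
    rwa [ZMod.intCast_zmod_eq_zero_iff_dvd]
  have e1 : ((u.den : ℤ) : ZMod p) ≠ 0 := by
    rwa [Ne, ZMod.intCast_zmod_eq_zero_iff_dvd]
  unfold res
  rw [mul_pow, inv_pow]
  have h7 : (u.num : ZMod p) ^ d = ((u.den : ℤ) : ZMod p) ^ d := by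
    rw [Int.cast_sub, Int.cast_pow, Int.cast_pow, sub_eq_zero] at h6
    exact h6
  rw [h7]
  exact mul_inv_cancel₀ (pow_ne_zero d e1)

lemma pig_ind {x0 : ℚ} (hx0 : x0 ∈ periodicPts (G a d c)) (S : Finset ℕ) :
    ∀ (m : ℕ) (A : Finset ℚ), (∀ x ∈ A, x ∈ periodicPts (G a d c)) →
    m * ∏ p ∈ S, Nat.gcd d (p - 1) < A.card → ∃ B ⊆ A, m < B.card ∧
      ∀ p ∈ S, p.Prime → p ≠ 2 → ¬ GoodP p a d c → ∀ x ∈ B, ∀ y ∈ B,
        res p (x / x0) = res p (y / x0) := by
  classical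
  induction S using Finset.induction_on with
  | empty =>
    intro m A hA hcard
    refine ⟨A, Finset.Subset.refl A, by simpa using hcard, ?_⟩
    intro p hp
    simp at hp
  | insert q S hq ih =>
    intro m A hA hcard
    rw [Finset.prod_insert hq, ← mul_assoc] at hcard
    obtain ⟨B, hBA, hBcard, hBprop⟩ := ih (m * Nat.gcd d (q - 1)) A hA hcard
    by_cases hcase : q.Prime ∧ q ≠ 2 ∧ ¬ GoodP q a d c
    · obtain ⟨hqp, hq2, hqg⟩ := hcase
      have : Fact q.Prime := ⟨hqp⟩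
      have hgpos : 0 < Nat.gcd d (q - 1) := Nat.gcd_pos_of_pos_left _ (by omega)
      set T : Finset (ZMod q) := (Polynomial.nthRoots (Nat.gcd d (q - 1)) (1 : ZMod q)).toFinset
        with hT
      have hTcard : T.card ≤ Nat.gcd d (q - 1) :=
        (Multiset.toFinset_card_le _).trans (Polynomial.card_nthRoots _ _)
      have hmaps : ∀ x ∈ B, res q (x / x0) ∈ T := by
        intro x hx
        rw [hT, Multiset.mem_toFinset, Polynomial.mem_nthRoots hgpos]
        have h1 := root hN hB hd ha hqp hqg (hA x (hBA hx)) hx0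
        have h0 : res q (x / x0) ≠ 0 := by
          intro h
          rw [h, zero_pow (by omega)] at h1
          exact zero_ne_one h1
        have h2 : res q (x / x0) ^ (q - 1) = 1 := ZMod.pow_card_sub_one_eq_one h0
        exact pow_gcd_eq_one.2 ⟨h1, h2⟩
      have hlt : T.card * m < B.card := by
        calc T.card * m ≤ Nat.gcd d (q - 1) * m := Nat.mul_le_mul_right m hTcard
          _ = m * Nat.gcd d (q - 1) := mul_comm _ _
          _ < B.card := hBcard
      obtain ⟨y, hy, hycard⟩ := Finset.exists_lt_card_fiber_of_mul_lt_card_of_maps_to hmaps hlt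
      refine ⟨B.filter (fun x => res q (x / x0) = y), (Finset.filter_subset _ _).trans hBA,
        hycard, ?_⟩
      intro p hp hpp hp2 hpg x hx z hz
      rw [Finset.mem_filter] at hx hz
      rw [Finset.mem_insert] at hp
      rcases hp with rfl | hp
      · rw [hx.2, hz.2]
      · exact hBprop p hp hpp hp2 hpg x hx.1 z hz.1
    · refine ⟨B, hBA, ?_, ?_⟩
      · have hgpos : 0 < Nat.gcd d (q - 1) := Nat.gcd_pos_of_pos_left _ (by omega)
        exact lt_of_le_of_lt (Nat.le_mul_of_pos_right m hgpos) hBcard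
      · intro p hp hpp hp2 hpg x hx z hz
        rw [Finset.mem_insert] at hp
        rcases hp with rfl | hp
        · exact absurd ⟨hpp, hp2, hpg⟩ hcase
        · exact hBprop p hp hpp hp2 hpg x hx z hz

end

end PIG_

open PIG_ in
theorem p_U_PIG : U_NORM → U_BADV → U_PIG := by
  classical
  intro hN hB d hd hev a ha S c hg2 hcard
  have hN' := hN
  -- a finite set of periodic points
  obtain ⟨A, hAsub, hAcard⟩ : ∃ A : Finset ℚ, (∀ x ∈ A, x ∈ periodicPts (G a d c)) ∧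
      2 * ∏ p ∈ S, Nat.gcd d (p - 1) < A.card := by
    set N : ℕ := 2 * ∏ p ∈ S, Nat.gcd d (p - 1) with hNdef
    have h1 : ((N + 1 : ℕ) : ℕ∞) ≤ (periodicPts (G a d c)).encard := by
      have := Order.add_one_le_of_lt hcard
      push_cast
      exact this
    obtain ⟨t, hts, htcard⟩ := Set.exists_subset_encard_eq h1
    have hfin : t.Finite := Set.finite_of_encard_eq_coe htcard
    refine ⟨hfin.toFinset, ?_, ?_⟩
    · intro x hx
      exact hts (hfin.mem_toFinset.1 hx)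
    · have h2 : (hfin.toFinset.card : ℕ∞) = ((N + 1 : ℕ) : ℕ∞) := by
        rw [← htcard, hfin.encard_eq_coe_toFinset_card]
      have h3 : hfin.toFinset.card = N + 1 := by exact_mod_cast h2
      omega
  have hAne : A.Nonempty := by
    rw [← Finset.card_pos]
    omega
  obtain ⟨x0, hx0A⟩ := hAne
  have hx0 := hAsub x0 hx0A
  obtain ⟨B, hBA, hBcard, hBprop⟩ := pig_ind hN hB hd ha hx0 S 2 A hAsub hAcard
  have hp2 : (2 : ℕ).Prime := Nat.prime_two
  have : Fact (Nat.Prime 2) := ⟨hp2⟩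
  have hmaps : ∀ x ∈ B, cl4 (x / x0) ∈ ({1, 3} : Finset (ZMod 4)) := by
    intro x hx
    exact cl4_mem (unit hN hB hd ha hp2 hg2 (hAsub x (hBA hx)) hx0)
  have hc2 : ({1, 3} : Finset (ZMod 4)).card < B.card := by
    have : ({1, 3} : Finset (ZMod 4)).card = 2 := by decide
    rw [this]
    exact hBcard
  obtain ⟨x, hxB, y, hyB, hxy, hcl⟩ := Finset.exists_ne_map_eq_of_card_lt_of_maps_to hc2 hmaps
  have hx := hAsub x (hBA hxB)
  have hy := hAsub y (hBA hyB)
  have hx00 := ne_zero hN hB hd ha hp2 hg2 hx0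
  have hxne := ne_zero hN hB hd ha hp2 hg2 hx
  have hyne := ne_zero hN hB hd ha hp2 hg2 hy
  set r : ℚ := x / y with hr
  have hrne : r ≠ 0 := div_ne_zero hxne hyne
  have hrnum : (r.num : ℚ) ≠ 0 := by exact_mod_cast Rat.num_ne_zero.2 hrne
  have hrden : ((r.den : ℤ) : ℚ) ≠ 0 := by exact_mod_cast r.den_ne_zero
  have hrel : (r.num : ℚ) * y = ((r.den : ℤ) : ℚ) * x := by
    have h1 : r * ((r.den : ℤ) : ℚ) = r.num := by exact_mod_cast Rat.mul_den_eq_num r
    have h2 : r * y = x := by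
      rw [hr]
      field_simp
    calc (r.num : ℚ) * y = r * ((r.den : ℤ) : ℚ) * y := by rw [h1]
      _ = ((r.den : ℤ) : ℚ) * (r * y) := by ring
      _ = _ := by rw [h2]
  have hrel2 : (r.num : ℚ) * (y / x0) = ((r.den : ℤ) : ℚ) * (x / x0) := by
    rw [← mul_div_assoc, ← mul_div_assoc, hrel]
  have hunit := unit_num 2 (unit hN hB hd ha hp2 hg2 hx hy)
  refine ⟨x, hx, y, hy, hxy, x / r.num, r.num, (r.den : ℤ), ?_, ?_, ?_, ?_, ?_, ?_, ?_⟩
  · field_simp
  · rw [div_mul_eq_mul_div, eq_div_iff hrnum, mul_comm y, hrel, mul_comm x]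
  · have := hunit.1
    rw [← Int.not_even_iff_odd, even_iff_two_dvd]
    exact_mod_cast this
  · have := hunit.2
    rw [← Int.not_even_iff_odd, even_iff_two_dvd]
    exact_mod_cast this
  · rw [Int.isCoprime_iff_gcd_eq_one]
    exact r.reduced
  · exact same4 (unit hN hB hd ha hp2 hg2 hx hx0) (unit hN hB hd ha hp2 hg2 hy hx0) hcl hrel2
  · intro p hpS hpp hpne hpg
    have : Fact p.Prime := ⟨hpp⟩
    exact same_res p (unit hN hB hd ha hpp hpg hx hx0) (unit hN hB hd ha hpp hpg hy hx0)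
      (hBprop p hpS hpp hpne hpg x hxB y hyB) hrel2

end Pool.Agent.UPre
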