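import Pool.Agent.UPre.Targets2

set_option autoImplicit false

/-! The Diophantine input for the exponent `3`: `B^3 = A^6 + D^2`. -/

namespace Pool.Agent.UPre

theorem p_V_POW3 : T_L1 → V_POW3 := by
  intro h A B D hA hB _ hAB heq
  refine h A B D hA hB hAB ?_
  have h6 : A ^ (2 * 3) = A ^ 6 := by norm_num
  rw [h6] at heq
  linear_combination -heq

end Pool.Agent.UPre
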