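import Pool.Agent.UPre.Targets2

/-! UPre: POW5 -/

namespace Pool.Agent.UPre

namespace POW5_

lemma sq_of_mul {m n c : ℤ} (hm : 0 < m) (hc : IsCoprime m n) (h : m * n = c ^ 2) :
    ∃ a : ℤ, m = a ^ 2 := by
  obtain ⟨a, ha | ha⟩ := Int.sq_of_isCoprime hc h
  · exact ⟨a, ha⟩
  · exfalso
    nlinarith [sq_nonneg a]

/-- splitting of `m n = κ c²` -/
lemma split {m n c κ : ℤ} (hκ : κ = 1 ∨ κ = 3) (hm : 0 < m) (hn : 0 < n) (hc : IsCoprime m n)
    (h3 : ¬ (3 : ℤ) ∣ n) (h : m * n = κ * c ^ 2) : (∃ b : ℤ, n = b ^ 2) ∧ ∃ a : ℤ, m = κ * a ^ 2 := by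
  rcases hκ with rfl | rfl
  · rw [one_mul] at h
    obtain ⟨a, ha⟩ := sq_of_mul hm hc h
    obtain ⟨b, hb⟩ := sq_of_mul hn hc.symm (by rw [mul_comm]; exact h)
    exact ⟨⟨b, hb⟩, ⟨a, by rw [one_mul]; exact ha⟩⟩
  · have h3p : Prime (3 : ℤ) := by norm_num
    have h4 : (3 : ℤ) ∣ m := by
      rcases h3p.dvd_or_dvd (⟨c ^ 2, h⟩ : (3 : ℤ) ∣ m * n) with h5 | h5
      · exact h5
      · exact absurd h5 h3
    obtain ⟨t, rfl⟩ := h4
    have h5 : t * n = c ^ 2 := by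
      have : 3 * (t * n) = 3 * c ^ 2 := by rw [← h]; ring
      exact mul_left_cancel₀ (by norm_num) this
    have hc' : IsCoprime t n := hc.of_mul_left_right
    obtain ⟨a, ha⟩ := sq_of_mul (by omega) hc' h5
    obtain ⟨b, hb⟩ := sq_of_mul hn hc'.symm (by rw [mul_comm]; exact h5)
    exact ⟨⟨b, hb⟩, ⟨a, by rw [ha]⟩⟩

lemma zmod3 : ∀ x y : ZMod 3, x ^ 4 + x ^ 3 * y + x ^ 2 * y ^ 2 + x * y ^ 3 + y ^ 4 = 0 →
    x = 0 ∧ y = 0 := by decide

lemma three {X Y : ℤ} (hc : IsCoprime X Y)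
    (h : (3 : ℤ) ∣ X ^ 4 + X ^ 3 * Y + X ^ 2 * Y ^ 2 + X * Y ^ 3 + Y ^ 4) : False := by
  have h1 : ((X ^ 4 + X ^ 3 * Y + X ^ 2 * Y ^ 2 + X * Y ^ 3 + Y ^ 4 : ℤ) : ZMod 3) = 0 :=
    (ZMod.intCast_zmod_eq_zero_iff_dvd _ 3).2 h
  push_cast at h1
  obtain ⟨h2, h3⟩ := zmod3 _ _ h1
  have h2' : ((3 : ℕ) : ℤ) ∣ X := (ZMod.intCast_zmod_eq_zero_iff_dvd X 3).1 h2
  have h3' : ((3 : ℕ) : ℤ) ∣ Y := (ZMod.intCast_zmod_eq_zero_iff_dvd Y 3).1 h3
  have h4 := hc.isUnit_of_dvd' h2' h3'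
  have h3p : Prime (3 : ℤ) := by norm_num
  exact h3p.not_isUnit h4

lemma prime_common {X Y z : ℤ} (hc : IsCoprime X Y) (hz : Prime z) (h : z ∣ X - Y)
    (h' : z ∣ Y) : False := by
  have h1 : z ∣ X := by
    have : X = (X - Y) + Y := by ring
    rw [this]
    exact dvd_add h h'
  exact hz.not_isUnit (hc.isUnit_of_dvd' h1 h')

/-- the residue argument -/
lemma jac {X Y b : ℤ} (hX : 0 < X) (hY : 0 < Y) (hc : IsCoprime X Y) (h4 : (4 : ℤ) ∣ X - 1)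
    (h4' : (4 : ℤ) ∣ Y - 1)
    (hb : X ^ 4 + X ^ 3 * Y + X ^ 2 * Y ^ 2 + X * Y ^ 3 + Y ^ 4 = b ^ 2) : False := by
  obtain ⟨N, hN⟩ : ∃ N : ℕ, (N : ℤ) = X ^ 2 + X * Y + Y ^ 2 :=
    ⟨(X ^ 2 + X * Y + Y ^ 2).toNat, Int.toNat_of_nonneg (by positivity)⟩
  obtain ⟨x, hx⟩ := h4
  obtain ⟨y, hy⟩ := h4'
  have hx' : X = 4 * x + 1 := by linarith
  have hy' : Y = 4 * y + 1 := by linarith
  have hN4 : N % 4 = 3 := by
    have h5 : (N : ℤ) = 4 * (4 * x ^ 2 + 2 * x + 4 * x * y + x + y + 4 * y ^ 2 + 2 * y) + 3 := by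
      rw [hN, hx', hy']; ring
    omega
  have hodd : Odd N := by
    rw [Nat.odd_iff]
    omega
  have hgcd : (X * Y).gcd (N : ℤ) = 1 := by
    rw [← Int.isCoprime_iff_gcd_eq_one]
    refine IsCoprime.mul_left ?_ ?_
    · rw [hN]
      have h6 : IsCoprime X (Y ^ 2) := hc.pow_right
      have : X ^ 2 + X * Y + Y ^ 2 = Y ^ 2 + X * (X + Y) := by ring
      rw [this]
      exact h6.add_mul_left_right (X + Y)
    · rw [hN]
      have h6 : IsCoprime Y (X ^ 2) := hc.symm.pow_right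
      have : X ^ 2 + X * Y + Y ^ 2 = X ^ 2 + Y * (X + Y) := by ring
      rw [this]
      exact h6.add_mul_left_right (X + Y)
  have h1 : jacobiSym (-1 * (X * Y) ^ 2) N = -1 := by
    rw [jacobiSym.mul_left, jacobiSym.sq_one' hgcd, jacobiSym.at_neg_one hodd, mul_one]
    exact ZMod.χ₄_nat_three_mod_four hN4
  have h2 : jacobiSym (b ^ 2) N = jacobiSym b N ^ 2 := jacobiSym.pow_left b 2 N
  have h3 : jacobiSym (-1 * (X * Y) ^ 2) N = jacobiSym (b ^ 2) N := by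
    apply jacobiSym.mod_left'
    have h5 : -1 * (X * Y) ^ 2 ≡ b ^ 2 [ZMOD (N : ℤ)] := by
      rw [Int.modEq_iff_dvd, hN]
      exact ⟨X ^ 2 + Y ^ 2, by rw [← hb]; ring⟩
    exact h5
  rw [h1, h2] at h3
  have := sq_nonneg (jacobiSym b N)
  omega

lemma core (h1 : V_C5) {κ X Y D : ℤ} (hκ : κ = 1 ∨ κ = 3) (hXY : Y < X) (hY : 0 < Y)
    (hXo : Odd X) (hY4 : (4 : ℤ) ∣ Y - 1) (hc : IsCoprime X Y)
    (h : X ^ 5 = Y ^ 5 + κ * D ^ 2) : False := by
  have hX : 0 < X := by linarith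
  have hYo : Odd Y := by
    obtain ⟨y, hy⟩ := hY4
    exact ⟨2 * y, by linarith⟩
  obtain ⟨U, hU⟩ : ∃ U, U = X ^ 4 + X ^ 3 * Y + X ^ 2 * Y ^ 2 + X * Y ^ 3 + Y ^ 4 := ⟨_, rfl⟩
  have hUpos : 0 < U := by rw [hU]; positivity
  have hprod : (X - Y) * U = κ * D ^ 2 := by
    rw [hU]
    linear_combination h
  have h3U : ¬ (3 : ℤ) ∣ U := fun h3 => three hc (by rw [← hU]; exact h3)
  have hκo : Odd κ := by
    rcases hκ with rfl | rfl <;> decide
  have hev : Even (X - Y) := hXo.sub_odd hYo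
  by_cases h5 : (5 : ℤ) ∣ X - Y
  · obtain ⟨k, hk⟩ := h5
    have hkpos : 0 < k := by omega
    have hXk : X = Y + 5 * k := by linarith
    obtain ⟨V, hV⟩ : ∃ V, V = Y ^ 4 + 10 * Y ^ 3 * k + 50 * Y ^ 2 * k ^ 2 + 125 * Y * k ^ 3 +
      125 * k ^ 4 := ⟨_, rfl⟩
    have hUV : U = 5 * V := by rw [hU, hV, hXk]; ring
    have hVpos : 0 < V := by rw [hV]; positivity
    have h25 : 25 * (k * V) = κ * D ^ 2 := by rw [← hprod, hk, hUV]; ring
    have h5p : Prime (5 : ℤ) := by norm_num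
    have h5D : (5 : ℤ) ∣ D := by
      have h6 : (5 : ℤ) ∣ κ * D ^ 2 := ⟨5 * (k * V), by rw [← h25]; ring⟩
      rcases h5p.dvd_or_dvd h6 with h7 | h7
      · rcases hκ with rfl | rfl <;> norm_num at h7
      · exact h5p.dvd_of_dvd_pow h7
    obtain ⟨D', rfl⟩ := h5D
    have hkV : k * V = κ * D' ^ 2 := by
      have : 25 * (k * V) = 25 * (κ * D' ^ 2) := by rw [h25]; ring
      exact mul_left_cancel₀ (by norm_num) this
    have hckV : IsCoprime k V := by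
      refine isCoprime_of_prime_dvd (fun h => by omega) (fun z hz hzk hzV => ?_)
      have h6 : z ∣ Y ^ 4 := by
        have h7 : Y ^ 4 = V - k * (10 * Y ^ 3 + 50 * Y ^ 2 * k + 125 * Y * k ^ 2 + 125 * k ^ 3) := by
          rw [hV]; ring
        rw [h7]
        exact dvd_sub hzV (Dvd.dvd.mul_right hzk _)
      exact prime_common hc hz (by rw [hk]; exact Dvd.dvd.mul_left hzk _) (hz.dvd_of_dvd_pow h6)
    have h3V : ¬ (3 : ℤ) ∣ V := fun h3 => h3U (by rw [hUV]; exact Dvd.dvd.mul_left h3 _)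
    obtain ⟨⟨b, hb⟩, -⟩ := split hκ hkpos hVpos hckV h3V hkV
    have hYk : IsCoprime Y (5 * k) := by
      obtain ⟨s, t, hst⟩ := hc
      exact ⟨s + t, s, by rw [← hst, hXk]; ring⟩
    have hkev : Even k := by
      rw [hk] at hev
      rcases (Int.even_mul).1 hev with h6 | h6
      · exact absurd h6 (by decide)
      · exact h6
    have := h1 Y k b hYk hYo hkev (by rw [← hb, hV])
    omega
  · have hcU : IsCoprime (X - Y) U := by
      refine isCoprime_of_prime_dvd (fun h => by omega) (fun z hz hz1 hz2 => ?_)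
      have h6 : z ∣ 5 * Y ^ 4 := by
        have h7 : 5 * Y ^ 4 = U - (X - Y) * (X ^ 3 + 2 * X ^ 2 * Y + 3 * X * Y ^ 2 + 4 * Y ^ 3) := by
          rw [hU]; ring
        rw [h7]
        exact dvd_sub hz2 (Dvd.dvd.mul_right hz1 _)
      rcases hz.dvd_or_dvd h6 with h7 | h7
      · have h5p : Prime (5 : ℤ) := by norm_num
        have h8 := (hz.dvd_prime_iff_associated h5p).1 h7
        exact h5 (h8.symm.dvd.trans hz1)
      · exact prime_common hc hz hz1 (hz.dvd_of_dvd_pow h7)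
    obtain ⟨⟨b, hb⟩, ⟨a, ha⟩⟩ := split hκ (by linarith) hUpos hcU h3U hprod
    have haev : Even a := by
      rw [ha] at hev
      rcases (Int.even_mul).1 hev with h6 | h6
      · exact absurd h6 (Int.not_even_iff_odd.2 hκo)
      · exact (Int.even_pow.1 h6).1
    have h4 : (4 : ℤ) ∣ X - 1 := by
      obtain ⟨c, rfl⟩ := haev
      obtain ⟨y, hy⟩ := hY4
      exact ⟨κ * c ^ 2 + y, by linear_combination ha + hy⟩
    exact jac hX hY hc h4 hY4 (by rw [← hU, hb])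

end POW5_

open POW5_ in
theorem p_V_POW5 : V_C5 → V_POW5 := by
  intro h1
  have key : ∀ κ : ℤ, κ = 1 ∨ κ = 3 → POW 5 κ := by
    intro κ hκ A B D hA hB hD hc h
    by_contra hD0
    have hA2 : (4 : ℤ) ∣ A ^ 2 - 1 := by
      obtain ⟨a, ha⟩ := hA
      exact ⟨a ^ 2 + a, by rw [ha]; ring⟩
    have hA0 : A ≠ 0 := by
      rintro rfl
      exact absurd hA (by decide)
    have hYpos : 0 < A ^ 2 := by positivity
    have hκpos : 0 < κ := by rcases hκ with rfl | rfl <;> norm_num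
    have h' : B ^ 5 = (A ^ 2) ^ 5 + κ * D ^ 2 := by rw [h, ← pow_mul]
    have hlt : A ^ 2 < B := by
      by_contra hcon
      push Not at hcon
      have h2 : B ^ 5 ≤ (A ^ 2) ^ 5 :=
        (Odd.strictMono_pow (by decide : Odd 5)).monotone hcon
      have h3 : 0 < κ * D ^ 2 := by positivity
      linarith
    exact core h1 hκ hlt hYpos hB hA2 hc.symm.pow_right h'
  exact ⟨key 1 (Or.inl rfl), key 3 (Or.inr rfl)⟩

end Pool.Agent.UPre
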