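import Pool.Agent.UPre.Targets2

/-! UPre: POW7 -/

namespace Pool.Agent.UPre

namespace POW7_

lemma sq_of_mul {m n c : ℤ} (hm : 0 < m) (hc : IsCoprime m n) (h : m * n = c ^ 2) :
    ∃ a : ℤ, m = a ^ 2 := by
  obtain ⟨a, ha | ha⟩ := Int.sq_of_isCoprime hc h
  · exact ⟨a, ha⟩
  · exfalso
    nlinarith [sq_nonneg a]

/-- splitting of `m n = κ c²` -/
lemma split {m n c κ : ℤ} (hκ : κ = 1 ∨ κ = 3) (hm : 0 < m) (hn : 0 < n) (hc : IsCoprime m n)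
    (h3 : ¬ (3 : ℤ) ∣ n) (h : m * n = κ * c ^ 2) : (∃ b : ℤ, n = b ^ 2) ∧ ∃ a : ℤ, m = κ * a ^ 2 := by
  rcases hκ with rfl | rfl
  · rw [one_mul] at h
    obtain ⟨a, ha⟩ := sq_of_mul hm hc h
    obtain ⟨b, hb⟩ := sq_of_mul hn hc.symm (by rw [mul_comm]; exact h)
    exact ⟨⟨b, hb⟩, ⟨a, by rw [one_mul]; exact ha⟩⟩
  · have h3p : Prime (3 : ℤ) := by norm_num
    have h4 : (3 : ℤ) ∣ m := by
      rcases h3p.dvd_or_dvd (⟨c ^ 2, h⟩ : (3 : ℤ) ∣ m * n) with h5 | h5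
      · exact h5
      · exact absurd h5 h3
    obtain ⟨t, rfl⟩ := h4
    have h5 : t * n = c ^ 2 := by
      have : 3 * (t * n) = 3 * c ^ 2 := by rw [← h]; ring
      exact mul_left_cancel₀ (by norm_num) this
    have hc' : IsCoprime t n := hc.of_mul_left_right
    obtain ⟨a, ha⟩ := sq_of_mul (by omega) hc' h5
    obtain ⟨b, hb⟩ := sq_of_mul hn hc'.symm (by rw [mul_comm]; exact h5)
    exact ⟨⟨b, hb⟩, ⟨a, by rw [ha]⟩⟩

lemma zmod3 : ∀ x y : ZMod 3, x ^ 6 + x ^ 5 * y + x ^ 4 * y ^ 2 + x ^ 3 * y ^ 3 + x ^ 2 * y ^ 4 +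
    x * y ^ 5 + y ^ 6 = 0 → x = 0 ∧ y = 0 := by decide

lemma three {X Y : ℤ} (hc : IsCoprime X Y)
    (h : (3 : ℤ) ∣ X ^ 6 + X ^ 5 * Y + X ^ 4 * Y ^ 2 + X ^ 3 * Y ^ 3 + X ^ 2 * Y ^ 4 +
      X * Y ^ 5 + Y ^ 6) : False := by
  have h1 : ((X ^ 6 + X ^ 5 * Y + X ^ 4 * Y ^ 2 + X ^ 3 * Y ^ 3 + X ^ 2 * Y ^ 4 +
      X * Y ^ 5 + Y ^ 6 : ℤ) : ZMod 3) = 0 :=
    (ZMod.intCast_zmod_eq_zero_iff_dvd _ 3).2 h
  push_cast at h1
  obtain ⟨h2, h3⟩ := zmod3 _ _ h1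
  have h2' : ((3 : ℕ) : ℤ) ∣ X := (ZMod.intCast_zmod_eq_zero_iff_dvd X 3).1 h2
  have h3' : ((3 : ℕ) : ℤ) ∣ Y := (ZMod.intCast_zmod_eq_zero_iff_dvd Y 3).1 h3
  have h4 := hc.isUnit_of_dvd' h2' h3'
  have h3p : Prime (3 : ℤ) := by norm_num
  exact h3p.not_isUnit h4

lemma prime_common {X Y z : ℤ} (hc : IsCoprime X Y) (hz : Prime z) (h : z ∣ X - Y)
    (h' : z ∣ Y) : False := by
  have h1 : z ∣ X := by
    have : X = (X - Y) + Y := by ring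
    rw [this]
    exact dvd_add h h'
  exact hz.not_isUnit (hc.isUnit_of_dvd' h1 h')

/-- the residue argument -/
lemma jac {X Y A b : ℤ} (hX : 0 < X) (hYA : Y = A ^ 2) (hY : 0 < Y) (hc : IsCoprime X Y)
    (h4 : (4 : ℤ) ∣ X - Y) (h8 : (8 : ℤ) ∣ Y - 1)
    (hb : X ^ 6 + X ^ 5 * Y + X ^ 4 * Y ^ 2 + X ^ 3 * Y ^ 3 + X ^ 2 * Y ^ 4 +
      X * Y ^ 5 + Y ^ 6 = b ^ 2) : False := by
  obtain ⟨N, hN⟩ : ∃ N : ℕ, (N : ℤ) = X ^ 4 + X ^ 3 * Y + X ^ 2 * Y ^ 2 + X * Y ^ 3 + Y ^ 4 :=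
    ⟨(X ^ 4 + X ^ 3 * Y + X ^ 2 * Y ^ 2 + X * Y ^ 3 + Y ^ 4).toNat,
      Int.toNat_of_nonneg (by positivity)⟩
  obtain ⟨x, hx⟩ := h4
  obtain ⟨y, hy⟩ := h8
  have hy' : Y = 8 * y + 1 := by linarith
  have hx' : X = 4 * (x + 2 * y) + 1 := by linarith
  -- X + Y = 2 h
  obtain ⟨h, hh⟩ : ∃ h : ℕ, (h : ℤ) = 2 * x + 8 * y + 1 :=
    ⟨(2 * x + 8 * y + 1).toNat, Int.toNat_of_nonneg (by linarith)⟩
  have hXY : X + Y = 2 * (h : ℤ) := by rw [hh, hx', hy']; ring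
  have hhodd : Odd h := by
    have : Odd (h : ℤ) := ⟨x + 4 * y, by rw [hh]; ring⟩
    exact_mod_cast this
  have hN8 : N % 8 = 5 := by
    have h5 : ((X ^ 4 + X ^ 3 * Y + X ^ 2 * Y ^ 2 + X * Y ^ 3 + Y ^ 4 : ℤ)) % 8 = 5 := by
      have hY8 : Y % 8 = 1 := by omega
      have hX8 : X % 8 = 1 ∨ X % 8 = 5 := by omega
      have e1 : (X ^ 4 + X ^ 3 * Y + X ^ 2 * Y ^ 2 + X * Y ^ 3 + Y ^ 4) % 8 =
        ((X % 8) ^ 4 + (X % 8) ^ 3 * (Y % 8) + (X % 8) ^ 2 * (Y % 8) ^ 2 +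
          (X % 8) * (Y % 8) ^ 3 + (Y % 8) ^ 4) % 8 := by
        simp [Int.add_emod, Int.mul_emod, pow_succ]
      rw [e1, hY8]
      rcases hX8 with h6 | h6 <;> rw [h6] <;> norm_num
    rw [← hN] at h5
    omega
  have hNodd : Odd N := by
    rw [Nat.odd_iff]
    omega
  have hN4 : N % 4 = 1 := by omega
  have hcY : IsCoprime Y (N : ℤ) := by
    rw [hN]
    have h6 : IsCoprime Y (X ^ 4) := hc.symm.pow_right
    have : X ^ 4 + X ^ 3 * Y + X ^ 2 * Y ^ 2 + X * Y ^ 3 + Y ^ 4 =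
      X ^ 4 + Y * (X ^ 3 + X ^ 2 * Y + X * Y ^ 2 + Y ^ 3) := by ring
    rw [this]
    exact h6.add_mul_left_right _
  have hcA : IsCoprime A (N : ℤ) := by
    rw [hYA] at hcY
    exact (IsCoprime.pow_left_iff (by norm_num)).1 hcY
  have hcYh : IsCoprime Y (h : ℤ) := by
    have h6 : IsCoprime Y (X + Y) := by
      obtain ⟨s, t, hst⟩ := hc
      exact ⟨t - s, s, by rw [← hst]; ring⟩
    rw [hXY] at h6
    exact h6.of_mul_right_right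
  have hgcdA : (A ^ 5).gcd (N : ℤ) = 1 := by
    rw [← Int.isCoprime_iff_gcd_eq_one]
    exact hcA.pow_left
  have hgcdY : (Y ^ 2).gcd (h : ℤ) = 1 := by
    rw [← Int.isCoprime_iff_gcd_eq_one]
    exact hcYh.pow_left
  -- (2 / N) = -1
  have h2N : jacobiSym 2 N = -1 := by
    rw [jacobiSym.at_two hNodd, ZMod.χ₈_nat_eq_if_mod_eight]
    simp [hN8]
    omega
  -- (h / N) = (N / h) = 1
  have hhN : jacobiSym (h : ℤ) N = 1 := by
    rw [← jacobiSym.quadratic_reciprocity_one_mod_four hN4 hhodd]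
    have h7 : jacobiSym ((Y ^ 2) ^ 2) h = 1 := jacobiSym.sq_one' hgcdY
    rw [← h7]
    apply jacobiSym.mod_left'
    have h8 : (N : ℤ) ≡ (Y ^ 2) ^ 2 [ZMOD (h : ℤ)] := by
      apply Int.ModEq.symm
      rw [Int.modEq_iff_dvd, hN]
      refine ⟨2 * (X ^ 3 + X * Y ^ 2), ?_⟩
      have : X ^ 4 + X ^ 3 * Y + X ^ 2 * Y ^ 2 + X * Y ^ 3 + Y ^ 4 - (Y ^ 2) ^ 2 =
        (X + Y) * (X ^ 3 + X * Y ^ 2) := by ring
      rw [this, hXY]
      ring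
    exact h8
  have h1 : jacobiSym ((A ^ 5) ^ 2 * (2 * (h : ℤ))) N = -1 := by
    rw [jacobiSym.mul_left, jacobiSym.sq_one' hgcdA, jacobiSym.mul_left, h2N, hhN]
    norm_num
  have h2 : jacobiSym (b ^ 2) N = jacobiSym b N ^ 2 := jacobiSym.pow_left b 2 N
  have h3 : jacobiSym ((A ^ 5) ^ 2 * (2 * (h : ℤ))) N = jacobiSym (b ^ 2) N := by
    apply jacobiSym.mod_left'
    have h5 : (A ^ 5) ^ 2 * (2 * (h : ℤ)) ≡ b ^ 2 [ZMOD (N : ℤ)] := by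
      rw [Int.modEq_iff_dvd, hN]
      refine ⟨X ^ 2, ?_⟩
      rw [← hb, ← hXY]
      have h9 : (A ^ 5) ^ 2 = Y ^ 5 := by rw [hYA]; ring
      rw [h9]
      ring
    exact h5
  rw [h1, h2] at h3
  have := sq_nonneg (jacobiSym b N)
  omega

lemma core (h1 : V_E7) {κ X Y A D : ℤ} (hκ : κ = 1 ∨ κ = 3) (hXY : Y < X) (hYA : Y = A ^ 2)
    (hY : 0 < Y) (hXo : Odd X) (hY8 : (8 : ℤ) ∣ Y - 1) (hc : IsCoprime X Y)
    (h : X ^ 7 = Y ^ 7 + κ * D ^ 2) : False := by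
  have hX : 0 < X := by linarith
  have hYo : Odd Y := by
    obtain ⟨y, hy⟩ := hY8
    exact ⟨4 * y, by linarith⟩
  obtain ⟨U, hU⟩ : ∃ U, U = X ^ 6 + X ^ 5 * Y + X ^ 4 * Y ^ 2 + X ^ 3 * Y ^ 3 + X ^ 2 * Y ^ 4 +
    X * Y ^ 5 + Y ^ 6 := ⟨_, rfl⟩
  have hUpos : 0 < U := by rw [hU]; positivity
  have hprod : (X - Y) * U = κ * D ^ 2 := by
    rw [hU]
    linear_combination h
  have h3U : ¬ (3 : ℤ) ∣ U := fun h3 => three hc (by rw [← hU]; exact h3)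
  have hκo : Odd κ := by
    rcases hκ with rfl | rfl <;> decide
  have hev : Even (X - Y) := hXo.sub_odd hYo
  by_cases h5 : (7 : ℤ) ∣ X - Y
  · obtain ⟨k, hk⟩ := h5
    have hkpos : 0 < k := by omega
    have hXk : X = Y + 7 * k := by linarith
    obtain ⟨V, hV⟩ : ∃ V, V = (X * Y) ^ 3 + 98 * (X * Y) ^ 2 * k ^ 2 + 2401 * (X * Y) * k ^ 4 +
      16807 * k ^ 6 := ⟨_, rfl⟩
    have hUV : U = 7 * V := by rw [hU, hV, hXk]; ring
    have hVpos : 0 < V := by rw [hV]; positivity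
    have h25 : 49 * (k * V) = κ * D ^ 2 := by rw [← hprod, hk, hUV]; ring
    have h5p : Prime (7 : ℤ) := by norm_num
    have h5D : (7 : ℤ) ∣ D := by
      have h6 : (7 : ℤ) ∣ κ * D ^ 2 := ⟨7 * (k * V), by rw [← h25]; ring⟩
      rcases h5p.dvd_or_dvd h6 with h7 | h7
      · rcases hκ with rfl | rfl <;> norm_num at h7
      · exact h5p.dvd_of_dvd_pow h7
    obtain ⟨D', rfl⟩ := h5D
    have hkV : k * V = κ * D' ^ 2 := by
      have : 49 * (k * V) = 49 * (κ * D' ^ 2) := by rw [h25]; ring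
      exact mul_left_cancel₀ (by norm_num) this
    have hckV : IsCoprime k V := by
      refine isCoprime_of_prime_dvd (fun h => by omega) (fun z hz hzk hzV => ?_)
      have h6 : z ∣ Y ^ 6 := by
        have h7 : Y ^ 6 = V - k * (21 * Y ^ 5 + 245 * Y ^ 4 * k + 1715 * Y ^ 3 * k ^ 2 +
            7203 * Y ^ 2 * k ^ 3 + 16807 * Y * k ^ 4 + 16807 * k ^ 5) := by
          rw [hV, hXk]; ring
        rw [h7]
        exact dvd_sub hzV (Dvd.dvd.mul_right hzk _)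
      exact prime_common hc hz (by rw [hk]; exact Dvd.dvd.mul_left hzk _) (hz.dvd_of_dvd_pow h6)
    have h3V : ¬ (3 : ℤ) ∣ V := fun h3 => h3U (by rw [hUV]; exact Dvd.dvd.mul_left h3 _)
    obtain ⟨⟨b, hb⟩, -⟩ := split hκ hkpos hVpos hckV h3V hkV
    have hXk' : IsCoprime X k := by
      obtain ⟨s, t, hst⟩ := hc
      exact ⟨s + t, -(7 * t), by rw [← hst, hXk]; ring⟩
    have hYk' : IsCoprime Y k := by
      obtain ⟨s, t, hst⟩ := hc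
      exact ⟨s + t, 7 * s, by rw [← hst, hXk]; ring⟩
    have := h1 (X * Y) k b (hXk'.mul_left hYk') (by rw [← hb, hV])
    omega
  · have hcU : IsCoprime (X - Y) U := by
      refine isCoprime_of_prime_dvd (fun h => by omega) (fun z hz hz1 hz2 => ?_)
      have h6 : z ∣ 7 * Y ^ 6 := by
        have h7 : 7 * Y ^ 6 = U - (X - Y) * (X ^ 5 + 2 * X ^ 4 * Y + 3 * X ^ 3 * Y ^ 2 +
            4 * X ^ 2 * Y ^ 3 + 5 * X * Y ^ 4 + 6 * Y ^ 5) := by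
          rw [hU]; ring
        rw [h7]
        exact dvd_sub hz2 (Dvd.dvd.mul_right hz1 _)
      rcases hz.dvd_or_dvd h6 with h7 | h7
      · have h5p : Prime (7 : ℤ) := by norm_num
        have h8 := (hz.dvd_prime_iff_associated h5p).1 h7
        exact h5 (h8.symm.dvd.trans hz1)
      · exact prime_common hc hz hz1 (hz.dvd_of_dvd_pow h7)
    obtain ⟨⟨b, hb⟩, ⟨a, ha⟩⟩ := split hκ (by linarith) hUpos hcU h3U hprod
    have haev : Even a := by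
      rw [ha] at hev
      rcases (Int.even_mul).1 hev with h6 | h6
      · exact absurd h6 (Int.not_even_iff_odd.2 hκo)
      · exact (Int.even_pow.1 h6).1
    have h4 : (4 : ℤ) ∣ X - Y := by
      obtain ⟨c, rfl⟩ := haev
      exact ⟨κ * c ^ 2, by linear_combination ha⟩
    exact jac hX hYA hY hc h4 hY8 (by rw [← hU, hb])

end POW7_

open POW7_ in
theorem p_V_POW7 : V_E7 → V_POW7 := by
  intro h1
  have key : ∀ κ : ℤ, κ = 1 ∨ κ = 3 → POW 7 κ := by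
    intro κ hκ A B D hA hB hD hc h
    by_contra hD0
    have hA2 : (8 : ℤ) ∣ A ^ 2 - 1 := by
      obtain ⟨a, ha⟩ := hA
      have h2 : Even (a * (a + 1)) := Int.even_mul_succ_self a
      obtain ⟨t, ht⟩ := h2
      exact ⟨t, by rw [ha]; linear_combination 4 * ht⟩
    have hA0 : A ≠ 0 := by
      rintro rfl
      exact absurd hA (by decide)
    have hYpos : 0 < A ^ 2 := by positivity
    have hκpos : 0 < κ := by rcases hκ with rfl | rfl <;> norm_num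
    have h' : B ^ 7 = (A ^ 2) ^ 7 + κ * D ^ 2 := by rw [h, ← pow_mul]
    have hlt : A ^ 2 < B := by
      by_contra hcon
      push Not at hcon
      have h2 : B ^ 7 ≤ (A ^ 2) ^ 7 :=
        (Odd.strictMono_pow (by decide : Odd 7)).monotone hcon
      have h3 : 0 < κ * D ^ 2 := by positivity
      linarith
    exact core h1 hκ hlt rfl hYpos hB hA2 hc.symm.pow_right h'
  exact ⟨key 1 (Or.inl rfl), key 3 (Or.inr rfl)⟩

end Pool.Agent.UPre
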