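import Pool.Agent.UPre.Targets2
import Pool.Agent.UPre.Dyn

/-! UPre: RAT -/

namespace Pool.Agent.UPre

open Function

namespace RAT_

lemma val_zero_of_not_dvd {p : ℕ} {z : ℤ} (h : ¬ (p : ℤ) ∣ z) :
    padicValRat p (z : ℚ) = 0 := by
  rw [padicValRat.of_int, padicValInt.eq_zero_of_not_dvd h]
  rfl

end RAT_

open RAT_ in
theorem p_U_RAT : U_NORM → U_BADV → U_BAD → U_RAT := by
  intro h1 h2 h3 p hp hp2 q d hd hde hqd a c x y ha hbad hq hx hy hxy lam t w hxt hyw hc hptw
  have : Fact p.Prime := ⟨hp⟩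
  have hpp : Prime (p : ℤ) := Nat.prime_iff_prime_int.1 hp
  have hPx : PreG a d c x := ⟨0, hx⟩
  have hPy : PreG a d c y := ⟨0, hy⟩
  have hx0 : x ≠ 0 := ((h1 p hp d hd a c x ha hPx).2 hbad).2.2
  have hy0 : y ≠ 0 := ((h1 p hp d hd a c y ha hPy).2 hbad).2.2
  have hl0 : lam ≠ 0 := by
    rintro rfl
    exact hx0 (by rw [hxt, zero_mul])
  have ht0 : (t : ℚ) ≠ 0 := by
    intro h
    exact hx0 (by rw [hxt, h, mul_zero])
  have hw0 : (w : ℚ) ≠ 0 := by
    intro h
    exact hy0 (by rw [hyw, h, mul_zero])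
  have hv := h2 p hp d hd a c x y ha hPx hPy hbad
  have hvx : padicValRat p x = padicValRat p lam + padicValRat p (t : ℚ) := by
    rw [hxt, padicValRat.mul hl0 ht0]
  have hvy : padicValRat p y = padicValRat p lam + padicValRat p (w : ℚ) := by
    rw [hyw, padicValRat.mul hl0 hw0]
  have htw : padicValRat p (t : ℚ) = padicValRat p (w : ℚ) := by
    rw [hvx, hvy] at hv
    linarith
  have ht : ¬ (p : ℤ) ∣ t := by
    intro h
    by_cases hw : (p : ℤ) ∣ w
    · exact hpp.not_isUnit (hc.isUnit_of_dvd' h hw)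
    · rw [val_zero_of_not_dvd hw, padicValRat.of_int] at htw
      have h4 : padicValInt p t = 0 := by exact_mod_cast htw
      rw [padicValInt.eq_zero_iff] at h4
      rcases h4 with h4 | h4 | h4
      · exact hp.one_lt.ne' h4
      · exact ht0 (by exact_mod_cast h4)
      · exact h4 h
  have hvx' : padicValRat p x = padicValRat p lam := by
    rw [hvx, val_zero_of_not_dvd ht, add_zero]
  have htw0 : t - w ≠ 0 := by
    intro h
    rw [h] at hptw
    exact hptw (dvd_zero _)
  have hvsub : padicValRat p (x - y) = padicValRat p x := by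
    have h4 : x - y = lam * ((t - w : ℤ) : ℚ) := by
      rw [hxt, hyw]
      push_cast
      ring
    have h5 : ((t - w : ℤ) : ℚ) ≠ 0 := by exact_mod_cast htw0
    rw [h4, padicValRat.mul hl0 h5, val_zero_of_not_dvd hptw, add_zero, hvx']
  have hB := h3 p hp hp2 q d hd hde hqd a c x y ha hbad hq hx hy hxy hvsub
  have htd : t ^ d - w ^ d ≠ 0 := by
    intro h
    have h4 : G a d c x = G a d c y := by
      show a * x ^ d + c = a * y ^ d + c
      rw [hxt, hyw, mul_pow, mul_pow]
      have h5 : (t : ℚ) ^ d = (w : ℚ) ^ d := by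
        have : ((t ^ d - w ^ d : ℤ) : ℚ) = 0 := by rw [h]; rfl
        push_cast at this
        linarith
      rw [h5]
    exact hxy (per_inj hx hy h4)
  have htd' : ((t ^ d - w ^ d : ℤ) : ℚ) ≠ 0 := by exact_mod_cast htd
  have hG : G a d c x - G a d c y = a * (lam ^ d * ((t ^ d - w ^ d : ℤ) : ℚ)) := by
    show (a * x ^ d + c) - (a * y ^ d + c) = _
    rw [hxt, hyw, mul_pow, mul_pow]
    push_cast
    ring
  rw [hG, padicValRat.mul ha (mul_ne_zero (pow_ne_zero _ hl0) htd'),
    padicValRat.mul (pow_ne_zero _ hl0) htd', padicValRat.pow, hvx', padicValRat.of_int] at hB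
  have hd0 : (d : ℚ) ≠ 0 := by
    have : d ≠ 0 := by omega
    exact_mod_cast this
  rw [padicValRat.mul ha hd0, padicValRat.of_nat] at hq
  obtain ⟨e, he⟩ := hqd
  have hde' : (d : ℤ) = q * e + 1 := by
    have : d = q * e + 1 := by omega
    exact_mod_cast this
  obtain ⟨r, hr⟩ := hB
  obtain ⟨s, hs⟩ := hq
  refine ⟨r - s - e * padicValRat p lam, ?_⟩
  rw [hde'] at hr
  linear_combination hr - hs

end Pool.Agent.UPre
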