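import Pool.Agent.UPre.Targets2

namespace Pool.Agent.UPre

theorem p_V_RP : V_RP := by
  intro x y h
  set m : ℤ := x.num with hm
  set s : ℤ := (x.den : ℤ) with hs
  have hs0 : 0 < s := by rw [hs]; exact_mod_cast x.den_pos
  have hsq : (s : ℚ) ≠ 0 := by exact_mod_cast hs0.ne'
  have hx : x = m / s := by
    rw [hm, hs]; push_cast; exact (Rat.num_div_den x).symm
  have hco : IsCoprime m s := by
    rw [Int.isCoprime_iff_gcd_eq_one]
    have := x.reduced
    simpa [Int.gcd, Nat.Coprime, hm, hs] using this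
  obtain ⟨F, hF⟩ : ∃ F : ℤ, F = m ^ 3 + 98 * m ^ 2 * s + 2401 * m * s ^ 2 + 16807 * s ^ 3 := ⟨_, rfl⟩
  have key : ((s * F : ℤ) : ℚ) = (y * s ^ 2) * (y * s ^ 2) := by
    have e1 : (y * s ^ 2) * (y * s ^ 2) = y ^ 2 * s ^ 4 := by ring
    rw [e1, h, hx, hF]
    push_cast
    field_simp
  have hsqr : IsSquare (s * F) := by
    rw [← Rat.isSquare_intCast_iff]
    exact ⟨_, key⟩
  obtain ⟨r, hr⟩ := hsqr
  have hcoF : IsCoprime s F := by
    have h1 : IsCoprime s (m ^ 3) := hco.symm.pow_right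
    have h2 : F = m ^ 3 + s * (98 * m ^ 2 + 2401 * m * s + 16807 * s ^ 2) := by rw [hF]; ring
    rw [h2]
    exact h1.add_mul_left_right _
  have hr' : s * F = r ^ 2 := by rw [hr]; ring
  obtain ⟨N, hN⟩ := Int.sq_of_isCoprime hcoF hr'
  have hN' : s = N ^ 2 := by
    rcases hN with h | h
    · exact h
    · exfalso; nlinarith [sq_nonneg N]
  have hN0 : N ≠ 0 := by rintro rfl; simp at hN'; omega
  have hr'' : F * s = r ^ 2 := by rw [mul_comm]; exact hr'
  obtain ⟨T, hT⟩ := Int.sq_of_isCoprime hcoF.symm hr''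
  have hT' : ∃ T : ℤ, F = T ^ 2 := by
    rcases hT with h | h
    · exact ⟨T, h⟩
    · refine ⟨0, ?_⟩
      have h1 : 0 ≤ s * F := by rw [hr']; positivity
      have h2 : 0 ≤ F := by
        by_contra hneg
        push Not at hneg
        have := mul_neg_of_pos_of_neg hs0 hneg
        omega
      nlinarith [sq_nonneg T]
  obtain ⟨T, hT⟩ := hT'
  refine ⟨m, N, T, hN0, ?_, ?_, ?_⟩
  · rw [hN'] at hco
    exact (IsCoprime.pow_right_iff (by norm_num)).1 hco
  · rw [hx, hN']; push_cast; ring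
  · rw [← hT, hF, hN']; ring

end Pool.Agent.UPre
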