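import Pool.Agent.UPre.Targets2
import Pool.Agent.UPre.Dyn

namespace Pool.Agent.UPre

open Function

private lemma preG_of_per' {a : ℚ} {d : ℕ} {c x : ℚ} (h : x ∈ periodicPts (G a d c)) : PreG a d c x := ⟨0, h⟩

theorem p_U_SUM : U_NORM → U_BADV → U_LTEQ → U_BAD → U_SUM := by
  intro hN hV hL hB p hp hp2 q d hd hev hq a c x y ha hbad hqa hx hy hxy
  have _inst := Fact.mk hp
  have hx0 : x ≠ 0 := ((hN p hp d hd a c x ha (preG_of_per' hx)).2 hbad).2.2
  have hy0 : y ≠ 0 := ((hN p hp d hd a c y ha (preG_of_per' hy)).2 hbad).2.2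
  have hv : padicValRat p x = padicValRat p y :=
    hV p hp d hd a c x y ha (preG_of_per' hx) (preG_of_per' hy) hbad
  have hd0 : d ≠ 0 := by omega
  -- distinct d-th powers
  have hpow : x ^ d ≠ y ^ d := by
    intro h
    apply hxy
    refine per_inj hx hy ?_
    show a * x ^ d + c = a * y ^ d + c
    rw [h]
  have hs0 : x + y ≠ 0 := by
    intro h
    apply hpow
    have : x = -y := by linarith
    rw [this, hev.neg_pow]
  have hge : padicValRat p x ≤ padicValRat p (x + y) := by
    have := padicValRat.min_le_padicValRat_add (p := p) (q := x) (r := y) hs0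
    rw [← hv, min_self] at this
    exact this
  rcases eq_or_lt_of_le hge with h | h
  · rw [← h]; simp
  -- v (x - y) = v x
  have h2 : padicValRat p (2 : ℚ) = 0 := by
    have e : (2 : ℚ) = ((2 : ℕ) : ℚ) := by norm_num
    rw [e, padicValRat.of_nat]
    have : padicValNat p 2 = 0 := by
      apply padicValNat.eq_zero_of_not_dvd
      intro hdv
      exact hp2 ((Nat.prime_dvd_prime_iff_eq hp Nat.prime_two).1 hdv)
    rw [this]; rfl
  have h2x : padicValRat p (2 * x) = padicValRat p x := by
    rw [padicValRat.mul (by norm_num) hx0, h2, zero_add]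
  have hm0 : x - y ≠ 0 := sub_ne_zero.2 hxy
  have hsub : padicValRat p (x - y) = padicValRat p x := by
    have e : x - y = 2 * x + -(x + y) := by ring
    have hlt : padicValRat p (2 * x) < padicValRat p (-(x + y)) := by
      rw [h2x, padicValRat.neg]; exact h
    rw [e, padicValRat.add_eq_of_lt (by rw [← e]; exact hm0) (mul_ne_zero two_ne_zero hx0)
      (neg_ne_zero.2 hs0) hlt, h2x]
  have hb := hB p hp hp2 q d hd hev hq a c x y ha hbad hqa hx hy hxy hsub
  have hl := (hL d hev hd0 p hp hp2 x y hx0 hy0 hv hpow).2 h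
  have eG : G a d c x - G a d c y = a * (x ^ d - y ^ d) := by
    show a * x ^ d + c - (a * y ^ d + c) = _
    ring
  rw [eG, padicValRat.mul ha (sub_ne_zero.2 hpow), hl] at hb
  have hdq : ((d : ℕ) : ℚ) ≠ 0 := by exact_mod_cast hd0
  rw [padicValRat.mul ha hdq, padicValRat.of_nat] at hqa
  have hq1 : (q : ℤ) ∣ ((d : ℤ) - 1) := by
    have : ((d - 1 : ℕ) : ℤ) = (d : ℤ) - 1 := by push_cast [Nat.cast_sub (by omega : 1 ≤ d)]; ring
    rw [← this]
    exact_mod_cast hq
  have key : padicValRat p (x + y) - padicValRat p x =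
      (padicValRat p a + ((d : ℤ) - 1) * padicValRat p x + padicValRat p (x + y) +
        (padicValNat p d : ℤ) - padicValRat p x) -
      (padicValRat p a + (padicValNat p d : ℤ)) - ((d : ℤ) - 1) * padicValRat p x := by ring
  rw [key]
  refine dvd_sub (dvd_sub ?_ hqa) (Dvd.dvd.mul_right hq1 _)
  have e2 : padicValRat p a + ((d : ℤ) - 1) * padicValRat p x + padicValRat p (x + y) +
        (padicValNat p d : ℤ) - padicValRat p x =
      padicValRat p a + (((d : ℤ) - 1) * padicValRat p x + padicValRat p (x + y) +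
        (padicValNat p d : ℤ)) - padicValRat p x := by ring
  rw [e2]; exact hb

end Pool.Agent.UPre
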