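import Pool.Agent.UPre.Targets2

/-! Tails of length two over a fixed point (job UPRE2-T1). -/

namespace Pool.Agent.UPre

open Function

namespace T1_

/-- if `p` does not divide `n`, the valuation of `n` vanishes -/
theorem val_zero {p : ℕ} {n : ℤ} (h : ¬ (p : ℤ) ∣ n) : padicValInt p n = 0 :=
  padicValInt.eq_zero_of_not_dvd h

end T1_

open T1_ in
theorem p_U_T1 : U_T1 := by
  intro q d hd4 hde hqd hPP hOP a c x w ha hS hw hGw hGx
  have hGw' : a * w ^ d + c = w := hGw
  have hGx' : a * x ^ d + c = -w := hGx
  have h1 : a * (w ^ d - x ^ d) = 2 * w := by linear_combination hGw' - hGx'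
  have hwd : w ^ d = w ^ (d - 1) * w := by
    rw [← pow_succ, Nat.sub_add_cancel (by omega)]
  by_cases hx : x = 0
  · subst hx
    have h2 : a * w ^ d = 2 * w := by
      rw [zero_pow (by omega), sub_zero] at h1
      exact h1
    have h3 : a * w ^ (d - 1) = 2 := by
      have h4 : (a * w ^ (d - 1)) * w = 2 * w := by
        rw [mul_assoc, ← hwd]
        exact h2
      exact mul_right_cancel₀ hw h4
    exact ⟨rfl, h3, by linear_combination hGw' - h2⟩
  · exfalso
    set r : ℚ := x / w with hr
    have hr0 : r ≠ 0 := div_ne_zero hx hw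
    set A : ℤ := (r.den : ℤ) with hA
    set B : ℤ := r.num with hB
    have hA0 : A ≠ 0 := by
      rw [hA]
      exact_mod_cast r.den_nz
    have hB0 : B ≠ 0 := by
      rw [hB]
      exact Rat.num_ne_zero.mpr hr0
    have hAq : (A : ℚ) ≠ 0 := by exact_mod_cast hA0
    have hrAB : r = (B : ℚ) / (A : ℚ) := by
      rw [hA, hB]
      push_cast
      exact (Rat.num_div_den r).symm
    have hcop : IsCoprime A B := by
      rw [Int.isCoprime_iff_gcd_eq_one, hA, hB, Int.gcd_comm]
      have := r.reduced
      rw [Nat.coprime_iff_gcd_eq_one] at this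
      simpa [Int.gcd] using this
    have hxAB : x * A = w * B := by
      have h2 : x = r * w := by rw [hr]; field_simp
      rw [h2, hrAB]
      field_simp
    have hxd : x ^ d * (A : ℚ) ^ d = w ^ d * (B : ℚ) ^ d := by
      rw [← mul_pow, hxAB, mul_pow]
    have hkey : (((A ^ d - B ^ d : ℤ)) : ℚ) * (a * w ^ (d - 1)) = 2 * (A : ℚ) ^ d := by
      have h3 : ((((A ^ d - B ^ d : ℤ)) : ℚ) * (a * w ^ (d - 1))) * w = (2 * (A : ℚ) ^ d) * w := by
        push_cast
        have h4 : (a * w ^ (d - 1)) * w = a * w ^ d := by rw [hwd]; ring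
        rw [mul_assoc, h4]
        linear_combination (A : ℚ) ^ d * h1 + a * hxd
      exact mul_right_cancel₀ hw h3
    have hne : A ^ d - B ^ d ≠ 0 := by
      intro h0
      rw [h0] at hkey
      simp only [Int.cast_zero, zero_mul] at hkey
      have := mul_ne_zero (two_ne_zero (α := ℚ)) (pow_ne_zero d hAq)
      exact this hkey.symm
    -- the hypothesis of the pair lemmas
    have hval : ∀ p : ℕ, p.Prime → p ≠ 2 → (p : ℤ) ∣ A ^ d - B ^ d →
        (q : ℤ) ∣ (padicValInt p (A ^ d - B ^ d) : ℤ) - padicValNat p d := by
      intro p hp hp2 hdvd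
      have hfact : Fact p.Prime := ⟨hp⟩
      have hpZ : Prime (p : ℤ) := Nat.prime_iff_prime_int.mp hp
      have hpA : ¬ (p : ℤ) ∣ A := by
        intro h5
        have h6 : (p : ℤ) ∣ B ^ d := by
          have h7 := dvd_sub (dvd_pow h5 (by omega : d ≠ 0)) hdvd
          simpa using h7
        have h8 := hpZ.dvd_of_dvd_pow h6
        have h9 := hcop.isUnit_of_dvd' h5 h8
        exact hpZ.not_isUnit h9
      have hv := congrArg (padicValRat p) hkey
      rw [padicValRat.mul (by exact_mod_cast hne) (mul_ne_zero ha (pow_ne_zero _ hw)),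
        padicValRat.mul ha (pow_ne_zero _ hw), padicValRat.pow,
        padicValRat.mul (by norm_num) (pow_ne_zero _ hAq), padicValRat.pow,
        padicValRat.of_int, padicValRat.of_int, val_zero hpA] at hv
      have h2v : padicValRat p 2 = 0 := by
        have h10 : padicValRat p ((2 : ℤ) : ℚ) = ((padicValInt p 2 : ℕ) : ℤ) := padicValRat.of_int
        have h11 : ¬ (p : ℤ) ∣ 2 := by
          intro h12
          have h13 : p ∣ 2 := by exact_mod_cast h12
          rw [Nat.prime_dvd_prime_iff_eq hp Nat.prime_two] at h13
          exact hp2 h13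
        rw [val_zero h11] at h10
        simpa using h10
      rw [h2v] at hv
      have hSp := hS p hp hp2
      have hd0 : (d : ℚ) ≠ 0 := by
        have : d ≠ 0 := by omega
        exact_mod_cast this
      rw [padicValRat.mul ha hd0, padicValRat.of_nat] at hSp
      have hqd' : (q : ℤ) ∣ ((d - 1 : ℕ) : ℤ) * padicValRat p w :=
        Dvd.dvd.mul_right (by exact_mod_cast hqd) _
      have h14 : (padicValInt p (A ^ d - B ^ d) : ℤ) - padicValNat p d =
          -(padicValRat p a + padicValNat p d) - ((d - 1 : ℕ) : ℤ) * padicValRat p w := by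
        simp only [Nat.cast_zero, mul_zero, add_zero] at hv
        linarith
      rw [h14]
      exact dvd_sub (by rwa [dvd_neg]) hqd'
    rcases Int.even_or_odd A with hAe | hAo
    · -- A even, so B odd
      have hBo : Odd B := by
        rcases Int.even_or_odd B with hBe | hBo
        · exfalso
          have h5 : IsUnit (2 : ℤ) := hcop.isUnit_of_dvd' hAe.two_dvd hBe.two_dvd
          exact absurd h5 (by decide)
        · exact hBo
      have h6 : Odd (A + B) := hAe.add_odd hBo
      rcases hOP A B hcop h6 hval with h7 | h7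
      · exact hA0 h7
      · exact hB0 h7
    · rcases Int.even_or_odd B with hBe | hBo
      · have h6 : Odd (A + B) := hAo.add_even hBe
        rcases hOP A B hcop h6 hval with h7 | h7
        · exact hA0 h7
        · exact hB0 h7
      · -- both odd
        have h8 : (4 : ℤ) ∣ A - B ∨ (4 : ℤ) ∣ A - (-B) := by
          obtain ⟨i, hi⟩ := hAo
          obtain ⟨j, hj⟩ := hBo
          omega
        rcases h8 with h8 | h8
        · refine hPP A B hAo hBo hcop h8 ?_ ?_
          · intro h9
            apply hne
            rw [h9, sub_self]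
          · intro p hp hp2 _ hdvd
            exact hval p hp hp2 hdvd
        · refine hPP A (-B) hAo hBo.neg hcop.neg_right h8 ?_ ?_
          · intro h9
            apply hne
            rw [h9, hde.neg_pow, sub_self]
          · intro p hp hp2 _ hdvd
            rw [hde.neg_pow] at hdvd ⊢
            exact hval p hp hp2 hdvd

end Pool.Agent.UPre
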