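import Pool.Agent.UPre.Targets2
import Pool.Agent.UPre.Dyn

/-! Tails of length two over a longer cycle, project UPre. -/

namespace Pool.Agent.UPre

open Function

namespace T2_

/-- the arithmetic conclusion of the two tail lemmas -/
theorem finish {q d : ℕ} (hd : Even d) (hPP : PP q d) (hOP : OP q d) {A B : ℤ}
    (hco : IsCoprime A B) (hA : A ≠ 0) (hB : B ≠ 0) (hne : A ^ d - B ^ d ≠ 0)
    (hS : HypS q d A B) : False := by
  have hAB : A ≠ B := by
    rintro rfl
    exact hne (sub_self _)
  have hAB' : A ≠ -B := by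
    rintro rfl
    apply hne
    rw [hd.neg_pow, sub_self]
  have hS' : HypS q d A (-B) := by
    intro p hp hp2 h
    rw [hd.neg_pow] at h ⊢
    exact hS p hp hp2 h
  rcases Int.even_or_odd A with hAe | hAo
  · rcases Int.even_or_odd B with hBe | hBo
    · have h2 : IsUnit (2 : ℤ) :=
        hco.isUnit_of_dvd' (even_iff_two_dvd.1 hAe) (even_iff_two_dvd.1 hBe)
      exact Int.prime_two.not_isUnit h2
    · rcases hOP A B hco (hAe.add_odd hBo) hS with h | h
      · exact hA h
      · exact hB h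
  · rcases Int.even_or_odd B with hBe | hBo
    · rcases hOP A B hco (hAo.add_even hBe) hS with h | h
      · exact hA h
      · exact hB h
    · have h4 : (4 : ℤ) ∣ A - B ∨ (4 : ℤ) ∣ A - -B := by
        obtain ⟨m, hm⟩ := hAo
        obtain ⟨n, hn⟩ := hBo
        omega
      rcases h4 with h4 | h4
      · exact hPP A B hAo hBo hco h4 hAB (fun p hp hp2 _ h => hS p hp hp2 h)
      · exact hPP A (-B) hAo hBo.neg hco.neg_right h4 hAB' (fun p hp hp2 _ h => hS' p hp hp2 h)

end T2_

open T2_ in
theorem p_U_T2 : U_NORM → U_BADV → U_SUM → U_T2G → U_T2 := by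
  intro _ _ hSUM hT2G q d hd4 hde hqd hPP hOP a c x w ha hq hw hper hfix hx
  by_contra hx0
  have hd0 : d ≠ 0 := by omega
  have hzper : G a d c w ∈ periodicPts (G a d c) := per_step hper
  have hsum : w + G a d c w ≠ 0 := by
    intro h
    have h1 : G a d c w = -w := by linarith
    have h2 : G a d c (G a d c w) = G a d c w := by
      have : G a d c (-w) = G a d c w := by
        simp only [G]
        rw [hde.neg_pow]
      rw [h1] at this ⊢
      exact this
    have h3 := per_inj hzper hper h2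
    exact hfix h3
  have hrel : a * (w ^ d - x ^ d) = w + G a d c w := by
    simp only [G] at hx ⊢
    linarith
  -- lowest terms
  set r : ℚ := x / w with hr
  have hr0 : r ≠ 0 := div_ne_zero hx0 hw
  have hA0 : ((r.den : ℤ)) ≠ 0 := by exact_mod_cast r.den_ne_zero
  have hB0 : r.num ≠ 0 := Rat.num_ne_zero.2 hr0
  have hAQ : ((r.den : ℤ) : ℚ) ≠ 0 := by exact_mod_cast hA0
  have hcop : IsCoprime (r.den : ℤ) r.num := (cop (x := r)).symm
  set lam : ℚ := w / ((r.den : ℤ) : ℚ) with hlam
  have hlam0 : lam ≠ 0 := div_ne_zero hw hAQ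
  have hwl : w = lam * ((r.den : ℤ) : ℚ) := by
    rw [hlam]; field_simp
  have hxl : x = lam * (r.num : ℚ) := by
    have h1 : x = r * w := by rw [hr]; field_simp
    have h2 : r = (r.num : ℚ) / ((r.den : ℤ) : ℚ) := by
      have := (Rat.num_div_den r).symm
      exact_mod_cast this
    calc x = r * w := h1
      _ = ((r.num : ℚ) / ((r.den : ℤ) : ℚ)) * w := by rw [← h2]
      _ = lam * (r.num : ℚ) := by rw [hlam]; ring
  have hkey : a * lam ^ d * (((r.den : ℤ) ^ d - r.num ^ d : ℤ) : ℚ) = w + G a d c w := by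
    rw [← hrel]
    have e1 : w ^ d = lam ^ d * ((r.den : ℤ) : ℚ) ^ d := by
      conv_lhs => rw [hwl]
      rw [mul_pow]
    have e2 : x ^ d = lam ^ d * (r.num : ℚ) ^ d := by
      conv_lhs => rw [hxl]
      rw [mul_pow]
    rw [e1, e2]
    push_cast
    ring
  have hne : (r.den : ℤ) ^ d - r.num ^ d ≠ 0 := by
    intro h
    apply hsum
    rw [← hkey, h]
    simp
  refine finish hde hPP hOP hcop hA0 hB0 hne ?_
  intro p hp hp2 hdvd
  have : Fact p.Prime := ⟨hp⟩
  have hpi := Nat.prime_iff_prime_int.1 hp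
  have hpA : ¬ (p : ℤ) ∣ (r.den : ℤ) := by
    intro h
    have h1 : (p : ℤ) ∣ r.num ^ d := by
      have h2 : (p : ℤ) ∣ (r.den : ℤ) ^ d := h.trans (dvd_pow_self _ hd0)
      exact (dvd_sub_right h2).1 hdvd
    exact hpi.not_isUnit (hcop.isUnit_of_dvd' h (hpi.dvd_of_dvd_pow h1))
  have hpB : ¬ (p : ℤ) ∣ r.num := by
    intro h
    have h1 : (p : ℤ) ∣ (r.den : ℤ) ^ d := by
      have h2 : (p : ℤ) ∣ r.num ^ d := h.trans (dvd_pow_self _ hd0)
      exact (dvd_sub_left h2).1 hdvd
    exact hpi.not_isUnit (hcop.isUnit_of_dvd' (hpi.dvd_of_dvd_pow h1) h)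
  by_cases hgood : GoodP p a d c
  · exfalso
    refine hT2G p hp d (by omega) hde a c x w ha hgood hper hfix hx lam r.num (r.den : ℤ) hxl hwl
      hpB hpA ?_
    have := (dvd_neg (α := ℤ)).2 hdvd
    rwa [neg_sub] at this
  · have h1 := hSUM p hp hp2 q d (by omega) hde hqd a c w (G a d c w) ha hgood (hq p hp hp2) hper
      hzper (fun h => hfix h.symm)
    have h2 := hq p hp hp2
    have hdQ : (d : ℚ) ≠ 0 := by exact_mod_cast hd0
    have hneQ : (((r.den : ℤ) ^ d - r.num ^ d : ℤ) : ℚ) ≠ 0 := by exact_mod_cast hne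
    have e1 : padicValRat p (w + G a d c w) = padicValRat p a + d * padicValRat p lam +
        (padicValInt p ((r.den : ℤ) ^ d - r.num ^ d) : ℤ) := by
      rw [← hkey, padicValRat.mul (mul_ne_zero ha (pow_ne_zero _ hlam0)) hneQ,
        padicValRat.mul ha (pow_ne_zero _ hlam0), padicValRat.pow, padicValRat.of_int]
    have e2 : padicValRat p w = padicValRat p lam := by
      conv_lhs => rw [hwl]
      rw [padicValRat.mul hlam0 hAQ, padicValRat.of_int, padicValInt.eq_zero_of_not_dvd hpA]
      simp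
    have e3 : padicValRat p (a * d) = padicValRat p a + (padicValNat p d : ℤ) := by
      rw [padicValRat.mul ha hdQ, padicValRat.of_nat]
    rw [e1, e2] at h1
    rw [e3] at h2
    obtain ⟨m, hm⟩ := h1
    obtain ⟨n, hn⟩ := h2
    obtain ⟨k, hk⟩ := hqd
    have hdk : (d : ℤ) = q * k + 1 := by
      have : d = q * k + 1 := by omega
      exact_mod_cast this
    refine ⟨m - n - k * padicValRat p lam, ?_⟩
    rw [hdk] at hm
    linear_combination hm - hn

end Pool.Agent.UPre
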