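import Pool.Agent.UPre.Targets2
import Pool.Agent.UPre.Dyn

/-! Good primes in a tail of length two over a longer cycle. -/

namespace Pool.Agent.UPre

open Function

namespace T2G_

lemma pn_pow (p : ℕ) [Fact p.Prime] (u : ℚ) (j : ℕ) :
    padicNorm p (u ^ j) = padicNorm p u ^ j := by
  induction j with
  | zero => simp
  | succ j ih => rw [pow_succ, pow_succ, padicNorm.mul, ih]

end T2G_

open T2G_ in
theorem p_U_T2G : U_NORM → U_GOODEQ → U_T2G := by
  intro hN hE p hp d hd hev a c x w ha hgood hw hzw hx lam t s hxl hwl hpt hps hdvd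
  have : Fact p.Prime := ⟨hp⟩
  obtain ⟨k, hk⟩ := hev
  set z : ℚ := G a d c w with hz
  have hzper : z ∈ periodicPts (G a d c) := per_step hw
  have hNw : padicNorm p a * padicNorm p w ^ (d - 1) ≤ 1 :=
    (hN p hp d hd a c w ha ⟨0, hw⟩).1 hgood
  have hNz : padicNorm p a * padicNorm p z ^ (d - 1) ≤ 1 :=
    (hN p hp d hd a c z ha ⟨0, hzper⟩).1 hgood
  have hwz : w - z ≠ 0 := sub_ne_zero.2 (Ne.symm hzw)
  have hG : G a d c w - G a d c z = a * (w ^ d - z ^ d) := by
    show a * w ^ d + c - (a * z ^ d + c) = _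
    ring
  have h1 := hE p hp d hd a c w z ha hgood hw hzper
  rw [hG, padicNorm.mul] at h1
  set m : ℚ := max (padicNorm p w) (padicNorm p z) with hm
  have hm0 : 0 ≤ m := le_max_of_le_left (padicNorm.nonneg w)
  have hwm : padicNorm p w ≤ m := le_max_left _ _
  have hzm : padicNorm p z ≤ m := le_max_right _ _
  have ha0 : 0 < padicNorm p a := lt_of_le_of_ne (padicNorm.nonneg a)
    (Ne.symm (padicNorm.nonzero ha))
  have hmn : padicNorm p a * m ^ (d - 1) ≤ 1 := by
    rcases max_choice (padicNorm p w) (padicNorm p z) with h | h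
    · rw [hm, h]; exact hNw
    · rw [hm, h]; exact hNz
  -- factorisation
  have hfac : w ^ d - z ^ d = (w - z) * ((w + z) *
      ∑ i ∈ Finset.range k, (w ^ 2) ^ i * (z ^ 2) ^ (k - 1 - i)) := by
    have h2 := (Commute.all (w ^ 2) (z ^ 2)).geom_sum₂_mul k
    have h3 : w ^ d - z ^ d = (w ^ 2) ^ k - (z ^ 2) ^ k := by
      rw [hk, ← pow_mul, ← pow_mul]
      congr 2 <;> ring
    rw [h3, ← h2]
    ring
  set E : ℚ := ∑ i ∈ Finset.range k, (w ^ 2) ^ i * (z ^ 2) ^ (k - 1 - i) with hEdef
  have hEle : padicNorm p E ≤ m ^ (d - 2) := by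
    apply padicNorm.sum_le'
    · intro i hi
      rw [Finset.mem_range] at hi
      rw [padicNorm.mul, ← pow_mul, ← pow_mul, pn_pow, pn_pow]
      calc padicNorm p w ^ (2 * i) * padicNorm p z ^ (2 * (k - 1 - i))
          ≤ m ^ (2 * i) * m ^ (2 * (k - 1 - i)) :=
            mul_le_mul (pow_le_pow_left₀ (padicNorm.nonneg w) hwm _)
              (pow_le_pow_left₀ (padicNorm.nonneg z) hzm _)
              (pow_nonneg (padicNorm.nonneg z) _) (pow_nonneg hm0 _)
        _ = m ^ (d - 2) := by
            rw [← pow_add]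
            congr 1
            omega
    · positivity
  have hwz0 : 0 < padicNorm p (w - z) := lt_of_le_of_ne (padicNorm.nonneg _)
    (Ne.symm (padicNorm.nonzero hwz))
  have h4 : padicNorm p a * (padicNorm p (w + z) * padicNorm p E) = 1 := by
    rw [hfac, padicNorm.mul, padicNorm.mul] at h1
    have : padicNorm p (w - z) * (padicNorm p a * (padicNorm p (w + z) * padicNorm p E)) =
        padicNorm p (w - z) * 1 := by
      rw [mul_one]
      linarith
    exact mul_left_cancel₀ hwz0.ne' this
  have h5 : 1 ≤ padicNorm p a * (padicNorm p (w + z) * m ^ (d - 2)) := by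
    rw [← h4]
    exact mul_le_mul_of_nonneg_left
      (mul_le_mul_of_nonneg_left hEle (padicNorm.nonneg _)) ha0.le
  have hpm : 0 < m ^ (d - 2) := by
    rcases (pow_nonneg hm0 (d - 2)).lt_or_eq with h | h
    · exact h
    · rw [← h] at h5
      simp at h5
      linarith
  have hsucc : m ^ (d - 1) = m * m ^ (d - 2) := by
    rw [← pow_succ']
    congr 1
    omega
  have h6 : m ≤ padicNorm p (w + z) := by
    have h7 : padicNorm p a * m ^ (d - 2) * m ≤
        padicNorm p a * m ^ (d - 2) * padicNorm p (w + z) := by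
      calc padicNorm p a * m ^ (d - 2) * m = padicNorm p a * m ^ (d - 1) := by
            rw [hsucc]; ring
        _ ≤ 1 := hmn
        _ ≤ _ := by
          refine h5.trans (le_of_eq ?_)
          ring
    exact le_of_mul_le_mul_left h7 (by positivity)
  have h7 : padicNorm p (w + z) ≤ m := padicNorm.nonarchimedean
  have h8 : padicNorm p (w + z) = m := le_antisymm h7 h6
  have h9 : padicNorm p a * m ^ (d - 1) = 1 := by
    apply le_antisymm hmn
    refine h5.trans (le_of_eq ?_)
    rw [h8, hsucc]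
  have h10 : a * (w ^ d - x ^ d) = w + z := by
    have e1 : a * x ^ d + c = -w := hx
    have e2 : z = a * w ^ d + c := hz
    rw [e2]
    linarith
  have h11 : padicNorm p a * padicNorm p (w ^ d - x ^ d) = m := by
    rw [← padicNorm.mul, h10, h8]
  have h12 : padicNorm p (w ^ d - x ^ d) = m ^ d := by
    have e1 : padicNorm p a * padicNorm p (w ^ d - x ^ d) = padicNorm p a * m ^ d := by
      rw [h11]
      have : m ^ d = m * m ^ (d - 1) := by
        rw [← pow_succ']
        congr 1
        omega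
      rw [this]
      calc m = m * 1 := (mul_one m).symm
        _ = m * (padicNorm p a * m ^ (d - 1)) := by rw [h9]
        _ = _ := by ring
    exact mul_left_cancel₀ ha0.ne' e1
  have hmpos : 0 < m := by
    rcases hm0.lt_or_eq with h | h
    · exact h
    · rw [← h, zero_pow (by omega)] at h9
      simp at h9
  have h13 : padicNorm p (w ^ d - x ^ d) = padicNorm p lam ^ d * padicNorm p ((t ^ d - s ^ d : ℤ) : ℚ) := by
    have : w ^ d - x ^ d = lam ^ d * (-((t ^ d - s ^ d : ℤ) : ℚ)) := by
      rw [hxl, hwl]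
      push_cast
      ring
    rw [this, padicNorm.mul, padicNorm.neg, pn_pow]
  have h14 : padicNorm p w = padicNorm p lam := by
    rw [hwl, padicNorm.mul, (padicNorm.int_eq_one_iff s).2 hps, mul_one]
  have h15 : padicNorm p ((t ^ d - s ^ d : ℤ) : ℚ) < 1 := (padicNorm.int_lt_one_iff _).2 hdvd
  have h16 : padicNorm p lam ^ d ≤ m ^ d := by
    rw [← h14]
    exact pow_le_pow_left₀ (padicNorm.nonneg w) hwm d
  have hmd : 0 < m ^ d := pow_pos hmpos d
  have h17 : m ^ d = padicNorm p lam ^ d * padicNorm p ((t ^ d - s ^ d : ℤ) : ℚ) := by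
    rw [← h12, h13]
  have h18 : padicNorm p lam ^ d * padicNorm p ((t ^ d - s ^ d : ℤ) : ℚ) < m ^ d := by
    calc padicNorm p lam ^ d * padicNorm p ((t ^ d - s ^ d : ℤ) : ℚ)
        ≤ m ^ d * padicNorm p ((t ^ d - s ^ d : ℤ) : ℚ) :=
          mul_le_mul_of_nonneg_right h16 (padicNorm.nonneg _)
      _ < m ^ d * 1 := mul_lt_mul_of_pos_left h15 hmd
      _ = m ^ d := mul_one _
  linarith

end Pool.Agent.UPre
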