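import Pool.Agent.UPre.Targets2

set_option autoImplicit false

open Polynomial

namespace Pool.Agent.UPre

/-- T2Z -/
theorem p_U_T2Z : U_T2Z := by
  intro d hd hev a w z hw hzw h1 h2
  obtain ⟨e, rfl⟩ : ∃ e, d = e + 1 := ⟨d - 1, by omega⟩
  set k : ℚ := a * w ^ e with hk
  have hz : z = w * (k - 1) := by
    rw [← h1, hk]; ring
  have h3 : k * (k - 1) ^ (e + 1) = 2 := by
    have h4 : a * z ^ (e + 1) = 2 * w := by linarith
    rw [hz, mul_pow] at h4
    have h5 : w * (k * (k - 1) ^ (e + 1)) = w * 2 := by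
      rw [hk] at h4 ⊢
      rw [pow_succ] at h4
      linear_combination h4
    exact mul_left_cancel₀ hw h5
  have hint : IsIntegral ℤ k := by
    refine ⟨X * (X - 1) ^ (e + 1) - 2, ?_, ?_⟩
    · have hm : (X * (X - 1) ^ (e + 1) : ℤ[X]).Monic :=
        monic_X.mul ((monic_X_sub_C (1 : ℤ)).pow (e + 1))
      refine hm.sub_of_left ?_
      have h6 : (X * (X - 1) ^ (e + 1) : ℤ[X]).degree = ((e + 2 : ℕ) : WithBot ℕ) := by
        rw [degree_eq_natDegree hm.ne_zero]
        congr 1
        have h7 : (X - 1 : ℤ[X]) = X - C 1 := by simp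
        rw [h7, natDegree_mul X_ne_zero (pow_ne_zero _ (X_sub_C_ne_zero 1)), natDegree_X,
          natDegree_pow, natDegree_X_sub_C]
        ring
      rw [h6]
      have h8 : (2 : ℤ[X]).degree ≤ 0 := by
        have : (2 : ℤ[X]) = C 2 := by simp
        rw [this]
        exact degree_C_le
      refine lt_of_le_of_lt h8 ?_
      exact_mod_cast Nat.succ_pos _
    · simp only [eval₂_sub, eval₂_mul, eval₂_pow, eval₂_X, eval₂_ofNat, eval₂_one]
      linarith
  obtain ⟨n, hn⟩ := IsIntegrallyClosed.isIntegral_iff.1 hint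
  have hn' : k = n := by rw [← hn]; rfl
  rw [hn'] at h3
  have h6 : n * (n - 1) ^ (e + 1) = 2 := by exact_mod_cast h3
  have h7 : n ∣ 2 := ⟨_, h6.symm⟩
  have h8 : n ≤ 2 := Int.le_of_dvd (by norm_num) h7
  have h9 : -2 ≤ n := by
    have := Int.le_of_dvd (by norm_num) (neg_dvd.2 h7)
    linarith
  have h10 : 0 ≤ (n - 1) ^ (e + 1) := hev.pow_nonneg _
  interval_cases n
  · linarith
  · linarith
  · simp at h6
  · simp at h6
  · apply hzw
    rw [hz, hn']
    norm_num

end Pool.Agent.UPre
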