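import Pool.Agent.UPre.Targets2

/-! At most two periodic points when certain primes are good. -/

namespace Pool.Agent.UPre

open Function

/-- Powers of the norm. -/
theorem two_norm_pow {p : ℕ} (hp : p.Prime) (x : ℚ) (n : ℕ) :
    padicNorm p (x ^ n) = padicNorm p x ^ n := by
  have : Fact p.Prime := ⟨hp⟩
  induction n with
  | zero => simp
  | succ n ih => rw [pow_succ, pow_succ, padicNorm.mul, ih]

theorem two_norm_sub {p : ℕ} (hp : p.Prime) {x y : ℚ} (h : padicNorm p y < padicNorm p x) :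
    padicNorm p (x - y) = padicNorm p x := by
  have : Fact p.Prime := ⟨hp⟩
  rw [sub_eq_add_neg, padicNorm.add_eq_max_of_ne (by rw [padicNorm.neg]; exact h.ne'),
    padicNorm.neg, max_eq_left h.le]

/-- Different periodic points have different norms. -/
theorem two_norm_ne (hG : U_GDIV) {p : ℕ} (hp : p.Prime) {d : ℕ} (hd : 2 ≤ d)
    (hPhi : ∀ t w : ℤ, ¬ (p : ℤ) ∣ t → ¬ (p : ℤ) ∣ w → (p : ℤ) ∣ Phi d t w) {a c x y : ℚ}
    (ha : a ≠ 0) (hgood : GoodP p a d c) (hx : x ∈ periodicPts (G a d c))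
    (hy : y ∈ periodicPts (G a d c)) (hxy : x ≠ y) : padicNorm p x ≠ padicNorm p y := by
  have : Fact p.Prime := ⟨hp⟩
  intro hn
  by_cases hx0 : x = 0
  · apply hxy
    rw [hx0, padicNorm.zero] at hn
    rw [hx0, padicNorm.zero_of_padicNorm_eq_zero hn.symm]
  have hy0 : y ≠ 0 := by
    intro h
    rw [h, padicNorm.zero] at hn
    exact hx0 (padicNorm.zero_of_padicNorm_eq_zero hn)
  set r := x / y with hr
  have hr0 : r ≠ 0 := div_ne_zero hx0 hy0
  have hrn : padicNorm p r = 1 := by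
    rw [hr, padicNorm.div, hn, div_self (padicNorm.nonzero hy0)]
  have hnum : (r.num : ℚ) ≠ 0 := by
    exact_mod_cast Rat.num_ne_zero.2 hr0
  have hden : (r.den : ℚ) ≠ 0 := by
    exact_mod_cast r.den_ne_zero
  have hnd : padicNorm p (r.num : ℤ) = padicNorm p (((r.den : ℕ) : ℤ) : ℚ) := by
    have h1 : r = (r.num : ℚ) / r.den := (Rat.num_div_den r).symm
    rw [h1, padicNorm.div] at hrn
    have h2 : padicNorm p (r.den : ℚ) ≠ 0 := padicNorm.nonzero hden
    rw [div_eq_iff h2, one_mul] at hrn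
    rw [hrn]
    norm_num
  have hcop : IsCoprime r.num (r.den : ℤ) := by
    rw [Int.isCoprime_iff_nat_coprime]
    simpa using r.reduced
  have hnot : ¬ (p : ℤ) ∣ r.num ∧ ¬ (p : ℤ) ∣ (r.den : ℤ) := by
    have h3 : (p : ℤ) ∣ r.num ↔ (p : ℤ) ∣ (r.den : ℤ) := by
      rw [← padicNorm.int_lt_one_iff, ← padicNorm.int_lt_one_iff, hnd]
    have h4 : ¬ ((p : ℤ) ∣ r.num ∧ (p : ℤ) ∣ (r.den : ℤ)) := by
      rintro ⟨h5, h6⟩
      have h7 := hcop.isUnit_of_dvd' h5 h6
      rw [Int.isUnit_iff] at h7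
      have := hp.two_le
      omega
    tauto
  refine hG p hp d hd a c x y ha hgood hx hy hxy (y / r.den) r.num r.den ?_ ?_ hnot.1 hnot.2
    (hPhi _ _ hnot.1 hnot.2)
  · have h1 : (r.num : ℚ) / r.den = x / y := Rat.num_div_den r
    field_simp at h1 ⊢
    linear_combination -h1
  · push_cast
    field_simp

/-- The larger of two norms of periodic points. -/
theorem two_norm_eq (hE : U_GOODEQ) {p : ℕ} (hp : p.Prime) {d : ℕ} (hd : 2 ≤ d)
    {a c x y : ℚ} (ha : a ≠ 0) (hgood : GoodP p a d c) (hx : x ∈ periodicPts (G a d c))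
    (hy : y ∈ periodicPts (G a d c)) (hxy : padicNorm p y < padicNorm p x) :
    padicNorm p a * padicNorm p x ^ (d - 1) = 1 := by
  have : Fact p.Prime := ⟨hp⟩
  have h0 : 0 < padicNorm p x := (padicNorm.nonneg y).trans_lt hxy
  have h1 := hE p hp d hd a c x y ha hgood hx hy
  have h2 : G a d c x - G a d c y = a * (x ^ d - y ^ d) := by
    simp only [G]; ring
  have h3 : padicNorm p (y ^ d) < padicNorm p (x ^ d) := by
    rw [two_norm_pow hp, two_norm_pow hp]
    exact pow_lt_pow_left₀ hxy (padicNorm.nonneg y) (by omega)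
  rw [h2, padicNorm.mul, two_norm_sub hp h3, two_norm_sub hp hxy, two_norm_pow hp] at h1
  obtain ⟨n, rfl⟩ : ∃ n, d = n + 1 := ⟨d - 1, by omega⟩
  rw [pow_succ, ← mul_assoc] at h1
  rw [Nat.add_sub_cancel]
  exact mul_right_cancel₀ h0.ne' (by rw [h1, one_mul])

theorem two_norm_top {p : ℕ} {d : ℕ} (hd : 2 ≤ d) {a x y : ℚ} (ha : a ≠ 0)
    (hp : p.Prime) (hx : padicNorm p a * padicNorm p x ^ (d - 1) = 1)
    (hy : padicNorm p a * padicNorm p y ^ (d - 1) = 1) : padicNorm p x = padicNorm p y := by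
  have : Fact p.Prime := ⟨hp⟩
  have h1 : padicNorm p x ^ (d - 1) = padicNorm p y ^ (d - 1) :=
    mul_left_cancel₀ (padicNorm.nonzero ha) (by rw [hx, hy])
  exact (pow_left_inj₀ (padicNorm.nonneg x) (padicNorm.nonneg y) (by omega)).1 h1

theorem p_U_TWO : U_NORM → U_GOODEQ → U_GDIV → U_TWO := by
  intro _ hE hG p hp d hd hPhi a c ha hgood
  by_contra hcon
  rw [not_le] at hcon
  have h3 : (3 : ℕ∞) ≤ (periodicPts (G a d c)).encard := by
    have := Order.add_one_le_of_lt hcon
    norm_num at this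
    exact this
  obtain ⟨T, hT, hT3⟩ := Set.exists_subset_encard_eq h3
  obtain ⟨x, y, z, hxy, hxz, hyz, rfl⟩ := Set.encard_eq_three.1 hT3
  have hx : x ∈ periodicPts (G a d c) := hT (by simp)
  have hy : y ∈ periodicPts (G a d c) := hT (by simp)
  have hz : z ∈ periodicPts (G a d c) := hT (by simp)
  have nxy := two_norm_ne hG hp hd hPhi ha hgood hx hy hxy
  have nxz := two_norm_ne hG hp hd hPhi ha hgood hx hz hxz
  have nyz := two_norm_ne hG hp hd hPhi ha hgood hy hz hyz
  have key : ∀ u v w : ℚ, u ∈ periodicPts (G a d c) → v ∈ periodicPts (G a d c) →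
      w ∈ periodicPts (G a d c) → padicNorm p u ≠ padicNorm p v →
      padicNorm p w < padicNorm p u → padicNorm p w < padicNorm p v → False := by
    intro u v w hu hv hw huv h1 h2
    exact huv (two_norm_top hd ha hp (two_norm_eq hE hp hd ha hgood hu hw h1)
      (two_norm_eq hE hp hd ha hgood hv hw h2))
  rcases lt_or_gt_of_ne nxy with h1 | h1
  · rcases lt_or_gt_of_ne nxz with h2 | h2
    · exact key y z x hy hz hx nyz h1 h2
    · exact key x y z hx hy hz nxy h2 (h2.trans h1)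
  · rcases lt_or_gt_of_ne nyz with h2 | h2
    · exact key x z y hx hz hy nxz h1 h2
    · exact key x y z hx hy hz nxy (h2.trans h1) h2

theorem two_Phi_mul (d : ℕ) (t w : ℤ) : Phi d t w * (t - w) = t ^ d - w ^ d := by
  unfold Phi
  exact (Commute.all t w).geom_sum₂_mul d

theorem two_z2 : ∀ z : ZMod 2, z ≠ 0 → z = 1 := by decide

theorem two_z3 : ∀ z : ZMod 3, z ≠ 0 → z ^ 2 = 1 := by decide

theorem p_U_PH : U_PH := by
  refine ⟨?_, ?_⟩
  · intro d _ h2d t w ht hw
    have ht0 : ((t : ℤ) : ZMod 2) ≠ 0 := by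
      intro h
      exact ht ((ZMod.intCast_zmod_eq_zero_iff_dvd _ _).1 h)
    have hw0 : ((w : ℤ) : ZMod 2) ≠ 0 := by
      intro h
      exact hw ((ZMod.intCast_zmod_eq_zero_iff_dvd _ _).1 h)
    have ht' := two_z2 _ ht0
    have hw' := two_z2 _ hw0
    have : ((2 : ℕ) : ℤ) ∣ Phi d t w := by
      rw [← ZMod.intCast_zmod_eq_zero_iff_dvd]
      unfold Phi
      push_cast
      rw [ht', hw']
      simp only [one_pow, mul_one, Finset.sum_const, Finset.card_range, nsmul_eq_mul]
      exact (ZMod.natCast_eq_zero_iff _ _).2 h2d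
    exact_mod_cast this
  · intro d hd h6d t w ht hw
    have h3 : Fact (Nat.Prime 3) := ⟨Nat.prime_three⟩
    have ht0 : ((t : ℤ) : ZMod 3) ≠ 0 := by
      intro h
      exact ht ((ZMod.intCast_zmod_eq_zero_iff_dvd _ _).1 h)
    have hw0 : ((w : ℤ) : ZMod 3) ≠ 0 := by
      intro h
      exact hw ((ZMod.intCast_zmod_eq_zero_iff_dvd _ _).1 h)
    have goal : ((Phi d t w : ℤ) : ZMod 3) = 0 := by
      by_cases htw : ((t : ℤ) : ZMod 3) = ((w : ℤ) : ZMod 3)
      · unfold Phi
        push_cast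
        rw [htw]
        have h1 : ∀ i ∈ Finset.range d, ((w : ℤ) : ZMod 3) ^ i * ((w : ℤ) : ZMod 3) ^ (d - 1 - i) =
            ((w : ℤ) : ZMod 3) ^ (d - 1) := by
          intro i hi
          rw [Finset.mem_range] at hi
          rw [← pow_add]
          congr 1
          omega
        rw [Finset.sum_congr rfl h1, Finset.sum_const, Finset.card_range, nsmul_eq_mul,
          (ZMod.natCast_eq_zero_iff _ _).2 (Dvd.dvd.trans (by norm_num) h6d), zero_mul]
      · have h1 := congrArg (fun z : ℤ => (z : ZMod 3)) (two_Phi_mul d t w)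
        rw [Int.cast_mul, Int.cast_sub, Int.cast_sub, Int.cast_pow, Int.cast_pow] at h1
        obtain ⟨k, hk⟩ : 2 ∣ d := Dvd.dvd.trans (by norm_num) h6d
        rw [hk, pow_mul, pow_mul, two_z3 _ ht0, two_z3 _ hw0, one_pow, sub_self, ← hk] at h1
        rcases mul_eq_zero.1 h1 with h2 | h2
        · exact h2
        · exact absurd (sub_eq_zero.1 h2) htw
    have := (ZMod.intCast_zmod_eq_zero_iff_dvd _ _).1 goal
    exact_mod_cast this

end Pool.Agent.UPre
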