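import Pool.Agent.UPre.Targets7

/-! UPRE2-V7ASSOC: `M - θ N ^ 2` is a unit times a square. -/

set_option autoImplicit false

namespace Pool.Agent.UPre.V7ASSOC_

open NumberField

/-- If `7 ∣ M` and `M, N` are coprime then the cubic form is not a square. -/
theorem not_dvd {M N T : ℤ} (hMN : IsCoprime M N)
    (h : T ^ 2 = M ^ 3 + 98 * M ^ 2 * N ^ 2 + 2401 * M * N ^ 4 + 16807 * N ^ 6) :
    ¬ (7 : ℤ) ∣ M := by
  rintro ⟨m, rfl⟩
  have h7 : Prime (7 : ℤ) := by norm_num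
  have hN : ¬ (7 : ℤ) ∣ N := by
    intro hN
    have := hMN.isUnit_of_dvd' (Dvd.intro m rfl) hN
    exact h7.not_isUnit this
  have e1 : T ^ 2 = 7 ^ 3 * (m ^ 3 + 14 * m ^ 2 * N ^ 2 + 49 * m * N ^ 4 + 49 * N ^ 6) := by
    rw [h]; ring
  -- `7 ∣ T`
  have d1 : (7 : ℤ) ∣ T := h7.dvd_of_dvd_pow (n := 2) (by
    rw [e1]; exact (dvd_pow_self 7 (by norm_num)).mul_right _)
  obtain ⟨t, rfl⟩ := d1
  have e2 : t ^ 2 = 7 * (m ^ 3 + 14 * m ^ 2 * N ^ 2 + 49 * m * N ^ 4 + 49 * N ^ 6) := by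
    have : (49 : ℤ) * t ^ 2 = 49 * (7 * (m ^ 3 + 14 * m ^ 2 * N ^ 2 + 49 * m * N ^ 4 +
        49 * N ^ 6)) := by linear_combination e1
    exact mul_left_cancel₀ (by norm_num) this
  have d2 : (7 : ℤ) ∣ t := h7.dvd_of_dvd_pow (n := 2) (by rw [e2]; exact ⟨_, rfl⟩)
  obtain ⟨s, rfl⟩ := d2
  have e3 : 7 * s ^ 2 = m ^ 3 + 14 * m ^ 2 * N ^ 2 + 49 * m * N ^ 4 + 49 * N ^ 6 := by
    have : (7 : ℤ) * (7 * s ^ 2) = 7 * (m ^ 3 + 14 * m ^ 2 * N ^ 2 + 49 * m * N ^ 4 +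
        49 * N ^ 6) := by linear_combination e2
    exact mul_left_cancel₀ (by norm_num) this
  have d3 : (7 : ℤ) ∣ m := by
    apply h7.dvd_of_dvd_pow (n := 3)
    refine ⟨s ^ 2 - 2 * m ^ 2 * N ^ 2 - 7 * m * N ^ 4 - 7 * N ^ 6, ?_⟩
    linear_combination -e3
  obtain ⟨k, rfl⟩ := d3
  have e4 : s ^ 2 = 7 * (7 * k ^ 3 + 14 * k ^ 2 * N ^ 2 + 7 * k * N ^ 4 + N ^ 6) := by
    have : (7 : ℤ) * s ^ 2 = 7 * (7 * (7 * k ^ 3 + 14 * k ^ 2 * N ^ 2 + 7 * k * N ^ 4 +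
        N ^ 6)) := by linear_combination e3
    exact mul_left_cancel₀ (by norm_num) this
  have d4 : (7 : ℤ) ∣ s := h7.dvd_of_dvd_pow (n := 2) (by rw [e4]; exact ⟨_, rfl⟩)
  obtain ⟨r, rfl⟩ := d4
  have e5 : 7 * r ^ 2 = 7 * k ^ 3 + 14 * k ^ 2 * N ^ 2 + 7 * k * N ^ 4 + N ^ 6 := by
    have : (7 : ℤ) * (7 * r ^ 2) = 7 * (7 * k ^ 3 + 14 * k ^ 2 * N ^ 2 + 7 * k * N ^ 4 +
        N ^ 6) := by linear_combination e4
    exact mul_left_cancel₀ (by norm_num) this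
  apply hN
  apply h7.dvd_of_dvd_pow (n := 6)
  refine ⟨r ^ 2 - k ^ 3 - 2 * k ^ 2 * N ^ 2 - k * N ^ 4, ?_⟩
  linear_combination -e5

/-- The statement in a commutative ring. -/
theorem coprime {R : Type*} [CommRing R] (U : R) (hU : U ^ 3 + U ^ 2 - 2 * U - 1 = 0)
    {M N : ℤ} (hMN : IsCoprime M N) (h7 : IsCoprime M 7) :
    IsCoprime ((M : R) + 7 * (U ^ 2 + 3 * U + 4) * (N : R) ^ 2)
      ((M : R) ^ 2 + (-7 * (U ^ 2 + 3 * U + 4) + 98) * M * N ^ 2 +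
        ((-7 * (U ^ 2 + 3 * U + 4)) ^ 2 + 98 * (-7 * (U ^ 2 + 3 * U + 4)) + 2401) * N ^ 4) := by
  set w : R := U ^ 2 + 3 * U + 4 with hw
  have hMN' : IsCoprime (M : R) (N : R) := by
    have := hMN.map (Int.castRingHom R)
    simpa using this
  have h7' : IsCoprime (M : R) 7 := by
    have := h7.map (Int.castRingHom R)
    simpa using this
  have c1 : IsCoprime ((M : R) + 7 * w * (N : R) ^ 2) (N : R) := by
    have : (M : R) + 7 * w * (N : R) ^ 2 = M + (7 * w * N) * N := by ring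
    rw [this]
    exact IsCoprime.add_mul_right_left hMN' _
  have c2 : IsCoprime ((M : R) + 7 * w * (N : R) ^ 2) 7 := by
    have : (M : R) + 7 * w * (N : R) ^ 2 = M + (w * N ^ 2) * 7 := by ring
    rw [this]
    exact IsCoprime.add_mul_right_left h7' _
  have hdiv : (3 * (-7 * w) ^ 2 + 196 * (-7 * w) + 2401) ∣ (7 : R) ^ 4 := by
    refine ⟨(2 - U) ^ 2 * (U * (U + 2) * (2 - U ^ 2)), ?_⟩
    rw [hw]
    have hU2 : U ^ 3 = 1 + 2 * U - U ^ 2 := by linear_combination hU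
    have hU4 : U ^ 4 = -1 - U + 3 * U ^ 2 := by linear_combination (U - 1) * hU
    have a1 : (3 * (-7 * (U ^ 2 + 3 * U + 4)) ^ 2 + 196 * (-7 * (U ^ 2 + 3 * U + 4)) + 2401) =
        49 * (3 * (U ^ 2 + 3 * U + 4) ^ 2 - 28 * (U ^ 2 + 3 * U + 4) + 49) := by ring
    have a2 : (2 - U) ^ 2 * (3 * (U ^ 2 + 3 * U + 4) ^ 2 - 28 * (U ^ 2 + 3 * U + 4) + 49) =
        49 * (U ^ 2 - 1) := by
      have b1 : (2 - U) * (U ^ 2 + 3 * U + 4) = 7 := by linear_combination -hU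
      linear_combination (3 * ((2 - U) * (U ^ 2 + 3 * U + 4) + 7) - 28 * (2 - U)) * b1
    have a3 : (U ^ 2 - 1) * (U * (U + 2) * (2 - U ^ 2)) = 1 := by
      have b2 : (U - 1) * (U * (U + 2)) = 1 := by linear_combination hU
      have b3 : (U + 1) * (2 - U ^ 2) = 1 := by linear_combination -hU
      linear_combination (U + 1) * (2 - U ^ 2) * b2 + b3
    rw [a1]
    linear_combination (-49 * (U * (U + 2) * (2 - U ^ 2))) * a2 - 49 ^ 2 * a3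
  have c3 : IsCoprime ((M : R) + 7 * w * (N : R) ^ 2)
      (3 * (-7 * w) ^ 2 + 196 * (-7 * w) + 2401) := (c2.pow_right (n := 4)).of_isCoprime_of_dvd_right hdiv
  have c4 := c3.mul_right (c1.pow_right (n := 4))
  have key : (M : R) ^ 2 + (-7 * w + 98) * M * N ^ 2 +
        ((-7 * w) ^ 2 + 98 * (-7 * w) + 2401) * N ^ 4 =
      (3 * (-7 * w) ^ 2 + 196 * (-7 * w) + 2401) * N ^ 4 +
        (M + (-7 * w + 98 + -7 * w) * N ^ 2) * ((M : R) + 7 * w * (N : R) ^ 2) := by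
    ring
  rw [key]
  exact (IsCoprime.add_mul_right_right c4 _)

end Pool.Agent.UPre.V7ASSOC_

namespace Pool.Agent.UPre

open NumberField V7ASSOC_

theorem p_V7_ASSOC : V7_ASSOC := by
  intro K _ _ u hu _ hP M N T hMN _ hT
  have hint : IsIntegral ℤ u := by
    refine ⟨Polynomial.X ^ 3 + Polynomial.X ^ 2 - 2 * Polynomial.X - 1, ?_, ?_⟩
    · monicity!
    · simpa using hu
  set U : 𝓞 K := ⟨u, hint⟩ with hUdef
  have hU : U ^ 3 + U ^ 2 - 2 * U - 1 = 0 := by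
    apply FaithfulSMul.algebraMap_injective (𝓞 K) K
    have hUc : algebraMap (𝓞 K) K U = u := rfl
    rw [map_sub, map_sub, map_add, map_pow, map_pow, map_mul, map_ofNat, map_one, map_zero, hUc]
    exact hu
  have h7p : Prime (7 : ℤ) := by norm_num
  have h7 : IsCoprime M 7 := by
    have := (h7p.irreducible.coprime_iff_not_dvd).2 (not_dvd hMN hT)
    exact this.symm
  have hcop := coprime U hU hMN h7
  have hprod : ((M : 𝓞 K) + 7 * (U ^ 2 + 3 * U + 4) * (N : 𝓞 K) ^ 2) *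
      ((M : 𝓞 K) ^ 2 + (-7 * (U ^ 2 + 3 * U + 4) + 98) * M * N ^ 2 +
        ((-7 * (U ^ 2 + 3 * U + 4)) ^ 2 + 98 * (-7 * (U ^ 2 + 3 * U + 4)) + 2401) * N ^ 4) =
      (T : 𝓞 K) ^ 2 := by
    have hT' : (T : 𝓞 K) ^ 2 = M ^ 3 + 98 * M ^ 2 * N ^ 2 + 2401 * M * N ^ 4 + 16807 * N ^ 6 := by
      exact_mod_cast congrArg (Int.cast : ℤ → 𝓞 K) hT
    have hth : (-7 * (U ^ 2 + 3 * U + 4)) ^ 3 + 98 * (-7 * (U ^ 2 + 3 * U + 4)) ^ 2 +
        2401 * (-7 * (U ^ 2 + 3 * U + 4)) + 16807 = 0 := by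
      linear_combination (-343 * U ^ 3 - 2744 * U ^ 2 - 6517 * U - 4459) * hU
    rw [hT']
    linear_combination (-(N : 𝓞 K) ^ 6) * hth
  obtain ⟨γ, hγ⟩ := exists_associated_pow_of_mul_eq_pow' hcop hprod
  obtain ⟨η, hη⟩ := hγ
  refine ⟨η, γ, ?_⟩
  have := congrArg (fun x : 𝓞 K => (x : K)) hη
  simp only [map_mul, map_pow, map_add, map_intCast, map_ofNat] at this
  have hUc : (algebraMap (𝓞 K) K) U = u := rfl
  rw [hUc] at this
  rw [← this]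
  exact mul_comm _ _

end Pool.Agent.UPre
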