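import Pool.Agent.UPre.Targets7

namespace Pool.Agent.UPre

open Polynomial

namespace V7F

noncomputable def P : ℚ[X] := X ^ 3 + X ^ 2 - 2 * X - 1

lemma P_monic : P.Monic := by
  have h : P = X ^ 3 + (X ^ 2 - 2 * X - 1) := by unfold P; ring
  rw [h]
  refine monic_X_pow_add ?_
  have e : (X ^ 2 - 2 * X - 1 : ℚ[X]) = C 1 * X ^ 2 + C (-2) * X + C (-1) := by
    simp only [map_one, map_neg]
    have : (C (2 : ℚ) : ℚ[X]) = 2 := rfl
    rw [this]; ring
  rw [e]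
  exact lt_of_le_of_lt degree_quadratic_le (by norm_num)

lemma P_natDegree : P.natDegree = 3 := by
  unfold P
  compute_degree!

lemma P_aeval {A : Type*} [Field A] [Algebra ℚ A] (x : A) :
    aeval x P = x ^ 3 + x ^ 2 - 2 * x - 1 := by
  have h2 : aeval x (2 : ℚ[X]) = 2 := map_ofNat _ 2
  unfold P
  rw [map_sub, map_sub, map_add, map_mul, map_pow, map_pow, aeval_X, h2, map_one]

lemma no_int_root (m : ℤ) : m ^ 3 + m ^ 2 - 2 * m - 1 ≠ 0 := by
  intro h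
  have h2 : m * (m ^ 2 + m - 2) = 1 := by linear_combination h
  have hu : m = 1 ∨ m = -1 := by
    have := Int.isUnit_iff.mp (IsUnit.of_mul_eq_one _ h2)
    exact this
  rcases hu with rfl | rfl <;> norm_num at h

lemma no_rat_root (r : ℚ) : r ^ 3 + r ^ 2 - 2 * r - 1 ≠ 0 := by
  intro h
  have hi : IsIntegral ℤ r := by
    refine ⟨X ^ 3 + X ^ 2 - 2 * X - 1, ?_, ?_⟩
    · have h : (X ^ 3 + X ^ 2 - 2 * X - 1 : ℤ[X]) = X ^ 3 + (X ^ 2 - 2 * X - 1) := by ring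
      rw [h]
      refine monic_X_pow_add ?_
      have e : (X ^ 2 - 2 * X - 1 : ℤ[X]) = C 1 * X ^ 2 + C (-2) * X + C (-1) := by
        simp only [map_one, map_neg]
        have : (C (2 : ℤ) : ℤ[X]) = 2 := rfl
        rw [this]; ring
      rw [e]
      exact lt_of_le_of_lt degree_quadratic_le (by norm_num)
    · simp only [eval₂_sub, eval₂_add, eval₂_pow, eval₂_X, eval₂_mul, eval₂_ofNat, eval₂_one]
      exact h
  obtain ⟨m, rfl⟩ := (IsIntegrallyClosed.isIntegral_iff (R := ℤ) (K := ℚ)).mp hi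
  have : ((m ^ 3 + m ^ 2 - 2 * m - 1 : ℤ) : ℚ) = 0 := by
    push_cast
    simpa using h
  exact no_int_root m (by exact_mod_cast this)

lemma P_irr : Irreducible P := by
  rw [Polynomial.Monic.irreducible_iff_roots_eq_zero_of_degree_le_three P_monic
    (by rw [P_natDegree]; norm_num) (by rw [P_natDegree])]
  rw [Multiset.eq_zero_iff_forall_notMem]
  intro r hr
  have hr' := (mem_roots P_monic.ne_zero).mp hr
  have : aeval r P = 0 := by
    rw [coe_aeval_eq_eval]; exact hr'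
  rw [P_aeval] at this
  exact no_rat_root r this

lemma real_root (a b : ℝ) (hab : a < b)
    (h : (a ^ 3 + a ^ 2 - 2 * a - 1 < 0 ∧ 0 < b ^ 3 + b ^ 2 - 2 * b - 1) ∨
      (0 < a ^ 3 + a ^ 2 - 2 * a - 1 ∧ b ^ 3 + b ^ 2 - 2 * b - 1 < 0)) :
    ∃ r : ℝ, a < r ∧ r < b ∧ r ^ 3 + r ^ 2 - 2 * r - 1 = 0 := by
  have hc : ContinuousOn (fun r : ℝ => r ^ 3 + r ^ 2 - 2 * r - 1) (Set.Icc a b) := by
    fun_prop
  rcases h with ⟨h1, h2⟩ | ⟨h1, h2⟩
  · obtain ⟨r, hr, hr0⟩ := intermediate_value_Ioo hab.le hc (show (0 : ℝ) ∈ Set.Ioo _ _ from ⟨h1, h2⟩)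
    exact ⟨r, hr.1, hr.2, hr0⟩
  · obtain ⟨r, hr, hr0⟩ := intermediate_value_Ioo' hab.le hc (show (0 : ℝ) ∈ Set.Ioo _ _ from ⟨h2, h1⟩)
    exact ⟨r, hr.1, hr.2, hr0⟩

end V7F

open V7F in
theorem p_V7_FIELD : V7_FIELD := by
  have hF : Fact (Irreducible P) := ⟨P_irr⟩
  obtain ⟨r0, h01, h02, hr0⟩ := real_root 1 2 (by norm_num) (Or.inl (by norm_num))
  obtain ⟨r1, h11, h12, hr1⟩ := real_root (-1) 0 (by norm_num) (Or.inr (by norm_num))
  obtain ⟨r2, h21, h22, hr2⟩ := real_root (-2) (-1) (by norm_num) (Or.inl (by norm_num))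
  have hfd : FiniteDimensional ℚ (AdjoinRoot P) :=
    (AdjoinRoot.powerBasis P_irr.ne_zero).finite
  have hnf : NumberField (AdjoinRoot P) := { to_finiteDimensional := hfd }
  have hev : ∀ r : ℝ, r ^ 3 + r ^ 2 - 2 * r - 1 = 0 → eval₂ (algebraMap ℚ ℝ) r P = 0 := by
    intro r hr
    have := P_aeval r
    rw [aeval_def] at this
    rw [this]; exact hr
  refine ⟨AdjoinRoot P, inferInstance, hnf, AdjoinRoot.root P,
    AdjoinRoot.lift (algebraMap ℚ ℝ) r0 (hev r0 hr0),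
    AdjoinRoot.lift (algebraMap ℚ ℝ) r1 (hev r1 hr1),
    AdjoinRoot.lift (algebraMap ℚ ℝ) r2 (hev r2 hr2), ?_, ?_, ?_, ?_, ?_⟩
  · have h := AdjoinRoot.eval₂_root P
    have e : eval₂ (AdjoinRoot.of P) (AdjoinRoot.root P) P =
        AdjoinRoot.root P ^ 3 + AdjoinRoot.root P ^ 2 - 2 * AdjoinRoot.root P - 1 := by
      have key : ∀ Q : ℚ[X], Q = X ^ 3 + X ^ 2 - 2 * X - 1 →
          eval₂ (AdjoinRoot.of P) (AdjoinRoot.root P) Q =
          AdjoinRoot.root P ^ 3 + AdjoinRoot.root P ^ 2 - 2 * AdjoinRoot.root P - 1 := by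
        intro Q hQ
        rw [hQ]
        simp only [eval₂_sub, eval₂_add, eval₂_pow, eval₂_X, eval₂_mul, eval₂_ofNat, eval₂_one]
      exact key P rfl
    rw [← e]; exact h
  · rw [(AdjoinRoot.powerBasis P_irr.ne_zero).finrank, AdjoinRoot.powerBasis_dim, P_natDegree]
  · rw [AdjoinRoot.lift_root]; linarith
  · rw [AdjoinRoot.lift_root]; linarith
  · rw [AdjoinRoot.lift_root, AdjoinRoot.lift_root]; linarith

end Pool.Agent.UPre
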