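import Pool.Agent.UPre.Targets7

set_option autoImplicit false

open Polynomial

namespace Pool.Agent.UPre

namespace V7INT_

/-- the cubic polynomial -/
noncomputable def f : ℚ[X] := X ^ 3 + X ^ 2 - 2 * X - 1

lemma f_deg : f.natDegree = 3 := by
  unfold f
  compute_degree!

lemma f_monic : f.Monic := by
  unfold f
  monicity!

lemma no_root (r : ℚ) : ¬ (r ^ 3 + r ^ 2 - 2 * r - 1 = 0) := by
  intro h
  have hint : IsIntegral ℤ r := by
    refine ⟨X ^ 3 + X ^ 2 - 2 * X - 1, by monicity!, ?_⟩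
    simp only [eval₂_sub, eval₂_add, eval₂_mul, eval₂_pow, eval₂_X, eval₂_ofNat, eval₂_one]
    exact h
  obtain ⟨n, hn⟩ := IsIntegrallyClosed.isIntegral_iff.1 hint
  have hn' : r = n := by rw [← hn]; rfl
  rw [hn'] at h
  have h2 : n ^ 3 + n ^ 2 - 2 * n - 1 = 0 := by exact_mod_cast h
  have h3 : n ∣ 1 := ⟨n ^ 2 + n - 2, by linear_combination -h2⟩
  rcases Int.isUnit_iff.1 (isUnit_of_dvd_one h3) with h4 | h4 <;> rw [h4] at h2 <;> norm_num at h2

lemma f_irr : Irreducible f := by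
  rw [f_monic.irreducible_iff_roots_eq_zero_of_degree_le_three (by rw [f_deg]; norm_num)
    (by rw [f_deg])]
  rw [Multiset.eq_zero_iff_forall_notMem]
  intro r hr
  rw [mem_roots f_monic.ne_zero, IsRoot.def] at hr
  apply no_root r
  have : f.eval r = r ^ 3 + r ^ 2 - 2 * r - 1 := by simp [f]
  rw [← this, hr]

variable {K : Type} [Field K] [NumberField K]

lemma ev {x : K} (hx : x ^ 3 + x ^ 2 - 2 * x - 1 = 0) : aeval x f = 0 := by
  unfold f
  simp only [map_sub, map_add, map_mul, map_pow, aeval_X, map_one, map_ofNat]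
  exact hx

lemma minp {x : K} (hx : x ^ 3 + x ^ 2 - 2 * x - 1 = 0) : minpoly ℚ x = f :=
  (minpoly.eq_of_irreducible_of_monic f_irr (ev hx) f_monic).symm

lemma fin_one {x : K} (hx : x ^ 3 + x ^ 2 - 2 * x - 1 = 0) (h3 : Module.finrank ℚ K = 3) :
    Module.finrank (IntermediateField.adjoin ℚ {x}) K = 1 := by
  have h1 := IntermediateField.adjoin.finrank (K := ℚ) (x := x) (Algebra.IsIntegral.isIntegral x)
  rw [minp hx, f_deg] at h1
  have h2 := Module.finrank_mul_finrank ℚ (IntermediateField.adjoin ℚ {x}) K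
  rw [h1, h3] at h2
  omega

lemma next : f.nextCoeff = 1 := by
  rw [nextCoeff, f_deg]
  simp [f, coeff_X, coeff_one]

lemma tr {x : K} (hx : x ^ 3 + x ^ 2 - 2 * x - 1 = 0) (h3 : Module.finrank ℚ K = 3) :
    Algebra.trace ℚ K x = -1 := by
  rw [trace_eq_finrank_mul_minpoly_nextCoeff, fin_one hx h3, minp hx, next]
  norm_num

end V7INT_

open V7INT_ in
theorem p_V7_INT : V7_INT := by
  intro K _ _ u hu h3 z hz
  have hv : (u ^ 2 - 2) ^ 3 + (u ^ 2 - 2) ^ 2 - 2 * (u ^ 2 - 2) - 1 = 0 := by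
    linear_combination (u ^ 3 - u ^ 2 - 2 * u + 1) * hu
  have t0 : Algebra.trace ℚ K 1 = 3 := by
    have := Algebra.trace_algebraMap (R := ℚ) (S := K) 1
    rw [map_one, h3] at this
    rw [this]
    norm_num
  have t1 := tr hu h3
  have t2 : Algebra.trace ℚ K (u ^ 2) = 5 := by
    have h := tr hv h3
    have h2 : (2 : K) = (2 : ℚ) • (1 : K) := by simp [Algebra.smul_def]
    rw [map_sub, h2, map_smul, t0, smul_eq_mul] at h
    linarith
  have t3 : Algebra.trace ℚ K (u ^ 3) = -4 := by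
    have h : u ^ 3 = (-1 : ℚ) • u ^ 2 + (2 : ℚ) • u + (1 : ℚ) • (1 : K) := by
      simp only [Algebra.smul_def, map_neg, map_one, map_ofNat]
      linear_combination hu
    rw [h, map_add, map_add, map_smul, map_smul, map_smul, t0, t1, t2]
    norm_num
  have t4 : Algebra.trace ℚ K (u ^ 4) = 13 := by
    have h : u ^ 4 = (-1 : ℚ) • u ^ 3 + (2 : ℚ) • u ^ 2 + (1 : ℚ) • u := by
      simp only [Algebra.smul_def, map_neg, map_one, map_ofNat]
      linear_combination u * hu
    rw [h, map_add, map_add, map_smul, map_smul, map_smul, t1, t2, t3]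
    norm_num
  obtain ⟨a, b, c, hz'⟩ : ∃ a b c : ℚ, z = a • (1 : K) + b • u + c • u ^ 2 := by
    have htop : IntermediateField.adjoin ℚ {u} = ⊤ := by
      have := fin_one hu h3
      exact IntermediateField.finrank_eq_one_iff_eq_top.1 this
    have hzm : z ∈ IntermediateField.adjoin ℚ {u} := by
      rw [htop]
      exact IntermediateField.mem_top
    rw [← IntermediateField.mem_toSubalgebra,
      IntermediateField.adjoin_simple_toSubalgebra_of_isAlgebraic
        (Algebra.IsAlgebraic.isAlgebraic u), Algebra.adjoin_singleton_eq_range_aeval] at hzm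
    obtain ⟨p, hp⟩ := hzm
    have h1 : aeval u (p %ₘ f) = z := by
      rw [← hp]
      have h2 := modByMonic_add_div p f
      have h4 : aeval u f = 0 := ev hu
      conv_rhs => rw [← h2]
      simp [h4]
    have hdeg : (p %ₘ f).natDegree < 3 := by
      rw [← f_deg]
      exact natDegree_modByMonic_lt p f_monic (by
        intro h
        have := f_deg
        rw [h] at this
        simp at this)
    refine ⟨(p %ₘ f).coeff 0, (p %ₘ f).coeff 1, (p %ₘ f).coeff 2, ?_⟩
    rw [← h1, aeval_eq_sum_range' hdeg, Finset.sum_range_succ, Finset.sum_range_succ,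
      Finset.sum_range_one, pow_zero, pow_one]
  have hu_int : IsIntegral ℤ u := by
    refine ⟨X ^ 3 + X ^ 2 - 2 * X - 1, by monicity!, ?_⟩
    simp only [eval₂_sub, eval₂_add, eval₂_mul, eval₂_pow, eval₂_X, eval₂_ofNat, eval₂_one]
    exact hu
  have key : ∀ w : K, IsIntegral ℤ w → ∃ n : ℤ, Algebra.trace ℚ K w = n := by
    intro w hw
    have h1 : IsIntegral ℤ (Algebra.trace ℚ K w) := Algebra.isIntegral_trace hw
    obtain ⟨n, hn⟩ := IsIntegrallyClosed.isIntegral_iff.1 h1
    exact ⟨n, by rw [← hn]; rfl⟩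
  obtain ⟨n0, e0⟩ := key z hz
  obtain ⟨n1, e1⟩ := key (z * u) (hz.mul hu_int)
  obtain ⟨n2, e2⟩ := key (z * u ^ 2) (hz.mul (hu_int.pow 2))
  have g0 : z = a • (1 : K) + b • u + c • u ^ 2 := hz'
  have g1 : z * u = a • u + b • u ^ 2 + c • u ^ 3 := by
    rw [hz']
    simp only [Algebra.smul_def]
    ring
  have g2 : z * u ^ 2 = a • u ^ 2 + b • u ^ 3 + c • u ^ 4 := by
    rw [hz']
    simp only [Algebra.smul_def]
    ring
  rw [g0] at e0
  rw [g1] at e1
  rw [g2] at e2
  simp only [map_add, map_smul, t0, t1, t2, t3, t4, smul_eq_mul] at e0 e1 e2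
  refine ⟨49 * n0 - 7 * n1 - 21 * n2, -7 * n0 + 14 * n1 + 7 * n2, -21 * n0 + 7 * n1 + 14 * n2, ?_⟩
  have ha : 49 * a = ((49 * n0 - 7 * n1 - 21 * n2 : ℤ) : ℚ) := by
    push_cast
    rw [← e0, ← e1, ← e2]
    ring
  have hb : 49 * b = ((-7 * n0 + 14 * n1 + 7 * n2 : ℤ) : ℚ) := by
    push_cast
    rw [← e0, ← e1, ← e2]
    ring
  have hc : 49 * c = ((-21 * n0 + 7 * n1 + 14 * n2 : ℤ) : ℚ) := by
    push_cast
    rw [← e0, ← e1, ← e2]
    ring
  have ha' : (49 : K) * algebraMap ℚ K a = ((49 * n0 - 7 * n1 - 21 * n2 : ℤ) : K) := by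
    have := congrArg (algebraMap ℚ K) ha
    rw [map_mul, map_ofNat, map_intCast] at this
    exact this
  have hb' : (49 : K) * algebraMap ℚ K b = ((-7 * n0 + 14 * n1 + 7 * n2 : ℤ) : K) := by
    have := congrArg (algebraMap ℚ K) hb
    rw [map_mul, map_ofNat, map_intCast] at this
    exact this
  have hc' : (49 : K) * algebraMap ℚ K c = ((-21 * n0 + 7 * n1 + 14 * n2 : ℤ) : K) := by
    have := congrArg (algebraMap ℚ K) hc
    rw [map_mul, map_ofNat, map_intCast] at this
    exact this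
  rw [← ha', ← hb', ← hc', hz']
  simp only [Algebra.smul_def]
  ring

end Pool.Agent.UPre
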