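import Pool.Agent.UPre.V7INT

/-! UPRE2-V7PID: the ring of integers of the cubic field of discriminant 49 is principal. -/

set_option autoImplicit false

open NumberField Module Polynomial Real Nat

namespace Pool.Agent.UPre

namespace V7PID_

variable {K : Type} [Field K] [NumberField K]

theorem traces {u : K} (hu : u ^ 3 + u ^ 2 - 2 * u - 1 = 0) (h3 : finrank ℚ K = 3) :
    Algebra.trace ℚ K 1 = 3 ∧ Algebra.trace ℚ K u = -1 ∧ Algebra.trace ℚ K (u ^ 2) = 5 ∧
      Algebra.trace ℚ K (u ^ 3) = -4 ∧ Algebra.trace ℚ K (u ^ 4) = 13 := by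
  have hv : (u ^ 2 - 2) ^ 3 + (u ^ 2 - 2) ^ 2 - 2 * (u ^ 2 - 2) - 1 = 0 := by
    linear_combination (u ^ 3 - u ^ 2 - 2 * u + 1) * hu
  have t0 : Algebra.trace ℚ K 1 = 3 := by
    have := Algebra.trace_algebraMap (R := ℚ) (S := K) 1
    rw [map_one, h3] at this
    rw [this]
    norm_num
  have t1 := V7INT_.tr hu h3
  have t2 : Algebra.trace ℚ K (u ^ 2) = 5 := by
    have h := V7INT_.tr hv h3
    have h2 : (2 : K) = (2 : ℚ) • (1 : K) := by simp [Algebra.smul_def]
    rw [map_sub, h2, map_smul, t0, smul_eq_mul] at h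
    linarith
  have t3 : Algebra.trace ℚ K (u ^ 3) = -4 := by
    have h : u ^ 3 = (-1 : ℚ) • u ^ 2 + (2 : ℚ) • u + (1 : ℚ) • (1 : K) := by
      simp only [Algebra.smul_def, map_neg, map_one, map_ofNat]
      linear_combination hu
    rw [h, map_add, map_add, map_smul, map_smul, map_smul, t0, t1, t2]
    norm_num
  have t4 : Algebra.trace ℚ K (u ^ 4) = 13 := by
    have h : u ^ 4 = (-1 : ℚ) • u ^ 3 + (2 : ℚ) • u ^ 2 + (1 : ℚ) • u := by
      simp only [Algebra.smul_def, map_neg, map_one, map_ofNat]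
      linear_combination u * hu
    rw [h, map_add, map_add, map_smul, map_smul, map_smul, t1, t2, t3]
    norm_num
  exact ⟨t0, t1, t2, t3, t4⟩

theorem discr_le {u : K} (hu : u ^ 3 + u ^ 2 - 2 * u - 1 = 0) (h3 : finrank ℚ K = 3) :
    |discr K| ≤ 49 := by
  classical
  obtain ⟨t0, t1, t2, t3, t4⟩ := traces hu h3
  have hint : IsIntegral ℤ u := by
    refine ⟨X ^ 3 + X ^ 2 - 2 * X - 1, by monicity!, ?_⟩
    simp only [eval₂_sub, eval₂_add, eval₂_mul, eval₂_pow, eval₂_X, eval₂_ofNat, eval₂_one]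
    exact hu
  set U : 𝓞 K := ⟨u, hint⟩ with hU
  have hUu : (U : K) = u := rfl
  have hcard : Fintype.card (Free.ChooseBasisIndex ℤ (𝓞 K)) = 3 := by
    rw [← finrank_eq_card_chooseBasisIndex, RingOfIntegers.rank, h3]
  let B : Basis (Fin 3) ℤ (𝓞 K) := (RingOfIntegers.basis K).reindex (Fintype.equivFinOfCardEq hcard)
  let v : Fin 3 → 𝓞 K := fun i => U ^ (i : ℕ)
  have h1 : Algebra.discr ℤ v = (B.toMatrix v).det ^ 2 * discr K := by
    have := Algebra.discr_of_matrix_vecMul B (B.toMatrix v)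
    rw [Basis.toMatrix_map_vecMul, discr_eq_discr] at this
    exact this
  have htr : ∀ (n : ℕ) (c : ℤ), Algebra.trace ℚ K (u ^ n) = c → Algebra.trace ℤ (𝓞 K) (U ^ n) = c := by
    intro n c hc
    have := Algebra.coe_trace_int (K := K) (U ^ n)
    have h2 : (((Algebra.trace ℤ (𝓞 K)) (U ^ n) : ℤ) : ℚ) = (c : ℚ) := by
      rw [this, ← hc]
      simp [hUu]
    exact_mod_cast h2
  have s0 := htr 0 3 (by simpa using t0)
  have s1 := htr 1 (-1) (by simpa using t1)
  have s2 := htr 2 5 (by simpa using t2)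
  have s3 := htr 3 (-4) (by simpa using t3)
  have s4 := htr 4 13 (by simpa using t4)
  have h2 : Algebra.discr ℤ v = 49 := by
    rw [Algebra.discr_def, Matrix.det_fin_three]
    simp only [Algebra.traceMatrix_apply, Algebra.traceForm_apply, v, ← pow_add]
    norm_num [s0, s1, s2, s3, s4]
    simp only [pow_zero, pow_one] at s0 s1
    rw [s0, s1]
    norm_num
  rw [h2] at h1
  have h4 : (B.toMatrix v).det ^ 2 ≠ 0 := by
    intro h
    rw [h] at h1
    simp at h1
  have h5 : 1 ≤ (B.toMatrix v).det ^ 2 := by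
    have : 0 ≤ (B.toMatrix v).det ^ 2 := sq_nonneg _
    omega
  have h6 : (49 : ℤ) = (B.toMatrix v).det ^ 2 * |discr K| := by
    have := congrArg abs h1
    rw [abs_mul, abs_of_nonneg (sq_nonneg (B.toMatrix v).det)] at this
    simpa using this
  nlinarith [abs_nonneg (discr K)]

end V7PID_

open V7PID_ in
theorem p_V7_PID : V7_PID := by
  intro K _ _ u hu h3
  apply RingOfIntegers.isPrincipalIdealRing_of_abs_discr_lt
  have hd := discr_le hu h3
  have hr : InfinitePlace.nrComplexPlaces K ≤ 1 := by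
    have := InfinitePlace.card_add_two_mul_card_eq_rank K
    omega
  have hpi : (3.1415 : ℝ) < π := Real.pi_gt_d4
  have hpi4 : π ≤ 4 := Real.pi_le_four
  have h1 : ((3.1415 : ℝ) / 4) ≤ (π / 4) ^ InfinitePlace.nrComplexPlaces K := by
    have h2 : (π / 4) ^ 1 ≤ (π / 4) ^ InfinitePlace.nrComplexPlaces K := by
      apply pow_le_pow_of_le_one (by positivity) (by linarith) hr
    linarith [h2, pow_one (π / 4)]
  rw [h3]
  have h3' : ((3 : ℕ) ! : ℝ) = 6 := by norm_num [Nat.factorial]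
  have hd' : ((|discr K| : ℤ) : ℝ) ≤ 49 := by exact_mod_cast hd
  refine lt_of_le_of_lt hd' ?_
  rw [h3']
  have h4 : (2 : ℝ) * (3.1415 / 4) * (3 ^ 3 / 6) ≤ 2 * (π / 4) ^ InfinitePlace.nrComplexPlaces K *
      (3 ^ 3 / 6) := by gcongr
  calc (49 : ℝ) < (2 * (3.1415 / 4) * (3 ^ 3 / 6)) ^ 2 := by norm_num
    _ ≤ _ := by
      push_cast
      exact pow_le_pow_left₀ (by norm_num) h4 2

end Pool.Agent.UPre
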