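import Pool.Agent.UPre.Main2
import Pool.Agent.UPre.L0
import Pool.Agent.UPre.L1
import Pool.Agent.UPre.LTE
import Pool.Agent.UPre.POW3
import Pool.Agent.UPre.PWR
import Pool.Agent.UPre.E5
import Pool.Agent.UPre.C5
import Pool.Agent.UPre.POW5
import Pool.Agent.UPre.RP
import Pool.Agent.UPre.E7
import Pool.Agent.UPre.POW7
import Pool.Agent.UPre.V7FIELD
import Pool.Agent.UPre.V7INT
import Pool.Agent.UPre.V7PID
import Pool.Agent.UPre.V7UNIT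
import Pool.Agent.UPre.V7ASSOC
import Pool.Agent.UPre.E7A
import Pool.Agent.UPre.PAIR4
import Pool.Agent.UPre.PAIR6
import Pool.Agent.UPre.OPP
import Pool.Agent.UPre.NORM
import Pool.Agent.UPre.GOODEQ
import Pool.Agent.UPre.GDIV
import Pool.Agent.UPre.TWO
import Pool.Agent.UPre.LTEQ
import Pool.Agent.UPre.BAD
import Pool.Agent.UPre.SUM
import Pool.Agent.UPre.RAT
import Pool.Agent.UPre.HYP
import Pool.Agent.UPre.PIG
import Pool.Agent.UPre.COUNT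
import Pool.Agent.UPre.T1
import Pool.Agent.UPre.T2G
import Pool.Agent.UPre.T2
import Pool.Agent.UPre.T2Z
import Pool.Agent.UPre.EXC

/-! Final assembly of the uniform bound for `a x^d + c`. -/

namespace Pool.Agent.UPre

theorem a_L1 : T_L1 := p_L1 p_L0
theorem a_GOODEQ : U_GOODEQ := p_U_GOODEQ p_U_NORM
theorem a_GDIV : U_GDIV := p_U_GDIV p_U_NORM a_GOODEQ
theorem a_LTEQ : U_LTEQ := p_U_LTEQ p_LTE
theorem a_BAD : U_BAD := p_U_BAD p_U_NORM p_U_BADV a_LTEQ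
theorem a_SUM : U_SUM := p_U_SUM p_U_NORM p_U_BADV a_LTEQ a_BAD
theorem a_RAT : U_RAT := p_U_RAT p_U_NORM p_U_BADV a_BAD
theorem a_HYP : U_HYP := p_U_HYP a_GDIV a_RAT
theorem a_TWO : U_TWO := p_U_TWO p_U_NORM a_GOODEQ a_GDIV
theorem a_PIG : U_PIG := p_U_PIG p_U_NORM p_U_BADV
theorem a_COUNT : U_COUNT := p_U_COUNT a_TWO p_U_PH a_HYP a_PIG
theorem a_T2G : U_T2G := p_U_T2G p_U_NORM a_GOODEQ
theorem a_T2 : U_T2 := p_U_T2 p_U_NORM p_U_BADV a_SUM a_T2G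
theorem a_POW3 : V_POW3 := p_V_POW3 a_L1
theorem a_POW5 : V_POW5 := p_V_POW5 (p_V_C5 p_V_E5)
theorem a_E7A : V_E7A := p_V_E7A p_V7_FIELD p_V7_INT p_V7_PID p_V7_UNIT p_V7_ASSOC
theorem a_POW7 : V_POW7 := p_V_POW7 (p_V_E7 a_E7A p_V_RP)
theorem a_PAIR4 : U_PAIR4 := p_U_PAIR4 p_V_PWR p_LTE
theorem a_PAIR6 : U_PAIR6 := p_U_PAIR6 p_V_PWR p_LTE
theorem a_OPP : U_OPP := p_U_OPP p_V_PWR p_LTE

theorem pow_one {q : ℕ} (hq : q = 3 ∨ q = 5 ∨ q = 7) : POW q 1 := by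
  rcases hq with rfl | rfl | rfl
  · exact a_POW3
  · exact a_POW5.1
  · exact a_POW7.1

theorem mainA (q d : ℕ) (hq : q = 3 ∨ q = 5 ∨ q = 7) (hd : 2 ≤ d) (hqd : q ∣ d - 1)
    (S : Finset ℕ) (h46 : 4 ∣ d ∨ 6 ∣ d ∧ 3 ∈ S) (a : ℚ) (ha : a ≠ 0)
    (hval : ∀ p : ℕ, p.Prime → p ≠ 2 → p ∉ S → (q : ℤ) ∣ padicValRat p (a * d)) (c : ℚ) :
    (Function.periodicPts (G a d c)).encard ≤ ((2 * ∏ p ∈ S, Nat.gcd d (p - 1) : ℕ) : ℕ∞) ∧
    (S = ∅ → {x : ℚ | PreG a d c x}.encard ≤ 4) := by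
  have hqodd : Odd q := by rcases hq with rfl | rfl | rfl <;> decide
  have hev : Even d := by
    rcases h46 with h | ⟨h, -⟩
    · exact even_iff_two_dvd.2 (Dvd.dvd.trans (by norm_num) h)
    · exact even_iff_two_dvd.2 (Dvd.dvd.trans (by norm_num) h)
  have hd4 : 4 ≤ d := by
    have h1 : q ≤ d - 1 := Nat.le_of_dvd (by omega) hqd
    rcases hq with rfl | rfl | rfl <;> omega
  have hd0 : 0 < d := by omega
  have hPPor : PP q d ∨ (6 ∣ d ∧ 3 ∈ S ∧ ∀ t w : ℤ, Odd t → Odd w → IsCoprime t w →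
      (4 : ℤ) ∣ t - w → (3 : ℤ) ∣ t - w → t ≠ w → ¬ Hyp q d t w) := by
    rcases h46 with h | ⟨h, h3⟩
    · exact Or.inl (a_PAIR4 q d hqodd hd0 h (pow_one hq))
    · right
      refine ⟨h, h3, ?_⟩
      have hq3 : POW q 3 := by
        rcases hq with rfl | rfl | rfl
        · exfalso
          obtain ⟨k, hk⟩ := hqd
          obtain ⟨l, hl⟩ := h
          omega
        · exact a_POW5.2
        · exact a_POW7.2
      exact a_PAIR6 q d hqodd hd0 h hq3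
  have h1 := a_COUNT q d hd hev hqd S hPPor a ha hval c
  refine ⟨h1, ?_⟩
  rintro rfl
  have h4 : 4 ∣ d := by
    rcases h46 with h | ⟨-, h⟩
    · exact h
    · simp at h
  have h2 : (Function.periodicPts (G a d c)).encard ≤ 2 := by
    simpa using h1
  exact main2 hd4 hev hqd (a_PAIR4 q d hqodd hd0 h4 (pow_one hq))
    (a_OPP q d hqodd hd0 h4 (pow_one hq)) ha
    (fun p hp hp2 => hval p hp hp2 (by simp)) h2 p_U_T1 a_T2 p_U_T2Z p_U_EXC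

end Pool.Agent.UPre
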