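import Pool.Agent.UPre.Targets

/-! UPre: CUBE -/

namespace Pool.Agent.UPre

theorem p_CUBE : T_CUBE := by
  intro m hm h
  have hn : m.natAbs ≠ 0 := Int.natAbs_ne_zero.2 hm
  have key : (∏ p ∈ m.natAbs.primeFactors, p ^ (m.natAbs.factorization p / 3)) ^ 3 = m.natAbs := by
    rw [← Finset.prod_pow]
    conv_rhs => rw [← Nat.prod_factorization_pow_eq_self hn]
    rw [Finsupp.prod, Nat.support_factorization]
    refine Finset.prod_congr rfl fun p hp => ?_
    have hp' := Nat.prime_of_mem_primeFactors hp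
    have h3 : 3 ∣ m.natAbs.factorization p := by
      rw [Nat.factorization_def _ hp']
      exact h p hp'
    rw [← pow_mul, Nat.div_mul_cancel h3]
  set k : ℕ := ∏ p ∈ m.natAbs.primeFactors, p ^ (m.natAbs.factorization p / 3) with hk
  rcases Int.natAbs_eq m with h1 | h1
  · refine ⟨k, ?_⟩
    rw [h1, ← key]
    push_cast
    rfl
  · refine ⟨-(k : ℤ), ?_⟩
    rw [h1, ← key]
    push_cast
    ring

end Pool.Agent.UPre
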