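import Pool.Agent.UPre.Targets

set_option autoImplicit false

/-! # Denominators of preperiodic points of `x^d + c` (T_DEN) -/

namespace Pool.Agent.UPre

namespace DEN_

theorem iter_mem {α : Type*} (f : α → α) (A : Set α) (hA : ∀ y ∈ A, f y ∈ A) (k : ℕ) :
    ∀ y ∈ A, f^[k] y ∈ A := by
  induction k with
  | zero => exact fun y hy => hy
  | succ k ih =>
    intro y hy
    rw [Function.iterate_succ_apply']
    exact hA _ (ih y hy)

theorem iter_lt {α : Type*} (f : α → α) (A : Set α) (N : α → ℚ) (hA : ∀ y ∈ A, f y ∈ A)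
    (hN : ∀ y ∈ A, N y < N (f y)) (k : ℕ) : ∀ y ∈ A, N y < N (f^[k + 1] y) := by
  induction k with
  | zero => exact fun y hy => hN y hy
  | succ k ih =>
    intro y hy
    rw [Function.iterate_succ_apply']
    exact (ih y hy).trans (hN _ (iter_mem f A hA _ y hy))

/-- points of the escape region are not preperiodic -/
theorem escape {α : Type*} (f : α → α) (A : Set α) (N : α → ℚ) (hA : ∀ y ∈ A, f y ∈ A)
    (hN : ∀ y ∈ A, N y < N (f y)) (x : α) (hx : ∃ k, f^[k] x ∈ Function.periodicPts f) :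
    x ∉ A := by
  intro hxA
  obtain ⟨k, m, hm, hper⟩ := hx
  obtain ⟨n, rfl⟩ := Nat.exists_eq_succ_of_ne_zero hm.ne'
  have h1 := iter_lt f A N hA hN n _ (iter_mem f A hA k x hxA)
  have h2 : f^[n + 1] (f^[k] x) = f^[k] x := hper
  rw [h2] at h1
  exact lt_irrefl _ h1

theorem pre_succ {α : Type*} (f : α → α) (x : α)
    (hx : ∃ k, f^[k] x ∈ Function.periodicPts f) :
    ∃ k, f^[k] (f x) ∈ Function.periodicPts f := by
  obtain ⟨k, m, hm, hper⟩ := hx
  refine ⟨k, m, hm, ?_⟩
  rw [← Function.iterate_succ_apply, Function.iterate_succ_apply']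
  exact hper.apply_iterate 1

theorem norms (N : ℚ → ℚ) (h0 : ∀ x, 0 ≤ N x)
    (hadd : ∀ x y, N x ≠ N y → N (x + y) = max (N x) (N y)) (hpow : ∀ x n, N (x ^ n) = N x ^ n)
    (d : ℕ) (hd : 2 ≤ d) (c x : ℚ)
    (hx : ∃ k, (fun y : ℚ => y ^ d + c)^[k] x ∈ Function.periodicPts (fun y : ℚ => y ^ d + c)) :
    (N c ≤ 1 ∧ N x ≤ 1) ∨ (1 < N c ∧ 1 < N x ∧ N x ^ d = N c) := by
  set f : ℚ → ℚ := fun y => y ^ d + c with hf
  set A : Set ℚ := {y | 1 < N y ∧ N c < N y ^ d} with hA
  have hfA : ∀ y ∈ A, N (f y) = N y ^ d := by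
    rintro y ⟨_, h2⟩
    change N (y ^ d + c) = _
    rw [hadd _ _ (by rw [hpow]; exact h2.ne'), hpow]
    exact max_eq_left h2.le
  have hlt : ∀ y ∈ A, N y < N (f y) := by
    intro y hy
    rw [hfA y hy]
    calc N y = N y ^ 1 := (pow_one _).symm
      _ < N y ^ d := pow_lt_pow_right₀ hy.1 (by omega)
  have hmem : ∀ y ∈ A, f y ∈ A := by
    intro y hy
    refine ⟨hy.1.trans (hlt y hy), ?_⟩
    exact hy.2.trans_le (pow_le_pow_left₀ (h0 y) (hlt y hy).le d)
  rcases le_or_gt (N c) 1 with hc | hc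
  · left
    refine ⟨hc, ?_⟩
    by_contra hx1
    push Not at hx1
    refine escape f A N hmem hlt x hx ⟨hx1, hc.trans_lt ?_⟩
    exact one_lt_pow₀ hx1 (by omega)
  · right
    have h1 : N x ^ d ≤ N c := by
      by_contra h
      push Not at h
      refine escape f A N hmem hlt x hx ⟨?_, h⟩
      by_contra h'
      push Not at h'
      have := pow_le_one₀ (n := d) (h0 x) h'
      linarith
    have h2 : ¬ N x ^ d < N c := by
      intro h
      have h3 : N (f x) = N c := by
        change N (x ^ d + c) = _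
        rw [hadd _ _ (by rw [hpow]; exact h.ne), hpow]
        exact max_eq_right h.le
      refine escape f A N hmem hlt (f x) (pre_succ f x hx) ⟨by rw [h3]; exact hc, ?_⟩
      rw [h3]
      calc N c = N c ^ 1 := (pow_one _).symm
        _ < N c ^ d := pow_lt_pow_right₀ hc (by omega)
    have h4 : N x ^ d = N c := le_antisymm h1 (not_lt.1 h2)
    refine ⟨hc, ?_, h4⟩
    by_contra h'
    push Not at h'
    have := pow_le_one₀ (n := d) (h0 x) h'
    linarith

theorem le_one_iff (p : ℕ) [hp : Fact p.Prime] (q : ℚ) : padicNorm p q ≤ 1 ↔ ¬ p ∣ q.den := by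
  have h0 : padicNorm p q = padicNorm p (q.num : ℚ) / padicNorm p (q.den : ℚ) := by
    rw [← padicNorm.div, Rat.num_div_den]
  constructor
  · intro h hd
    have hn : ¬ (p : ℤ) ∣ q.num := by
      intro h1
      have h2 : p ∣ q.num.natAbs := Int.natCast_dvd.1 h1
      have := Nat.Coprime.eq_one_of_dvd ((q.reduced).coprime_dvd_left h2) hd
      exact hp.1.one_lt.ne' this
    have h1 : padicNorm p (q.num : ℚ) = 1 := (padicNorm.int_eq_one_iff q.num).2 hn
    have h2 : padicNorm p (q.den : ℚ) < 1 := (padicNorm.nat_lt_one_iff q.den).2 hd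
    have h3 : 0 < padicNorm p (q.den : ℚ) := by
      refine lt_of_le_of_ne (padicNorm.nonneg _) (Ne.symm (padicNorm.nonzero ?_))
      exact_mod_cast q.den_nz
    rw [h0, h1, div_le_one h3] at h
    linarith
  · intro h
    have h2 : padicNorm p (q.den : ℚ) = 1 := (padicNorm.nat_eq_one_iff q.den).2 h
    rw [h0, h2, div_one]
    exact padicNorm.of_int _

theorem den_small (p : ℕ) [Fact p.Prime] (q : ℚ) (h : padicNorm p q ≤ 1) :
    padicValNat p q.den = 0 := by
  rw [le_one_iff] at h
  exact padicValNat.eq_zero_of_not_dvd h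

theorem den_big (p : ℕ) [hp : Fact p.Prime] (q : ℚ) (h : 1 < padicNorm p q) :
    padicNorm p q = (p : ℚ) ^ (padicValNat p q.den) := by
  have hq : q ≠ 0 := by
    rintro rfl
    rw [padicNorm.zero] at h
    norm_num at h
  have hd : p ∣ q.den := by
    by_contra hnd
    exact absurd ((le_one_iff p q).2 hnd) (not_le.2 h)
  have hn : padicValInt p q.num = 0 := by
    rw [padicValInt]
    refine padicValNat.eq_zero_of_not_dvd fun h1 => ?_
    have := Nat.Coprime.eq_one_of_dvd ((q.reduced).coprime_dvd_left h1) hd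
    exact hp.1.one_lt.ne' this
  rw [padicNorm.eq_zpow_of_nonzero hq, padicValRat, hn]
  simp

end DEN_

open DEN_ in
theorem p_DEN : T_DEN := by
  intro d hd c x hx
  refine Nat.eq_of_factorization_eq c.den_nz (pow_ne_zero _ x.den_nz) fun p => ?_
  by_cases hp : p.Prime
  · have : Fact p.Prime := ⟨hp⟩
    rw [Nat.factorization_pow, Finsupp.smul_apply, smul_eq_mul, Nat.factorization_def _ hp,
      Nat.factorization_def _ hp]
    have hnorm := norms (padicNorm p) (fun x => padicNorm.nonneg x)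
      (fun x y h => padicNorm.add_eq_max_of_ne h)
      (fun x n => by
        induction n with
        | zero => simp
        | succ n ih => rw [pow_succ, padicNorm.mul, ih, pow_succ]) d hd c x hx
    rcases hnorm with ⟨h1, h2⟩ | ⟨h1, h2, h3⟩
    · rw [den_small p c h1, den_small p x h2, mul_zero]
    · rw [den_big p c h1, den_big p x h2, ← pow_mul] at h3
      have h4 : (1 : ℚ) < p := by exact_mod_cast hp.one_lt
      have h5 := pow_right_injective₀ (zero_lt_one.trans h4) h4.ne' h3
      rw [← h5, mul_comm]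
  · rw [Nat.factorization_eq_zero_of_not_prime _ hp, Nat.factorization_eq_zero_of_not_prime _ hp]

end Pool.Agent.UPre
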