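import Pool.Agent.UPre.Targets

/-! UPRE-FIX: tail over a fixed point. -/

namespace Pool.Agent.UPre

namespace FIX_

/-- coprime factors of a `d`-th power, `d` even, nonzero: same sign. -/
lemma split {d : ℕ} (hd : Even d) {x y t : ℤ} (hxy : IsCoprime x y) (ht : t ≠ 0)
    (h : x * y = t ^ d) : ∃ ε a b : ℤ, (ε = 1 ∨ ε = -1) ∧ x = ε * a ^ d ∧ y = ε * b ^ d := by
  have hpos : 0 < x * y := by rw [h]; exact hd.pow_pos ht
  obtain ⟨a, ha⟩ := exists_associated_pow_of_mul_eq_pow' hxy h
  obtain ⟨b, hb⟩ := exists_associated_pow_of_mul_eq_pow' hxy.symm ((mul_comm y x).trans h)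
  have ha0 : 0 ≤ a ^ d := hd.pow_nonneg a
  have hb0 : 0 ≤ b ^ d := hd.pow_nonneg b
  rw [Int.associated_iff] at ha hb
  rcases ha with ha | ha <;> rcases hb with hb | hb
  · exact ⟨1, a, b, Or.inl rfl, by rw [ha, one_mul], by rw [hb, one_mul]⟩
  · exfalso
    rw [← ha, ← neg_eq_iff_eq_neg.2 hb] at hpos
    nlinarith [mul_nonneg ha0 hb0]
  · exfalso
    rw [← hb, ← neg_eq_iff_eq_neg.2 ha] at hpos
    nlinarith [mul_nonneg ha0 hb0]
  · exact ⟨-1, a, b, Or.inr rfl, by rw [ha]; ring, by rw [hb]; ring⟩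

end FIX_

open FIX_

theorem p_FIX : T_L2 → T_L3 → T_FIX := by
  intro hL2 hL3 d hd t r D hD hr hrD h
  obtain ⟨⟨e, he⟩, hd3, -⟩ := hd
  have he0 : e ≠ 0 := by rintro rfl; omega
  obtain ⟨n, hn⟩ : ∃ n, d = n + 1 := ⟨d - 1, by omega⟩
  obtain ⟨m, hm⟩ : ∃ m, n = 3 * m := ⟨n / 3, by omega⟩
  have hnodd : Odd n := by rw [Nat.odd_iff]; omega
  have hde : Even d := ⟨2 * e, by omega⟩
  have hd0 : d ≠ 0 := by omega
  have hn1 : d - 1 = n := by omega
  rw [hn1] at h
  have hm0 : m ≠ 0 := by rintro rfl; omega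
  have hD0 : (D : ℤ) ≠ 0 := by exact_mod_cast hD.ne'
  rcases Int.even_or_odd r with hre | hro
  · -- `r` even
    obtain ⟨s, hs⟩ := hre
    have hs' : r = 2 * s := by rw [hs]; ring
    have hDodd : Odd (D : ℤ) := by
      rw [← Int.not_even_iff_odd]
      intro hDe
      obtain ⟨u, v, huv⟩ := hrD
      have h2 : (2 : ℤ) ∣ 1 := by
        rw [← huv]
        exact dvd_add (Dvd.dvd.mul_left ⟨s, hs'⟩ _) (Dvd.dvd.mul_left hDe.two_dvd _)
      norm_num at h2
    obtain ⟨k, hk⟩ : ∃ k, n = k + 2 := ⟨n - 2, by omega⟩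
    set q : ℤ := s * r ^ (k + 1) - (D : ℤ) ^ n with hq
    have hprod : (2 * r) * q = t ^ d := by
      rw [h, hq, hn, hk, hs']
      ring
    have hqodd : Odd q := by
      have h1 : Even (s * r ^ (k + 1)) := by
        rw [hs', mul_pow, pow_succ 2 k]
        exact ⟨s * (2 ^ k * s ^ (k + 1)), by ring⟩
      exact h1.sub_odd (hDodd.pow)
    have hcop : IsCoprime (2 * r) q := by
      apply IsCoprime.mul_left
      · rw [Int.isCoprime_iff_gcd_eq_one]
        obtain ⟨w, hw⟩ := hqodd
        rw [← Int.isCoprime_iff_gcd_eq_one]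
        exact ⟨-w, 1, by rw [hw]; ring⟩
      · have h1 : IsCoprime r (-(D : ℤ) ^ n) := (hrD.pow_right).neg_right
        have h2 : q = -(D : ℤ) ^ n + r * (s * r ^ k) := by rw [hq]; ring
        rw [h2]
        exact h1.add_mul_left_right _
    have hq0 : q ≠ 0 := by
      rintro h0
      rw [h0] at hqodd
      simp at hqodd
    have ht : t ≠ 0 := by
      rintro rfl
      rw [zero_pow hd0] at hprod
      rcases mul_eq_zero.1 hprod with h1 | h1
      · exact hr (by linarith)
      · exact hq0 h1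
    obtain ⟨ε, A, b, hε, hA, hb⟩ := split hde hcop ht hprod
    have hε2 : ε * ε = 1 := by rcases hε with rfl | rfl <;> norm_num
    have hεn : ε ^ n = ε := by
      rcases hε with rfl | rfl
      · simp
      · exact hnodd.neg_one_pow
    have hε3 : ε ^ 3 = ε := by rw [pow_succ, pow_two, hε2, one_mul]
    have hAeven : Even A := by
      rw [← Int.not_odd_iff_even]
      intro hAo
      have h1 : Odd (ε * A ^ d) := by
        apply Odd.mul _ hAo.pow
        rcases hε with rfl | rfl <;> decide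
      rw [← hA] at h1
      rw [Int.odd_iff] at h1
      omega
    obtain ⟨A', hA'⟩ := hAeven
    have hA2 : A = 2 * A' := by rw [hA']; ring
    have hbodd : Odd b := by
      rw [← Int.not_even_iff_odd]
      intro hbe
      rw [hb] at hqodd
      have : Even (ε * b ^ d) := (hbe.pow_of_ne_zero hd0).mul_left _
      exact (Int.not_odd_iff_even.2 this) hqodd
    have hAb : IsCoprime A b := by
      have h1 : IsCoprime (A ^ d) (b ^ d) := by
        rw [hA, hb] at hcop
        exact (IsCoprime.of_mul_left_right (IsCoprime.of_mul_right_right hcop))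
      exact (IsCoprime.pow_iff (by omega) (by omega)).1 h1
    have hA'b : IsCoprime A' b := by rw [hA2] at hAb; exact IsCoprime.of_mul_left_right hAb
    have h2b : IsCoprime (2 : ℤ) b := by
      rw [hA2] at hAb; exact IsCoprime.of_mul_left_left hAb
    set E : ℤ := 2 ^ (k + 1) * A' ^ n with hE
    have hEb : IsCoprime E b := by
      rw [hE]
      exact IsCoprime.mul_left h2b.pow_left hA'b.pow_left
    have hE2 : 2 * E = A ^ n := by
      rw [hE, hA2, mul_pow, hk]; ring
    have heq : E ^ d - b ^ d = (ε * (D : ℤ) ^ m) ^ 3 := by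
      have h2 : (2 : ℤ) ^ d ≠ 0 := by positivity
      apply mul_left_cancel₀ h2
      have h3 : (2 * r) ^ n = ε * (A ^ n) ^ d := by
        rw [hA, mul_pow, hεn, ← pow_mul, ← pow_mul, mul_comm d n]
      have h4 : (2 : ℤ) ^ d * q = (2 * r) ^ n - 2 ^ d * (D : ℤ) ^ n := by
        rw [hq, hn, hk, hs', mul_pow 2 (2 * s)]; ring
      have h5 : (ε * (D : ℤ) ^ m) ^ 3 = ε * (D : ℤ) ^ n := by
        rw [mul_pow, hε3, ← pow_mul, hm, mul_comm m 3]
      rw [h5, mul_sub, ← mul_pow, hE2]
      have h6 : (2 : ℤ) ^ d * (ε * b ^ d) = ε * (A ^ n) ^ d - 2 ^ d * (D : ℤ) ^ n := by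
        rw [← hb, h4, h3]
      have h7 := congrArg (fun z => ε * z) h6
      beta_reduce at h7
      have h8 : ε * (2 ^ d * (ε * b ^ d)) = 2 ^ d * b ^ d := by
        calc ε * (2 ^ d * (ε * b ^ d)) = (ε * ε) * (2 ^ d * b ^ d) := by ring
          _ = _ := by rw [hε2, one_mul]
      have h9 : ε * (ε * (A ^ n) ^ d - 2 ^ d * (D : ℤ) ^ n) =
          (A ^ n) ^ d - 2 ^ d * (ε * (D : ℤ) ^ n) := by
        calc ε * (ε * (A ^ n) ^ d - 2 ^ d * (D : ℤ) ^ n) =
            (ε * ε) * (A ^ n) ^ d - 2 ^ d * (ε * (D : ℤ) ^ n) := by ring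
          _ = _ := by rw [hε2, one_mul]
      rw [h8, h9] at h7
      linarith
    have hfin := hL2 (E ^ e) (b ^ e) (ε * (D : ℤ) ^ m) hEb.pow
      (by
        apply Odd.mul _ hDodd.pow
        rcases hε with rfl | rfl <;> decide)
      (by rw [← pow_mul, ← pow_mul, mul_comm e 4, ← he, heq])
    rcases hfin with h1 | h1
    · have h2 : E = 0 := by simpa [he0] using h1
      rw [h2, mul_zero] at hE2
      have h3 : A = 0 := by
        by_contra h4
        exact pow_ne_zero n h4 hE2.symm
      rw [h3, zero_pow hd0, mul_zero] at hA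
      exact hr (by linarith)
    · have h2 : b = 0 := by simpa [he0] using h1
      rw [h2] at hbodd
      simp at hbodd
  · -- `r` odd
    set q : ℤ := r ^ n - 2 * (D : ℤ) ^ n with hq
    have hprod : r * q = t ^ d := by
      rw [h, hq, hn]; ring
    have hqodd : Odd q := by
      rw [hq]
      exact (hro.pow).sub_even ⟨(D : ℤ) ^ n, by ring⟩
    have hr2 : IsCoprime r (2 : ℤ) := by
      obtain ⟨w, hw⟩ := hro
      exact ⟨1, -w, by rw [hw]; ring⟩
    have hcop : IsCoprime r q := by
      have h1 : IsCoprime r (-(2 * (D : ℤ) ^ n)) := (hr2.mul_right hrD.pow_right).neg_right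
      obtain ⟨k, hk⟩ : ∃ k, n = k + 1 := ⟨n - 1, by omega⟩
      have h2 : q = -(2 * (D : ℤ) ^ n) + r * r ^ k := by
        rw [hq, ← pow_succ', ← hk]; ring
      rw [h2]
      exact h1.add_mul_left_right _
    have hq0 : q ≠ 0 := by
      rintro h0
      rw [h0] at hqodd
      simp at hqodd
    have ht : t ≠ 0 := by
      rintro rfl
      rw [zero_pow hd0] at hprod
      rcases mul_eq_zero.1 hprod with h1 | h1
      · exact hr h1
      · exact hq0 h1
    obtain ⟨ε, a, b, hε, ha, hb⟩ := split hde hcop ht hprod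
    have hε2 : ε * ε = 1 := by rcases hε with rfl | rfl <;> norm_num
    have hεn : ε ^ n = ε := by
      rcases hε with rfl | rfl
      · simp
      · exact hnodd.neg_one_pow
    have hε3 : ε ^ 3 = ε := by rw [pow_succ, pow_two, hε2, one_mul]
    have hε0 : ε ≠ 0 := by rintro rfl; norm_num at hε2
    have haodd : Odd a := by
      rw [← Int.not_even_iff_odd]
      intro hae
      have : Even r := by rw [ha]; exact (hae.pow_of_ne_zero hd0).mul_left _
      exact (Int.not_odd_iff_even.2 this) hro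
    have hbodd : Odd b := by
      rw [← Int.not_even_iff_odd]
      intro hbe
      have : Even q := by rw [hb]; exact (hbe.pow_of_ne_zero hd0).mul_left _
      exact (Int.not_odd_iff_even.2 this) hqodd
    have hab : IsCoprime a b := by
      have h1 : IsCoprime (a ^ d) (b ^ d) := by
        rw [hb, ha] at hcop
        exact (IsCoprime.of_mul_left_right (IsCoprime.of_mul_right_right hcop))
      exact (IsCoprime.pow_iff (by omega) (by omega)).1 h1
    have heq : a ^ (d * n) - b ^ d = 2 * (ε * (D : ℤ) ^ m) ^ 3 := by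
      have h5 : (ε * (D : ℤ) ^ m) ^ 3 = ε * (D : ℤ) ^ n := by
        rw [mul_pow, hε3, ← pow_mul, hm, mul_comm m 3]
      rw [h5]
      have h3 : r ^ n = ε * a ^ (d * n) := by rw [ha, mul_pow, hεn, ← pow_mul]
      have h6 : ε * b ^ d = ε * a ^ (d * n) - 2 * (D : ℤ) ^ n := by rw [← hb, hq, h3]
      have h7 := congrArg (fun z => ε * z) h6
      beta_reduce at h7
      have h8 : ε * (ε * b ^ d) = b ^ d := by
        rw [← mul_assoc, hε2, one_mul]
      have h9 : ε * (ε * a ^ (d * n) - 2 * (D : ℤ) ^ n) =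
          a ^ (d * n) - 2 * (ε * (D : ℤ) ^ n) := by
        calc ε * (ε * a ^ (d * n) - 2 * (D : ℤ) ^ n) =
            (ε * ε) * a ^ (d * n) - 2 * (ε * (D : ℤ) ^ n) := by ring
          _ = _ := by rw [hε2, one_mul]
      rw [h8, h9] at h7
      linarith
    have hfin := hL3 (a ^ (e * m)) (b ^ e) (ε * (D : ℤ) ^ m) haodd.pow hbodd.pow hab.pow
      (by
        rw [← pow_mul, ← pow_mul, ← heq]
        congr 2
        · rw [he, hm]; ring
        · rw [he]; ring)
    have : (ε * (D : ℤ) ^ m) ≠ 0 := mul_ne_zero hε0 (pow_ne_zero _ hD0)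
    exact this hfin

end Pool.Agent.UPre
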