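import Pool.Agent.UPre.Targets

/-! Project UPre: the equation `X^4 - Y^4 = Z^3`. -/

namespace Pool.Agent.UPre

namespace L2_

theorem cop {x y : ℤ} (h : IsCoprime x y) (ho : Odd (x - y)) : IsCoprime (x - y) (x + y) := by
  obtain ⟨u, v, huv⟩ := h
  obtain ⟨k, hk⟩ := ho
  refine ⟨1 - k * (u - v), - (k * (u + v)), ?_⟩
  have h2 : (u - v) * (x - y) + (u + v) * (x + y) = 2 := by linear_combination 2 * huv
  linear_combination (-k) * h2 + hk

end L2_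

open L2_ in
theorem p_L2 (h1 : T_L1) : T_L2 := by
  intro X Y Z hXY hZ hE
  have hprod : (X - Y) * (X + Y) * (X ^ 2 + Y ^ 2) = Z ^ 3 := by rw [← hE]; ring
  have hodd : Odd ((X - Y) * (X + Y) * (X ^ 2 + Y ^ 2)) := by rw [hprod]; exact hZ.pow
  have ho1 : Odd ((X - Y) * (X + Y)) := (Int.odd_mul.1 hodd).1
  have ho2 : Odd (X ^ 2 + Y ^ 2) := (Int.odd_mul.1 hodd).2
  have ho3 : Odd (X - Y) := (Int.odd_mul.1 ho1).1
  have hc1 : IsCoprime (X - Y) (X + Y) := cop hXY ho3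
  have hc2 : IsCoprime (X ^ 2 - Y ^ 2) (X ^ 2 + Y ^ 2) := by
    refine cop hXY.pow ?_
    have e : X ^ 2 - Y ^ 2 = (X - Y) * (X + Y) := by ring
    rw [e]; exact ho1
  have e1 : X ^ 2 - Y ^ 2 = (X - Y) * (X + Y) := by ring
  rw [e1] at hc2
  obtain ⟨⟨m, hm⟩, ⟨z, hz⟩⟩ := Int.eq_pow_of_mul_eq_pow_odd hc2 (by decide : Odd 3) hprod
  obtain ⟨⟨x, hx⟩, ⟨y, hy⟩⟩ := Int.eq_pow_of_mul_eq_pow_odd hc1 (by decide : Odd 3) hm
  have hxy : (X - Y) * (X + Y) = (x * y) ^ 3 := by rw [hx, hy]; ring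
  have o1 : Odd (x * y) := by
    rw [hxy] at ho1
    exact (Int.odd_pow' (by norm_num)).1 ho1
  have o2 : Odd z := by
    rw [hz] at ho2
    exact (Int.odd_pow' (by norm_num)).1 ho2
  have hco : IsCoprime (x * y) (z ^ 2) := by
    rw [hxy, hz] at hc2
    have h3 : IsCoprime (x * y) z :=
      (IsCoprime.pow_left_iff (by norm_num)).1 ((IsCoprime.pow_right_iff (by norm_num)).1 hc2)
    exact h3.pow_right
  have key := h1 (x * y) (z ^ 2) (2 * X * Y) o1 o2.pow hco (by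
    have e2 : (x * y) ^ 6 = ((x * y) ^ 3) ^ 2 := by ring
    have e3 : (z ^ 2) ^ 3 = (z ^ 3) ^ 2 := by ring
    rw [e2, e3, ← hxy, ← hz]
    ring)
  rcases mul_eq_zero.1 key with h | h
  · left; omega
  · right; exact h

end Pool.Agent.UPre
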