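import Pool.Agent.UPre.Targets

/-! UPre: the equation `X ^ 12 - Y ^ 4 = 2 Z ^ 3`. -/

namespace Pool.Agent.UPre

namespace L3_

lemma core (h1 : T_L1) (u Y Z : ℤ) (hu : Odd u) (hco : IsCoprime u Y)
    (h4 : (4 : ℤ) ∣ u - Y) (h : u ^ 4 - Y ^ 4 = 2 * Z ^ 3) : Z = 0 := by
  obtain ⟨b, hb⟩ := h4
  -- `u = a + 2 b`, `Y = a - 2 b`
  obtain ⟨a, ha⟩ : ∃ a, a = u - 2 * b := ⟨_, rfl⟩
  have hu' : u = a + 2 * b := by linarith
  have hY' : Y = a - 2 * b := by linarith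
  subst hu' hY'
  have haodd : Odd a := by
    have h2 : Even (2 * b) := even_two_mul b
    by_contra hcon
    rw [Int.not_odd_iff_even] at hcon
    exact (Int.not_even_iff_odd.2 hu) (hcon.add h2)
  have hZe : Even Z := by
    have h2 : Z ^ 3 = 2 * (4 * (a * b * (a ^ 2 + 4 * b ^ 2))) := by linarith
    have h3 : Even (Z ^ 3) := by rw [h2]; exact even_two_mul _
    exact (Int.even_pow.1 h3).1
  obtain ⟨z, hz⟩ := hZe
  have hZ2 : Z = 2 * z := by rw [hz]; ring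
  have hmain : a * b * (a ^ 2 + 4 * b ^ 2) = z ^ 3 := by
    rw [hZ2] at h
    linarith
  -- coprimality
  have hab : IsCoprime a b := by
    obtain ⟨r, s, hrs⟩ := hco
    exact ⟨r + s, 2 * r - 2 * s, by linarith⟩
  have ha2 : IsCoprime a 2 := by
    obtain ⟨k, hk⟩ := haodd
    exact ⟨1, -k, by rw [hk]; ring⟩
  have ha4 : IsCoprime a (4 * b ^ 2) := by
    have : (4 : ℤ) * b ^ 2 = 2 ^ 2 * b ^ 2 := by ring
    rw [this]
    exact (ha2.pow_right).mul_right hab.pow_right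
  have hac : IsCoprime a (a ^ 2 + 4 * b ^ 2) := by
    have : a ^ 2 + 4 * b ^ 2 = 4 * b ^ 2 + a * a := by ring
    rw [this]
    exact ha4.add_mul_left_right a
  have hbc : IsCoprime b (a ^ 2 + 4 * b ^ 2) := by
    have : a ^ 2 + 4 * b ^ 2 = a ^ 2 + b * (4 * b) := by ring
    rw [this]
    exact (hab.symm.pow_right).add_mul_left_right _
  have h3 : Odd 3 := ⟨1, rfl⟩
  obtain ⟨m, hm⟩ := Int.eq_pow_of_mul_eq_pow_odd_right (hac.mul_left hbc) h3 hmain
  obtain ⟨w, hw⟩ := Int.eq_pow_of_mul_eq_pow_odd_left (hac.mul_left hbc) h3 hmain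
  obtain ⟨x, hx⟩ := Int.eq_pow_of_mul_eq_pow_odd_left hab h3 hw
  obtain ⟨y, hy⟩ := Int.eq_pow_of_mul_eq_pow_odd_right hab h3 hw
  have hxodd : Odd x := by
    rw [hx] at haodd
    exact (Int.odd_pow.1 haodd).resolve_right (by norm_num)
  have hmodd : Odd m := by
    have h5 : Odd (m ^ 3) := by
      rw [← hm]
      have h6 : Even (4 * b ^ 2) := ⟨2 * b ^ 2, by ring⟩
      exact haodd.pow.add_even h6
    exact (Int.odd_pow.1 h5).resolve_right (by norm_num)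
  have hxm : IsCoprime x m := by
    rw [hm, hx] at hac
    exact (IsCoprime.pow_iff (by norm_num) (by norm_num)).1 hac
  have h5 := h1 x m (2 * y ^ 3) hxodd hmodd hxm (by
    rw [← hm, hx, hy]
    ring)
  have hy0 : y = 0 := by
    have h6 : y ^ 3 = 0 := by linarith
    exact pow_eq_zero_iff (by norm_num) |>.1 h6
  have hz0 : z ^ 3 = 0 := by
    rw [← hmain, hy, hy0]
    ring
  have hz1 : z = 0 := pow_eq_zero_iff (by norm_num) |>.1 hz0
  rw [hZ2, hz1, mul_zero]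

end L3_

theorem p_L3 : T_L1 → T_L3 := by
  intro h1 X Y Z hX hY hco h
  have hX3 : Odd (X ^ 3) := hX.pow
  have h' : (X ^ 3) ^ 4 - Y ^ 4 = 2 * Z ^ 3 := by rw [← h]; ring
  have h4 : (4 : ℤ) ∣ X ^ 3 - Y ∨ (4 : ℤ) ∣ X ^ 3 - -Y := by
    obtain ⟨k, hk⟩ := hX3
    obtain ⟨l, hl⟩ := hY
    rw [hk, hl]
    rcases Int.even_or_odd (k - l) with h5 | h5
    · left
      obtain ⟨j, hj⟩ := h5
      exact ⟨j, by linarith⟩
    · right
      obtain ⟨j, hj⟩ := h5
      exact ⟨j + l + 1, by linarith⟩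
  rcases h4 with h5 | h5
  · exact L3_.core h1 (X ^ 3) Y Z hX3 hco.pow_left h5 h'
  · exact L3_.core h1 (X ^ 3) (-Y) Z hX3 hco.pow_left.neg_right h5 (by rw [← h']; ring)

end Pool.Agent.UPre
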