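import Pool.Agent.UPre.Main
import Pool.Agent.UPre.L0
import Pool.Agent.UPre.L1
import Pool.Agent.UPre.L2
import Pool.Agent.UPre.L3
import Pool.Agent.UPre.CUBE
import Pool.Agent.UPre.LTE
import Pool.Agent.UPre.PAIR
import Pool.Agent.UPre.FIX
import Pool.Agent.UPre.DEN

namespace Pool.Agent.UPre

theorem all {d : ℕ} (hG : Good d) (c : ℚ) : (Function.periodicPts (F d c)).encard ≤ 2 ∧
    (∀ x : ℚ, Pre d c x → x ∈ Function.periodicPts (F d c) ∨ -x ∈ Function.periodicPts (F d c)) ∧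
    {x : ℚ | Pre d c x}.encard ≤ 4 :=
  main p_DEN hG p_LTE (p_PAIR (p_L1 p_L0) p_CUBE p_LTE) (p_L2 (p_L1 p_L0)) p_CUBE
    (p_FIX (p_L2 (p_L1 p_L0)) (p_L3 (p_L1 p_L0)))

end Pool.Agent.UPre
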