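import Pool.Agent.UPre.Targets3
import Pool.Agent.UPre.Dyn

/-! Finitely many parameters, project UPre. -/

namespace Pool.Agent.UPre

open Function

namespace FIN_

theorem fin_pow {n : ℕ} (hn : 0 < n) (v : ℚ) : {y : ℚ | y ^ n = v}.Finite := by
  have h : {y : ℚ | y ^ n = v} ⊆ ((Polynomial.nthRoots n v).toFinset : Set ℚ) := by
    intro y hy
    simp only [Finset.mem_coe, Multiset.mem_toFinset]
    exact (Polynomial.mem_nthRoots hn).2 hy
  exact (Finset.finite_toSet _).subset h

/-- the parameters obtained from the equation `y^(d-1) = v`, `c = s y - a y^d` -/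
theorem fin_img {d : ℕ} (hd : 2 ≤ d) (a s v : ℚ) :
    ((fun y : ℚ => s * y - a * y ^ d) '' {y : ℚ | y ^ (d - 1) = v}).Finite :=
  (fin_pow (by omega) v).image _

/-- the basic elimination: `a y^d + c = s y`, `a (r y)^d + c = t y`, `y ≠ 0`, `r^d ≠ 1` -/
theorem elim {d : ℕ} (hd : 2 ≤ d) {a c y r s t : ℚ} (ha : a ≠ 0) (hy : y ≠ 0) (hr : r ^ d ≠ 1)
    (h1 : a * y ^ d + c = s * y) (h2 : a * (r * y) ^ d + c = t * y) :
    y ^ (d - 1) = (s - t) / (a * (1 - r ^ d)) ∧ c = s * y - a * y ^ d := by
  have hr' : 1 - r ^ d ≠ 0 := fun h => hr (by linarith)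
  have e1 : y ^ d = y ^ (d - 1) * y := by
    rw [← pow_succ]; congr 1; omega
  refine ⟨?_, by linarith⟩
  rw [eq_div_iff (mul_ne_zero ha hr')]
  have h3 : y ^ (d - 1) * (a * (1 - r ^ d)) * y = (s - t) * y := by
    rw [mul_pow] at h2
    rw [e1] at h1 h2
    linear_combination h1 - h2
  exact mul_right_cancel₀ hy h3

end FIN_

open FIN_ in
theorem p_P_FIN2 : P_FIN2 := by
  intro d hd a ha R
  have hfin : (⋃ r ∈ (R : Set ℚ), ((fun y : ℚ => 1 * y - a * y ^ d) ''
      {y : ℚ | y ^ (d - 1) = (1 - -1) / (a * (1 - r ^ d))})).Finite :=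
    Set.Finite.biUnion R.finite_toSet (fun r _ => fin_img hd a 1 _)
  refine hfin.subset ?_
  rintro c ⟨x, w, hw, h1, h2, h3⟩
  simp only [G] at h1 h2
  have hxr : x = x / w * w := by field_simp
  have hr : (x / w) ^ d ≠ 1 := by
    intro h
    have h4 : x ^ d = w ^ d := by
      have : x ^ d = (x / w) ^ d * w ^ d := by rw [← mul_pow, ← hxr]
      rw [this, h, one_mul]
    rw [h4] at h2
    apply hw
    linarith
  have h1' : a * w ^ d + c = 1 * w := by linarith
  have h2' : a * (x / w * w) ^ d + c = -1 * w := by rw [← hxr]; linarith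
  obtain ⟨h5, h6⟩ := elim hd ha hw hr h1' h2'
  simp only [Set.mem_iUnion]
  exact ⟨x / w, h3, w, h5, h6.symm⟩

open FIN_ in
theorem p_P_FIN1 : P_FIN1 := by
  intro d hd a ha R
  have hd1 : d ≠ 0 := by omega
  have hfin0 : (({0} : Set ℚ) ∪ ⋃ r ∈ (R : Set ℚ), {c : ℚ | c ^ (d - 1) = (r - 1) / a}).Finite :=
    (Set.finite_singleton _).union
      (Set.Finite.biUnion R.finite_toSet (fun r _ => fin_pow (by omega) _))
  have hfin1 : (⋃ r ∈ (R : Set ℚ), ⋃ r' ∈ (R : Set ℚ), ((fun y : ℚ => r * y - a * y ^ d) ''
      {y : ℚ | y ^ (d - 1) = (r - r' * r) / (a * (1 - r ^ d))})).Finite :=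
    Set.Finite.biUnion R.finite_toSet (fun r _ =>
      Set.Finite.biUnion R.finite_toSet (fun r' _ => fin_img hd a r _))
  have hfin2 : (⋃ r ∈ (R : Set ℚ), ((fun y : ℚ => 1 * y - a * y ^ d) ''
      {y : ℚ | y ^ (d - 1) = (1 - r) / (a * (1 - r ^ d))})).Finite :=
    Set.Finite.biUnion R.finite_toSet (fun r _ => fin_img hd a 1 _)
  refine ((hfin0.union hfin1).union hfin2).subset ?_
  rintro c ⟨⟨x, hx, y, hy, hxy⟩, hR⟩
  by_cases h0 : (0 : ℚ) ∈ periodicPts (G a d c)
  · left; left
    by_cases hc : c = 0
    · left; exact hc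
    · right
      have hG0 : G a d c 0 = c := by simp [G, hd1]
      have hcp : c ∈ periodicPts (G a d c) := by
        have := per_step h0
        rwa [hG0] at this
      have hGcp := per_step hcp
      have hne : G a d c c ≠ c := by
        simp only [G]
        intro h
        have h1 : a * c ^ d = 0 := by linarith
        exact (mul_ne_zero ha (pow_ne_zero _ hc)) h1
      have h1 := hR _ hGcp c hcp hne hc
      simp only [Set.mem_iUnion]
      refine ⟨_, h1, ?_⟩
      have e1 : c ^ d = c ^ (d - 1) * c := by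
        rw [← pow_succ]; congr 1; omega
      have e2 : G a d c c / c = a * c ^ (d - 1) + 1 := by
        simp only [G]
        rw [e1]
        field_simp
      show c ^ (d - 1) = (G a d c c / c - 1) / a
      rw [e2]
      field_simp
      ring
  · have hnz : ∀ z ∈ periodicPts (G a d c), z ≠ 0 := by
      rintro z hz rfl
      exact h0 hz
    by_cases hall : ∃ z ∈ periodicPts (G a d c), G a d c z ≠ z
    · left; right
      obtain ⟨z, hz, hzf⟩ := hall
      have hz0 := hnz z hz
      set u := G a d c z with hu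
      have hup : u ∈ periodicPts (G a d c) := per_step hz
      have hu0 := hnz u hup
      have hGu : G a d c u ≠ u := by
        intro h
        exact hzf (per_inj hup hz h)
      have hGup := per_step hup
      have r1 := hR u hup z hz hzf hz0
      have r2 := hR _ hGup u hup hGu hu0
      have hur : u = u / z * z := by field_simp
      have hr : (u / z) ^ d ≠ 1 := by
        intro h
        have h4 : u ^ d = z ^ d := by
          have : u ^ d = (u / z) ^ d * z ^ d := by rw [← mul_pow, ← hur]
          rw [this, h, one_mul]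
        apply hGu
        show a * u ^ d + c = u
        rw [h4]
      have e1 : a * z ^ d + c = u / z * z := by rw [← hur]
      have e2 : a * (u / z * z) ^ d + c = (G a d c u / u * (u / z)) * z := by
        rw [← hur]
        have : G a d c u / u * (u / z) * z = G a d c u := by field_simp
        rw [this]
      obtain ⟨h5, h6⟩ := elim hd ha hz0 hr e1 e2
      simp only [Set.mem_iUnion]
      exact ⟨u / z, r1, G a d c u / u, r2, z, h5, h6.symm⟩
    · right
      push Not at hall
      have hx0 := hnz x hx
      have hy0 := hnz y hy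
      have h1 := hall x hx
      have h2 := hall y hy
      have r1 := hR x hx y hy hxy hy0
      have hxr : x = x / y * y := by field_simp
      have hr : (x / y) ^ d ≠ 1 := by
        intro h
        have h4 : x ^ d = y ^ d := by
          have : x ^ d = (x / y) ^ d * y ^ d := by rw [← mul_pow, ← hxr]
          rw [this, h, one_mul]
        apply hxy
        rw [← h1, ← h2]
        show a * x ^ d + c = a * y ^ d + c
        rw [h4]
      have e1 : a * y ^ d + c = 1 * y := by rw [one_mul]; exact h2
      have e2 : a * (x / y * y) ^ d + c = (x / y) * y := by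
        rw [← hxr]; exact h1
      obtain ⟨h5, h6⟩ := elim hd ha hy0 hr e1 e2
      simp only [Set.mem_iUnion]
      exact ⟨x / y, r1, y, h5, h6.symm⟩

end Pool.Agent.UPre
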