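import Pool.Agent.UPre.Targets3
import Pool.Agent.UPre.Dyn

/-! Northcott: finitely many preperiodic points. -/

namespace Pool.Agent.UPre

open Function

namespace NORTH_

lemma grow {d : ℕ} (hd : 2 ≤ d) {a c : ℚ} (ha : a ≠ 0) {R : ℚ} (hR1 : 1 ≤ R)
    (hR : |c| + 2 ≤ R * |a|) {x : ℚ} (hx : R < |x|) : 2 * |x| ≤ |G a d c x| := by
  have ha0 : 0 < |a| := abs_pos.2 ha
  have hx1 : 1 ≤ |x| := by linarith
  have h1 : |x| ^ 2 ≤ |x| ^ d := pow_le_pow_right₀ hx1 hd
  have h2 : |a * x ^ d| - |c| ≤ |a * x ^ d + c| := by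
    have := abs_sub_abs_le_abs_sub (a * x ^ d) (-c)
    rwa [abs_neg, sub_neg_eq_add] at this
  have h3 : |a * x ^ d| = |a| * |x| ^ d := by rw [abs_mul, abs_pow]
  have h4 : |a| * |x| ^ 2 ≤ |a| * |x| ^ d := mul_le_mul_of_nonneg_left h1 ha0.le
  have h5 : (|c| + 2) * |x| ≤ |a| * |x| ^ 2 := by
    have : |c| + 2 ≤ |x| * |a| := hR.trans (mul_le_mul_of_nonneg_right hx.le ha0.le)
    nlinarith
  have h6 : 0 ≤ |c| := abs_nonneg c
  show 2 * |x| ≤ |a * x ^ d + c|
  nlinarith

lemma bound {d : ℕ} (hd : 2 ≤ d) {a c : ℚ} (ha : a ≠ 0) {R : ℚ} (hR1 : 1 ≤ R)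
    (hR : |c| + 2 ≤ R * |a|) {x : ℚ} (hx : PreG a d c x) : |x| ≤ R := by
  by_contra hcon
  push Not at hcon
  have hgrow : ∀ (n : ℕ) (y : ℚ), R < |y| → R < |(G a d c)^[n] y| ∧ |y| ≤ |(G a d c)^[n] y| ∧
      (0 < n → |y| < |(G a d c)^[n] y|) := by
    intro n y hy
    induction n with
    | zero => exact ⟨hy, le_refl _, fun h => absurd h (lt_irrefl 0)⟩
    | succ n ih =>
      rw [iterate_succ_apply']
      have h1 := grow hd ha hR1 hR ih.1
      have h2 : 0 < |(G a d c)^[n] y| := by linarith [ih.1]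
      refine ⟨by linarith [ih.1], by linarith [ih.2.1], fun _ => by linarith [ih.2.1]⟩
  obtain ⟨k, hk⟩ := hx
  obtain ⟨m, hm, hper⟩ := mem_periodicPts.1 hk
  have h1 := (hgrow k x hcon).1
  have h2 := (hgrow m _ h1).2.2 hm
  have h3 : (G a d c)^[m] ((G a d c)^[k] x) = (G a d c)^[k] x := hper
  rw [h3] at h2
  exact lt_irrefl _ h2

lemma pn_pow (p : ℕ) [Fact p.Prime] (u : ℚ) (j : ℕ) :
    padicNorm p (u ^ j) = padicNorm p u ^ j := by
  induction j with
  | zero => simp
  | succ j ih => rw [pow_succ, pow_succ, padicNorm.mul, ih]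

/-- a rational number which is integral at all primes is an integer -/
lemma den_one {q : ℚ} (h : ∀ p : ℕ, p.Prime → padicNorm p q ≤ 1) : q.den = 1 := by
  by_contra hne
  obtain ⟨p, hp, hdvd⟩ := Nat.exists_prime_and_dvd hne
  have : Fact p.Prime := ⟨hp⟩
  have hnum : ¬ (p : ℤ) ∣ q.num := by
    intro hcon
    have h1 : p ∣ q.num.natAbs := Int.natCast_dvd.1 hcon
    have h2 := Nat.dvd_gcd h1 hdvd
    rw [q.reduced] at h2
    exact hp.one_lt.ne' (Nat.dvd_one.1 h2)
  have h1 : padicNorm p (q.num : ℚ) = 1 := (padicNorm.int_eq_one_iff _).2 hnum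
  have h2 : padicNorm p (q.den : ℚ) < 1 := by
    have := (padicNorm.int_lt_one_iff (p := p) (q.den : ℤ)).2 (by exact_mod_cast hdvd)
    simpa using this
  have h3 : q * q.den = q.num := Rat.mul_den_eq_num q
  have h4 : padicNorm p q * padicNorm p (q.den : ℚ) = 1 := by
    rw [← padicNorm.mul, h3, h1]
  have h5 := h p hp
  have h6 : 0 ≤ padicNorm p (q.den : ℚ) := padicNorm.nonneg _
  nlinarith

lemma pn_int (p : ℕ) [Fact p.Prime] (z : ℤ) : padicNorm p (z : ℚ) ≤ 1 := padicNorm.of_int z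

lemma integral (hN : U_NORM) {d : ℕ} (hd : 2 ≤ d) {a c : ℚ} (ha : a ≠ 0) {x : ℚ}
    (hx : PreG a d c x) : ((a.num : ℚ) * (c.den : ℚ) * x).den = 1 := by
  apply den_one
  intro p hp
  have : Fact p.Prime := ⟨hp⟩
  have ha0 : 0 < padicNorm p a := lt_of_le_of_ne (padicNorm.nonneg a)
    (Ne.symm (padicNorm.nonzero ha))
  have hx0 : 0 ≤ padicNorm p x := padicNorm.nonneg x
  have hnum1 : padicNorm p (a.num : ℚ) ≤ 1 := pn_int p _
  have hden1 : padicNorm p (c.den : ℚ) ≤ 1 := by simpa using pn_int p (c.den : ℤ)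
  have hnum0 : 0 ≤ padicNorm p (a.num : ℚ) := padicNorm.nonneg _
  have hden0 : 0 ≤ padicNorm p (c.den : ℚ) := padicNorm.nonneg _
  have hnuma : padicNorm p (a.num : ℚ) ≤ padicNorm p a := by
    rw [← Rat.mul_den_eq_num a, padicNorm.mul]
    have : padicNorm p (a.den : ℚ) ≤ 1 := by simpa using pn_int p (a.den : ℤ)
    nlinarith
  have hcden : padicNorm p c * padicNorm p (c.den : ℚ) ≤ 1 := by
    rw [← padicNorm.mul, Rat.mul_den_eq_num c]
    exact pn_int p _
  rw [padicNorm.mul, padicNorm.mul]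
  by_cases hx1 : padicNorm p x ≤ 1
  · calc padicNorm p (a.num : ℚ) * padicNorm p (c.den : ℚ) * padicNorm p x
        ≤ 1 * 1 * 1 := by gcongr
      _ = 1 := by norm_num
  · push Not at hx1
    by_cases hg : GoodP p a d c
    · have h1 := (hN p hp d hd a c x ha hx).1 hg
      have h2 : padicNorm p x ≤ padicNorm p x ^ (d - 1) :=
        le_self_pow₀ hx1.le (by omega)
      have h3 : padicNorm p a * padicNorm p x ≤ 1 :=
        (mul_le_mul_of_nonneg_left h2 ha0.le).trans h1
      calc padicNorm p (a.num : ℚ) * padicNorm p (c.den : ℚ) * padicNorm p x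
          ≤ padicNorm p a * 1 * padicNorm p x := by gcongr
        _ = padicNorm p a * padicNorm p x := by ring
        _ ≤ 1 := h3
    · have h1 := ((hN p hp d hd a c x ha hx).2 hg).1
      have h2 : padicNorm p x ≤ padicNorm p x ^ d := le_self_pow₀ hx1.le (by omega)
      have h3 : padicNorm p a * padicNorm p x ≤ padicNorm p c := by
        rw [← h1]
        exact mul_le_mul_of_nonneg_left h2 ha0.le
      calc padicNorm p (a.num : ℚ) * padicNorm p (c.den : ℚ) * padicNorm p x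
          ≤ padicNorm p a * padicNorm p (c.den : ℚ) * padicNorm p x := by gcongr
        _ = (padicNorm p a * padicNorm p x) * padicNorm p (c.den : ℚ) := by ring
        _ ≤ padicNorm p c * padicNorm p (c.den : ℚ) := by gcongr
        _ ≤ 1 := hcden

end NORTH_

open NORTH_ in
theorem p_P_NORTH : U_NORM → P_NORTH := by
  intro hN d hd a c ha
  have ha0 : 0 < |a| := abs_pos.2 ha
  set R : ℚ := max 1 ((|c| + 2) / |a|) with hRdef
  have hR1 : 1 ≤ R := le_max_left _ _
  have hR : |c| + 2 ≤ R * |a| := by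
    have : (|c| + 2) / |a| ≤ R := le_max_right _ _
    rwa [div_le_iff₀ ha0] at this
  set M : ℚ := (a.num : ℚ) * (c.den : ℚ) with hM
  have hM0 : M ≠ 0 := by
    have h1 : (a.num : ℚ) ≠ 0 := by exact_mod_cast Rat.num_ne_zero.2 ha
    have h2 : (c.den : ℚ) ≠ 0 := by exact_mod_cast c.den_ne_zero
    exact mul_ne_zero h1 h2
  set B : ℤ := ⌈|M| * R⌉ with hB
  have hfin : ((fun k : ℤ => (k : ℚ) / M) '' (Set.Icc (-B) B)).Finite :=
    (Set.finite_Icc (-B) B).image _
  apply hfin.subset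
  intro x hx
  have h1 := integral hN hd ha hx
  have h2 := bound hd ha hR1 hR hx
  refine ⟨(M * x).num, ?_, ?_⟩
  · have h3 : ((M * x).num : ℚ) = M * x := by
      have := Rat.num_div_den (M * x)
      rw [h1] at this
      simpa using this
    have h4 : |((M * x).num : ℚ)| ≤ B := by
      rw [h3, abs_mul]
      calc |M| * |x| ≤ |M| * R := mul_le_mul_of_nonneg_left h2 (abs_nonneg M)
        _ ≤ B := Int.le_ceil _
    have h5 : |(M * x).num| ≤ B := by exact_mod_cast h4
    exact abs_le.1 h5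
  · have h3 : ((M * x).num : ℚ) = M * x := by
      have := Rat.num_div_den (M * x)
      rw [h1] at this
      simpa using this
    show ((M * x).num : ℚ) / M = x
    rw [h3]
    field_simp

end Pool.Agent.UPre
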