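import Pool.Agent.UPre.Targets3

set_option autoImplicit false

/-! Rationals which are nearly perfect powers, project UPre. -/

namespace Pool.Agent.UPre

namespace POWER_

/-- a natural number whose exponents are divisible by `n` off `N` -/
theorem nat_version (n N : ℕ) (hn : 1 ≤ n) (M : ℕ) (hM : M ≠ 0)
    (h : ∀ p : ℕ, p.Prime → ¬ p ∣ N → n ∣ padicValNat p M) :
    ∃ m : ℕ, m ∣ N ^ (n - 1) ∧ ∃ k : ℕ, M = m * k ^ n := by
  refine ⟨∏ p ∈ M.primeFactors, p ^ (padicValNat p M % n), ?_,
    ∏ p ∈ M.primeFactors, p ^ (padicValNat p M / n), ?_⟩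
  · apply Finset.prod_dvd_of_isRelPrime
    · intro p hp q hq hpq
      change IsRelPrime _ _
      rw [← Nat.coprime_iff_isRelPrime]
      apply Nat.Coprime.pow
      exact (Nat.coprime_primes (Nat.prime_of_mem_primeFactors hp)
        (Nat.prime_of_mem_primeFactors hq)).2 hpq
    · intro p hp
      have hpp := Nat.prime_of_mem_primeFactors hp
      by_cases hdvd : p ∣ N
      · have h1 : padicValNat p M % n ≤ n - 1 := by
          have := Nat.mod_lt (padicValNat p M) (show 0 < n by omega)
          omega
        exact (pow_dvd_pow p h1).trans (pow_dvd_pow_of_dvd hdvd _)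
      · rw [Nat.mod_eq_zero_of_dvd (h p hpp hdvd), pow_zero]
        exact one_dvd _
  · rw [← Finset.prod_pow, ← Finset.prod_mul_distrib]
    conv_lhs => rw [← Nat.prod_factorization_pow_eq_self hM]
    rw [Finsupp.prod, Nat.support_factorization]
    refine Finset.prod_congr rfl fun p hp => ?_
    have hpp := Nat.prime_of_mem_primeFactors hp
    rw [← pow_mul, ← pow_add, Nat.factorization_def _ hpp]
    congr 1
    have := Nat.mod_add_div (padicValNat p M) n
    rw [mul_comm n] at this
    omega

end POWER_

open POWER_ in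
theorem p_P_POWER : P_POWER := by
  intro n N hn hN r hr h
  have hnum : r.num.natAbs ≠ 0 := Int.natAbs_ne_zero.2 (Rat.num_ne_zero.2 hr)
  have hden : r.den ≠ 0 := r.den_ne_zero
  obtain ⟨m, hm, k, hk⟩ := nat_version n N hn (r.num.natAbs * r.den ^ (n - 1))
    (mul_ne_zero hnum (pow_ne_zero _ hden)) (by
      intro p hp hpN
      have : Fact p.Prime := ⟨hp⟩
      rw [padicValNat.mul hnum (pow_ne_zero _ hden), padicValNat.pow]
      have h1 := h p hp hpN
      rw [padicValRat_def] at h1
      have h2 : padicValInt p r.num = padicValNat p r.num.natAbs := rfl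
      rw [h2] at h1
      have h3 : ((padicValNat p r.num.natAbs + (n - 1) * padicValNat p r.den : ℕ) : ℤ) =
          ((padicValNat p r.num.natAbs : ℤ) - padicValNat p r.den) +
            (n : ℤ) * padicValNat p r.den := by
        push_cast [Nat.cast_sub hn]
        ring
      have h4 : (n : ℤ) ∣
          ((padicValNat p r.num.natAbs + (n - 1) * padicValNat p r.den : ℕ) : ℤ) := by
        rw [h3]
        exact dvd_add h1 (dvd_mul_right _ _)
      exact_mod_cast h4)
  refine ⟨m, hm, (k : ℚ) / r.den, ?_⟩
  have hden' : (r.den : ℚ) ≠ 0 := by exact_mod_cast hden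
  have hk' : (r.num.natAbs : ℚ) * (r.den : ℚ) ^ (n - 1) = m * (k : ℚ) ^ n := by exact_mod_cast hk
  have hpow : (r.den : ℚ) ^ n = (r.den : ℚ) ^ (n - 1) * r.den := by
    rw [← pow_succ]
    congr 1
    omega
  have habs : (r.num.natAbs : ℚ) = m * ((k : ℚ) / r.den) ^ n * r.den := by
    rw [div_pow, hpow]
    have h5 : (r.den : ℚ) ^ (n - 1) ≠ 0 := pow_ne_zero _ hden'
    field_simp
    linear_combination hk'
  have hr' : r * r.den = r.num := Rat.mul_den_eq_num r
  rcases Int.natAbs_eq r.num with h6 | h6
  · left
    have h7 : (r.num : ℚ) = (r.num.natAbs : ℚ) := by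
      conv_lhs => rw [h6]
      simp
    refine mul_right_cancel₀ hden' ?_
    rw [hr', h7]
    linear_combination 1 * habs
  · right
    have h7 : (r.num : ℚ) = -(r.num.natAbs : ℚ) := by
      conv_lhs => rw [h6]
      simp
    refine mul_right_cancel₀ hden' ?_
    rw [hr', h7]
    linear_combination (-1) * habs

end Pool.Agent.UPre
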