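import Pool.Agent.UPre.Targets3

/-! Finitely many ratios (job UPRE2-RATIO). -/

namespace Pool.Agent.UPre

open Function

namespace RATIO_

/-- the ratios for the divisors of `N` -/
def RS (d N : ℕ) : Set ℚ := {ρ : ℚ | ∃ m : ℕ, m ∣ N ∧ ∃ z : ℚ,
  ∑ i ∈ Finset.range d, ρ ^ i = m * z ^ (d - 1) ∨
    ∑ i ∈ Finset.range d, ρ ^ i = -(m * z ^ (d - 1))}

theorem RS_finite (d : ℕ) (hF : HF d) (N : ℕ) (hN : N ≠ 0) : (RS d N).Finite := by
  have h1 : (⋃ m ∈ N.divisors,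
      ({ρ : ℚ | ∃ z : ℚ, ∑ i ∈ Finset.range d, ρ ^ i = ((m : ℤ) : ℚ) * z ^ (d - 1)} ∪
        {ρ : ℚ | ∃ z : ℚ, ∑ i ∈ Finset.range d, ρ ^ i = ((-(m : ℤ) : ℤ) : ℚ) * z ^ (d - 1)})
      : Set ℚ).Finite := by
    refine Set.Finite.biUnion (Finset.finite_toSet _) fun m hm => ?_
    have hm0 : (m : ℤ) ≠ 0 := by
      have := Nat.pos_of_mem_divisors (Finset.mem_coe.1 hm)
      exact_mod_cast this.ne'
    exact (hF _ hm0).union (hF _ (neg_ne_zero.2 hm0))
  refine h1.subset ?_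
  rintro ρ ⟨m, hm, z, hz⟩
  refine Set.mem_biUnion (x := m) (by simpa [hN] using hm) ?_
  rcases hz with hz | hz
  · left
    exact ⟨z, by rw [hz]; push_cast; ring⟩
  · right
    exact ⟨z, by rw [hz]; push_cast; ring⟩

theorem phi_div (d : ℕ) (x y : ℚ) (hy : y ≠ 0) :
    ∑ i ∈ Finset.range d, (x / y) ^ i = PhiQ d x y / y ^ (d - 1) := by
  rw [PhiQ, Finset.sum_div]
  refine Finset.sum_congr rfl fun i hi => ?_
  have hi' : i < d := Finset.mem_range.1 hi
  have h : y ^ (d - 1) = y ^ i * y ^ (d - 1 - i) := by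
    rw [← pow_add]; congr 1; omega
  rw [h, div_pow]
  have h1 : y ^ i ≠ 0 := pow_ne_zero _ hy
  have h2 : y ^ (d - 1 - i) ≠ 0 := pow_ne_zero _ hy
  field_simp

theorem phi_symm (d : ℕ) (x y : ℚ) : PhiQ d x y = PhiQ d y x := by
  rw [PhiQ, PhiQ, ← Finset.sum_range_reflect]
  refine Finset.sum_congr rfl fun i hi => ?_
  have hi' : i < d := Finset.mem_range.1 hi
  have h : d - 1 - (d - 1 - i) = i := by omega
  rw [h]; ring

theorem mem_RS {d N m : ℕ} (hm : m ∣ N) {x y z : ℚ} (hy : y ≠ 0)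
    (hz : PhiQ d x y = m * z ^ (d - 1) ∨ PhiQ d x y = -(m * z ^ (d - 1))) : x / y ∈ RS d N := by
  refine ⟨m, hm, z / y, ?_⟩
  rw [phi_div d x y hy]
  rcases hz with hz | hz
  · left; rw [hz, div_pow]; ring
  · right; rw [hz, div_pow]; ring

end RATIO_

open RATIO_ in
theorem p_P_RAT : P_STR → P_STRT → P_RAT := by
  intro hS hT d hd hF a ha
  have hN0 : d * a.num.natAbs * a.den ≠ 0 := by
    have h1 : a.num.natAbs ≠ 0 := by simpa using ha
    have h2 : a.den ≠ 0 := a.den_ne_zero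
    have h3 : d ≠ 0 := by omega
    exact mul_ne_zero (mul_ne_zero h3 h1) h2
  have hM0 : 2 * d * a.num.natAbs * a.den ≠ 0 := by
    intro h
    apply hN0
    have : 2 * (d * a.num.natAbs * a.den) = 0 := by rw [← h]; ring
    omega
  have f1 := RS_finite d hF _ (pow_ne_zero (d - 2) hN0)
  have f2 := RS_finite d hF _ (pow_ne_zero (d - 2) hM0)
  refine ⟨(f1.union f2).toFinset, ?_, ?_⟩
  · intro c x y hx hy hxy hy0
    rw [Set.Finite.mem_toFinset]
    left
    obtain ⟨m, hm, z, hz⟩ := hS d hd a c x y ha hx hy hxy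
    exact mem_RS hm hy0 hz
  · intro hev c x w hw hGw hGx
    rw [Set.Finite.mem_toFinset]
    right
    obtain ⟨m, hm, z, hz⟩ := hT d hd hev a c x w ha hw hGw hGx
    rw [phi_symm] at hz
    exact mem_RS hm hw hz

end Pool.Agent.UPre
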