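import Pool.Agent.UPre.Targets3
import Pool.Agent.UPre.Dyn

/-! # STR: power structure of pairs and of tails -/

namespace Pool.Agent.UPre

open Function

namespace STR_

theorem phi_mul (d : ℕ) (x y : ℚ) : PhiQ d x y * (x - y) = x ^ d - y ^ d := by
  rw [PhiQ]
  exact (Commute.all x y).geom_sum₂_mul d

theorem val_zero {a : ℚ} {p : ℕ} (h1 : ¬ p ∣ a.num.natAbs) (h2 : ¬ p ∣ a.den) :
    padicValRat p a = 0 := by
  have h3 : ¬ (p : ℤ) ∣ a.num := fun h => h1 (Int.natCast_dvd.1 h)
  rw [padicValRat, padicValInt.eq_zero_of_not_dvd h3, padicValNat.eq_zero_of_not_dvd h2]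
  simp

theorem num_ne_zero {a : ℚ} (ha : a ≠ 0) : a.num.natAbs ≠ 0 :=
  Int.natAbs_ne_zero.2 (Rat.num_ne_zero.2 ha)

end STR_

open STR_ in
theorem p_P_STR : P_PAIRV → P_POWER → P_STR := by
  intro hV hP d hd a c x y ha hx hy hxy
  have hN : d * a.num.natAbs * a.den ≠ 0 :=
    mul_ne_zero (mul_ne_zero (by omega) (num_ne_zero ha)) a.den_ne_zero
  have hne : PhiQ d x y ≠ 0 := by
    intro h0
    have h1 := phi_mul d x y
    rw [h0, zero_mul] at h1
    apply hxy
    refine per_inj hx hy ?_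
    show a * x ^ d + c = a * y ^ d + c
    have h2 : x ^ d = y ^ d := by linarith
    rw [h2]
  have h := hP (d - 1) (d * a.num.natAbs * a.den) (by omega) hN (PhiQ d x y) hne
    (fun p hp hpN => hV p hp d hd (fun h => hpN (Dvd.dvd.mul_right (Dvd.dvd.mul_right h _) _))
      a c x y ha (val_zero (fun h => hpN (Dvd.dvd.mul_right (Dvd.dvd.mul_left h _) _))
        (fun h => hpN (Dvd.dvd.mul_left h _))) hx hy hxy)
  rwa [Nat.sub_sub] at h

open STR_ in
theorem p_P_STRT : P_TAILV → P_POWER → P_STRT := by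
  intro hV hP d hd hev a c x w ha hw hGw hGx
  have hN : 2 * d * a.num.natAbs * a.den ≠ 0 :=
    mul_ne_zero (mul_ne_zero (by omega) (num_ne_zero ha)) a.den_ne_zero
  have hne : PhiQ d w x ≠ 0 := by
    intro h0
    have h1 := phi_mul d w x
    rw [h0, zero_mul] at h1
    have h2 : w ^ d = x ^ d := by linarith
    have e1 : a * w ^ d + c = w := hGw
    have e2 : a * x ^ d + c = -w := hGx
    rw [h2] at e1
    apply hw
    linarith
  have h := hP (d - 1) (2 * d * a.num.natAbs * a.den) (by omega) hN (PhiQ d w x) hne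
    (fun p hp hpN => hV p hp
      (fun h => hpN (Dvd.dvd.mul_right (Dvd.dvd.mul_right (Dvd.dvd.mul_right
        (by rw [h]) _) _) _)) d hd hev
      (fun h => hpN (Dvd.dvd.mul_right (Dvd.dvd.mul_right (Dvd.dvd.mul_left h _) _) _))
      a c x w ha (val_zero (fun h => hpN (Dvd.dvd.mul_right (Dvd.dvd.mul_left h _) _))
        (fun h => hpN (Dvd.dvd.mul_left h _))) hw hGw hGx)
  rwa [Nat.sub_sub] at h

end Pool.Agent.UPre
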