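import Pool.Agent.UPre.Targets3

/-! Tails of length two over a fixed point: valuation of the form, project UPre. -/

namespace Pool.Agent.UPre

open Function

namespace TAILV_

theorem dvd_of_norm {p : ℕ} (hp : p.Prime) {A B : ℚ} (hA : A ≠ 0) (hB : B ≠ 0) (n : ℕ)
    (h : padicNorm p A = padicNorm p B ^ n) : (n : ℤ) ∣ padicValRat p A := by
  have : Fact p.Prime := ⟨hp⟩
  rw [padicNorm.eq_zpow_of_nonzero hA, padicNorm.eq_zpow_of_nonzero hB, ← zpow_natCast,
    ← zpow_mul] at h
  have hp1 : (1 : ℚ) < p := by exact_mod_cast hp.one_lt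
  have h2 := zpow_right_injective₀ (by linarith : (0 : ℚ) < p) hp1.ne' h
  refine ⟨padicValRat p B, ?_⟩
  have h3 : padicValRat p A = padicValRat p B * n := by linarith
  rw [h3, mul_comm]

theorem npow {p : ℕ} [Fact p.Prime] (x : ℚ) (n : ℕ) : padicNorm p (x ^ n) = padicNorm p x ^ n := by
  induction n with
  | zero => simp
  | succ n ih => rw [pow_succ, padicNorm.mul, ih, pow_succ]

theorem phi_mul (d : ℕ) (x y : ℚ) : PhiQ d x y * (x - y) = x ^ d - y ^ d :=
  (Commute.all x y).geom_sum₂_mul d

theorem norm_pow_sub_lt {p : ℕ} [Fact p.Prime] {w x : ℚ} {ρ : ℚ} (hρ : 0 < ρ)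
    (hw : padicNorm p w = ρ) (hx : padicNorm p x = ρ) (h : padicNorm p (x - w) < ρ) (k : ℕ)
    (hk : k ≠ 0) : padicNorm p (x ^ k - w ^ k) < ρ ^ k := by
  rw [← phi_mul, padicNorm.mul]
  have h1 : padicNorm p (PhiQ k x w) ≤ ρ ^ (k - 1) := by
    unfold PhiQ
    refine padicNorm.sum_le' ?_ (pow_nonneg hρ.le _)
    intro i hi
    rw [Finset.mem_range] at hi
    rw [padicNorm.mul, npow, npow, hw, hx, ← pow_add]
    have : i + (k - 1 - i) = k - 1 := by omega
    rw [this]
  have h2 : ρ ^ k = ρ ^ (k - 1) * ρ := by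
    rw [← pow_succ]; congr 1; omega
  rw [h2]
  calc padicNorm p (PhiQ k x w) * padicNorm p (x - w) ≤ ρ ^ (k - 1) * padicNorm p (x - w) :=
        mul_le_mul_of_nonneg_right h1 (padicNorm.nonneg _)
    _ < ρ ^ (k - 1) * ρ := mul_lt_mul_of_pos_left h (pow_pos hρ _)

theorem norm_phi_eq {p : ℕ} [Fact p.Prime] {w x : ℚ} {ρ : ℚ} (hρ : 0 < ρ)
    (hw : padicNorm p w = ρ) (hx : padicNorm p x = ρ) (h : padicNorm p (x - w) < ρ) (d : ℕ)
    (hd : padicNorm p (d : ℚ) = 1) : padicNorm p (PhiQ d w x) = ρ ^ (d - 1) := by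
  have h1 : PhiQ d w x = (∑ i ∈ Finset.range d, w ^ i * (x ^ (d - 1 - i) - w ^ (d - 1 - i))) +
      d * w ^ (d - 1) := by
    have h2 : (d : ℚ) * w ^ (d - 1) = ∑ i ∈ Finset.range d, w ^ i * w ^ (d - 1 - i) := by
      rw [Finset.sum_congr rfl (g := fun _ => w ^ (d - 1))]
      · rw [Finset.sum_const, Finset.card_range, nsmul_eq_mul]
      · intro i hi
        rw [Finset.mem_range] at hi
        rw [← pow_add]
        congr 1
        omega
    rw [h2, ← Finset.sum_add_distrib]
    unfold PhiQ
    refine Finset.sum_congr rfl fun i _ => ?_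
    ring
  have h3 : padicNorm p (∑ i ∈ Finset.range d, w ^ i * (x ^ (d - 1 - i) - w ^ (d - 1 - i))) <
      ρ ^ (d - 1) := by
    refine padicNorm.sum_lt' ?_ (pow_pos hρ _)
    intro i hi
    rw [Finset.mem_range] at hi
    rw [padicNorm.mul, npow, hw]
    by_cases h0 : d - 1 - i = 0
    · rw [h0, pow_zero, pow_zero, sub_self, padicNorm.zero, mul_zero]
      exact pow_pos hρ _
    · have h4 := norm_pow_sub_lt hρ hw hx h (d - 1 - i) h0
      have h5 : ρ ^ (d - 1) = ρ ^ i * ρ ^ (d - 1 - i) := by
        rw [← pow_add]; congr 1; omega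
      rw [h5]
      exact mul_lt_mul_of_pos_left h4 (pow_pos hρ _)
  have h6 : padicNorm p ((d : ℚ) * w ^ (d - 1)) = ρ ^ (d - 1) := by
    rw [padicNorm.mul, hd, npow, hw, one_mul]
  rw [h1, padicNorm.add_eq_max_of_ne (by rw [h6]; exact h3.ne), h6, max_eq_right h3.le]

end TAILV_

open TAILV_ in
theorem p_P_TAILV : U_NORM → P_TAILV := by
  intro hN p hp hp2 d hd hdev hpd a c x w ha hva hw0 hfix hx
  have hF : Fact p.Prime := ⟨hp⟩
  have hd1 : d - 1 ≠ 0 := by omega
  have hd0 : d ≠ 0 := by omega
  have hna : padicNorm p a = 1 := by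
    rw [padicNorm.eq_zpow_of_nonzero ha, hva]; simp
  have hn2 : padicNorm p 2 = 1 := by
    have h := padicNorm.nat_eq_one_iff (p := p) 2
    exact_mod_cast h.2 (fun h' => hp2 ((Nat.prime_dvd_prime_iff_eq hp Nat.prime_two).1 h'))
  have hnd : padicNorm p (d : ℚ) = 1 := (padicNorm.nat_eq_one_iff d).2 hpd
  have hfixpt : w ∈ periodicPts (G a d c) := mk_mem_periodicPts one_pos hfix
  have hpw : PreG a d c w := ⟨0, hfixpt⟩
  have hGneg : G a d c (-w) = w := by
    have : G a d c (-w) = G a d c w := by
      change a * (-w) ^ d + c = a * w ^ d + c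
      rw [hdev.neg_pow]
    rw [this, hfix]
  have hpx : PreG a d c x := by
    refine ⟨2, ?_⟩
    have : (G a d c)^[2] x = w := by
      rw [iterate_succ_apply', iterate_one, hx, hGneg]
    rw [this]
    exact hfixpt
  have heq : a * (w ^ d - x ^ d) = 2 * w := by
    have h1 : a * w ^ d + c = w := hfix
    have h2 : a * x ^ d + c = -w := hx
    linear_combination h1 - h2
  have hnorm : padicNorm p (w ^ d - x ^ d) = padicNorm p w := by
    have h1 : padicNorm p (a * (w ^ d - x ^ d)) = padicNorm p (2 * w) := by rw [heq]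
    rwa [padicNorm.mul, padicNorm.mul, hna, hn2, one_mul, one_mul] at h1
  have hnw : padicNorm p w ≠ 0 := padicNorm.nonzero hw0
  have hnw' : 0 < padicNorm p w := lt_of_le_of_ne (padicNorm.nonneg _) (Ne.symm hnw)
  have hphi : padicNorm p (PhiQ d w x) * padicNorm p (w - x) = padicNorm p w := by
    rw [← padicNorm.mul, phi_mul, hnorm]
  have hphi0 : PhiQ d w x ≠ 0 := by
    intro h
    rw [h, padicNorm.zero, zero_mul] at hphi
    exact hnw hphi.symm
  have hdiff0 : padicNorm p (w - x) ≠ 0 := by
    intro h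
    rw [h, mul_zero] at hphi
    exact hnw hphi.symm
  obtain ⟨hgw, hbw⟩ := hN p hp d hd a c w ha hpw
  obtain ⟨hgx, hbx⟩ := hN p hp d hd a c x ha hpx
  by_cases hgood : GoodP p a d c
  · have h1 := hgw hgood
    have h2 := hgx hgood
    rw [hna, one_mul] at h1 h2
    have hw1 : padicNorm p w ≤ 1 := (pow_le_one_iff_of_nonneg (padicNorm.nonneg _) hd1).1 h1
    have hx1 : padicNorm p x ≤ 1 := (pow_le_one_iff_of_nonneg (padicNorm.nonneg _) hd1).1 h2
    rcases hw1.lt_or_eq with hlt | heq1
    · -- |w| < 1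
      have h3 : x ^ d = w ^ d + -(2 * w / a) := by
        field_simp
        linear_combination -heq
      have h4 : padicNorm p (-(2 * w / a)) = padicNorm p w := by
        rw [padicNorm.neg, padicNorm.div, padicNorm.mul, hna, hn2, one_mul, div_one]
      have h5 : padicNorm p (w ^ d) < padicNorm p w := by
        rw [npow]
        exact pow_lt_self_of_lt_one₀ hnw' hlt (by omega)
      have h6 : padicNorm p x ^ d = padicNorm p w := by
        rw [← npow, h3, padicNorm.add_eq_max_of_ne (by rw [h4]; exact h5.ne), h4,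
          max_eq_right h5.le]
      have hx0 : x ≠ 0 := by
        intro h
        rw [h, padicNorm.zero, zero_pow hd0] at h6
        exact hnw h6.symm
      have hnx : 0 < padicNorm p x :=
        lt_of_le_of_ne (padicNorm.nonneg _) (Ne.symm (padicNorm.nonzero hx0))
      have h7 : padicNorm p w < padicNorm p x := by
        rw [npow, ← h6] at h5
        by_contra hcon
        push Not at hcon
        have := pow_le_pow_left₀ (padicNorm.nonneg _) hcon d
        rw [h6] at this h5
        exact absurd h5 (not_lt.2 this)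
      have h8 : padicNorm p (w - x) = padicNorm p x := by
        rw [sub_eq_add_neg, padicNorm.add_eq_max_of_ne (by rw [padicNorm.neg]; exact h7.ne),
          padicNorm.neg, max_eq_right h7.le]
      have h9 : padicNorm p (PhiQ d w x) = padicNorm p x ^ (d - 1) := by
        rw [h8, ← h6] at hphi
        have e1 : padicNorm p x ^ d = padicNorm p x ^ (d - 1) * padicNorm p x := by
          rw [← pow_succ]; congr 1; omega
        rw [e1] at hphi
        exact mul_right_cancel₀ hnx.ne' hphi
      exact dvd_of_norm hp hphi0 hx0 _ h9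
    · -- |w| = 1
      have h3 : padicNorm p (PhiQ d w x) ≤ 1 := by
        unfold PhiQ
        refine padicNorm.sum_le' ?_ zero_le_one
        intro i _
        rw [padicNorm.mul, npow, npow, heq1, one_pow, one_mul]
        exact pow_le_one₀ (padicNorm.nonneg _) hx1
      have h4 : padicNorm p (w - x) ≤ 1 := by
        rw [sub_eq_add_neg]
        refine (padicNorm.nonarchimedean).trans ?_
        rw [padicNorm.neg]
        exact max_le hw1 hx1
      have h5 : padicNorm p (PhiQ d w x) = 1 := by
        rw [heq1] at hphi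
        refine le_antisymm h3 ?_
        by_contra hcon
        push Not at hcon
        have := mul_lt_one_of_nonneg_of_lt_one_left (padicNorm.nonneg _) hcon h4
        linarith
      exact dvd_of_norm hp hphi0 one_ne_zero _ (by rw [h5, padicNorm.one, one_pow])
  · obtain ⟨h1, h2, -⟩ := hbw hgood
    obtain ⟨h3, h4, hx0⟩ := hbx hgood
    rw [hna, one_mul] at h1 h3
    have hxw : padicNorm p x = padicNorm p w := by
      rw [← h1] at h3
      exact (pow_left_inj₀ (padicNorm.nonneg _) (padicNorm.nonneg _) hd0).1 h3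
    have h5 : padicNorm p (w - x) ≤ padicNorm p w := by
      rw [sub_eq_add_neg]
      refine (padicNorm.nonarchimedean).trans ?_
      rw [padicNorm.neg, hxw, max_self]
    rcases h5.lt_or_eq with hlt | heq1
    · have h6 : padicNorm p (x - w) < padicNorm p w := by
        rw [← padicNorm.neg, neg_sub]; exact hlt
      have h7 := norm_phi_eq hnw' rfl hxw h6 d hnd
      exact dvd_of_norm hp hphi0 hw0 _ h7
    · have h6 : padicNorm p (PhiQ d w x) = 1 := by
        rw [heq1] at hphi
        have : padicNorm p (PhiQ d w x) * padicNorm p w = 1 * padicNorm p w := by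
          rw [hphi, one_mul]
        exact mul_right_cancel₀ hnw this
      exact dvd_of_norm hp hphi0 one_ne_zero _ (by rw [h6, padicNorm.one, one_pow])

end Pool.Agent.UPre
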