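import Pool.Agent.UPre.Main3
import Pool.Agent.UPre.NORM
import Pool.Agent.UPre.GOODEQ
import Pool.Agent.UPre.PAIRV
import Pool.Agent.UPre.TAILV
import Pool.Agent.UPre.POWER
import Pool.Agent.UPre.STR
import Pool.Agent.UPre.RATIO
import Pool.Agent.UPre.FIN
import Pool.Agent.UPre.NORTH

/-! Final assembly of the power structure theorem. -/

namespace Pool.Agent.UPre

theorem b_STR : P_STR := p_P_STR (p_P_PAIRV p_U_NORM p_U_BADV (p_U_GOODEQ p_U_NORM)) p_P_POWER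
theorem b_STRT : P_STRT := p_P_STRT (p_P_TAILV p_U_NORM) p_P_POWER
theorem b_RAT : P_RAT := p_P_RAT b_STR b_STRT

theorem mainB (d : ℕ) (hd : 2 ≤ d) (a : ℚ) (ha : a ≠ 0) :
    (∀ c x y : ℚ, x ∈ Function.periodicPts (G a d c) → y ∈ Function.periodicPts (G a d c) →
      x ≠ y → ∃ m : ℕ, m ∣ (d * a.num.natAbs * a.den) ^ (d - 2) ∧ ∃ z : ℚ,
      PhiQ d x y = m * z ^ (d - 1) ∨ PhiQ d x y = -(m * z ^ (d - 1))) ∧
    (HF d → ∃ E : Set ℚ, E.Finite ∧ ∀ c ∉ E, (∀ x : ℚ, ¬ PreG a d c x) ∨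
      ∃ w : ℚ, G a d c w = w ∧ ∀ x : ℚ, PreG a d c x → x = w ∨ x = -w) ∧
    (HF d → ∃ B : ℕ, ∀ c : ℚ, {x : ℚ | PreG a d c x}.encard ≤ B) :=
  ⟨fun c x y hx hy hxy => b_STR d hd a c x y ha hx hy hxy,
   fun h => main3a hd h b_RAT p_P_FIN1 p_P_FIN2 ha,
   fun h => main3b hd h b_RAT p_P_FIN1 p_P_FIN2 (p_P_NORTH p_U_NORM) ha⟩

end Pool.Agent.UPre
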