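import Pool.Agent.UPre.Targets2

/-! The number of periodic points of `a x^d + c`. -/

namespace Pool.Agent.UPre

open Function

theorem two_le_bound (d : ℕ) (hd : 2 ≤ d) (S : Finset ℕ) :
    (2 : ℕ∞) ≤ ((2 * ∏ p ∈ S, Nat.gcd d (p - 1) : ℕ) : ℕ∞) := by
  have h1 : 1 ≤ ∏ p ∈ S, Nat.gcd d (p - 1) := by
    apply Nat.one_le_iff_ne_zero.mpr
    apply Finset.prod_ne_zero_iff.mpr
    intro p _
    have : 0 < Nat.gcd d (p - 1) := Nat.gcd_pos_of_pos_left _ (by omega)
    omega
  have h2 : 2 ≤ 2 * ∏ p ∈ S, Nat.gcd d (p - 1) := by omega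
  exact_mod_cast h2

theorem p_U_COUNT : U_TWO → U_PH → U_HYP → U_PIG → U_COUNT := by
  intro hTWO hPH hHYP hPIG q d hd hev hq S hPP a ha hv c
  have hb := two_le_bound d hd S
  by_cases h2 : GoodP 2 a d c
  · exact le_trans (hTWO 2 Nat.prime_two d hd
      (hPH.1 d (by omega) (even_iff_two_dvd.mp hev)) a c ha h2) hb
  · by_contra hcon
    rw [not_le] at hcon
    obtain ⟨x, hx, y, hy, hxy, lam, t, w, hxt, hyw, ht, hw, hcop, h4, hS⟩ :=
      hPIG d hd hev a ha S c h2 hcon
    have htw : t ≠ w := by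
      rintro rfl
      exact hxy (hxt.trans hyw.symm)
    have hH : Hyp q d t w :=
      hHYP q d hd hev hq a ha S hv c x y hx hy hxy lam t w hxt hyw hcop hS
    rcases hPP with hPP | ⟨h6, h3S, hP⟩
    · exact hPP t w ht hw hcop h4 htw hH
    · by_cases h3 : GoodP 3 a d c
      · have := le_trans (hTWO 3 Nat.prime_three d hd
          (hPH.2 d (by omega) h6) a c ha h3) hb
        exact absurd this (not_le.mpr hcon)
      · exact hP t w ht hw hcop h4 (hS 3 h3S Nat.prime_three (by norm_num) h3) htw hH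

end Pool.Agent.UPre
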