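import Pool.Agent.UPre.Dyn

namespace Pool.Agent.UPre

open Function

lemma neg_iter {d : ℕ} {c : ℚ} (hd : Even d) (x : ℚ) : F d c (-x) = F d c x := by
  simp [F, hd.neg_pow]

lemma padicValInt_neg' (p : ℕ) (a : ℤ) : padicValInt p (-a) = padicValInt p a := by
  simp [padicValInt]

section
variable {d : ℕ} {c : ℚ} (hDEN : T_DEN) (hG : Good d) (hLTE : T_LTE) (hPAIR : T_PAIR)
  (hL2 : T_L2) (hCUBE : T_CUBE) (hFIX : T_FIX)
include hDEN hG hLTE hPAIR hL2 hCUBE hFIX

omit hL2 hCUBE hFIX in
lemma two_cycle {w z : ℚ} (hw : w ∈ periodicPts (F d c)) (hz : F d c w = z) (hne : z ≠ w) :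
    F d c z = w := by
  have hzp : z ∈ periodicPts (F d c) := by rw [← hz]; exact per_step hw
  by_contra h
  have h1 : F d c z ≠ z := by
    intro h1
    apply hne
    exact per_inj hzp hw (by rw [h1, hz])
  exact no_three hDEN hG hLTE hPAIR hzp hw (per_step hzp) hne (Ne.symm h1) (Ne.symm h)

lemma no_tail {y : ℚ} (h1 : F d c (F d c y) ∈ periodicPts (F d c))
    (h2 : F d c y ∉ periodicPts (F d c)) : False := by
  have hd := hG.two_le
  have hd4 : 4 ≤ d := Nat.le_of_dvd (by omega) hG.1
  have hev := hG.even
  obtain ⟨w, hw, hfw⟩ := per_surj h1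
  have hPy : Pre d c y := ⟨2, by rw [iterate_succ_apply', iterate_one]; exact h1⟩
  have hPw : Pre d c w := pre_of_per hw
  -- the image of y is -w
  have hyw : F d c y = -w := by
    have h3 : w ^ d = (F d c y) ^ d := by
      have h4 : w ^ d + c = (F d c y) ^ d + c := hfw
      linarith
    rcases pow_eq_pm hev (by omega) h3 with h | h
    · exact absurd (by rw [h]; exact hw) h2
    · exact h
  have hw0 : w ≠ 0 := by
    intro h0
    apply h2
    rw [hyw, h0, neg_zero, ← h0]; exact hw
  have hden : y.den = w.den := den_eq hDEN hd hPy hPw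
  have hr0 : w.num ≠ 0 := Rat.num_ne_zero.2 hw0
  have e1 := rel hDEN hd hPy
  have e2 := rel hDEN hd hPw
  rw [hyw, show (-w).num = -w.num from Rat.neg_num w, hden] at e1
  have hDpos : 0 < w.den := w.den_pos
  by_cases hfix : F d c w = w
  · rw [hfix] at e2
    refine hFIX d hG y.num w.num w.den hDpos hr0 cop ?_
    linear_combination e1 - e2
  · set z := F d c w with hz
    have hzp : z ∈ periodicPts (F d c) := per_step hw
    have hwz : w ≠ z := Ne.symm hfix
    have key : y.num ^ d - w.num ^ d = (w.den : ℤ) ^ (d - 1) * (-(w.num + z.num)) := by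
      linear_combination e1 - e2
    have hSig : ∀ p : ℕ, p.Prime → (p : ℤ) ∣ w.num + z.num → p ∣ w.den := by
      intro p hp hdv
      by_contra h
      exact good_not_dvd hDEN hG hw hzp hwz hp h (Dvd.dvd.mul_right hdv _)
    have hSig0 : w.num + z.num ≠ 0 := by
      intro h0
      obtain ⟨p, hp1, hp2⟩ := Nat.exists_infinite_primes (w.den + 1)
      have := Nat.le_of_dvd hDpos (hSig p hp2 (by rw [h0]; exact dvd_zero _))
      omega
    have hD0 : (w.den : ℤ) ^ (d - 1) ≠ 0 := pow_ne_zero _ (by exact_mod_cast w.den_ne_zero)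
    have hN0 : y.num ^ d - w.num ^ d ≠ 0 := by
      rw [key]; exact mul_ne_zero hD0 (neg_ne_zero.2 hSig0)
    have hval : ∀ p : ℕ, p.Prime → p ≠ 2 → 3 ∣ padicValInt p (y.num ^ d - w.num ^ d) := by
      intro p hp hp2
      have := Fact.mk hp
      rw [key, padicValInt.mul hD0 (neg_ne_zero.2 hSig0), padicValInt_neg']
      have h3 : padicValInt p ((w.den : ℤ) ^ (d - 1)) = (d - 1) * padicValNat p w.den := by
        have : ((w.den : ℤ) ^ (d - 1)) = ((w.den ^ (d - 1) : ℕ) : ℤ) := by push_cast; rfl
        rw [this, padicValInt.of_nat, padicValNat.pow]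
      rw [h3]
      exact dvd_add (Dvd.dvd.mul_right hG.three_dvd _) (sum_val hDEN hG hLTE hp hp2 hw hzp hwz)
    have hcop : IsCoprime y.num w.num := by
      apply isCoprime_of_prime_dvd
      · rintro ⟨-, h⟩
        exact hr0 h
      · intro q hq h3 h4
        have hqn : q.natAbs.Prime := Int.prime_iff_natAbs_prime.1 hq
        have h3' : (q.natAbs : ℤ) ∣ y.num := (Int.natAbs_dvd.2 h3)
        have h4' : (q.natAbs : ℤ) ∣ w.num := (Int.natAbs_dvd.2 h4)
        have h5 : (q.natAbs : ℤ) ∣ (w.den : ℤ) ^ (d - 1) * (-(w.num + z.num)) := by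
          rw [← key]
          exact dvd_sub (dvd_pow h3' (by omega)) (dvd_pow h4' (by omega))
        have hqp : Prime (q.natAbs : ℤ) := Nat.prime_iff_prime_int.1 hqn
        rcases hqp.dvd_or_dvd h5 with h6 | h6
        · have h7 := hqp.dvd_of_dvd_pow h6
          exact not_dvd_num hqn (by exact_mod_cast h7) h4'
        · exact not_dvd_num hqn (hSig _ hqn ((dvd_neg).1 h6)) h4'
    by_cases h2D : 2 ∣ w.den
    · have o1 : Odd y.num := odd_num hDEN hG (by rw [hden]; exact h2D)
      have o2 : Odd w.num := odd_num hDEN hG h2D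
      have hcase : (4 : ℤ) ∣ y.num - w.num ∨ (4 : ℤ) ∣ -y.num - w.num := by
        obtain ⟨a, ha⟩ := o1
        obtain ⟨b, hb⟩ := o2
        omega
      rcases hcase with h4 | h4
      · refine hPAIR d hG y.num w.num o1 o2 hcop h4 ?_ (fun p hp hp2 _ => hval p hp hp2)
        intro h; apply hN0; rw [h]; ring
      · refine hPAIR d hG (-y.num) w.num o1.neg o2 hcop.neg_left h4 ?_
          (fun p hp hp2 _ => by rw [hev.neg_pow]; exact hval p hp hp2)
        intro h; apply hN0; rw [← hev.neg_pow, h]; ring
    · have hDodd : Odd (w.den : ℤ) := by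
        rw [← Int.not_even_iff_odd, even_iff_two_dvd]
        intro h; exact h2D (by exact_mod_cast h)
      have hSodd : Odd (w.num + z.num) := odd_sum hDEN hG hw hzp hwz h2D
      have hNodd : Odd (y.num ^ d - w.num ^ d) := by
        rw [key]
        exact hDodd.pow.mul hSodd.neg
      obtain ⟨K, hK⟩ := hCUBE _ hN0 (by
        intro p hp
        by_cases hp2 : p = 2
        · subst hp2
          have hnd : ¬ ((2 : ℕ) : ℤ) ∣ y.num ^ d - w.num ^ d := by
            intro h
            rw [← Int.not_even_iff_odd, even_iff_two_dvd] at hNodd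
            exact hNodd (by exact_mod_cast h)
          rw [padicValInt.eq_zero_of_not_dvd hnd]
          exact dvd_zero 3
        · exact hval p hp hp2)
      have hKodd : Odd K := by
        rw [hK] at hNodd
        exact Int.Odd.of_mul_left (by rw [← pow_succ' K 2]; exact hNodd)
      obtain ⟨e, he⟩ := hG.1
      have hX : (y.num ^ e) ^ 4 - (w.num ^ e) ^ 4 = K ^ 3 := by
        rw [← hK, he]; ring
      rcases hL2 _ _ _ hcop.pow hKodd hX with h | h
      · -- y = 0
        have hy0 : y.num = 0 := pow_eq_zero_iff (by omega) |>.1 h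
        have hy : y = 0 := Rat.num_eq_zero.1 hy0
        have hden1 : w.den = 1 := by rw [← hden, hy]; rfl
        have hc : c = -w := by
          have h5 : y ^ d + c = -w := hyw
          rw [hy, zero_pow (by omega), zero_add] at h5
          exact h5
        have hzz : w ^ d + c = z := rfl
        have hfz : z ^ d + c = w := two_cycle hDEN hG hLTE hPAIR hw rfl hfix
        have hwn : w = (w.num : ℚ) := by
          have := (Rat.num_div_den w).symm
          rw [hden1] at this
          simpa using this
        have hzden : z.den = 1 := by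
          rw [den_eq hDEN hd (pre_of_per hzp) hPw]; exact hden1
        have hzn : z = (z.num : ℚ) := by
          have := (Rat.num_div_den z).symm
          rw [hzden] at this
          simpa using this
        have q1 : z.num = w.num ^ d - w.num := by
          have : (z.num : ℚ) = (w.num : ℚ) ^ d - w.num := by
            rw [← hwn, ← hzn]; rw [hc] at hzz; linarith
          exact_mod_cast this
        have q2 : z.num ^ d = 2 * w.num := by
          have : (z.num : ℚ) ^ d = 2 * w.num := by
            rw [← hwn, ← hzn]; rw [hc] at hfz; linarith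
          exact_mod_cast this
        have hpos : 0 < w.num := by
          have h6 : 0 ≤ z.num ^ d := hev.pow_nonneg _
          omega
        rcases (show w.num = 1 ∨ 2 ≤ w.num by omega) with h7 | h7
        · have q3 : z.num = 0 := by rw [q1, h7, one_pow]; norm_num
          rw [q3, zero_pow (by omega), h7] at q2
          omega
        · have h8 : w.num ^ 2 ≤ w.num ^ d := pow_le_pow_right₀ (by omega) (by omega)
          have h9 : w.num ≤ z.num := by nlinarith
          have h10 : z.num ^ 4 ≤ z.num ^ d := pow_le_pow_right₀ (by omega) (by omega)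
          have h11 : z.num ^ 4 ≥ 8 * z.num := by
            have h12 : z.num ^ 3 ≥ 2 ^ 3 := pow_le_pow_left₀ (by norm_num) (by omega) 3
            nlinarith
          omega
      · exact hr0 (pow_eq_zero_iff (by
          intro h0; omega) |>.1 h)

lemma pre_class : ∀ (k : ℕ) (x : ℚ), (F d c)^[k] x ∈ periodicPts (F d c) →
    x ∈ periodicPts (F d c) ∨ -x ∈ periodicPts (F d c) := by
  have hd := hG.two_le
  have hev := hG.even
  intro k
  induction k with
  | zero => intro x hx; exact Or.inl hx
  | succ k ih =>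
    intro x hx
    rw [iterate_succ_apply] at hx
    have hfx : F d c x ∈ periodicPts (F d c) := by
      by_contra hn
      rcases ih _ hx with h | h
      · exact hn h
      · have h3 := per_step h
        rw [neg_iter hev] at h3
        exact no_tail hDEN hG hLTE hPAIR hL2 hCUBE hFIX h3 hn
    obtain ⟨w, hw, hfw⟩ := per_surj hfx
    have h3 : w ^ d = x ^ d := by
      have h4 : w ^ d + c = x ^ d + c := hfw
      linarith
    rcases pow_eq_pm hev (by omega) h3 with h | h
    · left; rw [h]; exact hw
    · right; rw [h, neg_neg]; exact hw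

omit hL2 hCUBE hFIX in
lemma per_card : (periodicPts (F d c)).encard ≤ 2 := by
  by_contra h
  push Not at h
  have h3 : (3 : ℕ∞) ≤ (periodicPts (F d c)).encard := by
    have := Order.add_one_le_of_lt h
    have e : (2 : ℕ∞) + 1 = 3 := by norm_num
    rwa [e] at this
  obtain ⟨t, ht, ht3⟩ := Set.exists_subset_encard_eq h3
  obtain ⟨x, y, z, h1, h2, h3, rfl⟩ := Set.encard_eq_three.1 ht3
  exact no_three hDEN hG hLTE hPAIR (ht (by simp)) (ht (by simp)) (ht (by simp)) h1 h2 h3

theorem main : (periodicPts (F d c)).encard ≤ 2 ∧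
    (∀ x : ℚ, Pre d c x → x ∈ periodicPts (F d c) ∨ -x ∈ periodicPts (F d c)) ∧
    {x : ℚ | Pre d c x}.encard ≤ 4 := by
  have h1 := per_card hDEN hG hLTE hPAIR (c := c)
  have h2 : ∀ x : ℚ, Pre d c x → x ∈ periodicPts (F d c) ∨ -x ∈ periodicPts (F d c) := by
    rintro x ⟨k, hk⟩
    exact pre_class hDEN hG hLTE hPAIR hL2 hCUBE hFIX k x hk
  refine ⟨h1, h2, ?_⟩
  have h3 : {x : ℚ | Pre d c x} ⊆ periodicPts (F d c) ∪ (fun x => -x) '' periodicPts (F d c) := by
    intro x hx
    rcases h2 x hx with h | h
    · exact Or.inl h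
    · exact Or.inr ⟨-x, h, neg_neg x⟩
  have h4 : ((fun x : ℚ => -x) '' periodicPts (F d c)).encard ≤ 2 :=
    (Set.encard_image_le _ _).trans h1
  calc {x : ℚ | Pre d c x}.encard ≤ _ := Set.encard_le_encard h3
    _ ≤ _ := Set.encard_union_le _ _
    _ ≤ 2 + 2 := add_le_add h1 h4
    _ = 4 := by norm_num

end

end Pool.Agent.UPre
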