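import Pool.Agent.UPre.Targets2
import Pool.Agent.UPre.Dyn

/-! Assembly: preperiodic points of `a x^d + c` when the exceptional set is empty. -/

namespace Pool.Agent.UPre

open Function

lemma G_neg {a : ℚ} {d : ℕ} {c : ℚ} (hd : Even d) (x : ℚ) : G a d c (-x) = G a d c x := by
  simp [G, hd.neg_pow]

lemma G_eq_pow {a : ℚ} {d : ℕ} {c x y : ℚ} (ha : a ≠ 0) (h : G a d c x = G a d c y) :
    x ^ d = y ^ d := by
  have h1 : a * x ^ d + c = a * y ^ d + c := h
  have h2 : a * x ^ d = a * y ^ d := by linarith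
  exact mul_left_cancel₀ ha h2

section
variable {q d : ℕ} {a c : ℚ}

lemma no_three2 (h2 : (periodicPts (G a d c)).encard ≤ 2) {x y z : ℚ}
    (hx : x ∈ periodicPts (G a d c)) (hy : y ∈ periodicPts (G a d c))
    (hz : z ∈ periodicPts (G a d c)) (hxy : x ≠ y) (hxz : x ≠ z) (hyz : y ≠ z) : False := by
  have h3 : ({x, y, z} : Set ℚ) ⊆ periodicPts (G a d c) := by
    intro t ht
    rcases ht with rfl | rfl | rfl
    · exact hx
    · exact hy
    · exact hz
  have h4 := Set.encard_le_encard h3
  rw [Set.encard_eq_three.2 ⟨x, y, z, hxy, hxz, hyz, rfl⟩] at h4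
  have h5 := h4.trans h2
  exact absurd h5 (by decide)

lemma two_cycle2 (h2 : (periodicPts (G a d c)).encard ≤ 2) {w : ℚ}
    (hw : w ∈ periodicPts (G a d c)) (hne : G a d c w ≠ w) : G a d c (G a d c w) = w := by
  by_contra h
  have hz := per_step hw
  have h1 : G a d c (G a d c w) ≠ G a d c w := fun h1 => hne (per_inj hz hw h1)
  exact no_three2 h2 hz hw (per_step hz) hne (Ne.symm h1) (Ne.symm h)

variable (hd4 : 4 ≤ d) (hev : Even d) (hq : q ∣ d - 1) (hPP : PP q d) (hOP : OP q d) (ha : a ≠ 0)
  (hval : ∀ p : ℕ, p.Prime → p ≠ 2 → (q : ℤ) ∣ padicValRat p (a * d))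
  (h2 : (periodicPts (G a d c)).encard ≤ 2)
  (hT1 : U_T1) (hT2 : U_T2) (hT2Z : U_T2Z) (hEXC : U_EXC)
include hd4 hev hq hPP hOP ha hval h2 hT1 hT2 hT2Z hEXC

/-- classification of rational preperiodic points -/
lemma pre_cases : ∀ (k : ℕ) (x : ℚ), (G a d c)^[k] x ∈ periodicPts (G a d c) →
    x ∈ periodicPts (G a d c) ∨ -x ∈ periodicPts (G a d c) ∨
    (x = 0 ∧ ∃ w : ℚ, w ≠ 0 ∧ G a d c w = w ∧ c = -w ∧ a * w ^ (d - 1) = 2) := by
  intro k
  induction k with
  | zero => intro x hx; exact Or.inl hx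
  | succ k ih =>
    intro x hx
    rw [iterate_succ_apply] at hx
    by_cases hfx : G a d c x ∈ periodicPts (G a d c)
    · obtain ⟨w, hw, hfw⟩ := per_surj hfx
      rcases pow_eq_pm hev (by omega) (G_eq_pow ha hfw) with h | h
      · left; rw [h]; exact hw
      · right; left; rw [h, neg_neg]; exact hw
    · rcases ih _ hx with h | h | ⟨h0, w, hw0, hw1, hw2, hw3⟩
      · exact absurd h hfx
      · -- G x = -w with w periodic
        obtain ⟨w, hw⟩ : ∃ w, w = -(G a d c x) := ⟨_, rfl⟩
        rw [← hw] at h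
        have hxw : G a d c x = -w := by rw [hw, neg_neg]
        have hw0 : w ≠ 0 := by
          intro h0
          apply hfx
          rw [hxw, h0, neg_zero, ← h0]; exact h
        by_cases hfix : G a d c w = w
        · obtain ⟨e1, e2, e3⟩ := hT1 q d hd4 hev hq hPP hOP a c x w ha hval hw0 hfix hxw
          exact Or.inr (Or.inr ⟨e1, w, hw0, hfix, e3, e2⟩)
        · exfalso
          have hx0 := hT2 q d hd4 hev hq hPP hOP a c x w ha hval hw0 h hfix hxw
          have hc : c = -w := by
            have h5 : a * x ^ d + c = -w := hxw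
            rw [hx0, zero_pow (by omega), mul_zero, zero_add] at h5
            exact h5
          have h6 := two_cycle2 h2 h hfix
          have h7 : a * w ^ d + c = G a d c w := rfl
          have h8 : a * (G a d c w) ^ d + c = w := h6
          refine hT2Z d hd4 hev a w (G a d c w) hw0 hfix ?_ ?_
          · rw [← h7, hc]; ring
          · rw [hc] at h8 ⊢
            linarith
      · exfalso
        have h5 : a * x ^ d + c = 0 := h0
        rw [hw2] at h5
        exact (hEXC d hd4 hev a w hw0 hw3).1 x (by linarith)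

theorem main2 : {x : ℚ | PreG a d c x}.encard ≤ 4 := by
  have hcl : ∀ x : ℚ, PreG a d c x → x ∈ periodicPts (G a d c) ∨ -x ∈ periodicPts (G a d c) ∨
      (x = 0 ∧ ∃ w : ℚ, w ≠ 0 ∧ G a d c w = w ∧ c = -w ∧ a * w ^ (d - 1) = 2) := by
    rintro x ⟨k, hk⟩
    exact pre_cases hd4 hev hq hPP hOP ha hval h2 hT1 hT2 hT2Z hEXC k x hk
  by_cases hex : ∃ w : ℚ, w ≠ 0 ∧ G a d c w = w ∧ c = -w ∧ a * w ^ (d - 1) = 2
  · obtain ⟨w, hw0, hw1, hw2, hw3⟩ := hex
    have hwp : w ∈ periodicPts (G a d c) := mk_mem_periodicPts one_pos hw1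
    have honly : ∀ y ∈ periodicPts (G a d c), y = w := by
      intro y hy
      by_contra hyw
      by_cases hyf : G a d c y = y
      · apply hyw
        apply (hEXC d hd4 hev a w hw0 hw3).2 y
        have h5 : a * y ^ d + c = y := hyf
        rw [hw2] at h5
        linarith
      · refine no_three2 h2 hy (per_step hy) hwp (Ne.symm hyf) hyw ?_
        intro h6
        exact hyw (per_inj hy hwp (by rw [h6, hw1]))
    have hsub : {x : ℚ | PreG a d c x} ⊆ ({w, -w, 0} : Set ℚ) := by
      intro x hx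
      rcases hcl x hx with h | h | ⟨h, -⟩
      · left; exact honly _ h
      · right; left
        have := honly _ h
        rw [← this, neg_neg]
      · right; right; exact h
    calc {x : ℚ | PreG a d c x}.encard ≤ ({w, -w, 0} : Set ℚ).encard := Set.encard_le_encard hsub
      _ ≤ 3 := by
        refine (Set.encard_insert_le _ _).trans ?_
        refine (add_le_add_left (Set.encard_insert_le _ _) 1).trans ?_
        rw [Set.encard_singleton]; norm_num
      _ ≤ 4 := by decide
  · have h3 : {x : ℚ | PreG a d c x} ⊆ periodicPts (G a d c) ∪ (fun x => -x) '' periodicPts (G a d c) := by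
      intro x hx
      rcases hcl x hx with h | h | ⟨-, h⟩
      · exact Or.inl h
      · exact Or.inr ⟨-x, h, neg_neg x⟩
      · exact absurd h hex
    have h4 : ((fun x : ℚ => -x) '' periodicPts (G a d c)).encard ≤ 2 :=
      (Set.encard_image_le _ _).trans h2
    calc {x : ℚ | PreG a d c x}.encard ≤ _ := Set.encard_le_encard h3
      _ ≤ _ := Set.encard_union_le _ _
      _ ≤ 2 + 2 := add_le_add h2 h4
      _ = 4 := by norm_num

end

end Pool.Agent.UPre
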