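import Pool.Agent.UPre.Targets3
import Pool.Agent.UPre.Dyn
import Pool.Agent.UPre.Main2

/-! Assembly of the reduction to finiteness of the rational points of the curves
`m Z^(d-1) = (X^d - Y^d)/(X - Y)`. -/

namespace Pool.Agent.UPre

open Function

lemma preG_per {a : ℚ} {d : ℕ} {c x : ℚ} (h : x ∈ periodicPts (G a d c)) : PreG a d c x := ⟨0, h⟩

/-- `G` is injective for odd `d` -/
lemma G_inj_odd {a : ℚ} {d : ℕ} {c : ℚ} (ha : a ≠ 0) (hd : Odd d) : Function.Injective (G a d c) := by
  intro x y h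
  exact hd.strictMono_pow.injective (G_eq_pow ha h)

/-- preperiodic points are periodic for an injective map -/
lemma per_of_pre_inj {α : Type*} {f : α → α} (hf : Function.Injective f) {x : α} {k : ℕ}
    (h : f^[k] x ∈ periodicPts f) : x ∈ periodicPts f := by
  obtain ⟨m, hm, hx⟩ := mem_periodicPts.1 h
  refine mk_mem_periodicPts hm ?_
  have h1 : f^[m] (f^[k] x) = f^[k] x := hx
  rw [← iterate_add_apply, add_comm, iterate_add_apply] at h1
  exact hf.iterate k h1

section
variable {d : ℕ} (hd : 2 ≤ d) (hHF : HF d) (hRAT : P_RAT) (hF1 : P_FIN1) (hF2 : P_FIN2)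
  (hN : P_NORTH)
include hd hHF hRAT hF1 hF2

/-- all but finitely many parameters have a very simple preperiodic set -/
theorem main3a {a : ℚ} (ha : a ≠ 0) : ∃ E : Set ℚ, E.Finite ∧ ∀ c ∉ E,
    (∀ x : ℚ, ¬ PreG a d c x) ∨
    ∃ w : ℚ, G a d c w = w ∧ ∀ x : ℚ, PreG a d c x → x = w ∨ x = -w := by
  obtain ⟨R, hR1, hR2⟩ := hRAT d hd hHF a ha
  refine ⟨_, ((hF1 d hd a ha R).union (hF2 d hd a ha R)).union (Set.finite_singleton 0), ?_⟩
  intro c hc
  rw [Set.mem_union, Set.mem_union, not_or, not_or] at hc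
  obtain ⟨⟨hc1, hc2⟩, hc3⟩ := hc
  rw [Set.mem_singleton_iff] at hc3
  have huniq : ∀ x ∈ periodicPts (G a d c), ∀ y ∈ periodicPts (G a d c), x = y := by
    intro x hx y hy
    by_contra hne
    apply hc1
    exact ⟨⟨x, hx, y, hy, hne⟩, fun x hx y hy hxy hy0 => hR1 c x y hx hy hxy hy0⟩
  by_cases hex : ∃ w, w ∈ periodicPts (G a d c)
  swap
  · left
    rintro x ⟨k, hk⟩
    exact hex ⟨_, hk⟩
  obtain ⟨w, hw⟩ := hex
  right
  have hfix : G a d c w = w := huniq _ (per_step hw) _ hw
  have hw0 : w ≠ 0 := by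
    intro h0
    apply hc3
    have h1 : a * w ^ d + c = w := hfix
    rw [h0, zero_pow (by omega), mul_zero, zero_add] at h1
    exact h1
  refine ⟨w, hfix, ?_⟩
  rintro x ⟨k, hk⟩
  rcases Nat.even_or_odd d with hev | hodd
  · revert x
    induction k with
    | zero => intro x hx; exact Or.inl (huniq _ hx _ hw)
    | succ k ih =>
      intro x hx
      rw [iterate_succ_apply] at hx
      rcases ih _ hx with h | h
      · have h1 : G a d c w = G a d c x := by rw [hfix, h]
        exact pow_eq_pm hev (by omega) (G_eq_pow ha h1)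
      · exfalso
        apply hc2
        exact ⟨x, w, hw0, hfix, h, hR2 hev c x w hw0 hfix h⟩
  · left
    exact huniq _ (per_of_pre_inj (G_inj_odd ha hodd) hk) _ hw

include hN

/-- uniform bound -/
theorem main3b {a : ℚ} (ha : a ≠ 0) : ∃ B : ℕ, ∀ c : ℚ, {x : ℚ | PreG a d c x}.encard ≤ B := by
  obtain ⟨E, hE, hE2⟩ := main3a hd hHF hRAT hF1 hF2 ha
  refine ⟨hE.toFinset.sup (fun c => {x : ℚ | PreG a d c x}.ncard) + 2, ?_⟩
  intro c
  by_cases hc : c ∈ E
  · have h1 : {x : ℚ | PreG a d c x}.ncard ≤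
        hE.toFinset.sup (fun c => {x : ℚ | PreG a d c x}.ncard) :=
      Finset.le_sup (f := fun c => {x : ℚ | PreG a d c x}.ncard) (hE.mem_toFinset.2 hc)
    rw [← (hN d hd a c ha).cast_ncard_eq]
    exact_mod_cast h1.trans (Nat.le_add_right _ 2)
  · have h2 : {x : ℚ | PreG a d c x}.encard ≤ 2 := by
      rcases hE2 c hc with h | ⟨w, -, hw⟩
      · have : {x : ℚ | PreG a d c x} = ∅ := by
          exact Set.eq_empty_of_forall_notMem (fun x hx => h x hx)
        rw [this, Set.encard_empty]; exact zero_le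
      · refine (Set.encard_le_encard (fun x hx => ?_ : _ ⊆ ({w, -w} : Set ℚ))).trans
          ((Set.encard_insert_le _ _).trans ?_)
        · exact hw x hx
        · rw [Set.encard_singleton]; norm_num
    refine h2.trans ?_
    push_cast
    exact le_add_left le_rfl

end

end Pool.Agent.UPre
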