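import Mathlib

/-! Targets for MP_c076ed_nt, project UPre (rational preperiodic points of `x^d + c`).
Every target is a `def ... : Prop`; a job proves `theorem p_XXX : T_XXX` (or the version with
earlier targets as hypotheses) in its own file `Pool/Agent/UPre/XXX.lean`. -/

namespace Pool.Agent.UPre

/-- Core quartic. -/
def T_L0 : Prop := ∀ a S b : ℤ, IsCoprime a S → b ^ 2 = S ^ 4 + 3 * S ^ 2 * a ^ 2 + 3 * a ^ 4 → a = 0

/-- The curve `y^2 = x^3 - 1`. -/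
def T_L1 : Prop := ∀ S T Y : ℤ, Odd S → Odd T → IsCoprime S T → Y ^ 2 = T ^ 3 - S ^ 6 → Y = 0

def T_L2 : Prop := ∀ X Y Z : ℤ, IsCoprime X Y → Odd Z → X ^ 4 - Y ^ 4 = Z ^ 3 → X = 0 ∨ Y = 0

def T_L3 : Prop := ∀ X Y Z : ℤ, Odd X → Odd Y → IsCoprime X Y → X ^ 12 - Y ^ 4 = 2 * Z ^ 3 → Z = 0

/-- An integer all of whose prime exponents are multiples of 3 is a cube. -/
def T_CUBE : Prop := ∀ m : ℤ, m ≠ 0 → (∀ p : ℕ, p.Prime → 3 ∣ padicValInt p m) → ∃ k : ℤ, m = k ^ 3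

/-- The exponents `d` we treat. -/
def Good (d : ℕ) : Prop :=
  4 ∣ d ∧ d % 3 = 1 ∧ ∀ p : ℕ, p.Prime → p ≠ 2 → 3 ∣ padicValNat p d

/-- Pair lemma. -/
def T_PAIR : Prop := ∀ (d : ℕ), Good d → ∀ t w : ℤ, Odd t → Odd w → IsCoprime t w → (4 : ℤ) ∣ t - w →
  t ≠ w → (∀ p : ℕ, p.Prime → p ≠ 2 → (p : ℤ) ∣ (t + w) * (t ^ 2 + w ^ 2) →
    3 ∣ padicValInt p (t ^ d - w ^ d)) → False

/-- Tail over a fixed point. -/
def T_FIX : Prop := ∀ (d : ℕ), Good d → ∀ (t r : ℤ) (D : ℕ), 0 < D → r ≠ 0 → IsCoprime r (D : ℤ) →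
  t ^ d = r ^ d - 2 * (D : ℤ) ^ (d - 1) * r → False

/-- Lifting the exponent, plus and minus, in the form used. -/
def T_LTE : Prop := ∀ (d : ℕ), Even d → d ≠ 0 → ∀ (p : ℕ), p.Prime → p ≠ 2 → ∀ u v : ℤ,
  ¬ (p : ℤ) ∣ u → u ^ d - v ^ d ≠ 0 →
  ((p : ℤ) ∣ u - v → padicValInt p (u ^ d - v ^ d) = padicValInt p (u - v) + padicValNat p d) ∧
  ((p : ℤ) ∣ u + v → padicValInt p (u ^ d - v ^ d) = padicValInt p (u + v) + padicValNat p d)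

/-- Denominators of preperiodic points. -/
def T_DEN : Prop := ∀ (d : ℕ), 2 ≤ d → ∀ (c x : ℚ),
  (∃ k, (fun y : ℚ => y ^ d + c)^[k] x ∈ Function.periodicPts (fun y : ℚ => y ^ d + c)) →
  c.den = x.den ^ d

end Pool.Agent.UPre
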