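import Pool.Agent.UPre.Targets

/-! Second round of targets: the maps `a x^d + c`, general leading coefficient, `d` even. -/

namespace Pool.Agent.UPre

open Function

/-- the map `y ↦ a y^d + c` -/
abbrev G (a : ℚ) (d : ℕ) (c : ℚ) : ℚ → ℚ := fun y : ℚ => a * y ^ d + c

/-- rational preperiodic points -/
def PreG (a : ℚ) (d : ℕ) (c x : ℚ) : Prop := ∃ k, (G a d c)^[k] x ∈ periodicPts (G a d c)

/-- primes of (potentially) good reduction -/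
def GoodP (p : ℕ) (a : ℚ) (d : ℕ) (c : ℚ) : Prop := padicNorm p a * padicNorm p c ^ (d - 1) ≤ 1

/-- `t^(d-1) + t^(d-2) w + ... + w^(d-1)` -/
def Phi (d : ℕ) (t w : ℤ) : ℤ := ∑ i ∈ Finset.range d, t ^ i * w ^ (d - 1 - i)

/-- hypothesis of the pair lemmas -/
def Hyp (q d : ℕ) (t w : ℤ) : Prop := ∀ p : ℕ, p.Prime → p ≠ 2 → ¬ (p : ℤ) ∣ t - w →
  (p : ℤ) ∣ t ^ d - w ^ d → (q : ℤ) ∣ (padicValInt p (t ^ d - w ^ d) : ℤ) - padicValNat p d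

/-- the same for all odd primes -/
def HypS (q d : ℕ) (t w : ℤ) : Prop := ∀ p : ℕ, p.Prime → p ≠ 2 →
  (p : ℤ) ∣ t ^ d - w ^ d → (q : ℤ) ∣ (padicValInt p (t ^ d - w ^ d) : ℤ) - padicValNat p d

/-- pair property -/
def PP (q d : ℕ) : Prop := ∀ t w : ℤ, Odd t → Odd w → IsCoprime t w → (4 : ℤ) ∣ t - w → t ≠ w →
  ¬ Hyp q d t w

/-- opposite parity property -/
def OP (q d : ℕ) : Prop := ∀ t w : ℤ, IsCoprime t w → Odd (t + w) → HypS q d t w → t = 0 ∨ w = 0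

/-- the Diophantine input -/
def POW (q : ℕ) (κ : ℤ) : Prop := ∀ A B D : ℤ, Odd A → Odd B → Even D → IsCoprime A B →
  B ^ q = A ^ (2 * q) + κ * D ^ 2 → D = 0

/-! ### Diophantine part -/

def V_POW3 : Prop := POW 3 1

/-- perfect powers -/
def V_PWR : Prop := ∀ q : ℕ, Odd q → ∀ m : ℤ, m ≠ 0 →
  (∀ p : ℕ, p.Prime → q ∣ padicValInt p m) → ∃ k : ℤ, m = k ^ q

def V_E5 : Prop := ∀ p q W : ℤ, IsCoprime p q → ¬ (5 : ℤ) ∣ p →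
  W ^ 2 = p ^ 4 - 25 * p ^ 2 * q ^ 2 + 125 * q ^ 4 → q = 0

def V_C5 : Prop := ∀ Y k b : ℤ, IsCoprime Y (5 * k) → Odd Y → Even k →
  b ^ 2 = Y ^ 4 + 10 * Y ^ 3 * k + 50 * Y ^ 2 * k ^ 2 + 125 * Y * k ^ 3 + 125 * k ^ 4 → k = 0

def V_POW5 : Prop := POW 5 1 ∧ POW 5 3

def V_E7 : Prop := ∀ M N T : ℤ, IsCoprime M N →
  T ^ 2 = M ^ 3 + 98 * M ^ 2 * N ^ 2 + 2401 * M * N ^ 4 + 16807 * N ^ 6 → N = 0

def V_POW7 : Prop := POW 7 1 ∧ POW 7 3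

/-- outcome of the 2-descent over the cubic field `ℚ(u)`, `u^3 + u^2 - 2 u - 1 = 0`, written in the
basis `1, u, u^2` -/
def V_E7A : Prop := ∀ M N T : ℤ, IsCoprime M N → N ≠ 0 →
  T ^ 2 = M ^ 3 + 98 * M ^ 2 * N ^ 2 + 2401 * M * N ^ 4 + 16807 * N ^ 6 → ∃ p q r : ℤ,
  (2401 * (M + 28 * N ^ 2) = p ^ 2 + 2 * q * r - r ^ 2 ∧
   2401 * (21 * N ^ 2) = 2 * p * q + 4 * q * r - r ^ 2 ∧
   2401 * (7 * N ^ 2) = q ^ 2 + 2 * p * r - 2 * q * r + 3 * r ^ 2) ∨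
  (2401 * (M + 28 * N ^ 2) = q ^ 2 + 2 * p * r - 2 * q * r + 3 * r ^ 2 ∧
   2401 * (21 * N ^ 2) = (p ^ 2 + 2 * q * r - r ^ 2) + 2 * (q ^ 2 + 2 * p * r - 2 * q * r + 3 * r ^ 2) ∧
   2401 * (7 * N ^ 2) = (2 * p * q + 4 * q * r - r ^ 2) - (q ^ 2 + 2 * p * r - 2 * q * r + 3 * r ^ 2))

/-- rational points of the curve `E7` -/
def V_RP : Prop := ∀ x y : ℚ, y ^ 2 = x ^ 3 + 98 * x ^ 2 + 2401 * x + 16807 →
  ∃ M N T : ℤ, N ≠ 0 ∧ IsCoprime M N ∧ x = M / N ^ 2 ∧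
    T ^ 2 = M ^ 3 + 98 * M ^ 2 * N ^ 2 + 2401 * M * N ^ 4 + 16807 * N ^ 6

/-! ### pair lemmas -/

def U_PAIR4 : Prop := ∀ (q d : ℕ), Odd q → 0 < d → 4 ∣ d → POW q 1 → PP q d

def U_PAIR6 : Prop := ∀ (q d : ℕ), Odd q → 0 < d → 6 ∣ d → POW q 3 → ∀ t w : ℤ, Odd t → Odd w →
  IsCoprime t w → (4 : ℤ) ∣ t - w → (3 : ℤ) ∣ t - w → t ≠ w → ¬ Hyp q d t w

def U_OPP : Prop := ∀ (q d : ℕ), Odd q → 0 < d → 4 ∣ d → POW q 1 → OP q d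

/-! ### local dynamics -/

def U_NORM : Prop := ∀ (p : ℕ), p.Prime → ∀ (d : ℕ), 2 ≤ d → ∀ a c x : ℚ, a ≠ 0 → PreG a d c x →
  (GoodP p a d c → padicNorm p a * padicNorm p x ^ (d - 1) ≤ 1) ∧
  (¬ GoodP p a d c → padicNorm p a * padicNorm p x ^ d = padicNorm p c ∧
    1 < padicNorm p a * padicNorm p x ^ (d - 1) ∧ x ≠ 0)

/-- at bad primes all preperiodic points have the same valuation -/
def U_BADV : Prop := ∀ (p : ℕ), p.Prime → ∀ (d : ℕ), 2 ≤ d → ∀ a c x y : ℚ, a ≠ 0 →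
  PreG a d c x → PreG a d c y → ¬ GoodP p a d c → padicValRat p x = padicValRat p y

def U_GOODEQ : Prop := ∀ (p : ℕ), p.Prime → ∀ (d : ℕ), 2 ≤ d → ∀ a c x y : ℚ, a ≠ 0 →
  GoodP p a d c → x ∈ periodicPts (G a d c) → y ∈ periodicPts (G a d c) →
  padicNorm p (G a d c x - G a d c y) = padicNorm p (x - y)

def U_GDIV : Prop := ∀ (p : ℕ), p.Prime → ∀ (d : ℕ), 2 ≤ d → ∀ a c x y : ℚ, a ≠ 0 →
  GoodP p a d c → x ∈ periodicPts (G a d c) → y ∈ periodicPts (G a d c) → x ≠ y →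
  ∀ (lam : ℚ) (t w : ℤ), x = lam * t → y = lam * w → ¬ (p : ℤ) ∣ t → ¬ (p : ℤ) ∣ w →
  ¬ (p : ℤ) ∣ Phi d t w

/-- at most two periodic points when certain primes are good -/
def U_TWO : Prop := ∀ (p : ℕ), p.Prime → ∀ (d : ℕ), 2 ≤ d →
  (∀ t w : ℤ, ¬ (p : ℤ) ∣ t → ¬ (p : ℤ) ∣ w → (p : ℤ) ∣ Phi d t w) → ∀ a c : ℚ, a ≠ 0 →
  GoodP p a d c → (periodicPts (G a d c)).encard ≤ 2

def U_PH : Prop := (∀ d : ℕ, 0 < d → 2 ∣ d → ∀ t w : ℤ, ¬ (2 : ℤ) ∣ t → ¬ (2 : ℤ) ∣ w → (2 : ℤ) ∣ Phi d t w) ∧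
  (∀ d : ℕ, 0 < d → 6 ∣ d → ∀ t w : ℤ, ¬ (3 : ℤ) ∣ t → ¬ (3 : ℤ) ∣ w → (3 : ℤ) ∣ Phi d t w)

/-- lifting the exponent for rationals -/
def U_LTEQ : Prop := ∀ (d : ℕ), Even d → d ≠ 0 → ∀ (p : ℕ), p.Prime → p ≠ 2 → ∀ x y : ℚ,
  x ≠ 0 → y ≠ 0 → padicValRat p x = padicValRat p y → x ^ d ≠ y ^ d →
  (padicValRat p x < padicValRat p (x - y) →
    padicValRat p (x ^ d - y ^ d) =
      ((d : ℤ) - 1) * padicValRat p x + padicValRat p (x - y) + (padicValNat p d : ℤ)) ∧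
  (padicValRat p x < padicValRat p (x + y) →
    padicValRat p (x ^ d - y ^ d) =
      ((d : ℤ) - 1) * padicValRat p x + padicValRat p (x + y) + (padicValNat p d : ℤ))

def U_BAD : Prop := ∀ (p : ℕ), p.Prime → p ≠ 2 → ∀ (q d : ℕ), 2 ≤ d → Even d → q ∣ d - 1 →
  ∀ a c x y : ℚ, a ≠ 0 → ¬ GoodP p a d c → (q : ℤ) ∣ padicValRat p (a * d) →
  x ∈ periodicPts (G a d c) → y ∈ periodicPts (G a d c) → x ≠ y →
  padicValRat p (x - y) = padicValRat p x →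
  (q : ℤ) ∣ padicValRat p (G a d c x - G a d c y) - padicValRat p x

def U_SUM : Prop := ∀ (p : ℕ), p.Prime → p ≠ 2 → ∀ (q d : ℕ), 2 ≤ d → Even d → q ∣ d - 1 →
  ∀ a c x y : ℚ, a ≠ 0 → ¬ GoodP p a d c → (q : ℤ) ∣ padicValRat p (a * d) →
  x ∈ periodicPts (G a d c) → y ∈ periodicPts (G a d c) → x ≠ y →
  (q : ℤ) ∣ padicValRat p (x + y) - padicValRat p x

/-- periodic pairs at bad primes with `q ∣ v_p(a d)` -/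
def U_RAT : Prop := ∀ (p : ℕ), p.Prime → p ≠ 2 → ∀ (q d : ℕ), 2 ≤ d → Even d → q ∣ d - 1 →
  ∀ a c x y : ℚ, a ≠ 0 → ¬ GoodP p a d c → (q : ℤ) ∣ padicValRat p (a * d) →
  x ∈ periodicPts (G a d c) → y ∈ periodicPts (G a d c) → x ≠ y →
  ∀ (lam : ℚ) (t w : ℤ), x = lam * t → y = lam * w → IsCoprime t w → ¬ (p : ℤ) ∣ t - w →
  (q : ℤ) ∣ (padicValInt p (t ^ d - w ^ d) : ℤ) - padicValNat p d

def U_HYP : Prop := ∀ (q d : ℕ), 2 ≤ d → Even d → q ∣ d - 1 → ∀ (a : ℚ), a ≠ 0 → ∀ (S : Finset ℕ),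
  (∀ p : ℕ, p.Prime → p ≠ 2 → p ∉ S → (q : ℤ) ∣ padicValRat p (a * d)) → ∀ c x y : ℚ,
  x ∈ periodicPts (G a d c) → y ∈ periodicPts (G a d c) → x ≠ y →
  ∀ (lam : ℚ) (t w : ℤ), x = lam * t → y = lam * w → IsCoprime t w →
  (∀ p ∈ S, p.Prime → p ≠ 2 → ¬ GoodP p a d c → (p : ℤ) ∣ t - w) → Hyp q d t w

/-- pigeonhole over residue classes -/
def U_PIG : Prop := ∀ (d : ℕ), 2 ≤ d → Even d → ∀ (a : ℚ), a ≠ 0 → ∀ (S : Finset ℕ) (c : ℚ),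
  ¬ GoodP 2 a d c →
  ((2 * ∏ p ∈ S, Nat.gcd d (p - 1) : ℕ) : ℕ∞) < (periodicPts (G a d c)).encard →
  ∃ x ∈ periodicPts (G a d c), ∃ y ∈ periodicPts (G a d c), x ≠ y ∧ ∃ (lam : ℚ) (t w : ℤ),
    x = lam * t ∧ y = lam * w ∧ Odd t ∧ Odd w ∧ IsCoprime t w ∧ (4 : ℤ) ∣ t - w ∧
    ∀ p ∈ S, p.Prime → p ≠ 2 → ¬ GoodP p a d c → (p : ℤ) ∣ t - w

/-- number of periodic points -/
def U_COUNT : Prop := ∀ (q d : ℕ), 2 ≤ d → Even d → q ∣ d - 1 → ∀ (S : Finset ℕ),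
  (PP q d ∨ (6 ∣ d ∧ 3 ∈ S ∧ ∀ t w : ℤ, Odd t → Odd w → IsCoprime t w → (4 : ℤ) ∣ t - w →
    (3 : ℤ) ∣ t - w → t ≠ w → ¬ Hyp q d t w)) →
  ∀ (a : ℚ), a ≠ 0 → (∀ p : ℕ, p.Prime → p ≠ 2 → p ∉ S → (q : ℤ) ∣ padicValRat p (a * d)) → ∀ c : ℚ,
  (periodicPts (G a d c)).encard ≤ ((2 * ∏ p ∈ S, Nat.gcd d (p - 1) : ℕ) : ℕ∞)

/-! ### tails -/

/-- tails over a fixed point -/
def U_T1 : Prop := ∀ (q d : ℕ), 4 ≤ d → Even d → q ∣ d - 1 → PP q d → OP q d →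
  ∀ a c x w : ℚ, a ≠ 0 → (∀ p : ℕ, p.Prime → p ≠ 2 → (q : ℤ) ∣ padicValRat p (a * d)) → w ≠ 0 →
  G a d c w = w → G a d c x = -w → x = 0 ∧ a * w ^ (d - 1) = 2 ∧ c = -w

/-- good primes in a tail of length two over a longer cycle -/
def U_T2G : Prop := ∀ (p : ℕ), p.Prime → ∀ (d : ℕ), 2 ≤ d → Even d → ∀ a c x w : ℚ, a ≠ 0 →
  GoodP p a d c → w ∈ periodicPts (G a d c) → G a d c w ≠ w → G a d c x = -w →
  ∀ (lam : ℚ) (t s : ℤ), x = lam * t → w = lam * s → ¬ (p : ℤ) ∣ t → ¬ (p : ℤ) ∣ s →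
  ¬ (p : ℤ) ∣ t ^ d - s ^ d

def U_T2 : Prop := ∀ (q d : ℕ), 4 ≤ d → Even d → q ∣ d - 1 → PP q d → OP q d →
  ∀ a c x w : ℚ, a ≠ 0 → (∀ p : ℕ, p.Prime → p ≠ 2 → (q : ℤ) ∣ padicValRat p (a * d)) → w ≠ 0 →
  w ∈ periodicPts (G a d c) → G a d c w ≠ w → G a d c x = -w → x = 0

/-- `x = 0` cannot be in a tail of length two over a 2-cycle -/
def U_T2Z : Prop := ∀ (d : ℕ), 4 ≤ d → Even d → ∀ a w z : ℚ, w ≠ 0 → z ≠ w →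
  a * w ^ d - w = z → a * z ^ d - w = w → False

/-- the exceptional map `2 x^d - 1` (up to conjugacy) -/
def U_EXC : Prop := ∀ (d : ℕ), 4 ≤ d → Even d → ∀ a w : ℚ, w ≠ 0 → a * w ^ (d - 1) = 2 →
  (∀ y : ℚ, a * y ^ d - w ≠ 0) ∧ (∀ y : ℚ, a * y ^ d - w = y → y = w)

end Pool.Agent.UPre
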