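import Pool.Agent.UPre.Targets2

/-! Targets for the power structure theorem (all `d ≥ 2`). -/

namespace Pool.Agent.UPre

open Function

/-- `x^(d-1) + x^(d-2) y + ... + y^(d-1)` over the rationals -/
def PhiQ (d : ℕ) (x y : ℚ) : ℚ := ∑ i ∈ Finset.range d, x ^ i * y ^ (d - 1 - i)

/-- finiteness of the rational points of the curves `m Z^(d-1) = (X^d - Y^d)/(X - Y)`;
for `d ≥ 5` this is an instance of Faltings' theorem -/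
def HF (d : ℕ) : Prop := ∀ m : ℤ, m ≠ 0 →
  {ρ : ℚ | ∃ z : ℚ, ∑ i ∈ Finset.range d, ρ ^ i = m * z ^ (d - 1)}.Finite

/-- periodic pairs at primes not dividing `a d` -/
def P_PAIRV : Prop := ∀ (p : ℕ), p.Prime → ∀ (d : ℕ), 2 ≤ d → ¬ p ∣ d → ∀ a c x y : ℚ, a ≠ 0 →
  padicValRat p a = 0 → x ∈ periodicPts (G a d c) → y ∈ periodicPts (G a d c) → x ≠ y →
  ((d - 1 : ℕ) : ℤ) ∣ padicValRat p (PhiQ d x y)

def P_TAILV : Prop := ∀ (p : ℕ), p.Prime → p ≠ 2 → ∀ (d : ℕ), 2 ≤ d → Even d → ¬ p ∣ d →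
  ∀ a c x w : ℚ, a ≠ 0 → padicValRat p a = 0 → w ≠ 0 → G a d c w = w → G a d c x = -w →
  ((d - 1 : ℕ) : ℤ) ∣ padicValRat p (PhiQ d w x)

def P_POWER : Prop := ∀ (n N : ℕ), 1 ≤ n → N ≠ 0 → ∀ r : ℚ, r ≠ 0 →
  (∀ p : ℕ, p.Prime → ¬ p ∣ N → (n : ℤ) ∣ padicValRat p r) →
  ∃ m : ℕ, m ∣ N ^ (n - 1) ∧ ∃ z : ℚ, r = m * z ^ n ∨ r = -(m * z ^ n)

/-- power structure of pairs -/
def P_STR : Prop := ∀ (d : ℕ), 2 ≤ d → ∀ a c x y : ℚ, a ≠ 0 → x ∈ periodicPts (G a d c) →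
  y ∈ periodicPts (G a d c) → x ≠ y → ∃ m : ℕ, m ∣ (d * a.num.natAbs * a.den) ^ (d - 2) ∧ ∃ z : ℚ,
    PhiQ d x y = m * z ^ (d - 1) ∨ PhiQ d x y = -(m * z ^ (d - 1))

/-- power structure of tails of length two over a fixed point -/
def P_STRT : Prop := ∀ (d : ℕ), 2 ≤ d → Even d → ∀ a c x w : ℚ, a ≠ 0 → w ≠ 0 → G a d c w = w →
  G a d c x = -w → ∃ m : ℕ, m ∣ (2 * d * a.num.natAbs * a.den) ^ (d - 2) ∧ ∃ z : ℚ,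
    PhiQ d w x = m * z ^ (d - 1) ∨ PhiQ d w x = -(m * z ^ (d - 1))

/-- finitely many ratios -/
def P_RAT : Prop := ∀ (d : ℕ), 2 ≤ d → HF d → ∀ a : ℚ, a ≠ 0 → ∃ R : Finset ℚ,
  (∀ c x y : ℚ, x ∈ periodicPts (G a d c) → y ∈ periodicPts (G a d c) → x ≠ y → y ≠ 0 → x / y ∈ R) ∧
  (Even d → ∀ c x w : ℚ, w ≠ 0 → G a d c w = w → G a d c x = -w → x / w ∈ R)

/-- finitely many parameters with two periodic points, once the ratios are in a finite set -/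
def P_FIN1 : Prop := ∀ (d : ℕ), 2 ≤ d → ∀ a : ℚ, a ≠ 0 → ∀ R : Finset ℚ,
  {c : ℚ | (∃ x ∈ periodicPts (G a d c), ∃ y ∈ periodicPts (G a d c), x ≠ y) ∧
    ∀ x ∈ periodicPts (G a d c), ∀ y ∈ periodicPts (G a d c), x ≠ y → y ≠ 0 → x / y ∈ R}.Finite

def P_FIN2 : Prop := ∀ (d : ℕ), 2 ≤ d → ∀ a : ℚ, a ≠ 0 → ∀ R : Finset ℚ,
  {c : ℚ | ∃ x w : ℚ, w ≠ 0 ∧ G a d c w = w ∧ G a d c x = -w ∧ x / w ∈ R}.Finite

/-- Northcott -/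
def P_NORTH : Prop := ∀ (d : ℕ), 2 ≤ d → ∀ a c : ℚ, a ≠ 0 → {x : ℚ | PreG a d c x}.Finite

end Pool.Agent.UPre
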