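import Pool.Agent.UPre.Targets2

/-! Targets for the 2-descent over the cubic field `ℚ(u)`, `u^3 + u^2 - 2 u - 1 = 0`. -/

namespace Pool.Agent.UPre

open NumberField

/-- the field exists -/
def V7_FIELD : Prop := ∃ (K : Type) (_ : Field K) (_ : NumberField K) (u : K) (f0 f1 f2 : K →+* ℝ),
  u ^ 3 + u ^ 2 - 2 * u - 1 = 0 ∧ Module.finrank ℚ K = 3 ∧ 0 < f0 u ∧ f1 u < 0 ∧ f2 u < f1 u

def V7_INT : Prop := ∀ (K : Type) [Field K] [NumberField K] (u : K),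
  u ^ 3 + u ^ 2 - 2 * u - 1 = 0 → Module.finrank ℚ K = 3 →
  ∀ z : K, IsIntegral ℤ z → ∃ p q r : ℤ, 49 * z = p + q * u + r * u ^ 2

def V7_PID : Prop := ∀ (K : Type) [Field K] [NumberField K] (u : K),
  u ^ 3 + u ^ 2 - 2 * u - 1 = 0 → Module.finrank ℚ K = 3 → IsPrincipalIdealRing (𝓞 K)

/-- signatures of units -/
def V7_UNIT : Prop := ∀ (K : Type) [Field K] [NumberField K] (u : K) (f0 f1 f2 : K →+* ℝ),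
  u ^ 3 + u ^ 2 - 2 * u - 1 = 0 → Module.finrank ℚ K = 3 → 0 < f0 u → f1 u < 0 → f2 u < f1 u →
  ∀ η : (𝓞 K)ˣ,
  (0 < f0 ((η : 𝓞 K) : K) → 0 < f1 ((η : 𝓞 K) : K) → 0 < f2 ((η : 𝓞 K) : K) →
    ∃ ε : (𝓞 K)ˣ, ((η : 𝓞 K) : K) = ((ε : 𝓞 K) : K) ^ 2) ∧
  (0 < f0 ((η : 𝓞 K) : K) → f1 ((η : 𝓞 K) : K) < 0 → f2 ((η : 𝓞 K) : K) < 0 →
    ∃ ε : (𝓞 K)ˣ, ((η : 𝓞 K) : K) = u * ((ε : 𝓞 K) : K) ^ 2)

/-- `M - θ N^2` is a unit times a square -/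
def V7_ASSOC : Prop := ∀ (K : Type) [Field K] [NumberField K] (u : K),
  u ^ 3 + u ^ 2 - 2 * u - 1 = 0 → Module.finrank ℚ K = 3 → IsPrincipalIdealRing (𝓞 K) →
  ∀ M N T : ℤ, IsCoprime M N → N ≠ 0 →
  T ^ 2 = M ^ 3 + 98 * M ^ 2 * N ^ 2 + 2401 * M * N ^ 4 + 16807 * N ^ 6 →
  ∃ (η : (𝓞 K)ˣ) (γ : 𝓞 K),
    (M : K) + 7 * (u ^ 2 + 3 * u + 4) * (N : K) ^ 2 = ((η : 𝓞 K) : K) * (γ : K) ^ 2

end Pool.Agent.UPre
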