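import Pool.Agent.UPre.Targets7

/-! UPRE2-V7UNIT: signatures of units of the cubic field `ℚ(u)`, `u ^ 3 + u ^ 2 - 2 u - 1 = 0`. -/

set_option autoImplicit false

namespace Pool.Agent.UPre.V7UNIT_

open NumberField Module

/-- The sign of a unit in a real embedding, in `ZMod 2`. -/
noncomputable def chi {K : Type} [Field K] [NumberField K] (f : K →+* ℝ) :
    (𝓞 K)ˣ →* Multiplicative (ZMod 2) where
  toFun x := Multiplicative.ofAdd (if 0 < f ((x : 𝓞 K) : K) then 0 else 1)
  map_one' := by simp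
  map_mul' x y := by
    have hx : f ((x : 𝓞 K) : K) ≠ 0 := by
      rw [map_ne_zero]
      exact RingOfIntegers.coe_ne_zero_iff.2 x.ne_zero
    have hy : f ((y : 𝓞 K) : K) ≠ 0 := by
      rw [map_ne_zero]
      exact RingOfIntegers.coe_ne_zero_iff.2 y.ne_zero
    rw [← ofAdd_add]
    congr 1
    have hmul : f (((x * y : (𝓞 K)ˣ) : 𝓞 K) : K) = f ((x : 𝓞 K) : K) * f ((y : 𝓞 K) : K) := by
      rw [← map_mul]
      rfl
    rw [hmul]
    rcases lt_or_gt_of_ne hx with h1 | h1 <;> rcases lt_or_gt_of_ne hy with h2 | h2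
    · rw [if_pos (mul_pos_of_neg_of_neg h1 h2), if_neg h1.not_gt, if_neg h2.not_gt]
      decide
    · rw [if_neg (mul_neg_of_neg_of_pos h1 h2).not_gt, if_neg h1.not_gt, if_pos h2]
      decide
    · rw [if_neg (mul_neg_of_pos_of_neg h1 h2).not_gt, if_pos h1, if_neg h2.not_gt]
      decide
    · rw [if_pos (mul_pos h1 h2), if_pos h1, if_pos h2]
      decide

theorem chi_pos {K : Type} [Field K] [NumberField K] {f : K →+* ℝ} {x : (𝓞 K)ˣ}
    (h : 0 < f ((x : 𝓞 K) : K)) : (chi f x).toAdd = 0 := by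
  simp [chi, h]

theorem chi_neg {K : Type} [Field K] [NumberField K] {f : K →+* ℝ} {x : (𝓞 K)ˣ}
    (h : f ((x : 𝓞 K) : K) < 0) : (chi f x).toAdd = 1 := by
  simp [chi, h.not_gt]

/-- Units of a cubic field with a real embedding: the units that are positive in three given
embeddings are squares, provided the signatures `(+,-,-)` and `(+,+,-)` occur. -/
theorem main {K : Type} [Field K] [NumberField K] (f : Fin 3 → K →+* ℝ)
    (h3 : finrank ℚ K = 3) (x y : (𝓞 K)ˣ)
    (hx : ∀ j, (chi (f j) x).toAdd = ![0, 1, 1] j)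
    (hy : ∀ j, (chi (f j) y).toAdd = ![0, 0, 1] j)
    (η : (𝓞 K)ˣ) (hη : ∀ j, (chi (f j) η).toAdd = 0) : ∃ ε : (𝓞 K)ˣ, η = ε ^ 2 := by
  classical
  have hrank : Units.rank K ≤ 2 := by
    have h1 := InfinitePlace.card_add_two_mul_card_eq_rank K
    have h2 := InfinitePlace.card_eq_nrRealPlaces_add_nrComplexPlaces K
    unfold Units.rank
    omega
  have htors : ∀ ζ : Units.torsion K, (ζ : (𝓞 K)ˣ) = 1 ∨ (ζ : (𝓞 K)ˣ) = -1 := by
    rintro ⟨ζ, hζ⟩
    obtain ⟨n, hn, hζn⟩ := (isOfFinOrder_iff_pow_eq_one).1 ((CommGroup.mem_torsion _).1 hζ)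
    have h1 : (f 0 ((ζ : 𝓞 K) : K)) ^ n = 1 := by
      have := congrArg (fun z : (𝓞 K)ˣ => f 0 ((z : 𝓞 K) : K)) hζn
      simpa using this
    have h2 : |f 0 ((ζ : 𝓞 K) : K)| = 1 := by
      have : |f 0 ((ζ : 𝓞 K) : K)| ^ n = 1 := by rw [← abs_pow, h1, abs_one]
      exact (pow_eq_one_iff_of_nonneg (abs_nonneg _) (by omega)).1 this
    rcases (abs_eq (by norm_num)).1 h2 with h | h
    · left
      apply Units.ext
      apply FaithfulSMul.algebraMap_injective (𝓞 K) K
      apply (f 0).injective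
      simpa using h
    · right
      apply Units.ext
      apply FaithfulSMul.algebraMap_injective (𝓞 K) K
      apply (f 0).injective
      simpa using h
  set r := Units.rank K with hr
  set E : Fin r → (𝓞 K)ˣ := Units.fundSystem K with hE
  let L : (ZMod 2 × (Fin r → ZMod 2)) →ₗ[ZMod 2] (Fin 3 → ZMod 2) :=
    { toFun := fun p j => p.1 + ∑ i, p.2 i * (chi (f j) (E i)).toAdd
      map_add' := by
        intro p q
        funext j
        simp only [Prod.fst_add, Prod.snd_add, Pi.add_apply, add_mul, Finset.sum_add_distrib]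
        ring
      map_smul' := by
        intro c p
        funext j
        simp only [Prod.smul_fst, Prod.smul_snd, Pi.smul_apply, smul_eq_mul, RingHom.id_apply,
          mul_add, Finset.mul_sum, mul_assoc] }
  have hL : ∀ p j, L p j = p.1 + ∑ i, p.2 i * (chi (f j) (E i)).toAdd := fun _ _ => rfl
  -- every unit is given by its coordinates
  have hcoord : ∀ z : (𝓞 K)ˣ, ∃ (s : ZMod 2) (e : Fin r → ℤ),
      (∀ j, (chi (f j) z).toAdd = L (s, fun i => (e i : ZMod 2)) j) ∧
      (s = 0 → z = ∏ i, E i ^ e i) := by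
    intro z
    obtain ⟨⟨ζ, e⟩, hz, -⟩ := Units.exist_unique_eq_mul_prod K z
    have hprod : ∀ j, (chi (f j) (∏ i, E i ^ e i)).toAdd =
        ∑ i, (e i : ZMod 2) * (chi (f j) (E i)).toAdd := by
      intro j
      rw [map_prod, toAdd_prod]
      refine Finset.sum_congr rfl fun i _ => ?_
      rw [map_zpow, toAdd_zpow, zsmul_eq_mul]
    rcases htors ζ with h | h
    · refine ⟨0, e, fun j => ?_, fun _ => ?_⟩
      · rw [hL, hz]
        simp only [h, one_mul, zero_add]
        exact hprod j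
      · rw [hz]
        simp only [h, one_mul]
        rfl
    · refine ⟨1, e, fun j => ?_, fun h0 => absurd h0 (by decide)⟩
      rw [hL, hz]
      simp only [h]
      rw [map_mul, toAdd_mul]
      have hm1 : (chi (f j) (-1)).toAdd = 1 := by
        apply chi_neg
        simp
      rw [hm1]
      congr 1
      exact hprod j
  have hsurj : Function.Surjective L := by
    rw [← LinearMap.range_eq_top, eq_top_iff]
    intro t _
    have hu1 : (![0, 1, 1] : Fin 3 → ZMod 2) ∈ LinearMap.range L := by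
      obtain ⟨s, e, h, -⟩ := hcoord x
      exact ⟨_, funext fun j => (h j).symm.trans (hx j)⟩
    have hu2 : (![0, 0, 1] : Fin 3 → ZMod 2) ∈ LinearMap.range L := by
      obtain ⟨s, e, h, -⟩ := hcoord y
      exact ⟨_, funext fun j => (h j).symm.trans (hy j)⟩
    have hu0 : (![1, 1, 1] : Fin 3 → ZMod 2) ∈ LinearMap.range L := by
      refine ⟨(1, 0), funext fun j => ?_⟩
      rw [hL]
      fin_cases j <;> simp
    have ht : t = t 0 • ![1, 1, 1] + ((t 1 - t 0) • ![0, 1, 1] + (t 2 - t 1) • ![0, 0, 1]) := by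
      funext j
      fin_cases j <;> simp
    rw [ht]
    exact Submodule.add_mem _ (Submodule.smul_mem _ _ hu0)
      (Submodule.add_mem _ (Submodule.smul_mem _ _ hu1) (Submodule.smul_mem _ _ hu2))
  have hfr : finrank (ZMod 2) (ZMod 2 × (Fin r → ZMod 2)) =
      finrank (ZMod 2) (Fin 3 → ZMod 2) := by
    have h1 : finrank (ZMod 2) (Fin 3 → ZMod 2) ≤ finrank (ZMod 2) (ZMod 2 × (Fin r → ZMod 2)) :=
      LinearMap.finrank_le_finrank_of_surjective hsurj
    have h2 : finrank (ZMod 2) (ZMod 2 × (Fin r → ZMod 2)) = 1 + r := by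
      rw [Module.finrank_prod, Module.finrank_self, Module.finrank_fin_fun]
    rw [Module.finrank_fin_fun] at h1 ⊢
    rw [h2] at h1 ⊢
    omega
  have hinj : Function.Injective L :=
    (LinearMap.injective_iff_surjective_of_finrank_eq_finrank hfr).2 hsurj
  obtain ⟨s, e, h, h0⟩ := hcoord η
  have hzero : L (s, fun i => (e i : ZMod 2)) = L 0 := by
    funext j
    rw [← h j, hη j, map_zero]
    rfl
  have hp := hinj hzero
  have hs : s = 0 := congrArg Prod.fst hp
  have he : ∀ i, ∃ k : ℤ, e i = 2 * k := by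
    intro i
    have : ((e i : ℤ) : ZMod 2) = 0 := congrFun (congrArg Prod.snd hp) i
    rw [ZMod.intCast_zmod_eq_zero_iff_dvd] at this
    obtain ⟨k, hk⟩ := this
    exact ⟨k, by exact_mod_cast hk⟩
  choose k hk using he
  refine ⟨∏ i, E i ^ k i, ?_⟩
  rw [h0 hs, ← Finset.prod_pow]
  refine Finset.prod_congr rfl fun i _ => ?_
  rw [hk i, ← zpow_natCast, ← zpow_mul]
  congr 1
  push_cast
  ring

/-- The roots of the cubic. -/
theorem roots {a b c : ℝ} (ha : a ^ 3 + a ^ 2 - 2 * a - 1 = 0) (hb : b ^ 3 + b ^ 2 - 2 * b - 1 = 0)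
    (hc : c ^ 3 + c ^ 2 - 2 * c - 1 = 0) (hab : a < b) (hb0 : b < 0) (hc0 : 0 < c) :
    a + 1 < 0 ∧ 0 < b + 1 := by
  have n1 : a - b ≠ 0 := by intro h; linarith
  have n2 : b - c ≠ 0 := by intro h; linarith
  have n3 : a - c ≠ 0 := by intro h; linarith
  have e1 : a ^ 2 + a * b + b ^ 2 + a + b - 2 = 0 := by
    have : (a - b) * (a ^ 2 + a * b + b ^ 2 + a + b - 2) = 0 := by linear_combination ha - hb
    exact (mul_eq_zero.1 this).resolve_left n1
  have e2 : b ^ 2 + b * c + c ^ 2 + b + c - 2 = 0 := by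
    have : (b - c) * (b ^ 2 + b * c + c ^ 2 + b + c - 2) = 0 := by linear_combination hb - hc
    exact (mul_eq_zero.1 this).resolve_left n2
  have e3 : a + b + c + 1 = 0 := by
    have : (a - c) * (a + b + c + 1) = 0 := by linear_combination e1 - e2
    exact (mul_eq_zero.1 this).resolve_left n3
  have hc' : c = -1 - a - b := by linarith
  have e4 : (a + 1) * (b + 1) * (c + 1) = -1 := by
    subst hc'
    linear_combination ha - (a + 1) * e1
  have h1 : (a + 1) * (b + 1) < 0 := by
    by_contra hcon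
    push Not at hcon
    have : 0 ≤ (a + 1) * (b + 1) * (c + 1) := mul_nonneg hcon (by linarith)
    linarith
  rcases mul_neg_iff.1 h1 with h | h
  · exfalso; linarith [h.1, h.2]
  · exact h

end Pool.Agent.UPre.V7UNIT_

namespace Pool.Agent.UPre

open NumberField V7UNIT_

theorem p_V7_UNIT : V7_UNIT := by
  intro K _ _ u f0 f1 f2 hu h3 h0 h1 h2 η
  have hint : IsIntegral ℤ u := by
    refine ⟨Polynomial.X ^ 3 + Polynomial.X ^ 2 - 2 * Polynomial.X - 1, ?_, ?_⟩
    · monicity!
    · simpa using hu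
  set U : 𝓞 K := ⟨u, hint⟩ with hUdef
  have hUc : algebraMap (𝓞 K) K U = u := rfl
  have hU : U ^ 3 + U ^ 2 - 2 * U - 1 = 0 := by
    apply FaithfulSMul.algebraMap_injective (𝓞 K) K
    rw [map_sub, map_sub, map_add, map_pow, map_pow, map_mul, map_ofNat, map_one, map_zero, hUc]
    exact hu
  have m1 : U * (U ^ 2 + U - 2) = 1 := by linear_combination hU
  have m2 : (1 + U) * (2 - U ^ 2) = 1 := by linear_combination -hU
  set x : (𝓞 K)ˣ := Units.mkOfMulEqOne U _ m1 with hx
  set y : (𝓞 K)ˣ := Units.mkOfMulEqOne (1 + U) _ m2 with hy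
  have hxv : ((x : 𝓞 K) : K) = u := rfl
  have hyv : ((y : 𝓞 K) : K) = 1 + u := by
    change algebraMap (𝓞 K) K (1 + U) = 1 + u
    rw [map_add, map_one, hUc]
  have hroot : ∀ f : K →+* ℝ, (f u) ^ 3 + (f u) ^ 2 - 2 * f u - 1 = 0 := by
    intro f
    have h := congrArg f hu
    have e2 : f 2 = 2 := map_ofNat f 2
    rw [map_sub, map_sub, map_add, map_pow, map_pow, map_mul, e2, map_one, map_zero] at h
    exact h
  obtain ⟨r1, r2⟩ := roots (hroot f2) (hroot f1) (hroot f0) h2 h1 h0
  have h2' : f2 u < 0 := h2.trans h1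
  have key := main ![f0, f1, f2] h3 x y
    (by
      intro j
      fin_cases j
      · exact chi_pos (by rw [hxv]; exact h0)
      · exact chi_neg (by rw [hxv]; exact h1)
      · exact chi_neg (by rw [hxv]; exact h2'))
    (by
      intro j
      fin_cases j
      · exact chi_pos (by rw [hyv, map_add, map_one]; simp; linarith)
      · exact chi_pos (by rw [hyv, map_add, map_one]; simp; linarith)
      · exact chi_neg (by rw [hyv, map_add, map_one]; simp; linarith))
  refine ⟨fun p0 p1 p2 => ?_, fun p0 p1 p2 => ?_⟩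
  · obtain ⟨ε, hε⟩ := key η (by
      intro j
      fin_cases j
      · exact chi_pos p0
      · exact chi_pos p1
      · exact chi_pos p2)
    refine ⟨ε, ?_⟩
    rw [hε]
    simp
  · have hmul : ∀ f : K →+* ℝ, f (((η * x : (𝓞 K)ˣ) : 𝓞 K) : K) = f ((η : 𝓞 K) : K) * f u := by
      intro f
      rw [← map_mul]
      rfl
    obtain ⟨ε, hε⟩ := key (η * x) (by
      intro j
      fin_cases j
      · exact chi_pos (by simp only; rw [hmul]; exact mul_pos p0 h0)
      · exact chi_pos (by simp only; rw [hmul]; exact mul_pos_of_neg_of_neg p1 h1)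
      · exact chi_pos (by simp only; rw [hmul]; exact mul_pos_of_neg_of_neg p2 h2'))
    refine ⟨ε * x⁻¹, ?_⟩
    have h4 : η = x * (ε * x⁻¹) ^ 2 := by
      rw [mul_pow, ← hε, inv_pow, pow_two x]
      have e : x * (η * x * (x * x)⁻¹) = η * ((x * x) * (x * x)⁻¹) := by ac_rfl
      rw [e, mul_inv_cancel, mul_one]
    have h5 := congrArg (fun z : (𝓞 K)ˣ => ((z : 𝓞 K) : K)) h4
    rw [← hxv]
    refine h5.trans ?_
    rw [← map_pow, ← map_mul]
    rfl

end Pool.Agent.UPre
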